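import Pool.Agent.MP_a88b1d_nt.H93.Spec3
import Pool.Agent.MP_a88b1d_nt.H5.Exc

/-! Extension of characters of norm one, and existence of the completed algebraic closure. -/

namespace Pool.Agent.MP_a88b1d_nt.RBAER

open Pool.Agent.MP_a88b1d_nt.St2 Pool.Agent.MP_a88b1d_nt.P2

/-- Units of norm one. -/
def nOne (K : Type) [NormedField K] : Subgroup Kˣ where
  carrier := {u | ‖(u : K)‖ = 1}
  one_mem' := by simp
  mul_mem' {a b} ha hb := by
    have ha' : ‖(a : K)‖ = 1 := ha
    have hb' : ‖(b : K)‖ = 1 := hb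
    change ‖((a * b : Kˣ) : K)‖ = 1
    rw [Units.val_mul, norm_mul, ha', hb', one_mul]
  inv_mem' {a} ha := by
    have ha' : ‖(a : K)‖ = 1 := ha
    change ‖((a⁻¹ : Kˣ) : K)‖ = 1
    rw [Units.val_inv_eq_inv_val, norm_inv, ha', inv_one]

theorem root {K : Type} [NormedField K] [IsAlgClosed K] (u : nOne K) {k : ℕ} (hk : 0 < k) :
    ∃ v : nOne K, v ^ k = u := by
  obtain ⟨z, hz⟩ := IsAlgClosed.exists_pow_nat_eq (u.1 : K) hk
  have h1 : ‖z‖ = 1 := by
    have h2 : ‖z‖ ^ k = 1 := by rw [← norm_pow, hz]; exact u.2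
    exact (pow_eq_one_iff_of_nonneg (norm_nonneg z) hk.ne').mp h2
  have hz0 : z ≠ 0 := by
    rintro rfl
    simp at h1
  exact ⟨⟨Units.mk0 z hz0, h1⟩, Subtype.ext (Units.ext (by simpa using hz))⟩

theorem extend {K : Type} [NormedField K] [IsAlgClosed K] {A : Type} [CommGroup A]
    (S : Subgroup A) (f : S →* nOne K) : ∃ F : A →* nOne K, ∀ s : S, F s = f s := by
  have hdiv : ∀ {n : ℤ}, n ≠ 0 →
      Function.Surjective (fun a => n • a : Additive (nOne K) → Additive (nOne K)) := by
    intro n hn u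
    obtain ⟨v, hv⟩ := root (Additive.toMul u) (Int.natAbs_pos.2 hn)
    rcases Int.natAbs_eq n with h | h
    · refine ⟨Additive.ofMul v, ?_⟩
      show n • Additive.ofMul v = u
      rw [h, ← ofMul_zpow, zpow_natCast, hv]; rfl
    · refine ⟨Additive.ofMul v⁻¹, ?_⟩
      show n • Additive.ofMul v⁻¹ = u
      rw [h, ← ofMul_zpow, inv_zpow', neg_neg, zpow_natCast, hv]; rfl
  let : DivisibleBy (Additive (nOne K)) ℤ := divisibleByOfSMulRightSurj _ _ hdiv
  have hinj : Function.Injective (MonoidHom.toAdditive S.subtype) := fun x y hxy =>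
    Additive.toMul.injective (Subtype.ext (congrArg Additive.toMul hxy))
  obtain ⟨h, hh⟩ := (Module.Baer.of_divisible (Additive (nOne K))).extension_property_addMonoidHom
    (MonoidHom.toAdditive S.subtype) hinj (MonoidHom.toAdditive f)
  exact ⟨MonoidHom.toAdditive.symm h, fun s =>
    congrArg Additive.toMul (DFunLike.congr_fun hh (Additive.ofMul s))⟩

theorem row1 : BAER := by
  intro K _ _ G _ ι _ H _ D X lam h1 hk
  classical
  let e : ∀ i, H i →* (X i → Kˣ) := fun i => MonoidHom.pi fun ψ => ψ.1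
  let φ : G →* ∀ i, X i → Kˣ := MonoidHom.pi fun i => (e i).comp (D i)
  let lam' : G →* nOne K := lam.codRestrict _ h1
  have hker : φ.rangeRestrict.ker ≤ lam'.ker := by
    intro g hg
    have h2 : φ g = 1 := congrArg Subtype.val hg
    exact Subtype.ext (hk g fun i χ hχ => congrFun (congrFun h2 i) ⟨χ, hχ⟩)
  obtain ⟨F, hF⟩ := extend φ.range
    (φ.rangeRestrict.liftOfSurjective φ.rangeRestrict_surjective ⟨lam', hker⟩)
  refine ⟨fun i => (nOne K).subtype.comp (F.comp
    ((MonoidHom.mulSingle (fun i => X i → Kˣ) i).comp (e i))), fun i b => (F _).2,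
    fun i b hb => ?_, fun g => ?_⟩
  · have : e i b = 1 := funext fun ψ => hb ψ.1 ψ.2
    simp [this]
  · have h2 := hF (φ.rangeRestrict g)
    rw [MonoidHom.liftOfRightInverse_comp_apply] at h2
    have h3 : lam g = (nOne K).subtype (F (φ g)) := congrArg Subtype.val h2.symm
    rw [h3, ← Finset.univ_prod_mulSingle (φ g), map_prod, map_prod]
    rfl

theorem row2 : EXC := by
  obtain ⟨C1, _, _, _, _, _, T, hT⟩ := H5.exC
  let k : Subfield C1 := Subfield.closure {T}
  let L : IntermediateField k C1 := algebraicClosure k C1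
  have : IsAlgClosed L := IsAlgClosure.isAlgClosed k
  let C : Subfield C1 := L.toSubfield.topologicalClosure
  have hLC : L.toSubfield ≤ C := Subfield.le_topologicalClosure _
  have hkL : ∀ a : k, (a : C1) ∈ L := fun a => L.algebraMap_mem a
  have hTk : T ∈ k := Subfield.subset_closure rfl
  let T' : C := ⟨T, hLC (hkL ⟨T, hTk⟩)⟩
  have hT' : 1 < ‖T'‖ := hT
  let _ : NontriviallyNormedField C := ⟨T', hT'⟩
  have : CompleteSpace C := (Subfield.isClosed_topologicalClosure _).completeSpace_coe
  have : IsUltrametricDist C := ⟨fun x y z => IsUltrametricDist.dist_triangle_max x.1 y.1 z.1⟩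
  have : CharP C1 2 := charP_of_injective_algebraMap (algebraMap (ZMod 2) C1).injective 2
  have : CharP C 2 := C.subtype.charP Subtype.val_injective 2
  let g : L →+* C := Subfield.inclusion hLC
  let _ : Algebra L C := g.toAlgebra
  have hd : DenseRange g := by
    rw [DenseRange, Subtype.dense_iff]
    intro x hx
    refine closure_mono ?_ hx
    intro y hy
    exact ⟨_, ⟨⟨y, hy⟩, rfl⟩, rfl⟩
  have hmem : ∀ a : k, g ⟨a, hkL a⟩ ∈ Finf T' := by
    intro a
    have h1 : (a : C1) ∈ (Subfield.closure {T'}).map C.subtype := by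
      rw [RingHom.map_field_closure, Set.image_singleton]
      exact a.2
    obtain ⟨b, hb, hb'⟩ := h1
    have : g ⟨a, hkL a⟩ = b := Subtype.ext hb'.symm
    rw [this]
    exact Subfield.le_topologicalClosure _ hb
  refine ⟨C, inferInstance, inferInstance, inferInstance, H5.algClosed_of_dense (K := L) hd,
    ZMod.algebra C 2, T', hT', hd.mono ?_⟩
  rintro _ ⟨x, rfl⟩
  exact (Algebra.IsAlgebraic.isAlgebraic (R := k) x).ringHom_of_comp_eq
    ((g.comp (algebraMap k L)).codRestrict (Finf T') hmem) g (RingHom.injective _) rfl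

end Pool.Agent.MP_a88b1d_nt.RBAER
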