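import Pool.Agent.MP_a88b1d_nt.H93.Spec3

/-! Divisors of functions with multipliers have degree zero; Jacobi inversion. -/

open Polynomial OnePoint Filter Topology

namespace Pool.Agent.MP_a88b1d_nt.RDEG

open Pool.Agent.MP_a88b1d_nt.St2 Pool.Agent.MP_a88b1d_nt.P2
open Pool.Agent.MP_a88b1d_nt.H42 (A M2 MK nrm dd st rG r0 vv QQ den Orth)

variable {C : Type} [NontriviallyNormedField C]

theorem far_notin {T z : C} {r : ℝ} (hr : 0 < r) (h : Far T r z) : z ∉ Finf T := fun hz => by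
  have := h z hz
  rw [sub_self, norm_zero] at this
  exact absurd this (not_le.2 hr)

theorem far_near [IsUltrametricDist C] {T z w : C} {r : ℝ} (h : Far T r z) (hw : ‖w - z‖ < r) :
    Far T r w := fun x hx => by
  have h1 := h x hx
  have h2 : ‖z - x‖ ≤ max ‖z - w‖ ‖w - x‖ := by
    have := IsUltrametricDist.norm_add_le_max (z - w) (w - x)
    rwa [sub_add_sub_cancel] at this
  rw [norm_sub_rev] at hw
  rcases le_max_iff.1 (h1.trans h2) with h3 | h3
  · exact absurd h3 (not_le.2 hw)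
  · exact h3

variable [DecidableEq C]

theorem exists_deg (T : C) (Γ : Subgroup (GL (Fin 2) C)) (K : Set (GL (Fin 2) C))
    {w : OnePoint C} (hw : w ∈ Pts T K) {D : OnePoint C → ℤ} (hD : D ∈ Dv T Γ K) :
    ∃ d : ℤ, D - d • pt Γ w ∈ Div0 T Γ K := by
  induction hD using AddSubgroup.closure_induction with
  | mem D hD =>
    obtain ⟨x, hx, rfl⟩ := hD
    exact ⟨1, AddSubgroup.subset_closure ⟨x, hx, w, hw, by rw [one_smul]; rfl⟩⟩
  | zero => exact ⟨0, by rw [zero_smul, sub_zero]; exact zero_mem _⟩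
  | add D E _ _ h1 h2 =>
    obtain ⟨d, h1⟩ := h1
    obtain ⟨e, h2⟩ := h2
    exact ⟨d + e, by rw [add_smul, add_sub_add_comm]; exact add_mem h1 h2⟩
  | neg D _ h1 =>
    obtain ⟨d, h1⟩ := h1
    exact ⟨-d, by rw [neg_smul, ← neg_sub']; exact neg_mem h1⟩

theorem pt_ne {Γ : Subgroup (GL (Fin 2) C)} {x y : OnePoint C} (h : pt Γ x y ≠ 0) :
    pt Γ x y = 1 ∧ ∃ g ∈ Γ, g • x = y := by
  have hm : y ∈ {t | ∃ g ∈ Γ, g • x = t} := Set.mem_of_indicator_ne_zero h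
  exact ⟨Set.indicator_of_mem hm _, hm⟩

theorem pt_self (Γ : Subgroup (GL (Fin 2) C)) (x : OnePoint C) : pt Γ x x = 1 :=
  Set.indicator_of_mem (show x ∈ {t | ∃ g ∈ Γ, g • x = t} from ⟨1, one_mem _, one_smul _ _⟩) _

theorem row : OfDEG := by
  intro C _ _ _ _ _ _ T hT L mo di mf no th pf Γ K χ f D hc hD M
  have hS := di.case Γ K hc
  obtain ⟨w0, z0, -, ho, -⟩ := L.orth.ex
  have hw0 : w0 ∉ Finf T := (L.orth.adm z0 w0 ho).2.1
  have aux : ∀ (d : ℤ) χ f, 0 ≤ d → MF T Γ K χ f (d • pt Γ w0) → d = 0 := by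
    intro d χ f hd M
    obtain ⟨f', M', S⟩ := no.strict Γ K χ f _ hS M
    obtain ⟨l, -, -, -, h0, -⟩ := pf Γ K χ f' _ z0 w0 hS.disc hc ho M' S
      (fun γ hγ => by
        by_contra hne
        rw [Pi.smul_apply, smul_eq_mul] at hne
        obtain ⟨-, g, hg, hgw⟩ := pt_ne (right_ne_zero_of_mul hne)
        rw [mo.smul g (hS.disc.mem g hg) w0 hw0] at hgw
        exact di.notcusp γ (hS.cusp γ hγ) _
          (L.mb.om (glMK T g (hS.disc.mem g hg)) w0 hw0) hgw.symm)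
      (fun a _ hne => by
        have hne' := hne
        rw [eD, Pi.smul_apply, smul_eq_mul] at hne'
        obtain ⟨h1, g, hg, hgw⟩ := pt_ne (right_ne_zero_of_mul (right_ne_zero_of_mul hne'))
        rw [mo.smul g (hS.disc.mem g hg) w0 hw0] at hgw
        refine ⟨lt_of_le_of_ne ?_ hne.symm, g, hg, (OnePoint.coe_injective hgw).symm⟩
        rw [eD, Pi.smul_apply, smul_eq_mul, h1, mul_one]
        exact mul_nonneg (Int.natCast_nonneg _) hd)
    rw [eD, Pi.smul_apply, smul_eq_mul, pt_self, mul_one] at h0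
    have := di.stabfin Γ hS.disc w0 hw0
    exact (mul_eq_zero.1 h0).resolve_left (Int.natCast_ne_zero.2 Nat.card_pos.ne')
  obtain ⟨d, hd⟩ := exists_deg T Γ K (w := w0) (Or.inl ⟨w0, hw0, rfl⟩) hD
  obtain ⟨χ', f', M'⟩ := th.div0 Γ K hS _ hd
  have M1 := mf.mul Γ K _ _ _ _ _ _ hS M (mf.inv Γ K _ _ _ hS M')
  rw [neg_sub, add_sub_cancel] at M1
  have h0 : d = 0 := by
    rcases le_total 0 d with h | h
    · exact aux d _ _ h M1
    · have M2 := mf.inv Γ K _ _ _ hS M1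
      rw [← neg_smul] at M2
      exact neg_eq_zero.1 (aux (-d) _ _ (neg_nonneg.2 h) M2)
  rwa [h0, zero_smul, sub_zero] at hd

theorem row2 : OfJAC := by
  intro C _ _ _ _ _ _ T hT L fy h1 h2 h3 mo di re ei ps fi de
  have hT0 : 0 < ‖T‖ := one_pos.trans hT
  have quot : ∀ (P Q : C → C) (e e' : C → ℤ), HasDiv T P e → HasDiv T Q e' →
      HasDiv T (fun z => P z * (Q z)⁻¹) fun z => e z + -e' z :=
    fun P Q e e' hP hQ n => h1.mul n _ _ _ _ (hP n) (h1.inv n _ _ (hQ n))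
  refine ⟨fun m hm χ hχ hst => ?_, fun Γ h hc χ m hχ hst => ?_⟩
  · have hS := di.set0 m
    obtain ⟨w, hw, -⟩ := fy.avoid ∅
    have hfar : Far T ‖T‖ (T * w) := fun x hx => by
      rw [sub_eq_add_neg, fy.gen w hw T fy.memT (-x) (neg_mem hx)]
      exact le_max_left _ _
    have mer : ∀ E : C → C, (∀ n, HolOn (Om T n) E) →
        (∀ γ ∈ GA T, ∀ z, Far T ‖T‖ z → ‖E (mob γ.1 z)‖ = ‖den γ.1 z‖) → ∃ e, HasDiv T E e := by
      intro E hE hn
      refine h2.mer E (T * w) (far_notin hT0 hfar) fun n =>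
        ⟨E, 1, one_ne_zero, hE n, fun _ h0 => ?_, fun z _ _ => by simp⟩
      have := hn 1 (one_mem _) _ hfar
      rw [Units.val_one, L.mb.one, h0] at this
      simp [den] at this
    obtain ⟨E1, a1, b1, c1⟩ := ei (Gam0 m) χ hχ
    obtain ⟨E0, a0, b0, c0⟩ := ei (Gam0 m) 1 fun g => by simp
    obtain ⟨e1, d1⟩ := mer E1 a1 c1
    obtain ⟨e0, d0⟩ := mer E0 a0 c0
    have hdiv := quot E1 E0 e1 e0 d1 d0
    have hone : ∀ γ ∈ GA T, ∀ z, Far T ‖T‖ z → ‖E1 (mob γ.1 z) * (E0 (mob γ.1 z))⁻¹‖ = 1 := by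
      intro γ hγ z hz
      rw [norm_mul, norm_inv, c1 γ hγ z hz, c0 γ hγ z hz]
      exact mul_inv_cancel₀ (norm_ne_zero_iff.2
        (L.mb.den_ne (glMK T γ (di.ga.mem γ hγ)) z (far_notin hT0 hz)))
    obtain ⟨s, hs⟩ := re.idx m hm
    choose N hN using fun γ : GL (Fin 2) A => mo.maps' (rG T γ) 6
    obtain ⟨D, hD, M⟩ := fi (G0 T m) (GA T) χ _ _ hS hdiv
      (fun g z hz => by
        have hd : den g.1.1 z ≠ 0 := L.mb.den_ne (glMK T g.1 (hS.disc.mem g.1 g.2)) z hz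
        rw [b1 g z hz, b0 g z hz, MonoidHom.one_apply, Units.val_one, one_mul, mul_inv,
          mul_assoc, mul_assoc, ← mul_assoc (den _ _), ← mul_assoc _ (den _ _)⁻¹,
          mul_right_comm (den _ _), mul_inv_cancel₀ hd, one_mul])
      hst
      (fun γ hγ => ⟨‖T‖, 1, 1, one_pos, fun z hz => by
        rw [zpow_zero, mul_one, hone γ hγ z hz]
        exact ⟨le_rfl, le_rfl⟩⟩)
      ⟨s.sup N, fun z hz hne => by
        obtain ⟨γ, hγ, z', hz', rfl, hc⟩ := re.red z hz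
        rcases hc with hc | hc
        · refine absurd ?_ hne
          obtain ⟨n, hn⟩ := fy.exh z' hz'
          have ho := h2.ord n _ _ (h3.comp (glMK T γ (di.ga.mem γ hγ)) _ _ hdiv n) z' hn
          refine h2.zero _ z' _ 1 1 ho one_pos ?_
          have hb : ∀ᶠ w in 𝓝 z', ‖w - z'‖ < ‖T‖ := by
            filter_upwards [Metric.ball_mem_nhds z' hT0] with w hw
            exact mem_ball_iff_norm.1 hw
          filter_upwards [hb.filter_mono nhdsWithin_le_nhds] with w hw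
          have := hone γ hγ w (far_near hc hw)
          exact ⟨this.ge, this.le⟩
        · obtain ⟨γ0, rfl⟩ := hγ
          obtain ⟨g, hg, γ', hγ', rfl⟩ := hs γ0
          refine ⟨ev T g⁻¹, Subgroup.mem_map_of_mem _ (inv_mem hg), ?_⟩
          rw [← L.rg, ← L.rg, ← L.mb.mul _ _ z' hz', ← map_mul, inv_mul_cancel_left]
          exact fy.mono _ _ (Finset.le_sup hγ') (hN γ' z' hc)⟩
    exact ⟨_, D, de _ _ _ _ _ (Or.inr ⟨m, hm, rfl, rfl⟩) hD M, M⟩
  · obtain ⟨P1, e1, d1, b1⟩ := ps Γ h χ m hχ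
    obtain ⟨P0, e0, d0, b0⟩ := ps Γ h 1 m fun g => by
      rw [MonoidHom.one_apply, Units.val_one, norm_one]
      exact one_le_pow₀ (mo.one_le _ (h.det g.1 g.2))
    obtain ⟨N, hN⟩ := re.coc Γ h hc
    obtain ⟨D, hD, M⟩ := fi Γ ∅ χ _ _ (di.setD Γ h) (quot P1 P0 e1 e0 d1 d0)
      (fun g z hz => by
        have hd : den g.1.1 z ^ (m + 1) ≠ 0 :=
          pow_ne_zero _ (L.mb.den_ne (glMK T g.1 (h.mem g.1 g.2)) z hz)
        rw [b1 g z hz, b0 g z hz, MonoidHom.one_apply, Units.val_one, one_mul, mul_inv,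
          mul_assoc, mul_assoc, ← mul_assoc (den _ _ ^ _), ← mul_assoc _ (den _ _ ^ _)⁻¹,
          mul_right_comm (den _ _ ^ _), mul_inv_cancel₀ hd, one_mul])
      hst (fun γ hγ => absurd hγ (Set.notMem_empty γ)) ⟨N, fun z hz _ => hN z hz⟩
    exact ⟨_, D, de _ _ _ _ _ (Or.inl ⟨rfl, h, hc⟩) hD M, M⟩

end Pool.Agent.MP_a88b1d_nt.RDEG
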