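import Pool.Agent.MP_a88b1d_nt.H93.Spec3
import Pool.Agent.MP_a88b1d_nt.H50.Tree
import Pool.Agent.MP_a88b1d_nt.H94.Pm
import Pool.Agent.MP_a88b1d_nt.H14.Gendg

/-! Row DISC: discrete groups of matrices over `F_∞`. -/

open Polynomial OnePoint Filter Topology

noncomputable section

namespace Pool.Agent.MP_a88b1d_nt.RDISC

open Pool.Agent.MP_a88b1d_nt.St2 Pool.Agent.MP_a88b1d_nt.P2
open Pool.Agent.MP_a88b1d_nt.H42 (A M2 MK nrm dd rG QQ den Good Proper)

variable {C : Type} [NontriviallyNormedField C] [IsUltrametricDist C] [Algebra (ZMod 2) C]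
  [DecidableEq C] {T : C}

omit [IsUltrametricDist C] [DecidableEq C] in
theorem dd_one (L : LIB T) (g : MK T) (hg : g.1.det = 1) : ‖T‖ ^ dd T 1 g = nrm g.1 ^ 2 := by
  have h := L.tree.spec 1 g
  have e : ((1 : MK T) : M2 C) = 1 := rfl
  rw [e, hg, Matrix.det_one, Matrix.adjugate_one, one_mul, norm_one, mul_one, mul_one] at h
  exact h

omit [IsUltrametricDist C] [DecidableEq C] in
theorem good (hT : 1 < ‖T‖) (L : LIB T) (Γ : Subgroup (GL (Fin 2) C)) (h : Disc T Γ) :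
    Good (toMK h) := by
  refine ⟨fun g => h.det g.1 g.2, fun R => (h.fin (‖T‖ ^ R)).subset fun g hg => ?_⟩
  have h1 := dd_one L (toMK h g) (h.det g.1 g.2)
  have h2 : ‖T‖ ^ dd T 1 (toMK h g) ≤ ‖T‖ ^ R := pow_le_pow_right₀ hT.le hg
  have h3 : (1 : ℝ) ≤ ‖T‖ ^ R := one_le_pow₀ hT.le
  rw [h1, toMK_val] at h2
  show nrm g.1.1 ≤ ‖T‖ ^ R
  exact (pow_le_pow_iff_left₀ (H50.nrm_nonneg _) (by positivity) two_ne_zero).1 (by nlinarith)

omit [IsUltrametricDist C] [DecidableEq C] in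
theorem ofgood (hT : 1 < ‖T‖) (L : LIB T) (G : Type) [Group G] (ρ : G →* MK T)
    (Γ : Subgroup (GL (Fin 2) C)) (hρ : Good ρ) (h : ∀ g ∈ Γ, ∃ a, (ρ a).1 = g.1) : Disc T Γ := by
  refine ⟨fun g hg i j => ?_, fun g hg => ?_, fun R => ?_⟩
  · obtain ⟨a, ha⟩ := h g hg
    rw [← ha]; exact (ρ a).2.1 i j
  · obtain ⟨a, ha⟩ := h g hg
    rw [← ha]; exact hρ.1 a
  · obtain ⟨n, hn⟩ := pow_unbounded_of_one_lt (R ^ 2) hT
    refine (((hρ.2 n).image fun a => (ρ a).1).preimage (f := fun g : Γ => g.1.1)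
      fun g _ g' _ e => Subtype.ext (Units.ext e)).subset fun g hg => ?_
    obtain ⟨a, ha⟩ := h g.1 g.2
    refine ⟨a, ?_, ha⟩
    have h1 := dd_one L (ρ a) (hρ.1 a)
    have h2 : nrm g.1.1 ≤ R := hg
    have h3 : nrm g.1.1 ^ 2 ≤ R ^ 2 := pow_le_pow_left₀ (H50.nrm_nonneg _) h2 2
    rw [ha] at h1
    exact ((pow_lt_pow_iff_right₀ hT).1 (h1 ▸ h3.trans_lt hn)).le

omit [IsUltrametricDist C] [DecidableEq C] in
theorem ev_val (g : GL (Fin 2) A) (i j : Fin 2) : (ev T g).1 i j = aeval T (g.1 i j) := rfl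

omit [IsUltrametricDist C] [DecidableEq C] in
theorem aeval_zero (hT : 1 < ‖T‖) (L : LIB T) {f : A} (h : aeval T f = 0) : f = 0 := by
  by_contra hf
  have h1 := L.lt.ev f hf
  rw [h, norm_zero] at h1
  have : (0 : ℝ) < ‖T‖ ^ f.natDegree := by positivity
  linarith

omit [IsUltrametricDist C] [DecidableEq C] in
theorem evinj (hT : 1 < ‖T‖) (L : LIB T) : Function.Injective (ev T) := by
  intro g g' h
  refine Units.ext (Matrix.ext fun i j => sub_eq_zero.1 (aeval_zero hT L ?_))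
  rw [map_sub, ← ev_val, ← ev_val, h, sub_self]

omit [IsUltrametricDist C] [DecidableEq C] in
theorem ga (hT : 1 < ‖T‖) (L : LIB T) : Disc T (GA T) :=
  ofgood hT L _ (rG T) _ L.pm.goodG (by rintro _ ⟨a, rfl⟩; exact ⟨a, L.rg a⟩)

omit [IsUltrametricDist C] [Algebra (ZMod 2) C] [DecidableEq C] in
theorem sub (Γ Γ' : Subgroup (GL (Fin 2) C)) (hle : Γ ≤ Γ') (h : Disc T Γ') : Disc T Γ :=
  ⟨fun g hg => h.mem g (hle hg), fun g hg => h.det g (hle hg), fun R =>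
    (h.fin R).preimage (f := Subgroup.inclusion hle) (Subgroup.inclusion_injective hle).injOn⟩

omit [IsUltrametricDist C] [DecidableEq C] in
theorem set0 (hT : 1 < ‖T‖) (L : LIB T) (m : A) : Setup T (G0 T m) (GA T) :=
  ⟨sub _ _ (Subgroup.map_le_range _ _) (ga hT L), fun _ h => h,
    fun _ => Subgroup.map_le_range _ _,
    fun _ hg _ hγ => (GA T).mul_mem (Subgroup.map_le_range _ _ hg) hγ⟩

omit [IsUltrametricDist C] [DecidableEq C] in
theorem setD (Γ : Subgroup (GL (Fin 2) C)) (h : Disc T Γ) : Setup T Γ ∅ :=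
  ⟨h, fun _ h => h.elim, fun h => absurd h Set.not_nonempty_empty, fun _ _ _ h => h.elim⟩

omit [IsUltrametricDist C] in
theorem nrm_le (hT : 1 < ‖T‖) (L : LIB T) (F : FY T) (M : MOBN T) {Γ : Subgroup (GL (Fin 2) C)}
    (h : Disc T Γ) (g : Γ) {n : ℕ} {w : C} (hw : w ∈ Om T n) (hg : mob g.1.1 w ∈ Om T n) :
    nrm g.1.1 ≤ ‖T‖ ^ (4 * n) := by
  by_contra hc
  have h1 := M.ql (toMK h g) n (h.det g.1 g.2) (not_le.1 hc) _ hg w hw
  rw [L.mb.qq (toMK h g) _ w (F.notin n w hw), toMK_val, sub_self, mul_zero, norm_zero,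
    mul_zero] at h1
  have : (0 : ℝ) < ‖T‖ ^ (4 * n) := by positivity
  exact hc (h1.trans this.le)

omit [IsUltrametricDist C] in
theorem orbfin (hT : 1 < ‖T‖) (L : LIB T) (F : FY T) (M : MOBN T) (Γ : Subgroup (GL (Fin 2) C))
    (h : Disc T Γ) (w : C) (hw : w ∉ Finf T) (n : ℕ) :
    {g : Γ | mob g.1.1 w ∈ Om T n}.Finite := by
  obtain ⟨k, hk⟩ := F.exh w hw
  exact (h.fin (‖T‖ ^ (4 * max n k))).subset fun g hg =>
    nrm_le hT L F M h g (F.mono _ _ (le_max_right _ _) hk) (F.mono _ _ (le_max_left _ _) hg)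

omit [IsUltrametricDist C] in
theorem stabfin (hT : 1 < ‖T‖) (L : LIB T) (F : FY T) (M : MOBN T) (Γ : Subgroup (GL (Fin 2) C))
    (h : Disc T Γ) (z : C) (hz : z ∉ Finf T) :
    (MulAction.stabilizer Γ (z : OnePoint C) : Set Γ).Finite := by
  obtain ⟨n, hn⟩ := F.exh z hz
  refine (orbfin hT L F M Γ h z hz n).subset fun g hg => ?_
  have h1 : g.1 • (z : OnePoint C) = z := hg
  rw [M.smul g.1 (h.mem g.1 g.2) z hz, OnePoint.coe_eq_coe] at h1
  show mob g.1.1 z ∈ Om T n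
  rwa [h1]

omit [IsUltrametricDist C] [DecidableEq C] in
theorem fixfin (g : GL (Fin 2) C) (hd : g.1.det = 1) (hg : g ≠ 1) :
    {z | QQ g.1 z z = 0}.Finite := by
  set P : C[X] := Polynomial.C (g.1 1 0) * X ^ 2 + Polynomial.C (g.1 1 1 - g.1 0 0) * X +
    Polynomial.C (-g.1 0 1) with hP
  have h0 : P ≠ 0 := by
    intro h
    have c0 := congrArg (fun p : C[X] => p.coeff 0) h
    have c1 := congrArg (fun p : C[X] => p.coeff 1) h
    have c2 := congrArg (fun p : C[X] => p.coeff 2) h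
    simp only [hP, coeff_add, coeff_C_mul, coeff_X_pow, coeff_X, coeff_C, coeff_zero] at c0 c1 c2
    norm_num at c0 c1 c2
    rw [Matrix.det_fin_two, c0, sub_eq_zero.1 c1] at hd
    have h2 := H42.add_self_C (g.1 0 0)
    have h3 := H42.add_self_C (1 : C)
    have h4 : (g.1 0 0 - 1) ^ 2 = 0 := by linear_combination hd - h2 + h3
    have h5 : g.1 0 0 = 1 := sub_eq_zero.1 (pow_eq_zero_iff two_ne_zero |>.1 h4)
    refine hg (Units.ext (Matrix.ext fun i j => ?_))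
    fin_cases i <;> fin_cases j <;> simp [c0, c2, sub_eq_zero.1 c1, h5]
  refine (Polynomial.finite_setOf_isRoot h0).subset fun z hz => ?_
  have h1 : QQ g.1 z z = 0 := hz
  simp only [Set.mem_ofPred_eq, IsRoot.def, hP, eval_add, eval_mul, eval_C, eval_pow, eval_X]
  unfold QQ at h1
  linear_combination h1

omit [IsUltrametricDist C] in
theorem free (hT : 1 < ‖T‖) (L : LIB T) (F : FY T) (M : MOBN T) (Γ : Subgroup (GL (Fin 2) C))
    (h : Disc T Γ) : ∃ w, Gen w ∧ ∀ g : Γ, mob g.1.1 w = w → g = 1 := by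
  have hf : (⋃ g ∈ {g : Γ | nrm g.1.1 ≤ ‖T‖ ^ (4 * 0)} ∩ {g | g ≠ 1},
      {z | QQ g.1.1 z z = 0}).Finite :=
    ((h.fin _).inter_of_left _).biUnion fun g hg =>
      fixfin g.1 (h.det g.1 g.2) fun e => hg.2 (Subtype.ext e)
  obtain ⟨w, hw, hs⟩ := F.avoid hf.toFinset
  refine ⟨w, hw, fun g hg => ?_⟩
  by_contra h1
  have h0 := F.gen_om w hw
  have h2 := nrm_le hT L F M h g h0 (by rwa [hg])
  have h3 : QQ g.1.1 w w = 0 := by
    have := L.mb.qq (toMK h g) w w (F.notin 0 w h0)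
    rwa [toMK_val, hg, sub_self, mul_zero] at this
  have h4 := hs w (hf.mem_toFinset.2 (Set.mem_biUnion (x := g) ⟨h2, h1⟩ h3))
  rw [sub_self, norm_zero] at h4
  linarith

omit [IsUltrametricDist C] in
theorem orbOm (hT : 1 < ‖T‖) (L : LIB T) (F : FY T) (M : MOBN T) (Γ : Subgroup (GL (Fin 2) C))
    (h : Disc T Γ) (x : OnePoint C) :
    {z | z ∈ Om T 0 ∧ ∃ g ∈ Γ, g • x = (z : OnePoint C)}.Finite := by
  rcases Set.eq_empty_or_nonempty {z | z ∈ Om T 0 ∧ ∃ g ∈ Γ, g • x = (z : OnePoint C)} with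
    e | ⟨z, hz, g, hg, e⟩
  · rw [e]; exact Set.finite_empty
  obtain ⟨w, hw, rfl⟩ := M.back g (h.mem g hg) x z (F.notin 0 z hz) e
  refine ((orbfin hT L F M Γ h w hw 0).image fun g => mob g.1.1 w).subset ?_
  rintro z' ⟨hz', g', hg', e'⟩
  rw [M.smul g' (h.mem g' hg') w hw, OnePoint.coe_eq_coe] at e'
  exact ⟨⟨g', hg'⟩, by show mob g'.1 w ∈ Om T 0; rwa [e'], e'⟩

omit [IsUltrametricDist C] in
theorem base (hT : 1 < ‖T‖) (L : LIB T) (F : FY T) (M : MOBN T) (Γ : Subgroup (GL (Fin 2) C))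
    (h : Disc T Γ) (x y : OnePoint C) : ∃ z ∉ Finf T, pt Γ x z = 0 ∧ pt Γ y z = 0 := by
  have hf := (orbOm hT L F M Γ h x).union (orbOm hT L F M Γ h y)
  obtain ⟨w, hw, hs⟩ := F.avoid hf.toFinset
  have h0 := F.gen_om w hw
  have h1 : w ∉ hf.toFinset := fun hh => by
    have h4 := hs w hh
    rw [sub_self, norm_zero] at h4
    linarith
  rw [Set.Finite.mem_toFinset, Set.mem_union, not_or] at h1
  exact ⟨w, F.notin 0 w h0,
    Set.indicator_of_notMem (s := {t | ∃ g ∈ Γ, g • x = t}) (fun hh => h1.1 ⟨h0, hh⟩) _,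
    Set.indicator_of_notMem (s := {t | ∃ g ∈ Γ, g • y = t}) (fun hh => h1.2 ⟨h0, hh⟩) _⟩

omit [IsUltrametricDist C] in
open Classical in
theorem cnt (hT : 1 < ‖T‖) (L : LIB T) (F : FY T) (M : MOBN T) (Γ : Subgroup (GL (Fin 2) C))
    (h : Disc T Γ) (x : OnePoint C) (z : C) (hz : z ∉ Finf T) :
    ∑ᶠ g : Γ, (if (z : OnePoint C) = g.1 • x then (1 : ℤ) else 0) = eD Γ (pt Γ x) z := by
  unfold eD pt
  by_cases hx : ∃ g ∈ Γ, g • x = (z : OnePoint C)
  · rw [Set.indicator_of_mem (show (z : OnePoint C) ∈ {t | ∃ g ∈ Γ, g • x = t} from hx),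
      Pi.one_apply, mul_one]
    obtain ⟨g0, hg0, e⟩ := hx
    have hf := stabfin hT L F M Γ h z hz
    rw [← finsum_comp_equiv (Equiv.mulRight (⟨g0, hg0⟩ : Γ))]
    have e1 : ∀ g : Γ, ((z : OnePoint C) = (Equiv.mulRight (⟨g0, hg0⟩ : Γ) g).1 • x) ↔
        g ∈ hf.toFinset := by
      intro g
      rw [Set.Finite.mem_toFinset]
      show ((z : OnePoint C) = (g.1 * g0) • x) ↔ g.1 • (z : OnePoint C) = z
      rw [mul_smul, e, eq_comm]
    simp only [e1]
    rw [finsum_eq_sum_of_support_subset (s := hf.toFinset) _ fun g hg => by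
      by_contra hc
      exact hg (if_neg hc)]
    rw [Finset.sum_congr rfl fun g hg => if_pos hg, Finset.sum_const, nsmul_eq_mul, mul_one,
      ← Set.ncard_eq_toFinset_card _ hf, ← Nat.card_coe_set_eq]
    rfl
  · rw [Set.indicator_of_notMem (show (z : OnePoint C) ∉ {t | ∃ g ∈ Γ, g • x = t} from hx),
      mul_zero]
    exact finsum_eq_zero_of_forall_eq_zero fun g => if_neg fun e => hx ⟨g.1, g.2, e.symm⟩

omit [IsUltrametricDist C] [Algebra (ZMod 2) C] in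
theorem cardinv (Γ : Subgroup (GL (Fin 2) C)) (x : OnePoint C) (g : GL (Fin 2) C) (hg : g ∈ Γ) :
    Nat.card (MulAction.stabilizer Γ (g • x)) = Nat.card (MulAction.stabilizer Γ x) :=
  (Nat.card_congr (MulAction.stabilizerEquivStabilizer (G := Γ) (g := ⟨g, hg⟩) (a := x)
    (b := g • x) rfl).toEquiv).symm

omit [IsUltrametricDist C] [Algebra (ZMod 2) C] in
theorem ptinv (Γ : Subgroup (GL (Fin 2) C)) (x y : OnePoint C) (g : GL (Fin 2) C) (hg : g ∈ Γ) :
    pt Γ (g • x) = pt Γ x ∧ pt Γ x (g • y) = pt Γ x y := by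
  constructor
  · unfold pt
    congr 1
    ext t
    exact ⟨fun ⟨a, ha, e⟩ => ⟨a * g, Γ.mul_mem ha hg, by rw [mul_smul, e]⟩,
      fun ⟨a, ha, e⟩ => ⟨a * g⁻¹, Γ.mul_mem ha (Γ.inv_mem hg), by rw [mul_smul, inv_smul_smul, e]⟩⟩
  · unfold pt
    by_cases hy : y ∈ {t | ∃ g ∈ Γ, g • x = t}
    · obtain ⟨a, ha, e⟩ := id hy
      rw [Set.indicator_of_mem hy, Set.indicator_of_mem
        (show g • y ∈ {t | ∃ g ∈ Γ, g • x = t} from ⟨g * a, Γ.mul_mem hg ha, by rw [mul_smul, e]⟩)]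
      rfl
    · rw [Set.indicator_of_notMem hy, Set.indicator_of_notMem]
      rintro ⟨a, ha, e⟩
      exact hy ⟨g⁻¹ * a, Γ.mul_mem (Γ.inv_mem hg) ha, by rw [mul_smul, e, inv_smul_smul]⟩

omit [IsUltrametricDist C] in
theorem ptsinv (L : LIB T) (M : MOBN T) (Γ : Subgroup (GL (Fin 2) C)) (K : Set (GL (Fin 2) C))
    (h : Setup T Γ K) (x : OnePoint C) (hx : x ∈ Pts T K) (g : GL (Fin 2) C) (hg : g ∈ Γ) :
    g • x ∈ Pts T K := by
  rcases hx with ⟨z, hz, rfl⟩ | ⟨γ, hγ, rfl⟩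
  · exact Or.inl ⟨mob g.1 z, L.mb.om (toMK h.disc ⟨g, hg⟩) z hz, M.smul g (h.disc.mem g hg) z hz⟩
  · exact Or.inr ⟨g * γ, h.stable g hg γ hγ, (mul_smul _ _ _).symm⟩

omit [IsUltrametricDist C] [Algebra (ZMod 2) C] [DecidableEq C] in
theorem ent_mul {a b : M2 C} (ha : ∀ i j, a i j ∈ Finf T) (hb : ∀ i j, b i j ∈ Finf T)
    (i j : Fin 2) : (a * b) i j ∈ Finf T := by
  rw [Matrix.mul_apply]
  exact sum_mem fun k _ => mul_mem (ha i k) (hb k j)

omit [IsUltrametricDist C] [Algebra (ZMod 2) C] [DecidableEq C] in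
theorem back_ent (γ : GL (Fin 2) C) (b : C) :
    ((γ⁻¹).1 * (γ * Matrix.GeneralLinearGroup.upperRightHom b * γ⁻¹).1 * γ.1) 0 1 = b := by
  rw [← Units.val_mul, ← Units.val_mul, ← mul_assoc, ← mul_assoc, inv_mul_cancel, one_mul,
    inv_mul_cancel_right]
  rfl

theorem latt (hT : 1 < ‖T‖) (L : LIB T) (M : MOBN T) (Γ : Subgroup (GL (Fin 2) C)) (h : Disc T Γ)
    (γ : GL (Fin 2) C) (hγ : γ ∈ GA T) : Latt T (Lam Γ γ) := by
  have hm := (ga hT L).mem γ hγ
  refine ⟨?_, fun a ha b hb => ?_, fun a ha => ?_, fun a ha => ?_, fun R => ?_⟩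
  · show γ * Matrix.GeneralLinearGroup.upperRightHom 0 * γ⁻¹ ∈ Γ
    rw [AddChar.map_zero_eq_one, mul_one, mul_inv_cancel]
    exact Γ.one_mem
  · show γ * Matrix.GeneralLinearGroup.upperRightHom (a + b) * γ⁻¹ ∈ Γ
    have := Γ.mul_mem ha hb
    rw [AddChar.map_add_eq_mul]
    convert this using 1
    group
  · show γ * Matrix.GeneralLinearGroup.upperRightHom (-a) * γ⁻¹ ∈ Γ
    have := Γ.inv_mem ha
    rw [AddChar.map_neg_eq_inv]
    convert this using 1
    group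
  · rw [← back_ent γ a]
    exact ent_mul (ent_mul (M.invmem γ hm) (h.mem _ ha)) hm 0 1
  · refine ((h.fin (nrm γ.1 * max 1 R * nrm (γ⁻¹).1)).image
      fun g => ((γ⁻¹).1 * g.1.1 * γ.1) 0 1).subset ?_
    rintro b ⟨hb, hR⟩
    refine ⟨⟨_, hb⟩, ?_, back_ent γ b⟩
    show nrm (γ.1 * (Matrix.GeneralLinearGroup.upperRightHom b).1 * (γ⁻¹).1) ≤ _
    refine (H50.nrm_mul _ _).trans (mul_le_mul_of_nonneg_right ((H50.nrm_mul _ _).trans
      (mul_le_mul_of_nonneg_left (H50.nrm_le fun i j => ?_) (H50.nrm_nonneg _))) (H50.nrm_nonneg _))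
    fin_cases i <;> fin_cases j <;> simp [Matrix.GeneralLinearGroup.upperRightHom, hR]

omit [IsUltrametricDist C] [DecidableEq C] in
theorem tri (hT : 1 < ‖T‖) (L : LIB T) (g : GL (Fin 2) C) (hg : g ∈ GA T) (h0 : g.1 1 0 = 0) :
    g = Matrix.GeneralLinearGroup.upperRightHom (g.1 0 1) := by
  obtain ⟨a, rfl⟩ := hg
  have h1 : a.1 1 0 = 0 := aeval_zero hT L h0
  have h2 := H94.det_GL a
  rw [Matrix.det_fin_two, h1, mul_zero, sub_zero] at h2
  have h3 := H14.unit_eq_one (IsUnit.of_mul_eq_one _ h2)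
  have h4 := H14.unit_eq_one (IsUnit.of_mul_eq_one_right _ h2)
  refine Units.ext (Matrix.ext fun i j => ?_)
  fin_cases i <;> fin_cases j <;>
    simp [Matrix.GeneralLinearGroup.upperRightHom, ev_val, h1, h3, h4]

omit [IsUltrametricDist C] [DecidableEq C] in
theorem lam0 (m b : A) (γ : GL (Fin 2) C) (hγ : γ ∈ GA T) : aeval T (m * b) ∈ Lam (G0 T m) γ := by
  obtain ⟨a, rfl⟩ := hγ
  refine ⟨a * H42.UU (m * b) * a⁻¹, ?_, ?_⟩
  · show m ∣ (a.1 * !![1, m * b; 0, 1] * (a⁻¹).1) 1 0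
    have e : (!![1, m * b; 0, 1] : M2 A) = 1 + (m * b) • !![0, 1; 0, 0] := by
      ext i j
      fin_cases i <;> fin_cases j <;> simp
    rw [e, mul_add, mul_one, add_mul, ← Units.val_mul, mul_inv_cancel, Matrix.mul_smul,
      Matrix.smul_mul, Matrix.add_apply, Matrix.smul_apply, smul_eq_mul]
    simp only [Units.val_one, ne_eq, one_ne_zero, not_false_eq_true, Matrix.one_apply_ne, zero_add]
    exact (dvd_mul_right m b).mul_right _
  · rw [map_mul, map_mul, map_inv]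
    congr 2
    refine Units.ext (Matrix.ext fun i j => ?_)
    fin_cases i <;> fin_cases j <;>
      simp [Matrix.GeneralLinearGroup.upperRightHom, ev_val, H42.UU]

theorem row : OfDISC := by
  intro C _ _ _ _ _ _ T hT L F M
  exact
    { good := good hT L
      ofgood := fun G _ ρ Γ => ofgood hT L G ρ Γ
      evinj := evinj hT L
      ga := ga hT L
      sub := sub
      set0 := set0 hT L
      setD := setD
      case := by
        rintro Γ K (⟨rfl, h, -⟩ | ⟨m, -, rfl, rfl⟩)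
        · exact setD Γ h
        · exact set0 hT L m
      orbfin := orbfin hT L F M
      stabfin := fun Γ h z hz => (stabfin hT L F M Γ h z hz).to_subtype
      free := free hT L F M
      base := base hT L F M
      cnt := cnt hT L F M
      cardinv := cardinv
      ptinv := ptinv
      ptsinv := ptsinv L M
      notcusp := fun γ hγ z hz e => by
        obtain ⟨w, -, hw⟩ := M.back γ ((ga hT L).mem γ hγ) _ z hz e
        exact OnePoint.infty_ne_coe w hw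
      latt := latt hT L M
      tri := tri hT L
      lam0 := lam0 }

end Pool.Agent.MP_a88b1d_nt.RDISC
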