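import Pool.Agent.MP_a88b1d_nt.H93.Spec3

/-! Rows DIV and LOW. -/

open Polynomial Filter Topology

namespace Pool.Agent.MP_a88b1d_nt.RDIV

open Pool.Agent.MP_a88b1d_nt.St2 Pool.Agent.MP_a88b1d_nt.P2

variable {K : Type} [NontriviallyNormedField K]

theorem ratdiv (P Q : K[X]) {a : K} (ha : Q.eval a ≠ 0) : ∃ P1 : K[X], ∀ z, Q.eval z ≠ 0 →
    P.eval z / Q.eval z - P.eval a / Q.eval a = (z - a) * (P1.eval z / Q.eval z) := by
  obtain ⟨P1, h⟩ : X - C a ∣ P - C (P.eval a / Q.eval a) * Q := by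
    rw [dvd_iff_isRoot, IsRoot, eval_sub, eval_mul, eval_C, div_mul_cancel₀ _ ha, sub_self]
  refine ⟨P1, fun z hz => ?_⟩
  have := congrArg (eval z) h
  simp only [eval_sub, eval_mul, eval_C, eval_X] at this
  rw [← mul_div_assoc, ← this, sub_div, mul_div_cancel_right₀ _ hz]

theorem est {T : K} (hM : MAX T) {n : ℕ} {a : K} {P Q : K[X]} (hQ : ∀ z ∈ Om T n, Q.eval z ≠ 0)
    {ε : ℝ} (h : ∀ z ∈ Om T n, ‖(z - a) * (P.eval z / Q.eval z)‖ ≤ ε) :
    ∀ z ∈ Om T n, ‖P.eval z / Q.eval z‖ ≤ ‖T‖ ^ n * ε := by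
  intro z hz
  obtain ⟨w, hw, h1, h2⟩ := hM.maxp n P Q {a} hQ z hz
  have h3 := h1 a (Finset.mem_singleton_self a)
  have h4 := h w hw
  rw [norm_mul] at h4
  calc _ ≤ 1 * ‖P.eval w / Q.eval w‖ := by rw [one_mul]; exact h2
    _ ≤ (‖T‖ ^ n * ‖w - a‖) * ‖P.eval w / Q.eval w‖ :=
      mul_le_mul_of_nonneg_right h3 (norm_nonneg _)
    _ ≤ ‖T‖ ^ n * ε := by
      rw [mul_assoc]
      exact mul_le_mul_of_nonneg_left h4 (by positivity)

theorem norm_prod' (s : Multiset K) (z : K) :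
    ‖((s.map fun a => X - C a).prod).eval z‖ = (s.map fun a => ‖z - a‖).prod := by
  induction s using Multiset.induction_on with
  | empty => simp
  | cons a s ih =>
    rw [Multiset.map_cons, Multiset.prod_cons, eval_mul, norm_mul, ih, Multiset.map_cons,
      Multiset.prod_cons]
    simp

theorem row : OfDIV := by
  intro K _ _ _ _ _ _ T hT _ _ hH hM n g hg a ha
  let e : ℕ → ℝ := fun k => 1 / ((k : ℝ) + 1)
  have e0 : ∀ k, 0 < e k := fun k => by positivity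
  have et : Tendsto e atTop (𝓝 0) := tendsto_one_div_add_atTop_nhds_zero_nat
  choose P Q hPQ using fun k => hg (e k) (e0 k)
  choose P1 hP1 using fun k => ratdiv (P k) (Q k) (hPQ k a ha).1
  let R : ℕ → K → K := fun k z => (P1 k).eval z / (Q k).eval z
  have hR : ∀ k, ∀ z ∈ Om T n, ‖g z - g a - (z - a) * R k z‖ ≤ 2 * e k := by
    intro k z hz
    have h1 := (hPQ k z hz).2
    have h2 := (hPQ k a ha).2
    have h3 : g z - g a - (z - a) * R k z =
        (g z - (P k).eval z / (Q k).eval z) - (g a - (P k).eval a / (Q k).eval a) := by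
      rw [← hP1 k z (hPQ k z hz).1]; ring
    rw [h3]
    linarith [norm_sub_le (g z - (P k).eval z / (Q k).eval z) (g a - (P k).eval a / (Q k).eval a)]
  have hd : ∀ i j, ∀ z ∈ Om T n, ‖R i z - R j z‖ ≤ ‖T‖ ^ n * (2 * e i + 2 * e j) := by
    intro i j
    have h1 : ∀ z ∈ Om T n, (P1 i * Q j - Q i * P1 j).eval z / (Q i * Q j).eval z =
        R i z - R j z := fun z hz => by
      rw [eval_sub, eval_mul, eval_mul, eval_mul, div_sub_div _ _ (hPQ i z hz).1 (hPQ j z hz).1]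
    intro z hz
    rw [← h1 z hz]
    refine est hM (a := a) (fun w hw => ?_) (fun w hw => ?_) z hz
    · rw [eval_mul]
      exact mul_ne_zero (hPQ i w hw).1 (hPQ j w hw).1
    · have h3 : (w - a) * (R i w - R j w) =
          (g w - g a - (w - a) * R j w) - (g w - g a - (w - a) * R i w) := by ring
      rw [h1 w hw, h3]
      linarith [norm_sub_le (g w - g a - (w - a) * R j w) (g w - g a - (w - a) * R i w),
        hR i w hw, hR j w hw]
  have hl : ∀ z ∈ Om T n, ∃ y, Tendsto (fun k => R k z) atTop (𝓝 y) := by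
    intro z hz
    refine cauchySeq_tendsto_of_complete (cauchySeq_of_le_tendsto_0'
      (fun k => ‖T‖ ^ n * (4 * e k)) (fun i j hij => ?_) ?_)
    · rw [dist_eq_norm]
      refine (hd i j z hz).trans (mul_le_mul_of_nonneg_left ?_ (by positivity))
      have : e j ≤ e i := Nat.one_div_le_one_div hij
      linarith
    · simpa using (et.const_mul 4).const_mul (‖T‖ ^ n)
  choose! g1 hg1 using hl
  refine ⟨g1, hH.lim _ _ fun ε hε => ?_, fun z hz => ?_⟩
  · have h1 : Tendsto (fun k => ‖T‖ ^ n * (2 * e k)) atTop (𝓝 0) := by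
      simpa using (et.const_mul 2).const_mul (‖T‖ ^ n)
    obtain ⟨k, hk⟩ := (h1.eventually (ge_mem_nhds hε)).exists
    refine ⟨R k, hH.rat _ _ _ fun z hz => (hPQ k z hz).1, fun z hz => le_trans ?_ hk⟩
    have h2 : Tendsto (fun i => ‖T‖ ^ n * (2 * e i + 2 * e k)) atTop
        (𝓝 (‖T‖ ^ n * (2 * e k))) := by
      simpa using ((et.const_mul 2).add_const (2 * e k)).const_mul (‖T‖ ^ n)
    exact le_of_tendsto_of_tendsto' ((hg1 z hz).sub_const (R k z)).norm h2 fun i => hd i k z hz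
  · have h1 : Tendsto (fun k => 2 * e k) atTop (𝓝 0) := by simpa using et.const_mul 2
    have h2 := le_of_tendsto_of_tendsto'
      (((hg1 z hz).const_mul (z - a)).const_sub (g z - g a)).norm h1 fun k => hR k z hz
    exact sub_eq_zero.1 (norm_le_zero_iff.1 h2)

theorem row2 : OfLOW := by
  classical
  intro K _ _ _ _ _ _ T hT _ _ hM hL n M μ hμ
  obtain ⟨Z, c, hc, H⟩ := hL n M μ hμ
  have hq : (1 : ℝ) ≤ ‖T‖ ^ n := one_le_pow₀ hT.le
  refine ⟨Z, c / (‖T‖ ^ n) ^ Z, by positivity, fun P Q hQ hB hz0 => ?_⟩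
  obtain ⟨h1, h2⟩ := H P Q hQ hB hz0
  refine ⟨h1, fun z hz => ?_⟩
  obtain ⟨z0, -, hz0⟩ := hz0
  have hP : P ≠ 0 := by
    rintro rfl
    simp at hz0
    linarith
  have hQ0 : Q ≠ 0 := by
    rintro rfl
    simp at hz0
    linarith
  obtain ⟨s, hs, hs'⟩ : ∃ s : Multiset K, rin T n P + s = P.roots ∧ ∀ a ∈ s, a ∉ Om T n :=
    ⟨_, Multiset.filter_add_not _ _, fun a ha => (Multiset.mem_filter.1 ha).2⟩
  set P1 : K[X] := ((rin T n P).map fun a => X - C a).prod with hP1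
  set P2 : K[X] := C P.leadingCoeff * (s.map fun a => X - C a).prod with hP2
  have e : P = P1 * P2 := by
    rw [hP1, hP2, mul_left_comm, ← Multiset.prod_add, ← Multiset.map_add, hs]
    exact (IsAlgClosed.splits P).eq_prod_roots
  have n2 : ∀ w ∈ Om T n, P2.eval w ≠ 0 := by
    intro w hw
    rw [hP2, eval_mul, eval_C]
    refine mul_ne_zero (leadingCoeff_ne_zero.2 hP) fun h0 => ?_
    have : w ∈ ((s.map fun a => X - C a).prod).roots :=
      (mem_roots (monic_multisetProd_X_sub_C s).ne_zero).2 h0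
    rw [roots_multiset_prod_X_sub_C] at this
    exact hs' w this hw
  obtain ⟨y, hy, j, k1, k2, k3, k4⟩ := hM.maxv n Q P2 n2 z hz
  have k5 := h2 y hy j k1 k2 k3
  have hr : (0 : ℝ) < ‖T‖ ^ j := zpow_pos (by linarith) _
  have hr' : ‖T‖ ^ j ≤ ‖T‖ ^ n := by
    rw [← zpow_natCast]
    exact zpow_le_zpow_right₀ hT.le k3
  have g1 : gs y (‖T‖ ^ j) P1 ≤ (‖T‖ ^ n) ^ Z := by
    rw [gs, hP1, (monic_multisetProd_X_sub_C _).leadingCoeff, norm_one, one_mul,
      roots_multiset_prod_X_sub_C]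
    refine (Multiset.prod_map_le_prod_map₀ _ (fun _ => ‖T‖ ^ n)
      (fun a _ => le_max_of_le_right hr.le) fun a ha => max_le ?_ hr').trans ?_
    · have h3 : a ∈ Om T n := (Multiset.mem_filter.1 ha).2
      rw [sub_eq_add_neg]
      refine (IsUltrametricDist.norm_add_le_max _ _).trans (max_le h3.1 ?_)
      rwa [norm_neg]
    · rw [Multiset.map_const', Multiset.prod_replicate]
      exact pow_le_pow_right₀ hq h1
  have p2 := hM.pos y _ P2 hr fun h0 => n2 z hz (by rw [h0, eval_zero])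
  have pq := hM.pos y _ Q hr hQ0
  have nz : 0 < ‖P2.eval z‖ := norm_pos_iff.2 (n2 z hz)
  have hzz : z ∈ Om T (n + 2) := ⟨hz.1.trans (pow_le_pow_right₀ hT.le (by omega)), fun x hx =>
    (hz.2 x hx).trans (mul_le_mul_of_nonneg_right (pow_le_pow_right₀ hT.le (by omega))
      (norm_nonneg _))⟩
  have nq : 0 < ‖Q.eval z‖ := norm_pos_iff.2 (hQ z hzz)
  rw [e, hM.mul, le_div_iff₀ pq] at k5
  rw [norm_div, div_le_div_iff₀ nz p2] at k4
  have k6 : c / (‖T‖ ^ n) ^ Z ≤ ‖P2.eval z‖ / ‖Q.eval z‖ := by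
    rw [div_le_div_iff₀ (by positivity) nq]
    refine le_of_mul_le_mul_right ?_ p2
    calc c * ‖Q.eval z‖ * gs y (‖T‖ ^ j) P2 = c * (‖Q.eval z‖ * gs y (‖T‖ ^ j) P2) := by ring
      _ ≤ c * (gs y (‖T‖ ^ j) Q * ‖P2.eval z‖) := mul_le_mul_of_nonneg_left k4 hc.le
      _ = (c * gs y (‖T‖ ^ j) Q) * ‖P2.eval z‖ := by ring
      _ ≤ ((‖T‖ ^ n) ^ Z * gs y (‖T‖ ^ j) P2) * ‖P2.eval z‖ :=
        mul_le_mul_of_nonneg_right (k5.trans (mul_le_mul_of_nonneg_right g1 p2.le)) nz.le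
      _ = _ := by ring
  have e2 : ‖P.eval z / Q.eval z‖ = ‖P2.eval z‖ / ‖Q.eval z‖ * ‖P1.eval z‖ := by
    rw [norm_div, congrArg (eval z) e, eval_mul, norm_mul]; ring
  rw [e2, ← norm_prod']
  exact mul_le_mul_of_nonneg_right k6 (norm_nonneg _)

end Pool.Agent.MP_a88b1d_nt.RDIV
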