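import Pool.Agent.MP_a88b1d_nt.H93.Spec3
import Pool.Agent.MP_a88b1d_nt.H45.Fin

/-! Row DSIDE: 59 independent classes on the cocompact side. -/

open Polynomial OnePoint

noncomputable section

namespace Pool.Agent.MP_a88b1d_nt.RDSIDE

open Pool.Agent.MP_a88b1d_nt.St2
open Pool.Agent.MP_a88b1d_nt.P2
open Pool.Agent.MP_a88b1d_nt.H42 (A M2 MK nrm dd st Good Psi GramOK Gbar cls NormIs)

theorem le_of_pow {x y : ℝ} {N : ℕ} (hN : 0 < N) (hy : 1 ≤ y) (h : (x ^ N) ^ 2 ≤ y ^ 2) :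
    x ≤ y := by
  by_cases h1 : x ≤ 1
  · exact h1.trans hy
  · have h1 : 1 ≤ x := (not_le.1 h1).le
    have h2 : x ≤ x ^ N := le_self_pow₀ h1 hN.ne'
    have h3 : x ^ N ≤ y := by
      have := abs_le_of_sq_le_sq' h (by linarith)
      exact this.2
    exact h2.trans h3

theorem dvd_of_zpow {C : Type} [Field C] {ω : C} (h3 : ω ^ 3 = 1) (h1 : ω ≠ 1) {n : ℤ}
    (h : ω ^ n = 1) : (3 : ℤ) ∣ n := by
  have h0 : ω ≠ 0 := by
    rintro rfl
    simp at h3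
  have ho : orderOf (Units.mk0 ω h0) = 3 := by
    have : Fact (Nat.Prime 3) := ⟨Nat.prime_three⟩
    refine orderOf_eq_prime (Units.ext (by simpa using h3)) fun e => h1 ?_
    simpa using congrArg Units.val e
  have h2 : (Units.mk0 ω h0) ^ n = 1 := Units.ext (by simpa using h)
  have := orderOf_dvd_iff_zpow_eq_one.2 h2
  rw [ho] at this
  exact_mod_cast this

theorem zpow_sum' {C : Type} [Field C] {ω : C} (h0 : ω ≠ 0) {ι : Type} (s : Finset ι)
    (n : ι → ℤ) : ω ^ (∑ i ∈ s, n i) = ∏ i ∈ s, ω ^ n i := by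
  classical
  induction s using Finset.induction_on with
  | empty => simp
  | insert a s ha ih => rw [Finset.sum_insert ha, Finset.prod_insert ha, zpow_add₀ h0, ih]

variable {C : Type} [NontriviallyNormedField C] [Algebra (ZMod 2) C] [DecidableEq C]

theorem cls_stab {T : C} (mo : MOBN T) (di : DISC T) {Γ : Subgroup (GL (Fin 2) C)} (h : Disc T Γ)
    (g : Γ) (z : C) (hz : z ∉ Finf T) (hg : mob g.1.1 z = z) : cls g = 1 := by
  have hs : g ∈ MulAction.stabilizer Γ (z : OnePoint C) := by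
    rw [MulAction.mem_stabilizer_iff]
    show g.1 • (z : OnePoint C) = z
    rw [mo.smul g.1 (h.mem g.1 g.2) z hz, hg]
  have := di.stabfin Γ h z hz
  have h1 : IsOfFinOrder (⟨g, hs⟩ : MulAction.stabilizer Γ (z : OnePoint C)) :=
    isOfFinOrder_of_finite _
  have h2 : IsOfFinOrder g :=
    MonoidHom.isOfFinOrder (MulAction.stabilizer Γ (z : OnePoint C)).subtype h1
  exact (MonoidHom.isOfFinOrder cls h2).eq_one'

omit [DecidableEq C] in
theorem pow_dd {T : C} (L : LIB T) {Γ : Subgroup (GL (Fin 2) C)} (h : Disc T Γ) (b : Γ) :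
    ‖T‖ ^ dd T 1 (toMK h b) = nrm b.1.1 ^ 2 := by
  have := L.tree.spec 1 (toMK h b)
  rw [toMK_val, h.det b.1 b.2] at this
  simpa using this

theorem step [IsAlgClosed C] {T : C} (hT : 1 < ‖T‖) (L : LIB T) (gr : GROW) (mo : MOBN T)
    (di : DISC T) (th : TH T) (ja : JAC T) {Γ : Subgroup (GL (Fin 2) C)} (h : Disc T Γ)
    (hc : TCoc h) (a : Γ) (N : ℕ) (hN : 0 < N) :
    ∃ (χ : Γ →* Cˣ) (f u : C → C) (E : OnePoint C → ℤ), E ∈ Div0 T Γ ∅ ∧ MF T Γ ∅ χ f E ∧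
      MF T Γ ∅ (χ ^ N) u 0 ∧
      ∀ b, ‖((χ ^ N) b : C)‖ ^ 2 = ‖T‖ ^ Psi (dd T) (toMK h) 1 (toMK h b) 1 (toMK h a) := by
  obtain ⟨c, u, χ, hu, hcχ, hn⟩ := th.per Γ h a
  obtain ⟨s, hs⟩ := H45.char_root χ hN
  have e : (s.comp cls) ^ N = c := by
    ext b
    rw [hcχ, ← hs]
    simp
  have hn' : ∀ b, ‖(((s.comp cls) ^ N) b : C)‖ ^ 2 =
      ‖T‖ ^ Psi (dd T) (toMK h) 1 (toMK h b) 1 (toMK h a) := by
    intro b
    rw [e, hcχ]
    exact hn b
  obtain ⟨B, hB⟩ := gr _ (dd T) (st T) Γ (toMK h) L.tree.tree (di.good Γ h).2 a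
  have hb : ∀ g : Γ, ‖((s.comp cls) g : C)‖ ≤ nrm g.1.1 ^ B := by
    intro g
    refine le_of_pow hN (one_le_pow₀ (mo.one_le _ (h.det g.1 g.2))) ?_
    have h1 := hn' g
    rw [MonoidHom.pow_apply, Units.val_pow_eq_pow_val, norm_pow] at h1
    rw [h1, ← pow_mul, mul_comm B 2, pow_mul, ← pow_dd L h g, ← pow_mul, ← zpow_natCast]
    refine zpow_le_zpow_right₀ hT.le ?_
    have := hB g
    push_cast
    linarith
  obtain ⟨f, E, hE, hf⟩ := ja.coc Γ h hc (s.comp cls) B hb fun g z hz hg => by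
    rw [MonoidHom.comp_apply, cls_stab mo di h g z hz hg, map_one]
  exact ⟨s.comp cls, f, u, E, hE, hf, e ▸ hu, hn'⟩

theorem row : OfDSIDE := by
  intro C _ _ _ _ _ _ T hT L gr mo di mf th ja un ga Γ h hc hg σ k ω hI
  obtain ⟨γ, hγ⟩ := hg
  have S : Setup T Γ ∅ := di.setD Γ h
  have hN : 0 < 3 ^ k := by positivity
  choose χ f u E hE hf hu hn using fun j => step hT L gr mo di th ja h hc (γ j) (3 ^ k) hN
  refine ⟨E, hE, fun j => ?_, fun c hcp => hγ c fun b => ?_⟩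
  · have h1 := mf.mul Γ ∅ _ _ _ _ _ _ S (mf.zpow Γ ∅ _ _ _ ((3 ^ k : ℕ) : ℤ) S (hf j))
      (mf.inv Γ ∅ _ _ _ S (hu j))
    have e : χ j ^ ((3 ^ k : ℕ) : ℤ) * (χ j ^ 3 ^ k)⁻¹ = 1 := by
      refine MonoidHom.ext fun b => ?_
      rw [MonoidHom.mul_apply, MonoidHom.inv_apply, MonoidHom.zpow_apply, MonoidHom.pow_apply,
        zpow_natCast, mul_inv_cancel, MonoidHom.one_apply]
    rw [e, neg_zero, add_zero, natCast_zsmul] at h1
    exact (mf.prin Γ ∅ _ S).2 ⟨_, h1⟩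
  · obtain ⟨g, hg⟩ := (mf.prin Γ ∅ _ S).1 hcp
    have h1 := mf.prod Γ ∅ (Fin 59) Finset.univ (fun j => (chs σ (χ j) * (χ j)⁻¹) ^ c j) _ _ S
      fun j _ => mf.zpow Γ ∅ _ _ _ (c j) S (mf.mul Γ ∅ _ _ _ _ _ _ S
        (ga.mf Γ ∅ _ _ _ σ S hI.iso (hf j)) (mf.inv Γ ∅ _ _ _ S (hf j)))
    have h2 := mf.mul Γ ∅ _ _ _ _ _ _ S h1 (mf.inv Γ ∅ _ _ _ S hg)
    have e0 : ∑ j, c j • (act σ (E j) + -E j) + -∑ j, c j • (act σ (E j) - E j) = 0 := by
      simp only [← sub_eq_add_neg, sub_self]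
    have e1 : (∏ j, (chs σ (χ j) * (χ j)⁻¹) ^ c j) * (1 : Γ →* Cˣ)⁻¹ =
        ∏ j, (chs σ (χ j) * (χ j)⁻¹) ^ c j := by
      refine MonoidHom.ext fun b => ?_
      rw [MonoidHom.mul_apply, MonoidHom.inv_apply, MonoidHom.one_apply, inv_one, mul_one]
    rw [e0, e1] at h2
    have hv : ∀ g : Γ, (((∏ j, (chs σ (χ j) * (χ j)⁻¹) ^ c j) g : Cˣ) : C) =
        ∏ j, (σ (χ j g : C) * (χ j g : C)⁻¹) ^ c j := by
      intro g
      rw [MonoidHom.finsetProd_apply, Units.coe_prod]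
      refine Finset.prod_congr rfl fun j _ => ?_
      rw [MonoidHom.zpow_apply, Units.val_zpow_eq_zpow_val, MonoidHom.mul_apply, Units.val_mul,
        chs_val, MonoidHom.inv_apply, Units.val_inv_eq_inv_val]
    have h3 := un.rig Γ h hc _ _ h2 fun g => by
      rw [hv, norm_prod]
      refine Finset.prod_eq_one fun j _ => ?_
      rw [norm_zpow, norm_mul, norm_inv, hI.iso.1, mul_inv_cancel₀, one_zpow]
      exact norm_ne_zero_iff.2 (χ j g).ne_zero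
    have h4 := hv b
    rw [h3] at h4
    have h0 : ω ≠ 0 := by
      rintro rfl
      simpa using hI.cube
    have h5 : ∀ j, (σ (χ j b : C) * (χ j b : C)⁻¹) ^ 2 =
        ω ^ Psi (dd T) (toMK h) 1 (toMK h b) 1 (toMK h (γ j)) := by
      intro j
      have e1 : ((χ j b : C) ^ 2) ^ 3 ^ k = (((χ j ^ 3 ^ k) b : Cˣ) : C) ^ 2 := by
        rw [MonoidHom.pow_apply, Units.val_pow_eq_pow_val, ← pow_mul, ← pow_mul, mul_comm]
      have h6 := hI.act ((χ j b : C) ^ 2) (Psi (dd T) (toMK h) 1 (toMK h b) 1 (toMK h (γ j)))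
        (by rw [e1, map_pow, un.sig Γ ∅ _ _ S (hu j) σ hI.iso b])
        (by rw [e1, norm_pow, hn j b])
      have h7 := (χ j b).ne_zero
      rw [mul_pow, ← map_pow, h6]
      field_simp
    refine dvd_of_zpow hI.cube hI.ne ?_
    have h8 : (∏ j, (σ (χ j b : C) * (χ j b : C)⁻¹) ^ c j) ^ 2 = 1 := by
      rw [← h4]
      simp
    rw [← h8, ← Finset.prod_pow, zpow_sum' h0]
    refine Finset.prod_congr rfl fun j _ => ?_
    rw [mul_comm (c j), zpow_mul, ← h5, ← zpow_natCast, ← zpow_natCast, ← zpow_mul, ← zpow_mul,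
      mul_comm ((2 : ℕ) : ℤ)]

end Pool.Agent.MP_a88b1d_nt.RDSIDE
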