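import Pool.Agent.MP_a88b1d_nt.H93.Spec3

/-! Eisenstein series of weight one with a character of norm one. -/

open Polynomial OnePoint Filter Topology Matrix

noncomputable section

namespace Pool.Agent.MP_a88b1d_nt.REIS

open Pool.Agent.MP_a88b1d_nt.St2 Pool.Agent.MP_a88b1d_nt.P2
open Pool.Agent.MP_a88b1d_nt.H42 (A M2 MK den)

/-- Coefficients that transform by a character that is trivial on all stabilisers. -/
theorem exists_coef {H V U : Type} [Group H] [CommGroup U] [MulAction H V] (χ : H →* U)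
    (h : ∀ (g : H) (v : V), g • v = v → χ g = 1) :
    ∃ a : V → H, ∀ g v, χ (a (g • v)) = χ g * χ (a v) := by
  have h1 : ∀ v : V, ∃ g : H, g • (Quotient.mk (MulAction.orbitRel H V) v).out = v := fun v => by
    have h2 : MulAction.orbitRel H V v (Quotient.mk (MulAction.orbitRel H V) v).out :=
      (MulAction.orbitRel H V).symm (Quotient.mk_out v)
    exact h2
  choose a ha using h1
  refine ⟨a, fun g v => ?_⟩
  have h2 : Quotient.mk (MulAction.orbitRel H V) (g • v) =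
      Quotient.mk (MulAction.orbitRel H V) v := Quotient.sound ⟨g, rfl⟩
  have h3 := ha (g • v)
  rw [h2] at h3
  have h4 := h ((g * a v)⁻¹ * a (g • v)) (Quotient.mk (MulAction.orbitRel H V) v).out (by
    rw [mul_smul, h3, inv_smul_eq_iff, mul_smul, ha])
  rw [map_mul, map_inv, inv_mul_eq_one, map_mul] at h4
  exact h4.symm

theorem unit_one (a : A) (h : IsUnit a) : a = 1 := by
  obtain ⟨r, hr, rfl⟩ := Polynomial.isUnit_iff.1 h
  have h1 : ∀ r : ZMod 2, r ≠ 0 → r = 1 := by decide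
  rw [h1 r hr.ne_zero, map_one]

/-- Primitive row vectors. -/
def Prim : Type := {v : Fin 2 → A // IsCoprime (v 0) (v 1)}

theorem cop_iff (v : Fin 2 → A) : IsCoprime (v 0) (v 1) ↔ ∃ u : Fin 2 → A, v ⬝ᵥ u = 1 := by
  constructor
  · rintro ⟨a, b, h⟩
    exact ⟨![a, b], by simpa [dotProduct, Fin.sum_univ_two, mul_comm] using h⟩
  · rintro ⟨u, h⟩
    exact ⟨u 0, u 1, by simpa [dotProduct, Fin.sum_univ_two, mul_comm] using h⟩

instance : MulAction (GL (Fin 2) A) Prim where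
  smul g v := ⟨v.1 ᵥ* (g⁻¹).1, by
    obtain ⟨u, hu⟩ := (cop_iff _).1 v.2
    refine (cop_iff _).2 ⟨g.1 *ᵥ u, ?_⟩
    rw [← dotProduct_mulVec, mulVec_mulVec, Units.inv_mul, one_mulVec, hu]⟩
  one_smul v := Subtype.ext (by
    change v.1 ᵥ* ((1 : GL (Fin 2) A)⁻¹).1 = v.1
    simp)
  mul_smul g h v := Subtype.ext (by
    change v.1 ᵥ* ((g * h)⁻¹).1 = (v.1 ᵥ* (h⁻¹).1) ᵥ* (g⁻¹).1
    rw [vecMul_vecMul, _root_.mul_inv_rev, Units.val_mul])

theorem smul_val (g : GL (Fin 2) A) (v : Prim) : (g • v).1 ᵥ* g.1 = v.1 := by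
  change (v.1 ᵥ* (g⁻¹).1) ᵥ* g.1 = v.1
  rw [vecMul_vecMul, Units.inv_mul, vecMul_one]

theorem prim_ne (v : Prim) : v.1 0 ≠ 0 ∨ v.1 1 ≠ 0 := v.2.ne_zero_or_ne_zero

theorem sq_of_fix (g : GL (Fin 2) A) (v : Prim) (h : g • v = v) : g * g = 1 := by
  have h1 := smul_val g v
  rw [h] at h1
  have e0 := congrFun h1 0
  have e1 := congrFun h1 1
  simp only [vecMul, dotProduct, Fin.sum_univ_two] at e0 e1
  have hd : g.1 0 0 * g.1 1 1 - g.1 0 1 * g.1 1 0 = 1 := by
    rw [← det_fin_two]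
    exact unit_one _ (Matrix.isUnits_det_units g)
  have h2 : (2 : A) = 0 := CharTwo.two_eq_zero
  obtain ⟨a, b, hab⟩ := v.2
  have t0 : v.1 0 * (g.1 0 0 + g.1 1 1) = 0 := by
    linear_combination (1 - g.1 1 1) * e0 + g.1 1 0 * e1 + v.1 0 * hd + v.1 0 * h2
  have t1 : v.1 1 * (g.1 0 0 + g.1 1 1) = 0 := by
    linear_combination g.1 0 1 * e0 + (1 - g.1 0 0) * e1 + v.1 1 * hd + v.1 1 * h2
  have tr : g.1 0 0 + g.1 1 1 = 0 := by
    linear_combination a * t0 + b * t1 - (g.1 0 0 + g.1 1 1) * hab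
  ext i j : 2
  rw [Units.val_mul, Matrix.mul_apply, Fin.sum_univ_two]
  fin_cases i <;> fin_cases j <;> simp
  · linear_combination g.1 0 0 * tr - hd - h2
  · linear_combination g.1 0 1 * tr
  · linear_combination g.1 1 0 * tr
  · linear_combination g.1 1 1 * tr - hd - h2

variable {C : Type} [NontriviallyNormedField C] [Algebra (ZMod 2) C]

/-- The linear form of a row vector. -/
def lf (T : C) (v : Prim) (z : C) : C := aeval T (v.1 0) * z + aeval T (v.1 1)

theorem lf_mob (T : C) (g : GL (Fin 2) A) (v : Prim) (z : C) (hz : den (ev T g).1 z ≠ 0) :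
    lf T (g • v) (mob (ev T g).1 z) = lf T v z / den (ev T g).1 z := by
  have h1 := smul_val g v
  have e0 := congrArg (aeval T) (congrFun h1 0)
  have e1 := congrArg (aeval T) (congrFun h1 1)
  simp only [vecMul, dotProduct, Fin.sum_univ_two, map_add, map_mul] at e0 e1
  have hv : ∀ i j, (ev T g).1 i j = aeval T (g.1 i j) := fun _ _ => rfl
  have hm : mob (ev T g).1 z = ((ev T g).1 0 0 * z + (ev T g).1 0 1) / den (ev T g).1 z := rfl
  rw [eq_div_iff hz, lf, lf, hm, add_mul, mul_assoc, div_mul_cancel₀ _ hz, ← e0, ← e1]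
  simp only [den, hv]
  ring

theorem lf_low {T : C} (Y : FY T) (n : ℕ) (v : Prim) {z : C} (hz : z ∈ Om T n) :
    max ‖aeval T (v.1 0)‖ ‖aeval T (v.1 1)‖ ≤ ‖T‖ ^ (2 * n) * ‖lf T v z‖ :=
  Y.lin n z hz _ (H42.aeval_mem_Finf T _) _ (H42.aeval_mem_Finf T _)

theorem lf_ne {T : C} (Y : FY T) (v : Prim) {z : C} (hz : z ∉ Finf T) : lf T v z ≠ 0 := by
  obtain ⟨n, hn⟩ := Y.exh z hz
  intro h
  have h1 := lf_low Y n v hn
  rw [h, norm_zero, mul_zero, max_le_iff] at h1
  rcases prim_ne v with h2 | h2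
  · linarith [Y.one_le _ h2, h1.1]
  · linarith [Y.one_le _ h2, h1.2]

theorem small {T : C} (Y : FY T) (b : Prim → C) (hb : ∀ v, ‖b v‖ = 1) (n : ℕ) (ε : ℝ)
    (hε : 0 < ε) : ∀ᶠ v in cofinite, ∀ z ∈ Om T n, ‖b v / lf T v z‖ ≤ ε := by
  have h1 : {v : Fin 2 → A | ∀ i, v i ∈ {c : A | ‖aeval T c‖ ≤ ‖T‖ ^ (2 * n) * ε⁻¹}}.Finite :=
    Set.Finite.pi' fun _ => Y.fin _
  refine (h1.preimage (f := fun v : Prim => v.1) Subtype.val_injective.injOn).subset fun v hv => ?_
  simp only [Set.mem_compl_iff, Set.mem_ofPred_eq, not_forall, not_le] at hv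
  obtain ⟨z, hz, hlt⟩ := hv
  have h0 : 0 < ‖lf T v z‖ := norm_pos_iff.2 (lf_ne Y v (Y.notin n z hz))
  rw [norm_div, hb, lt_div_iff₀ h0] at hlt
  have h2 : ‖lf T v z‖ ≤ ε⁻¹ := by
    rw [← one_div, le_div_iff₀ hε]; linarith
  have h3 := (lf_low Y n v hz).trans (mul_le_mul_of_nonneg_left h2 (by positivity))
  intro i
  fin_cases i
  · exact (le_max_left _ _).trans h3
  · exact (le_max_right _ _).trans h3

theorem tsum_mob {T : C} (b : Prim → C) (g : GL (Fin 2) A) (z : C)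
    (hz : den (ev T g).1 z ≠ 0) :
    ∑' v, b v / lf T v (mob (ev T g).1 z) = den (ev T g).1 z * ∑' v, b (g • v) / lf T v z := by
  rw [← tsum_mul_left, ← (MulAction.toPerm g).tsum_eq]
  refine tsum_congr fun v => ?_
  rw [MulAction.toPerm_apply, lf_mob T g v z hz, div_div_eq_mul_div]
  ring

theorem norm_far [IsUltrametricDist C] [CompleteSpace C] {T : C} (hT : 1 < ‖T‖) (Y : FY T)
    (b : Prim → C) (hb : ∀ v, ‖b v‖ = 1) {z : C} (hz : Far T ‖T‖ z) :
    ‖∑' v, b v / lf T v z‖ = 1 := by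
  classical
  have hz' : z ∉ Finf T := fun h => by
    have := hz z h
    rw [sub_self, norm_zero] at this
    linarith
  obtain ⟨n, hn⟩ := Y.exh z hz'
  have hs : Summable fun v => b v / lf T v z := by
    refine NonarchimedeanAddGroup.summable_of_tendsto_cofinite_zero ?_
    rw [NormedAddGroup.tendsto_nhds_zero]
    intro ε hε
    filter_upwards [small Y b hb n (ε / 2) (by positivity)] with v hv
    exact (hv z hn).trans_lt (by linarith)
  let v0 : Prim := ⟨![0, 1], isCoprime_one_right⟩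
  have h0 : ‖b v0 / lf T v0 z‖ = 1 := by
    rw [norm_div, hb]
    simp [lf, v0]
  have hT0 : 0 < ‖T‖ := by linarith
  have h1 : ‖∑' v, if v = v0 then 0 else b v / lf T v z‖ ≤ ‖T‖⁻¹ := by
    refine IsUltrametricDist.norm_tsum_le_of_forall_le_of_nonneg (by positivity) fun v => ?_
    split_ifs with hv
    · rw [norm_zero]; positivity
    · have hc : v.1 0 ≠ 0 := fun h => hv (Subtype.ext (funext fun i => by
        have h2 := v.2
        rw [h, isCoprime_zero_left] at h2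
        fin_cases i
        · exact h
        · exact unit_one _ h2))
      have h2 := Y.one_le _ hc
      have h3 : aeval T (v.1 0) ≠ 0 := norm_pos_iff.1 (by linarith)
      have h4 := hz (-(aeval T (v.1 1) / aeval T (v.1 0)))
        (neg_mem (div_mem (H42.aeval_mem_Finf T _) (H42.aeval_mem_Finf T _)))
      have h5 : lf T v z = aeval T (v.1 0) * (z - -(aeval T (v.1 1) / aeval T (v.1 0))) := by
        rw [lf]; field_simp; ring
      rw [norm_div, hb, one_div, h5, norm_mul]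
      exact inv_anti₀ hT0 (by nlinarith)
  have h2 := h1.trans_lt (inv_lt_one_of_one_lt₀ hT)
  rw [hs.tsum_eq_add_tsum_ite v0, IsUltrametricDist.norm_add_eq_max_of_norm_ne_norm
    (by rw [h0]; exact h2.ne'), h0, max_eq_left h2.le]

theorem row : OfEIS := by
  intro C _ _ _ _ _ _ T hT L Y Hh D H χ hχ
  have : CharP C 2 := charP_of_injective_algebraMap (algebraMap (ZMod 2) C).injective 2
  let χ' : H →* Cˣ := χ.comp ((ev T).subgroupMap H)
  obtain ⟨a, ha⟩ := exists_coef (V := Prim) χ' fun g v hg => by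
    have h1 : g * g = 1 := Subtype.ext (sq_of_fix g.1 v hg)
    have h2 : (χ' g : C) * χ' g = 1 := by rw [← Units.val_mul, ← map_mul, h1]; simp
    have h3 : (2 : C) = 0 := CharTwo.two_eq_zero
    have h4 : ((χ' g : C) - 1) ^ 2 = 0 := by linear_combination h2 + (1 - (χ' g : C)) * h3
    exact Units.ext (sub_eq_zero.1 (pow_eq_zero_iff two_ne_zero |>.1 h4))
  let b : Prim → C := fun v => χ' (a v)
  have hb : ∀ v, ‖b v‖ = 1 := fun v => hχ _
  have hden : ∀ (g : GL (Fin 2) A), ∀ z ∉ Finf T, den (ev T g).1 z ≠ 0 := fun g z hz =>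
    L.mb.den_ne (toMK D.ga ⟨ev T g, g, rfl⟩) z hz
  refine ⟨fun z => ∑' v, b v / lf T v z, fun n => ?_, ?_, ?_⟩
  · refine Hh.tsum _ _ _ (fun v => ?_) (small Y b hb n)
    refine Hh.congr _ _ _ (Hh.rat _ (Polynomial.C (b v))
      (Polynomial.C (aeval T (v.1 0)) * X + Polynomial.C (aeval T (v.1 1))) fun z hz => ?_)
      fun z _ => by simp [lf]
    simpa [lf] using lf_ne Y v (Y.notin n z hz)
  · rintro ⟨_, g, hg, rfl⟩ z hz
    have h1 : ∀ v, b (g • v) = χ' ⟨g, hg⟩ * b v := fun v =>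
      congrArg Units.val (ha ⟨g, hg⟩ v)
    change ∑' v, b v / lf T v (mob (ev T g).1 z) =
      χ' ⟨g, hg⟩ * den (ev T g).1 z * ∑' v, b v / lf T v z
    rw [tsum_mob b g z (hden g z hz), mul_comm (χ' ⟨g, hg⟩ : C), mul_assoc]
    simp only [h1, mul_div_assoc, tsum_mul_left]
  · rintro _ ⟨g, rfl⟩ z hz
    have hz' : z ∉ Finf T := fun h => by
      have := hz z h
      rw [sub_self, norm_zero] at this
      linarith
    change ‖∑' v, b v / lf T v (mob (ev T g).1 z)‖ = _
    rw [tsum_mob b g z (hden g z hz'), norm_mul, norm_far hT Y _ (fun v => hb _) hz, mul_one]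

end Pool.Agent.MP_a88b1d_nt.REIS
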