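import Pool.Agent.MP_a88b1d_nt.H93.Spec3
import Pool.Agent.MP_a88b1d_nt.H92.Prod

/-! Row EXP: the exponential function of a lattice. -/

open Filter Topology

noncomputable section

namespace Pool.Agent.MP_a88b1d_nt.REXP

open Pool.Agent.MP_a88b1d_nt.St2 Pool.Agent.MP_a88b1d_nt.P2

variable {C : Type} [NontriviallyNormedField C] {T : C} {Λ : Set C}

theorem tend (h : Latt T Λ) (z : C) :
    Tendsto (fun b : {b // b ∈ Λ ∧ b ≠ 0} => 1 - z / b.1) cofinite (𝓝 1) := by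
  refine Metric.tendsto_nhds.2 fun ε hε => eventually_cofinite.2 ?_
  refine ((h.fin (‖z‖ / ε)).preimage Subtype.val_injective.injOn).subset fun b hb => ⟨b.2.1, ?_⟩
  simp only [Set.mem_ofPred_eq, dist_eq_norm, sub_sub_cancel_left, norm_neg, norm_div,
    not_lt] at hb
  rw [le_div_iff₀ (norm_pos_iff.2 b.2.2)] at hb
  rw [le_div_iff₀ hε, mul_comm]
  exact hb

theorem norm_fac (z : C) {b : C} (hb : b ≠ 0) : ‖1 - z / b‖ = ‖z - b‖ / ‖b‖ := by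
  rw [one_sub_div hb, norm_div, norm_sub_rev]

theorem scale (Λ : Set C) (t z : C) (ht : t ≠ 0) :
    ‖ex {b | ∃ a ∈ Λ, b = t * a} (t * z)‖ = ‖t‖ * ‖ex Λ z‖ := by
  let e : {b // b ∈ Λ ∧ b ≠ 0} ≃ {b // b ∈ {b | ∃ a ∈ Λ, b = t * a} ∧ b ≠ 0} :=
    Equiv.ofBijective (fun b => ⟨t * b.1, ⟨b.1, b.2.1, rfl⟩, mul_ne_zero ht b.2.2⟩)
      ⟨fun a b h => Subtype.ext (mul_left_cancel₀ ht (congrArg Subtype.val h)), by
        rintro ⟨_, ⟨a, ha, rfl⟩, h0⟩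
        exact ⟨⟨a, ha, right_ne_zero_of_mul h0⟩, rfl⟩⟩
  rw [ex, ex, ← e.tprod_eq, mul_assoc, norm_mul]
  congr 4
  funext b
  show 1 - t * z / (t * b.1) = _
  rw [mul_div_mul_left _ _ ht]

variable [IsUltrametricDist C]

theorem norm_far {r : ℝ} {z x b : C} (hz : Far T r z) (hb : b ∈ Finf T) (hx : ‖x‖ < r) :
    ‖z - b + x‖ = ‖z - b‖ := by
  have h := hx.trans_le (hz b hb)
  rw [IsUltrametricDist.norm_add_eq_max_of_norm_ne_norm h.ne', max_eq_left h.le]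

variable [CompleteSpace C]

theorem hp (h : Latt T Λ) (z : C) :
    HasProd (fun b : {b // b ∈ Λ ∧ b ≠ 0} => ‖z - b.1‖ / ‖b.1‖)
      ‖∏' b : {b // b ∈ Λ ∧ b ≠ 0}, (1 - z / b.1)‖ := by
  have := (H92.Prod.multipliable (tend h z)).hasProd.norm
  simpa only [fun b : {b // b ∈ Λ ∧ b ≠ 0} => norm_fac z b.2.2] using this

theorem tp_ne (h : Latt T Λ) {z : C} (hz : z ∉ Finf T) :
    ∏' b : {b // b ∈ Λ ∧ b ≠ 0}, (1 - z / b.1) ≠ 0 :=
  H92.Prod.tprod_ne_zero (tend h z) fun b e =>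
    hz (((div_eq_one_iff_eq b.2.2).1 (sub_eq_zero.1 e).symm) ▸ h.mem _ b.2.1)

theorem ne (h : Latt T Λ) {z : C} (hz : z ∉ Finf T) : ex Λ z ≠ 0 :=
  mul_ne_zero (fun e => hz (e ▸ zero_mem _)) (tp_ne h hz)

theorem congr (h : Latt T Λ) {z w : C} (e : ∀ b ∈ Λ, ‖w - b‖ = ‖z - b‖) :
    ‖ex Λ w‖ = ‖ex Λ z‖ := by
  have h1 := hp h w
  simp only [fun b : {b // b ∈ Λ ∧ b ≠ 0} => e b.1 b.2.1] at h1
  have h2 := e 0 h.zero
  rw [sub_zero, sub_zero] at h2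
  rw [ex, ex, norm_mul, norm_mul, h1.unique (hp h z), h2]

theorem prod (h : Latt T Λ) (z : C) {z' : C} (hz' : z' ∉ Finf T) :
    HasProd (fun b : Λ => ‖z - b.1‖ / ‖z' - b.1‖) (‖ex Λ z‖ / ‖ex Λ z'‖) := by
  have h1 : HasProd ((fun b => ‖z - b‖ / ‖z' - b‖) ∘ (↑) : {b | b ∈ Λ ∧ b ≠ 0} → ℝ) _ :=
    Tendsto.congr (fun s => by
      rw [Pi.div_apply, ← Finset.prod_div_distrib]
      exact Finset.prod_congr rfl fun b _ =>
        div_div_div_cancel_right₀ (norm_ne_zero_iff.2 b.2.2) _ _)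
      (Tendsto.div (hp h z) (hp h z') (norm_ne_zero_iff.2 (tp_ne h hz')))
  have h0 : HasProd ((fun b => ‖z - b‖ / ‖z' - b‖) ∘ (↑) : ({0} : Set C) → ℝ)
      (‖z - 0‖ / ‖z' - 0‖) := hasProd_singleton (0 : C) fun b => ‖z - b‖ / ‖z' - b‖
  have h2 := h0.mul_disjoint (Set.disjoint_singleton_left.2 fun k => k.2 rfl) h1
  have e : {0} ∪ {b | b ∈ Λ ∧ b ≠ 0} = Λ := by
    ext b
    by_cases k : b = 0 <;> simp [k, h.zero]
  rw [e, sub_zero, sub_zero, div_mul_div_comm, ← norm_mul, ← norm_mul] at h2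
  exact h2

theorem index {Λ' : Set C} {s : Finset C} (h : Latt T Λ) (h' : Latt T Λ') (hs : Λ ⊆ Λ')
    (h1 : ∀ x ∈ s, x ∈ Λ') (h2 : ∀ b ∈ Λ', ∃! x, x ∈ s ∧ b - x ∈ Λ) :
    ∃ r c : ℝ, 0 < r ∧ 0 < c ∧ ∀ z, Far T r z → ‖ex Λ' z‖ = c * ‖ex Λ z‖ ^ s.card := by
  obtain ⟨r, r0, hr⟩ : ∃ r : ℝ, 0 < r ∧ ∀ x ∈ s, ‖x‖ < r :=
    ⟨∑ x ∈ s, ‖x‖ + 1, by positivity, fun x hx =>
      (Finset.single_le_sum (fun a _ => norm_nonneg a) hx).trans_lt (lt_add_one _)⟩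
  by_cases h0 : ∃ z0, Far T r z0
  swap
  · exact ⟨r, 1, r0, one_pos, fun z hz => (h0 ⟨z, hz⟩).elim⟩
  obtain ⟨z0, hz0⟩ := h0
  have n0 : z0 ∉ Finf T := fun k => r0.not_ge (by simpa using hz0 z0 k)
  have p1 := norm_pos_iff.2 (ne h n0)
  have p2 := norm_pos_iff.2 (ne h' n0)
  refine ⟨r, ‖ex Λ' z0‖ / ‖ex Λ z0‖ ^ s.card, r0, by positivity, fun z hz => ?_⟩
  have k := hasProd_prod_disjoint (f := fun b => ‖z - b‖ / ‖z0 - b‖) s
    (t := fun x => {b | b - x ∈ Λ}) (a := fun _ => ‖ex Λ z‖ / ‖ex Λ z0‖)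
    (fun x hx y hy hxy => Set.disjoint_left.2 fun b a1 a2 => hxy
      ((h2 b (by simpa using h'.add _ (hs a1) _ (h1 x hx))).unique ⟨hx, a1⟩ ⟨hy, a2⟩))
    fun x hx => by
      let e : Λ ≃ {b | b - x ∈ Λ} := (Equiv.addRight x).subtypeEquiv fun b => by simp
      have q : ∀ w, Far T r w → ∀ b : Λ, ‖w - (b.1 + x)‖ = ‖w - b.1‖ := fun w hw b => by
        rw [← sub_sub, sub_eq_add_neg _ x]
        exact norm_far hw (h.mem _ b.2) (by rw [norm_neg]; exact hr x hx)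
      refine e.hasProd_iff.1 ?_
      show HasProd (fun b : Λ => ‖z - (b.1 + x)‖ / ‖z0 - (b.1 + x)‖) _
      simp only [q z hz, q z0 hz0]
      exact prod h z n0
  have e : ⋃ x ∈ s, {b | b - x ∈ Λ} = Λ' := by
    ext b
    simp only [Set.mem_iUnion, Set.mem_ofPred_eq, exists_prop]
    exact ⟨fun ⟨x, a1, a2⟩ => by simpa using h'.add _ (hs a2) _ (h1 x a1),
      fun k => (h2 b k).exists⟩
  rw [e, Finset.prod_const] at k
  have := (prod h' z n0).unique k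
  rw [div_eq_iff p2.ne', div_pow] at this
  rw [this]
  ring

theorem row : OfEXP := by
  intro C _ _ _ _ _ _ T _ _ _
  refine ⟨fun Λ h z hz => ne h hz, fun Λ h z _ z' hz' => prod h z hz',
    fun Λ h r z w hz hw => congr h fun b hb => ?_, scale,
    fun Λ Λ' s => index, fun σ hσ Λ h z => congr h fun b hb => ?_⟩
  · rw [← norm_far hz (h.mem b hb) hw]
    congr 1
    ring
  · rw [← hσ.1 (z - b), map_sub, hσ.2 b (h.mem b hb)]

end Pool.Agent.MP_a88b1d_nt.REXP
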