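import Pool.Agent.MP_a88b1d_nt.H93.Spec3

/-! Rows TRANSP and FINAL. -/

open Polynomial

namespace Pool.Agent.MP_a88b1d_nt.RFINAL

open Pool.Agent.MP_a88b1d_nt.St2 Pool.Agent.MP_a88b1d_nt.P2
open Pool.Agent.MP_a88b1d_nt.H42 (A M2 MK nrm dd st rG r0 Good Psi IsTree TreeAPI QGraph GramOK pp
  qq Quat rD kk DD)

section Tree
variable {V : Type} [Monoid V] {d : V → V → ℕ} {s : Fin 3 → V} {G : Type} [Group G]
  {ρ : G →* V} {N : ℕ} {g : ℕ → V} {tgt rev : ℕ → ℕ} {γ : ℕ → G}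

theorem cover (H : IsTree d s) (T : TreeAPI d s) (Q : QGraph d s ρ N g tgt rev γ) (x : V) :
    ∃ a j, j < N ∧ d (ρ a * g j) x = 0 := by
  refine T.conn (fun y => ∃ a j, j < N ∧ d (ρ a * g j) y = 0) 1 (fun y hy => ?_)
    (fun y y' h1 _ hy => ?_) x
  · exact ⟨1, 0, Q.pos, by rw [map_one, Q.g0, one_mul]; exact hy⟩
  · obtain ⟨a, j, hj, h⟩ := hy
    obtain ⟨k, hk⟩ := T.nbr (ρ a * g j) y' ((T.congr _ _ _ h).trans h1)
    have he : 3 * j + k < 3 * N := by omega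
    have e1 : (3 * j + k) / 3 = j := by omega
    have e2 : kk (3 * j + k) = k := Fin.ext (by simp only [kk]; omega)
    have h2 := Q.step _ he
    rw [e1, e2, ← H.inv (ρ a), ← mul_assoc, ← mul_assoc, ← map_mul] at h2
    refine ⟨a * γ (3 * j + k), tgt (3 * j + k), Q.tgt_lt _ he, ?_⟩
    rw [← T.congr _ _ _ h2]
    exact hk

theorem coc (H : IsTree d s) (T : TreeAPI d s) (Q : QGraph d s ρ N g tgt rev γ) :
    ∃ R : ℕ, ∀ x, ∃ a, d 1 (ρ a * x) ≤ R := by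
  refine ⟨(Finset.range N).sup fun j => d 1 (g j), fun x => ?_⟩
  obtain ⟨a, j, hj, h⟩ := cover H T Q x
  refine ⟨a⁻¹, ?_⟩
  rw [← H.inv (ρ a⁻¹), ← mul_assoc, ← map_mul, inv_mul_cancel, map_one, one_mul] at h
  have h1 := H.tri 1 (g j) (ρ a⁻¹ * x)
  have h2 : d 1 (g j) ≤ (Finset.range N).sup fun j => d 1 (g j) :=
    Finset.le_sup (f := fun j => d 1 (g j)) (Finset.mem_range.2 hj)
  omega

theorem psi_equiv {G' : Type} [Group G'] {ρ' : G' →* V} (e : G ≃ G') (he : ∀ a, ρ' (e a) = ρ a)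
    (x y u u' : V) : Psi d ρ' x y u u' = Psi d ρ x y u u' := by
  unfold Psi
  rw [← finsum_comp_equiv e]
  simp only [he]

end Tree

theorem row : OfTRANSP := by
  intro C _ _ _ _ _ _ T hT L emb sn tr dg gd di ι hι
  obtain ⟨e, ι0, hs⟩ := emb
  have hι' : H42.Emb T ι := hι
  obtain ⟨h, hh⟩ := sn ι0 ι hs.emb hι'
  have hc : ∀ a, h * rD hι' a = rD hs.emb a * h := fun a => Subtype.ext (hh a.1)
  obtain ⟨hg, hgr⟩ := tr _ (rD hs.emb) (rD hι') h hc hs.good (gd e ι0 hs)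
  obtain ⟨g, tgt, rev, γ, l, hq, -, -⟩ := dg e ι0 hs
  have t := L.tree.tree
  have hD : Disc T (Units.map ι.toMonoidHom).range := di.ofgood _ (rD hι') _ hg (by
    rintro _ ⟨a, rfl⟩
    exact ⟨a, rfl⟩)
  have hinj : Function.Injective (Units.map ι.toMonoidHom) := by
    rw [injective_iff_map_eq_one]
    intro a ha
    have h1 : rD hι' a = 1 := Subtype.ext (congrArg Units.val ha)
    have h2 := hc a
    rw [h1, mul_one] at h2
    have h3 : (rD hs.emb a).1 = 1 := by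
      have h4 : h.1 = (rD hs.emb a).1 * h.1 := congrArg Subtype.val h2
      have hu : IsUnit h.1 := (Matrix.isUnit_iff_isUnit_det _).2 (Ne.isUnit h.2.2)
      exact hu.mul_right_cancel (by rw [← h4, one_mul])
    have h5 : rD hs.emb a = 1 := Subtype.ext h3
    exact (hq.base a 0 hq.pos (by rw [h5, hq.g0, one_mul]; exact t.self 1)).1
  let E := (MonoidHom.ofInjective hinj).toEquiv
  have hE : ∀ a, toMK hD (E a) = rD hι' a := fun a => Subtype.ext rfl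
  refine ⟨hD, ?_, ?_⟩
  · obtain ⟨R, hR⟩ := coc t L.api hq
    refine ⟨dd T h 1 + R, fun x => ?_⟩
    obtain ⟨a, ha⟩ := hR (h * x)
    refine ⟨E a, ?_⟩
    rw [hE, ← t.inv h, mul_one, ← mul_assoc, hc, mul_assoc]
    have := t.tri h 1 (rD hs.emb a * (h * x))
    omega
  · obtain ⟨γ', hγ'⟩ := hgr
    refine ⟨fun j => E (γ' j), fun c hc' => hγ' c fun a => ?_⟩
    have := hc' (E a)
    simp only [psi_equiv E hE, hE] at this
    exact this

/-- A surjection with kernel of order prime to 3 is onto on the `3 ^ k`-torsion. -/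
theorem lift_tors {X Y : Type} [AddCommGroup X] [AddCommGroup Y] (ψ : X →+ Y)
    (hs : Function.Surjective ψ) (h3 : ¬ 3 ∣ Nat.card ψ.ker) (k : ℕ) (y : Y)
    (hy : 3 ^ k • y = 0) : ∃ x, ψ x = y ∧ 3 ^ k • x = 0 := by
  obtain ⟨x, rfl⟩ := hs y
  have hc : IsCoprime (Nat.card ψ.ker : ℤ) ((3 ^ k : ℕ) : ℤ) := by
    rw [Nat.isCoprime_iff_coprime]
    exact (Nat.Coprime.pow_left k ((Nat.Prime.coprime_iff_not_dvd Nat.prime_three).2 h3)).symm
  obtain ⟨a, b, hab⟩ := hc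
  have h1 : 3 ^ k • x ∈ ψ.ker := by rw [AddMonoidHom.mem_ker, map_nsmul, hy]
  have h2 : Nat.card ψ.ker • 3 ^ k • x = 0 :=
    congrArg Subtype.val (card_nsmul_eq_zero' (x := (⟨_, h1⟩ : ψ.ker)))
  refine ⟨(a * Nat.card ψ.ker) • x, ?_, ?_⟩
  · have e : a * (Nat.card ψ.ker : ℤ) = 1 - b * ((3 ^ k : ℕ) : ℤ) := by linear_combination hab
    rw [map_zsmul, e, sub_zsmul, one_zsmul, mul_zsmul, natCast_zsmul, hy, zsmul_zero, neg_zero,
      add_zero]
  · rw [smul_comm, mul_zsmul, natCast_zsmul, h2, zsmul_zero]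

theorem row2 : OfFINAL := by
  intro C _ _ _ _ _ _ T hT L emb di ga si nw ds tr mf ol su hd
  obtain ⟨e, ι0, hs⟩ := emb
  refine ⟨⟨ι0, hs.emb⟩, fun ι hι Γ Δ hΓ hΔ => ⟨⟨fun D hD => ?_, fun D hD => ?_⟩, fun ψ hψ => ?_⟩⟩
  · subst hΓ
    have hn : pp * qq ≠ 0 := mul_ne_zero
      (fun h => by simpa [pp] using congrArg (fun P : A => P.coeff 0) h)
      fun h => by simpa [qq] using congrArg (fun P : A => P.coeff 0) h
    obtain ⟨χ, f, M, -⟩ := ol.kill _ hn D hD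
    exact su _ _ χ f D (Or.inr ⟨_, hn, rfl, rfl⟩) M
  · subst hΔ
    obtain ⟨h, hc, -⟩ := tr ι hι
    obtain ⟨f, M⟩ := (mf.prin _ _ D (di.setD _ h)).1 hD
    exact su _ _ 1 f D (Or.inl ⟨rfl, h, hc⟩) M
  subst hΓ hΔ
  suffices h3 : 3 ∣ Nat.card ψ.ker by
    refine ⟨h3, ⟨fun e => ?_⟩⟩
    rw [Nat.card_congr e.toEquiv, Nat.card_prod, Nat.card_zmod, Nat.card_zmod] at h3
    omega
  by_contra h3
  obtain ⟨hD, hc, hg⟩ := tr ι hι
  obtain ⟨S, hS, hgal⟩ := hψ.gal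
  obtain ⟨σ, k, ω, hi, hσ⟩ := si hd S hS
  obtain ⟨E, hE0, hE1, hE2⟩ := ds _ hD hc hg σ k ω hi
  have hx : ∀ j, ∃ D : Div0 T (G0 T (pp * qq)) (GA T),
      ψ (QuotientAddGroup.mk D) = QuotientAddGroup.mk ⟨E j, hE0 j⟩ ∧
        3 ^ k • D.1 ∈ Prin T (G0 T (pp * qq)) (GA T) ⊔ Old T (pp * qq) := by
    intro j
    obtain ⟨x, h1, h2⟩ := lift_tors ψ hψ.surj h3 k (QuotientAddGroup.mk ⟨E j, hE0 j⟩) (by
      rw [← QuotientAddGroup.mk_nsmul, QuotientAddGroup.eq_zero_iff]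
      exact hE1 j)
    obtain ⟨D, rfl⟩ := QuotientAddGroup.mk_surjective x
    rw [← QuotientAddGroup.mk_nsmul, QuotientAddGroup.eq_zero_iff] at h2
    exact ⟨D, h1, h2⟩
  choose D hD1 hD2 using hx
  obtain ⟨c, ⟨j0, hj0⟩, hc⟩ := nw σ k ω hi (fun j => (D j).1) (fun j => (D j).2) hD2
  let D' : Fin 59 → Div0 T (G0 T (pp * qq)) (GA T) := fun j =>
    ⟨act σ (D j).1, ga.div0 _ _ σ (di.set0 _) hi.iso _ (D j).2⟩
  let E' : Fin 59 → Div0 T (Units.map ι.toMonoidHom).range ∅ := fun j =>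
    ⟨act σ (E j), ga.div0 _ _ σ (di.setD _ hD) hi.iso _ (hE0 j)⟩
  have h1 : ∀ j, ψ (QuotientAddGroup.mk (D' j)) = QuotientAddGroup.mk (E' j) := fun j =>
    hgal σ hi.iso.1 hi.iso.2 hσ (D j) (D' j) ⟨E j, hE0 j⟩ (E' j) rfl rfl (hD1 j)
  have h2 : QuotientAddGroup.mk' ((Prin T (G0 T (pp * qq)) (GA T) ⊔ Old T (pp * qq)).addSubgroupOf
      (Div0 T (G0 T (pp * qq)) (GA T))) (∑ j, c j • (D' j - D j)) = 0 := by
    rw [QuotientAddGroup.mk'_apply, QuotientAddGroup.eq_zero_iff, AddSubgroup.mem_addSubgroupOf]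
    simp only [AddSubgroup.val_finsetSum, AddSubgroupClass.coe_zsmul, AddSubgroupClass.coe_sub]
    exact hc
  have h4 : QuotientAddGroup.mk' ((Prin T (Units.map ι.toMonoidHom).range ∅).addSubgroupOf
      (Div0 T (Units.map ι.toMonoidHom).range ∅)) (∑ j, c j • (E' j - ⟨E j, hE0 j⟩)) = 0 := by
    have := congrArg ψ h2
    simp only [map_sum, map_zsmul, map_sub, map_zero, QuotientAddGroup.mk'_apply, h1, hD1] at this
    simpa only [map_sum, map_zsmul, map_sub, QuotientAddGroup.mk'_apply] using this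
  rw [QuotientAddGroup.mk'_apply, QuotientAddGroup.eq_zero_iff, AddSubgroup.mem_addSubgroupOf] at h4
  simp only [AddSubgroup.val_finsetSum, AddSubgroupClass.coe_zsmul, AddSubgroupClass.coe_sub] at h4
  exact hj0 (hE2 c h4 j0)

end Pool.Agent.MP_a88b1d_nt.RFINAL
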