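import Pool.Agent.MP_a88b1d_nt.H93.Spec3

/-! From an invariant order function to a divisor on the curve. -/

open Polynomial Filter Topology OnePoint

noncomputable section

namespace Pool.Agent.MP_a88b1d_nt.RFINS

open Pool.Agent.MP_a88b1d_nt.St2
open Pool.Agent.MP_a88b1d_nt.P2
open Pool.Agent.MP_a88b1d_nt.H42 (MK den)

variable {C : Type} [NontriviallyNormedField C] [Algebra (ZMod 2) C] [DecidableEq C] {T : C}

omit [Algebra (ZMod 2) C] in
theorem orbit {Γ : Subgroup (GL (Fin 2) C)} {K : Set (GL (Fin 2) C)} (s : Finset (OnePoint C))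
    (hs : ∀ a ∈ s, a ∈ Pts T K) (D : OnePoint C → ℤ) (hD : ∀ g ∈ Γ, ∀ x, D (g • x) = D x)
    (h : ∀ x, D x ≠ 0 → ∃ a ∈ s, ∃ g ∈ Γ, g • a = x) : D ∈ Dv T Γ K := by
  classical
  induction s using Finset.induction_on generalizing D with
  | empty =>
    have : D = 0 := funext fun x => by
      by_contra hx
      simpa using h x hx
    rw [this]
    exact zero_mem _
  | insert a s _ ih =>
    have h1 : pt Γ a ∈ Dv T Γ K :=
      AddSubgroup.subset_closure ⟨a, hs a (Finset.mem_insert_self _ _), rfl⟩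
    have hin : ∀ x, (∃ g ∈ Γ, g • a = x) → pt Γ a x = 1 := fun x hx =>
      Set.indicator_of_mem (s := {t | ∃ g ∈ Γ, g • a = t}) hx _
    have hout : ∀ x, ¬ (∃ g ∈ Γ, g • a = x) → pt Γ a x = 0 := fun x hx =>
      Set.indicator_of_notMem (s := {t | ∃ g ∈ Γ, g • a = t}) hx _
    have h2 : D - D a • pt Γ a ∈ Dv T Γ K := by
      refine ih (fun b hb => hs b (Finset.mem_insert_of_mem hb)) _ (fun g hg x => ?_) fun x hx => ?_
      · simp only [Pi.sub_apply, Pi.smul_apply, hD g hg]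
        by_cases hx : ∃ k ∈ Γ, k • a = x
        · obtain ⟨k, hk, rfl⟩ := hx
          rw [hin _ ⟨k, hk, rfl⟩, hin _ ⟨g * k, mul_mem hg hk, mul_smul _ _ _⟩]
        · rw [hout _ hx, hout]
          rintro ⟨k, hk, e⟩
          exact hx ⟨g⁻¹ * k, mul_mem (inv_mem hg) hk, by rw [mul_smul, e, inv_smul_smul]⟩
      · simp only [Pi.sub_apply, Pi.smul_apply, smul_eq_mul] at hx
        by_cases hx' : ∃ k ∈ Γ, k • a = x
        · obtain ⟨k, hk, rfl⟩ := hx'
          rw [hin _ ⟨k, hk, rfl⟩, hD k hk] at hx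
          simp at hx
        · rw [hout _ hx', mul_zero, sub_zero] at hx
          obtain ⟨b, hb, g, hg, e⟩ := h x hx
          rcases Finset.mem_insert.1 hb with rfl | hb
          · exact absurd ⟨g, hg, e⟩ hx'
          · exact ⟨b, hb, g, hg, e⟩
    simpa using add_mem h2 (zsmul_mem h1 (D a))

theorem card_dvd (L : LIB T) (hM : MOBN T) (hD : DISC T) {Γ : Subgroup (GL (Fin 2) C)}
    (h : Disc T Γ) {z : C} (hz : z ∉ Finf T) (k : ℤ)
    (hk : ∀ g : Γ, mob g.1.1 z = z → den g.1.1 z ^ (2 * k) = 1) :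
    (Nat.card (MulAction.stabilizer Γ (z : OnePoint C)) : ℤ) ∣ k := by
  have := hD.stabfin Γ h z hz
  have fix : ∀ g : MulAction.stabilizer Γ (z : OnePoint C), mob g.1.1.1 z = z := fun g => by
    have h1 : g.1.1 • (z : OnePoint C) = z := g.2
    rw [hM.smul g.1.1 (h.mem _ g.1.2) z hz] at h1
    exact OnePoint.coe_injective h1
  let φ : MulAction.stabilizer Γ (z : OnePoint C) →* C :=
    { toFun := fun g => den g.1.1.1 z ^ 2
      map_one' := by simp [den]
      map_mul' := fun a b => by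
        have := L.mb.den_mul (toMK h a.1) (toMK h b.1) z hz
        rw [← map_mul, toMK_val, toMK_val, toMK_val, fix b] at this
        rw [← mul_pow, ← this]
        rfl }
  have two : (2 : C) = 0 := by
    have : algebraMap (ZMod 2) C 2 = 0 := by
      rw [show (2 : ZMod 2) = 0 from rfl, map_zero]
    simpa [map_ofNat] using this
  have hinj : Function.Injective φ.toHomUnits := by
    rw [injective_iff_map_eq_one]
    intro g hg
    have h1 : den g.1.1.1 z ^ 2 = 1 := congrArg Units.val hg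
    have h2 : den g.1.1.1 z = 1 := by
      have : (den g.1.1.1 z - 1) ^ 2 = 0 := by
        linear_combination h1 + (1 - den g.1.1.1 z) * two
      exact sub_eq_zero.1 (pow_eq_zero_iff two_ne_zero |>.1 this)
    have hf := fix g
    have hm := h.mem _ g.1.2
    have hd := h.det _ g.1.2
    rw [Matrix.det_fin_two] at hd
    unfold den at h2
    have hc : g.1.1.1 1 0 = 0 := by
      by_contra hc
      apply hz
      have : z = (1 - g.1.1.1 1 1) / g.1.1.1 1 0 := by
        rw [eq_div_iff hc]; linear_combination h2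
      rw [this]
      exact div_mem (sub_mem (one_mem _) (hm 1 1)) (hm 1 0)
    unfold mob at hf
    rw [h2, div_one] at hf
    rw [hc, zero_mul, zero_add] at h2
    rw [hc, h2, mul_zero, sub_zero, mul_one] at hd
    rw [hd, one_mul, add_eq_left] at hf
    ext i j
    fin_cases i <;> fin_cases j <;> simp [hc, h2, hd, hf]
  have hinj' : Function.Injective φ := fun a b hab => hinj (Units.ext hab)
  have := isCyclic_of_injective_ringHom φ hinj'
  obtain ⟨g, hg⟩ := IsCyclic.exists_ofOrder_eq_natCard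
    (α := MulAction.stabilizer Γ (z : OnePoint C))
  rw [← hg, orderOf_dvd_iff_zpow_eq_one]
  apply hinj
  rw [map_zpow, map_one]
  apply Units.ext
  rw [Units.val_zpow_eq_zpow_val, Units.val_one, ← hk g.1 (fix g), zpow_mul]
  congr 1
  exact (zpow_natCast _ 2).symm

theorem row : OfFINS := by
  intro C _ _ _ _ _ _ T hT L hF h1 h3 hM hD Γ K χ f e hS hf haut hst hcusp ⟨N, hN⟩
  classical
  have h := hS.disc
  obtain ⟨D, hD1, hD0⟩ : ∃ D : OnePoint C → ℤ, (∀ z ∉ Finf T,
      D z = e z / Nat.card (MulAction.stabilizer Γ (z : OnePoint C))) ∧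
      ∀ x, (¬ ∃ z ∉ Finf T, x = (z : OnePoint C)) → D x = 0 := by
    refine ⟨fun x => @OnePoint.rec C (fun _ => ℤ) 0 (fun z => if z ∈ Finf T then 0 else
      e z / Nat.card (MulAction.stabilizer Γ (z : OnePoint C))) x, fun z hz => if_neg hz,
      fun x hx => ?_⟩
    induction x using OnePoint.rec with
    | infty => rfl
    | coe z => exact if_pos (by_contra fun hz => hx ⟨z, hz, rfl⟩)
  have hdvd : ∀ z ∉ Finf T, (Nat.card (MulAction.stabilizer Γ (z : OnePoint C)) : ℤ) ∣ e z :=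
    fun z hz => card_dvd L hM hD h hz _ fun g hg => by
      have := h3.ell (toMK h g) f e (χ g) hf (h.det _ g.2) (haut g) z hz hg
      rwa [hst g z hz hg, Units.val_one, one_mul] at this
  have heD : ∀ z ∉ Finf T, e z = eD Γ D z := fun z hz => by
    rw [eD, hD1 z hz, Int.mul_ediv_cancel' (hdvd z hz)]
  have hinv : ∀ g ∈ Γ, ∀ x, D (g • x) = D x := by
    intro g hg x
    by_cases hx : ∃ z ∉ Finf T, x = (z : OnePoint C)
    · obtain ⟨z, hz, rfl⟩ := hx
      have e1 := hM.smul g (h.mem g hg) z hz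
      have e2 : mob g.1 z ∉ Finf T := L.mb.om (toMK h ⟨g, hg⟩) z hz
      have e3 : e (mob g.1 z) = e z :=
        h3.inv (toMK h ⟨g, hg⟩) f e (χ ⟨g, hg⟩) hf (Units.ne_zero _) (haut ⟨g, hg⟩) z hz
      rw [hD1 z hz, ← hD.cardinv Γ z g hg, e1, hD1 _ e2, e3]
    · rw [hD0 x hx, hD0]
      rintro ⟨z, hz, e1⟩
      exact hx (hM.back g (h.mem g hg) x z hz e1)
  have hfin := h1.fin N f e (hf N)
  refine ⟨D, orbit (hfin.toFinset.image fun z : C => (z : OnePoint C)) ?_ D hinv ?_,
    ⟨fun n => h1.congr n f f e _ ∅ (hf n) (fun _ _ _ => rfl) fun z hz => heD z (hF.notin n z hz),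
      fun γ hγ => ?_, fun x hx => hD0 x fun hx' => hx (Or.inl hx')⟩, haut⟩
  · intro a ha
    obtain ⟨z, hz, rfl⟩ := Finset.mem_image.1 ha
    exact Or.inl ⟨z, hF.notin N z (hfin.mem_toFinset.1 hz).1, rfl⟩
  · intro x hx
    obtain ⟨z, hz, rfl⟩ : ∃ z ∉ Finf T, x = (z : OnePoint C) := by_contra fun hc => hx (hD0 x hc)
    have hez : e z ≠ 0 := fun h0 => hx (by rw [hD1 z hz, h0, Int.zero_ediv])
    obtain ⟨g, hg, hm⟩ := hN z hz hez
    have e3 : e (mob g.1 z) = e z :=
      h3.inv (toMK h ⟨g, hg⟩) f e (χ ⟨g, hg⟩) hf (Units.ne_zero _) (haut ⟨g, hg⟩) z hz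
    refine ⟨(mob g.1 z : C), Finset.mem_image.2 ⟨_, hfin.mem_toFinset.2 ⟨hm, e3 ▸ hez⟩, rfl⟩, g⁻¹,
      inv_mem hg, ?_⟩
    rw [← hM.smul g (h.mem g hg) z hz, inv_smul_smul]
  · rw [hD0 (γ • ∞) fun ⟨z, hz, e1⟩ => hD.notcusp γ (hS.cusp γ hγ) z hz e1]
    exact hcusp γ hγ

end Pool.Agent.MP_a88b1d_nt.RFINS
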