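import Pool.Agent.MP_a88b1d_nt.H93.Spec3

/-!
Conjugation of functions with multipliers and of divisors of degree zero.
-/

open Polynomial OnePoint Filter Topology

noncomputable section

namespace Pool.Agent.MP_a88b1d_nt.RGAL

open Pool.Agent.MP_a88b1d_nt.St2 Pool.Agent.MP_a88b1d_nt.P2

variable {C : Type} [NontriviallyNormedField C]

theorem map_symm (σ : C ≃+* C) (x : OnePoint C) : (x.map σ).map σ.symm = x := by
  induction x using OnePoint.rec with
  | infty => rfl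
  | coe z => simp [OnePoint.map_some]

theorem symm_map (σ : C ≃+* C) (x : OnePoint C) : (x.map σ.symm).map σ = x := map_symm σ.symm x

theorem map_inj (σ : C ≃+* C) {x y : OnePoint C} (h : x.map σ = y.map σ) : x = y := by
  rw [← map_symm σ x, h, map_symm]

variable [Algebra (ZMod 2) C] [DecidableEq C] {T : C} {Γ : Subgroup (GL (Fin 2) C)}
  {K : Set (GL (Fin 2) C)} {σ : C ≃+* C}

theorem cusp_fix (hM : MOBN T) (hD : DISC T) (hσ : Iso T σ) {γ : GL (Fin 2) C} (hγ : γ ∈ GA T) :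
    (γ • (∞ : OnePoint C)).map σ = γ • ∞ :=
  (hM.sig σ hσ γ (hD.ga.mem γ hγ)).2 ∞

theorem pts_map (hH : HOL T) (hM : MOBN T) (hD : DISC T) (hS : Setup T Γ K) (hσ : Iso T σ)
    {x : OnePoint C} (hx : x ∈ Pts T K) : x.map σ ∈ Pts T K := by
  rcases hx with ⟨z, hz, rfl⟩ | ⟨γ, hγ, rfl⟩
  · exact Or.inl ⟨σ z, fun h => hz (((hH.sigom σ hσ).2.1 z).1 h), rfl⟩
  · exact Or.inr ⟨γ, hγ, cusp_fix hM hD hσ (hS.cusp γ hγ)⟩

omit [Algebra (ZMod 2) C] in
theorem stab_map (hM : MOBN T) (hΓ : Disc T Γ) (hσ : Iso T σ) (x : OnePoint C) :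
    MulAction.stabilizer Γ (x.map σ) = MulAction.stabilizer Γ x := by
  ext g
  have h := (hM.sig σ hσ g.1 (hΓ.mem g.1 g.2)).2 x
  simp only [MulAction.mem_stabilizer_iff, Subgroup.smul_def]
  exact ⟨fun e => map_inj σ (h.trans e), fun e => by rw [← h, e]⟩

omit [Algebra (ZMod 2) C] in
theorem act_pt (hM : MOBN T) (hΓ : Disc T Γ) (hσ : Iso T σ) (x : OnePoint C) :
    act σ (pt Γ x) = pt Γ (x.map σ) := by
  funext y
  have h : (∃ g ∈ Γ, g • x = y.map σ.symm) ↔ ∃ g ∈ Γ, g • x.map σ = y := by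
    refine exists_congr fun g => and_congr_right fun hg => ?_
    rw [← (hM.sig σ hσ g (hΓ.mem g hg)).2 x]
    exact ⟨fun e => by rw [e, symm_map], fun e => by rw [← e, map_symm]⟩
  classical
  simp only [act, pt, Set.indicator_apply, Set.mem_ofPred_eq, h, Pi.one_apply]

theorem row : OfGAL := by
  intro C _ _ _ _ _ _ T _ _ hH h1 hM hE hD
  refine ⟨fun Γ K χ f D σ hS hσ hf => ?_, fun Γ K σ hS hσ D hD0 => ?_⟩
  · have hτ : Iso T σ.symm := (hH.sigom σ hσ).1
    obtain ⟨a1, a2, a3⟩ := (isDiv_iff T Γ K f D).1 hf.div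
    refine ⟨(isDiv_iff T Γ K _ _).2 ⟨fun n => ?_, fun γ hγ => ?_, fun x hx => ?_⟩,
      fun g z hz => ?_⟩
    · have e : eD Γ (act σ D) = fun z => eD Γ D (σ.symm z) := by
        funext z
        rw [eD, eD, ← stab_map hM hS.disc hτ]
        rfl
      rw [e]
      exact h1.sig σ hσ n f _ (a1 n)
    · obtain ⟨r, c₁, c₂, hc, h⟩ := a2 γ hγ
      have hγ' := hS.cusp γ hγ
      refine ⟨r, c₁, c₂, hc, fun z hz => ?_⟩
      have := h (σ.symm z) fun x hx => by
        rw [← hτ.2 x hx, ← map_sub, hτ.1]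
        exact hz x hx
      rw [hE.sig _ hτ _ (hD.latt Γ hS.disc γ hγ')] at this
      simpa only [act, cusp_fix hM hD hτ hγ', hσ.1, (hM.sig _ hτ γ (hD.ga.mem γ hγ')).1] using this
    · refine a3 _ fun h => hx ?_
      rw [← symm_map σ x]
      exact pts_map hH hM hD hS hσ h
    · rw [(hM.sig _ hτ g.1 (hS.disc.mem g.1 g.2)).1,
        hf.aut g _ fun h => hz (((hH.sigom _ hτ).2.1 z).1 h), map_mul, chs_val]
  · rw [div0_eq] at hD0 ⊢
    induction hD0 using AddSubgroup.closure_induction with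
    | mem D h =>
      obtain ⟨x, hx, y, hy, rfl⟩ := h
      refine AddSubgroup.subset_closure ⟨_, pts_map hH hM hD hS hσ hx, _,
        pts_map hH hM hD hS hσ hy, ?_⟩
      rw [← act_pt hM hS.disc hσ, ← act_pt hM hS.disc hσ]
      rfl
    | zero => exact zero_mem _
    | add D E _ _ h h' => exact add_mem h h'
    | neg D _ h => exact neg_mem h

end Pool.Agent.MP_a88b1d_nt.RGAL
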