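import Pool.Agent.MP_a88b1d_nt.H93.Spec3
import Pool.Agent.MP_a88b1d_nt.H8.Ta
import Pool.Agent.MP_a88b1d_nt.H22.Pa

/-! Unfolding sums over the darts of a tree modulo a group. -/

namespace Pool.Agent.MP_a88b1d_nt.RGR

open Pool.Agent.MP_a88b1d_nt.P2 Pool.Agent.MP_a88b1d_nt.H42 Finset

noncomputable section

variable {V : Type} [Monoid V] {d : V → V → ℕ} {s : Fin 3 → V} {G : Type} [Group G]
  {ρ : G →* V} {l : V → ℤ}

/-- number of group elements that carry the pair `u, u'` to the pair `x, y` -/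
def N (d : V → V → ℕ) (ρ : G →* V) (x y u u' : V) : ℤ :=
  ∑ᶠ g, if d x (ρ g * u) = 0 ∧ d y (ρ g * u') = 0 then 1 else 0

/-- vertices with a dart along which `l` changes -/
def Y (d : V → V → ℕ) (l : V → ℤ) (x : V) : Prop := ∃ y, d x y = 1 ∧ l x ≠ l y

/-- invariant functions on darts that vanish where `l` does not change -/
structure Ok {K : Type} [Field K] (d : V → V → ℕ) (ρ : G →* V) (l : V → ℤ) (h : V → V → K) :
    Prop where
  inv : ∀ g x y u u', d x (ρ g * u) = 0 → d y (ρ g * u') = 0 → h x y = h u u'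
  supp : ∀ x y, l x = l y → h x y = 0

lemma flip (hT : IsTree d s) (g : G) (a b : V) : d a (ρ g⁻¹ * b) = d b (ρ g * a) := by
  rw [← hT.inv (ρ g), ← mul_assoc, ← map_mul, mul_inv_cancel, map_one, one_mul, hT.comm]

lemma z3 (hT : IsTree d s) {x y z : V} (h : d x y = 0) (h' : d y z = 0) : d x z = 0 := by
  have := hT.tri x y z
  omega

lemma perm (hT : IsTree d s) {x x' : V} (h : d x x' = 0) :
    ∃ σ : Fin 3 → Fin 3, σ.Bijective ∧ ∀ k, d (x * s (σ k)) (x' * s k) = 0 := by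
  have hA := H8.ta V d s hT
  choose σ hσ using fun k => hA.nbr x (x' * s k) (by rw [hA.congr x x' _ h, hA.adjx])
  refine ⟨σ, Finite.injective_iff_bijective.1 fun k k' e => hA.nbd x' k k' ?_, hσ⟩
  exact z3 hT (hT.comm _ _ ▸ hσ k) (e ▸ hσ k')

lemma ball (hT : IsTree d s) (R : ℕ) : ∃ B : Finset V, ∀ x, d 1 x ≤ R → ∃ b ∈ B, d b x = 0 := by
  classical
  have hA := H8.ta V d s hT
  induction R with
  | zero => exact ⟨{1}, fun x hx => ⟨1, by simp, by omega⟩⟩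
  | succ R ih =>
    obtain ⟨B, hB⟩ := ih
    refine ⟨B ∪ (B ×ˢ univ).image fun p => p.1 * s p.2, fun x hx => ?_⟩
    by_cases h : d 1 x ≤ R
    · obtain ⟨b, hb, e⟩ := hB x h
      exact ⟨b, mem_union_left _ hb, e⟩
    have c := hT.comm 1 x
    obtain ⟨k, hk, -⟩ := hT.uniq x 1 (by omega)
    obtain ⟨b, hb, e⟩ := hB (x * s k) (by rw [hT.comm]; omega)
    obtain ⟨k', e'⟩ := hA.nbr b x (by rw [hA.congr _ _ _ e, hT.comm, hA.adjx])
    exact ⟨_, mem_union_right _ (mem_image.2 ⟨(b, k'), by simp [hb], rfl⟩), e'⟩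

section
variable (hT : IsTree d s) (hP : Proper d ρ)
include hT hP

lemma fin (x y u u' : V) (c : ℤ) : (Function.support fun g =>
    if d x (ρ g * u) = 0 ∧ d y (ρ g * u') = 0 then c else 0).Finite :=
  ((H22.pa H8.ta V d s G ρ hT hP).prop x u 0).subset fun g hg => by
    by_contra h0
    exact hg (if_neg fun h1 => h0 (show d x (ρ g * u) ≤ 0 from h1.1.le))

lemma sumN (a : V) {u u' : V} (h : d u u' = 1) :
    ∑ k, N d ρ a (a * s k) u u' = N d ρ a a u u := by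
  have hA := H8.ta V d s hT
  simp only [N]
  rw [← finsum_sum_comm _ _ fun k _ => fin hT hP _ _ _ _ _]
  refine finsum_congr fun g => ?_
  by_cases e : d a (ρ g * u) = 0
  · obtain ⟨k, hk⟩ := hA.nbr a (ρ g * u') (by rw [hA.congr _ _ _ e, hT.inv, h])
    rw [sum_eq_single k (fun k' _ hk' => if_neg fun e' =>
      hk' (hA.nbd a k' k (z3 hT e'.2 (hT.comm _ _ ▸ hk)))) (by simp)]
    simp [e, hk]
  · simp [e]

lemma psiN (x y u u' : V) (h : d x y = 1) (h' : d u u' = 1) :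
    Psi d ρ x y u u' = 2 * N d ρ x y u u' - 2 * N d ρ x y u' u := by
  rw [N, N, mul_finsum' _ _ (fin hT hP _ _ _ _ _), mul_finsum' _ _ (fin hT hP _ _ _ _ _)]
  simp only [mul_ite, mul_one, mul_zero]
  rw [← finsum_sub_distrib (fin hT hP _ _ _ _ _) (fin hT hP _ _ _ _ _)]
  exact finsum_congr fun g => (H8.ta V d s hT).two _ _ _ _ h (by rw [hT.inv, h'])

lemma card (a : V) : ∃ H : Subgroup G, Finite H ∧ N d ρ a a a a = Nat.card H ∧
    ∀ g ∈ H, d a (ρ g * a) = 0 := by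
  classical
  have hf : {g | d a (ρ g * a) = 0}.Finite :=
    ((H22.pa H8.ta V d s G ρ hT hP).prop a a 0).subset fun g hg => le_of_eq hg
  refine ⟨⟨⟨⟨{g | d a (ρ g * a) = 0}, fun {g g'} (h : _ = 0) (h' : _ = 0) =>
    z3 hT h (by rw [map_mul, mul_assoc, hT.inv, h'])⟩, by simp [hT.self]⟩,
    fun {g} (h : _ = 0) => (flip hT g a a).trans h⟩, hf, ?_, fun g hg => hg⟩
  rw [N, finsum_eq_sum_of_support_subset (s := hf.toFinset) _ fun g hg => by
    by_contra h0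
    exact hg (if_neg fun h1 => h0 (by simpa using h1.1)),
    sum_congr rfl (g := fun _ => 1) fun g hg => if_pos (by simpa using hg)]
  simp only [sum_const, nsmul_eq_mul, mul_one]
  exact congrArg _ ((Set.ncard_eq_toFinset_card _ hf).symm.trans (Nat.card_coe_set_eq _).symm)

lemma reps (hI : Inv d ρ l) : ∃ S : Finset V, (∀ a ∈ S, Y d l a) ∧
    ∀ u, Y d l u → ∃ a ∈ S, (∃ g, d a (ρ g * u) = 0) ∧
      N d ρ a a u u = N d ρ a a a a ∧ ∀ b ∈ S, b ≠ a → N d ρ b b u u = 0 := by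
  classical
  have hA := H8.ta V d s hT
  let r : Setoid V := ⟨fun x y => ∃ g, d x (ρ g * y) = 0, fun x => ⟨1, by simp [hT.self]⟩,
    fun ⟨g, h⟩ => ⟨g⁻¹, (flip hT g _ _).trans h⟩, fun ⟨g, h⟩ ⟨g', h'⟩ =>
      ⟨g * g', z3 hT h (by rw [map_mul, mul_assoc, hT.inv, h'])⟩⟩
  obtain ⟨R, hR⟩ := hI.fin
  obtain ⟨B, hB⟩ := ball hT R
  refine ⟨(B.image fun b => (Quotient.mk r b).out).filter (Y d l), fun a ha => (mem_filter.1 ha).2,
    fun u ⟨y, h1, h2⟩ => ?_⟩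
  obtain ⟨g, hg⟩ := hR u y h1 h2
  obtain ⟨b, hb, e⟩ := hB _ hg
  obtain ⟨g0, h0⟩ : r (Quotient.mk r u).out u := Quotient.mk_out (s := r) u
  refine ⟨(Quotient.mk r u).out, mem_filter.2 ⟨mem_image.2 ⟨b, hb, ?_⟩, ρ g0 * y, ?_, ?_⟩,
    ⟨g0, h0⟩, ?_, fun c hc hca => ?_⟩
  · rw [Quotient.sound (s := r) ⟨g, e⟩]
  · rw [hA.congr _ _ _ h0, hT.inv, h1]
  · rw [hI.congr _ _ h0, hI.add, hI.add]
    omega
  · rw [N, N, ← finsum_comp_equiv (Equiv.mulRight g0)]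
    refine finsum_congr fun k => ?_
    rw [Equiv.coe_mulRight, map_mul, mul_assoc, hT.comm, hT.comm _ (ρ k * _),
      hA.congr _ _ _ ((hT.inv (ρ k) _ _).trans h0)]
  · refine finsum_eq_zero_of_forall_eq_zero fun k => if_neg fun h => hca ?_
    obtain ⟨c', -, rfl⟩ := mem_image.1 (mem_filter.1 hc).1
    rw [← Quotient.sound (s := r) ⟨k, h.1⟩, Quotient.out_eq]

lemma unf (hI : Inv d ρ l) (K : Type) [Field K] (hK : ∀ a, Y d l a → (N d ρ a a a a : K) ≠ 0) :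
    ∃ S : Finset V, (∀ u, Y d l u → ∃ a ∈ S, ∃ g, d a (ρ g * u) = 0) ∧
      ∀ h : V → V → K, Ok d ρ l h → (∀ u u', d u u' = 1 →
        ∑ a ∈ S, (N d ρ a a a a : K)⁻¹ * ∑ k, h a (a * s k) * N d ρ a (a * s k) u u' = h u u') ∧
      ∑ a ∈ S, (N d ρ a a a a : K)⁻¹ * ∑ k, h a (a * s k) =
        ∑ a ∈ S, (N d ρ a a a a : K)⁻¹ * ∑ k, h (a * s k) a := by
  classical
  have hA := H8.ta V d s hT
  obtain ⟨S, h1, h2⟩ := reps hT hP hI
  have one : ∀ u u', d u u' = 1 → ∀ c : K, (l u = l u' → c = 0) →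
      ∑ a ∈ S, (N d ρ a a a a : K)⁻¹ * ∑ k, c * N d ρ a (a * s k) u u' = c := by
    intro u u' e c hc
    by_cases hl : l u = l u'
    · simp [hc hl]
    obtain ⟨a, ha, -, h4, h3⟩ := h2 u ⟨u', e, hl⟩
    simp only [← mul_sum, ← Int.cast_sum, sumN hT hP _ e]
    rw [sum_eq_single_of_mem a ha fun b hb hba => by simp [h3 b hb hba], h4,
      mul_left_comm, inv_mul_cancel₀ (hK a (h1 a ha)), mul_one]
  refine ⟨S, fun u hu => (h2 u hu).imp fun a ha => ⟨ha.1, ha.2.1⟩, fun h hh => ?_⟩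
  have key : ∀ u u', d u u' = 1 → ∑ a ∈ S, (N d ρ a a a a : K)⁻¹ *
      ∑ k, h a (a * s k) * N d ρ a (a * s k) u u' = h u u' := fun u u' e => by
    rw [← one u u' e _ (hh.supp u u')]
    refine sum_congr rfl fun a _ => congrArg _ (sum_congr rfl fun k _ => ?_)
    by_cases h0 : ∃ g, d a (ρ g * u) = 0 ∧ d (a * s k) (ρ g * u') = 0
    · obtain ⟨g, g1, g2⟩ := h0
      rw [hh.inv g _ _ _ _ g1 g2]
    · rw [N, finsum_eq_zero_of_forall_eq_zero fun g => if_neg fun e => h0 ⟨g, e⟩]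
      simp
  refine ⟨key, ?_⟩
  have adj : ∀ a k, d (a * s k) a = 1 := fun a k => by rw [hT.comm, hA.adjx]
  have sym : ∀ x y u u', N d ρ x y u u' = N d ρ u' u y x := fun x y u u' => by
    rw [N, N, ← finsum_comp_equiv (Equiv.inv G)]
    simp only [Equiv.inv_apply, flip hT, and_comm]
  rw [sum_congr rfl fun a _ => congrArg _ (sum_congr rfl fun k _ =>
      (one _ _ (adj a k) _ fun e => hh.supp _ _ e.symm).symm),
    sum_congr rfl fun a _ => congrArg _ (sum_congr rfl fun k _ => (key _ _ (adj a k)).symm)]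
  simp only [mul_sum]
  refine ((sum_congr rfl fun a _ => sum_comm).trans (sum_comm.trans (sum_congr rfl fun b _ =>
    (sum_congr rfl fun a _ => sum_comm).trans sum_comm))).trans ?_
  simp only [sym _ (_ * _) (_ * _), mul_left_comm]

end

theorem row1 : GR1 := by
  intro V _ d s G _ ρ l hT hP hI hl x
  have hA := H8.ta V d s hT
  have pos : ∀ a, (0 : ℚ) < N d ρ a a a a := fun a => by
    obtain ⟨H, _, e, -⟩ := card hT hP a
    rw [e]
    exact_mod_cast Nat.card_pos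
  obtain ⟨S, h1, h2⟩ := unf hT hP hI ℚ fun a _ => (pos a).ne'
  have h3 := (h2 (fun x y => (l y - l x : ℤ)) ⟨fun g x y u u' e e' => by
    rw [hI.congr _ _ e, hI.congr _ _ e', hI.add, hI.add, add_sub_add_left_eq_sub],
    fun x y e => by simp [e]⟩).2
  by_contra hx
  obtain ⟨a, ha, g, e⟩ := h1 x (by
    by_contra hy
    refine hx ?_
    rw [sum_congr rfl fun k _ => (not_not.1 fun e => hy ⟨_, hA.adjx x k, e⟩).symm]
    simp)
  have lap : ∀ a, ((∑ k, l (a * s k) - 3 * l a : ℤ) : ℚ) = ∑ k, ((l (a * s k) - l a : ℤ) : ℚ) :=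
    fun a => by simp [sum_sub_distrib]
  have h4 : ∑ a ∈ S, (N d ρ a a a a : ℚ)⁻¹ * (∑ k, l (a * s k) - 3 * l a : ℤ) = 0 := by
    simp only [lap]
    refine self_eq_neg.1 (h3.trans ?_)
    simp only [← sum_neg_distrib, ← mul_neg, ← Int.cast_neg, neg_sub]
  have h5 := (sum_eq_zero_iff_of_nonneg fun a _ => mul_nonneg (inv_pos.2 (pos a)).le
    (by exact_mod_cast sub_nonneg.2 (hl a))).1 h4 a ha
  rw [mul_eq_zero, inv_eq_zero, or_iff_right (pos a).ne', Int.cast_eq_zero] at h5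
  obtain ⟨σ, s1, s2⟩ := perm hT e
  rw [← s1.sum_comp, sum_congr rfl fun k _ => hI.congr _ _ (s2 k), hI.congr _ _ e] at h5
  simp only [mul_assoc, hI.add, Fin.sum_univ_three] at h5 hx
  omega

lemma unit3 (hT : IsTree d s) (hP : Proper d ρ) (hF : ∀ g, (∀ x, d x (ρ g * x) = 0) → g = 1)
    (hI : Inv d ρ l) (hl : ∀ x, ∑ k, l (x * s k) = 3 * l x) (a : V) (ha : Y d l a) :
    (N d ρ a a a a : ZMod 3) ≠ 0 := by
  have hA := H8.ta V d s hT
  obtain ⟨H, _, e, hH⟩ := card hT hP a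
  rw [e, Int.cast_natCast, Ne, ZMod.natCast_eq_zero_iff]
  intro h3
  obtain ⟨⟨g, hg⟩, h4⟩ := exists_prime_orderOf_dvd_card' 3 h3
  rw [← Subgroup.orderOf_coe] at h4
  have g3 : ρ g * (ρ g * ρ g) = 1 := by
    rw [← map_mul, ← map_mul, ← pow_three, ← h4, pow_orderOf_eq_one, map_one]
  have loc : ∀ x, d x (ρ g * x) = 0 → ∃ σ : Fin 3 → Fin 3, (∀ k, σ (σ (σ k)) = k) ∧
      ∀ k, d (x * s (σ k)) (ρ g * (x * s k)) = 0 := fun x hx => by
    obtain ⟨σ, -, h⟩ := perm hT hx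
    simp only [mul_assoc] at h
    refine ⟨σ, fun k => hA.nbd x _ _ (z3 hT (h _) (z3 hT ((hT.inv _ _ _).trans (h _)) ?_)), h⟩
    rw [← one_mul (x * s k), ← g3, mul_assoc (ρ g), mul_assoc (ρ g), hT.inv, hT.inv, h]
  have all : ∀ x y, d x (ρ g * x) = 0 → d x y = 1 → d y (ρ g * y) = 0 →
      ∀ z, d x z = 1 → d z (ρ g * z) = 0 := fun x y hx hxy hy z hz => by
    obtain ⟨σ, s1, s2⟩ := loc x hx
    obtain ⟨k, hk⟩ := hA.nbr x y hxy
    obtain ⟨j, hj⟩ := hA.nbr x z hz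
    have : σ k = k := hA.nbd x _ _ (z3 hT (s2 k) (z3 hT ((hT.inv _ _ _).trans hk)
      (z3 hT (hT.comm _ _ ▸ hy) (hT.comm _ _ ▸ hk))))
    have := (by decide : ∀ σ : Fin 3 → Fin 3, (∀ k, σ (σ (σ k)) = k) → ∀ k, σ k = k →
      ∀ j, σ j = j) σ s1 k this j
    exact z3 hT (hT.comm _ _ ▸ hj) (z3 hT (by simpa only [this] using s2 j)
      ((hT.inv _ _ _).trans hj))
  obtain ⟨σ, s1, s2⟩ := loc a (hH g hg)
  by_cases hk : ∃ k, σ k = k
  · obtain ⟨k, hk⟩ := hk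
    have h0 := all a _ (hH g hg) (hA.adjx a k) (by simpa only [hk] using s2 k)
    have := hF g fun x => (hA.conn (fun y => d y (ρ g * y) = 0 ∧
      ∀ z, d y z = 1 → d z (ρ g * z) = 0) a (fun y hy => ⟨z3 hT (hT.comm _ _ ▸ hy)
        (z3 hT (hH g hg) ((hT.inv _ _ _).trans hy)), fun z hz => h0 z (by
          rw [hA.congr _ _ _ hy, hz])⟩) (fun y y' e _ h =>
        ⟨h.2 _ e, all y' y (h.2 _ e) (hT.comm _ _ ▸ e) h.1⟩) x).1
    simp [this] at h4
  · have l0 := hI.congr _ _ (hH g hg)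
    have l1 : ∀ k, l (a * s (σ k)) = l (a * s k) := fun k => by
      rw [hI.congr _ _ (s2 k), hI.add]
      rw [hI.add] at l0
      omega
    have l2 : ∀ k j, l (a * s j) = l (a * s k) := fun k j => by
      rcases (by decide : ∀ σ : Fin 3 → Fin 3, (∀ k, σ (σ (σ k)) = k) → (¬ ∃ k, σ k = k) →
        ∀ k j, j = k ∨ j = σ k ∨ j = σ (σ k)) σ s1 hk k j with rfl | rfl | rfl <;> simp [l1]
    obtain ⟨y, y1, y2⟩ := ha
    obtain ⟨k, hk⟩ := hA.nbr a y y1
    have := hl a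
    rw [Fin.sum_univ_three, l2 k 0, l2 k 1, l2 k 2, hI.congr _ _ hk] at this
    omega

theorem row2 : GR2 := by
  intro V _ d s G _ ρ l hT hP hF hI hl μ hμ
  have hA := H8.ta V d s hT
  have hB := H22.pa H8.ta V d s G ρ hT hP
  have : Fact (Nat.Prime 3) := ⟨Nat.prime_three⟩
  have h0 : (3 : ZMod 3) = 0 := rfl
  obtain ⟨S, -, h2⟩ := unf hT hP hI (ZMod 3) (unit3 hT hP hF hI hl)
  have dl : ∀ g x y u u', d x (ρ g * u) = 0 → d y (ρ g * u') = 0 → l y - l x = l u' - l u :=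
    fun g x y u u' e e' => by
      rw [hI.congr _ _ e, hI.congr _ _ e', hI.add, hI.add, add_sub_add_left_eq_sub]
  have h3 := (h2 (fun x y => (l y - l x : ℤ)) ⟨fun g x y u u' e e' => by rw [dl g x y u u' e e'],
    fun x y e => by simp [e]⟩).1
  have h4 := (h2 (fun x y => (l y - l x : ℤ) * Psi d ρ 1 y 1 (ρ μ)) ⟨fun g x y u u' e e' => by
    have := hB.inv g 1 u' 1 (ρ μ)
    rw [mul_one] at this
    rw [dl g x y u u' e e', hB.congr _ _ _ _ _ _ _ _ (hT.self 1) e' (hT.self 1) (hT.self _),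
      ← hB.coc 1 (ρ g), this, Int.cast_add, (ZMod.intCast_zmod_eq_zero_iff_dvd _ 3).2 (hμ g),
      zero_add], fun x y e => by simp [e]⟩).2
  have h5 : ∀ y, ∑ a ∈ S, (N d ρ a a a a : ZMod 3)⁻¹ * ∑ k, ((l (a * s k) - l a : ℤ) : ZMod 3) *
      Psi d ρ a (a * s k) 1 y = (l y - l 1 : ℤ) := by
    refine hA.conn _ 1 (fun y hy => ?_) fun y y' e _ h => ?_
    · rw [hI.congr _ _ hy]
      simp [← hB.congr _ _ _ _ _ _ _ _ (hT.self _) (hT.self _) (hT.self 1) hy, hB.symm _ _ 1 1,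
        hB.self]
    · have a1 := h3 y y' e
      have a2 := h3 y' y (hT.comm _ _ ▸ e)
      simp only [← hB.coc' _ _ 1 y y', psiN hT hP _ _ _ _ (hA.adjx _ _) e, Int.cast_add,
        Int.cast_sub (2 * _), Int.cast_mul, mul_add, mul_sub, sum_add_distrib, sum_sub_distrib,
        mul_left_comm _ ((2 : ℤ) : ZMod 3), ← mul_sum, h, a1, a2]
      push_cast
      linear_combination ((l y' : ZMod 3) - l y) * h0
  have l1 : l 1 = 0 := by simpa using hI.add 1 1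
  have har : ∀ a, ∑ k, ((l (a * s k) - l a : ℤ) : ZMod 3) = 0 := fun a => by
    rw [← Int.cast_sum, sum_sub_distrib, hl]
    simp
  have h6 := h5 (ρ μ)
  rw [l1, sub_zero] at h6
  refine (ZMod.intCast_zmod_eq_zero_iff_dvd _ 3).1 ?_
  rw [← h6]
  have h7 : ∀ a k, ((l a - l (a * s k) : ℤ) : ZMod 3) = -((l (a * s k) - l a : ℤ) : ZMod 3) :=
    fun a k => by rw [← Int.cast_neg, neg_sub]
  simp only [h7, ← sum_mul, sum_neg_distrib, har, neg_zero, zero_mul, mul_zero,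
    sum_const_zero] at h4
  simp only [fun a k => eq_sub_of_add_eq' (hB.coc 1 a (a * s k) 1 (ρ μ)),
    Int.cast_sub (Psi _ _ _ _ _ _), mul_sub, ← sum_mul, sum_sub_distrib, har, zero_mul, h4,
    sub_zero]

end

end Pool.Agent.MP_a88b1d_nt.RGR
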