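import Pool.Agent.MP_a88b1d_nt.H93.Spec3
import Pool.Agent.MP_a88b1d_nt.H8.Ta
import Pool.Agent.MP_a88b1d_nt.H22.Pa

/-! Rows GROW, MAXP, LIN. -/

namespace Pool.Agent.MP_a88b1d_nt.RGROW

open Pool.Agent.MP_a88b1d_nt.P2
open Pool.Agent.MP_a88b1d_nt.H42 (Psi IsTree TreeAPI Proper PsiAPI DD)

theorem row1 : GROW := by
  intro V _ d s G _ ρ hT hP a
  have hA := H8.ta V d s hT
  have hΨ := H22.pa H8.ta V d s G ρ hT hP
  set D := d 1 (ρ a) with hD
  set N := {g | d 1 (ρ g) ≤ 2 * D}.ncard with hN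
  have key : ∀ x y, d x y = 1 → Psi d ρ x y 1 (ρ a) ≤ ((2 * N : ℕ) : ℤ) := by
    intro x y hxy
    have hfin := hΨ.fin x y 1 (ρ a)
    have hs : ∀ g ∈ Function.support fun g => DD d x y (ρ g * 1) (ρ g * ρ a),
        d (ρ g) x ≤ D := fun g hg => by
      have := hA.far x y _ _ hxy hg
      rwa [hT.inv, mul_one] at this
    have hc : hfin.toFinset.card ≤ N := by
      rw [← Set.ncard_eq_toFinset_card _ hfin]
      rcases (Function.support fun g => DD d x y (ρ g * 1) (ρ g * ρ a)).eq_empty_or_nonempty with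
        e | ⟨g₀, hg₀⟩
      · rw [e]; simp
      · refine Set.ncard_le_ncard_of_injOn (fun g => g₀⁻¹ * g) (fun g hg => ?_)
          (mul_right_injective _).injOn (hP _)
        change d 1 (ρ (g₀⁻¹ * g)) ≤ 2 * D
        rw [← hT.inv (ρ g₀), mul_one, ← map_mul, mul_inv_cancel_left]
        have h1 := hT.tri (ρ g₀) x (ρ g)
        have h2 := hs g hg
        have h3 := hs g₀ hg₀
        rw [hT.comm] at h2
        omega
    rw [Psi, finsum_eq_sum _ hfin]
    refine (Finset.sum_le_card_nsmul _ _ 2 fun g _ => ?_).trans ?_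
    · have h1 := hT.tri x y (ρ g * ρ a)
      have h2 := hT.tri y x (ρ g * 1)
      rw [hT.comm y x] at h2
      unfold DD
      omega
    · rw [nsmul_eq_mul]
      push_cast
      have : (hfin.toFinset.card : ℤ) ≤ N := by exact_mod_cast hc
      linarith
  refine ⟨2 * N, fun b => hA.conn (fun y => Psi d ρ 1 y 1 (ρ a) ≤ ((2 * N : ℕ) : ℤ) * d 1 y) 1
    (fun y hy => ?_) (fun y y' h1 h2 ih => ?_) _⟩
  · rw [← hΨ.congr 1 1 1 (ρ a) 1 y 1 (ρ a) (hT.self _) hy (hT.self _) (hT.self _), hΨ.self, hy]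
    simp
  · rw [← hΨ.coc 1 y y', ← h2, Nat.cast_add, mul_add, Nat.cast_one, mul_one]
    exact add_le_add ih (key y y' h1)

theorem row2 : MAXP := by
  intro V _ d s l hT hc hh hB
  have hA := H8.ta V d s hT
  obtain ⟨B, hB⟩ := hB
  obtain ⟨_, ⟨x₀, rfl⟩, hm⟩ := Int.exists_greatest_of_bdd (P := fun z => ∃ x, l x = z)
    ⟨B, by rintro _ ⟨x, rfl⟩; exact hB x⟩ ⟨_, 1, rfl⟩
  have hm' : ∀ x, l x ≤ l x₀ := fun x => hm _ ⟨x, rfl⟩
  have key : ∀ y, l y = l x₀ := hA.conn (fun y => l y = l x₀) x₀ (fun y hy => (hc _ _ hy).symm)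
    fun y y' h1 _ ih => by
      obtain ⟨k, hk⟩ := hA.nbr y y' h1
      rw [← hc _ _ hk]
      have h2 := hh y
      rw [Fin.sum_univ_three] at h2
      have a0 := hm' (y * s 0)
      have a1 := hm' (y * s 1)
      have a2 := hm' (y * s 2)
      fin_cases k <;> simp only [Fin.zero_eta, Fin.mk_one, Fin.reduceFinMk] <;> omega
  intro x y
  rw [key x, key y]

theorem dvd3 (x : ℤ) : (3 : ℤ) ∣ x ↔ (x : ZMod 3) = 0 :=
  (ZMod.intCast_zmod_eq_zero_iff_dvd x 3).symm

theorem three : (1 + 1 + 1 : ZMod 3) = 0 := by decide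

theorem cases3 : ∀ c : ZMod 3, c = 0 ∨ c = 1 ∨ c = 1 + 1 := by decide

theorem row3 : LIN := by
  intro G _ N F ν hne hmul hF hν h0
  have : Fact (Nat.Prime 3) := ⟨Nat.prime_three⟩
  let φ : G → (Fin 58 → ZMod 3) × (Fin 59 → ZMod 3) := fun a => (F a, fun j => (ν j a : ZMod 3))
  have hφ : ∀ a ∈ N, ∀ b ∈ N, φ (a * b) = φ a + φ b := fun a ha b hb =>
    Prod.ext (hF a ha b hb) (funext fun j => by simp [φ, hν j a ha b hb])
  have hadd : ∀ {v w}, v ∈ φ '' N → w ∈ φ '' N → v + w ∈ φ '' N := by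
    rintro _ _ ⟨a, ha, rfl⟩ ⟨b, hb, rfl⟩
    exact ⟨a * b, hmul a ha b hb, hφ a ha b hb⟩
  have hz : (0 : (Fin 58 → ZMod 3) × (Fin 59 → ZMod 3)) ∈ φ '' N := by
    obtain ⟨a, ha⟩ := hne
    have h1 := hadd (hadd ⟨a, ha, rfl⟩ ⟨a, ha, rfl⟩) ⟨a, ha, rfl⟩
    have h2 : φ a + φ a + φ a = (1 + 1 + 1 : ZMod 3) • φ a := by simp only [add_smul, one_smul]
    rwa [h2, show (1 + 1 + 1 : ZMod 3) = 0 from three, zero_smul] at h1
  let W : Submodule (ZMod 3) ((Fin 58 → ZMod 3) × (Fin 59 → ZMod 3)) :=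
    { carrier := φ '' N
      add_mem' := hadd
      zero_mem' := hz
      smul_mem' := fun c v hv => by
        rcases cases3 c with rfl | rfl | rfl
        · rw [zero_smul]; exact hz
        · rw [one_smul]; exact hv
        · rw [add_smul, one_smul]; exact hadd hv hv }
  have hinj : Function.Injective ((LinearMap.fst (ZMod 3) _ _).comp W.subtype) := by
    rw [injective_iff_map_eq_zero]
    rintro ⟨_, a, ha, rfl⟩ h
    exact Subtype.ext (Prod.ext h (funext fun j => (dvd3 _).1 (h0 a ha h j)))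
  have h1 := LinearMap.finrank_le_finrank_of_injective hinj
  have h2 := Submodule.finrank_map_le (LinearMap.snd (ZMod 3) _ _) W
  have h3 : W.map (LinearMap.snd (ZMod 3) _ _) < ⊤ := by
    refine lt_top_iff_ne_top.2 fun e => ?_
    rw [e, finrank_top] at h2
    simp only [Module.finrank_fintype_fun_eq_card, Fintype.card_fin] at h1 h2
    omega
  obtain ⟨f, hf, hk⟩ := Submodule.exists_le_ker_of_lt_top _ h3
  have hfv : ∀ v, f v = ∑ j, v j * f (Pi.single j 1) := fun v => by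
    rw [LinearMap.pi_apply_eq_sum_univ]
    refine Finset.sum_congr rfl fun j _ => ?_
    rw [smul_eq_mul]
    congr 2
    funext i
    simp [Pi.single_apply, eq_comm]
  refine ⟨fun j => ((f (Pi.single j 1)).val : ℤ), ?_, fun a ha => ?_⟩
  · by_contra hc
    push Not at hc
    refine hf (LinearMap.ext fun v => ?_)
    rw [hfv]
    refine Finset.sum_eq_zero fun j _ => ?_
    have := (dvd3 _).1 (hc j)
    rw [Int.cast_natCast, ZMod.natCast_zmod_val] at this
    rw [this, mul_zero]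
  · have : f (fun j => (ν j a : ZMod 3)) = 0 := hk ⟨φ a, ⟨a, ha, rfl⟩, rfl⟩
    rw [dvd3, ← this, hfv]
    push_cast
    refine Finset.sum_congr rfl fun j _ => ?_
    rw [ZMod.natCast_zmod_val, mul_comm]

end Pool.Agent.MP_a88b1d_nt.RGROW
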