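import Pool.Agent.MP_a88b1d_nt.H93.Spec3

/-! Local divisors of meromorphic functions: the formal rules. -/

open Polynomial Filter Topology

noncomputable section

namespace Pool.Agent.MP_a88b1d_nt.RHD1

open Pool.Agent.MP_a88b1d_nt.St2
open Pool.Agent.MP_a88b1d_nt.P2

variable {C : Type} [NontriviallyNormedField C] {T : C}

theorem enlarge {S : Set C} {f u : C → C} {e : C → ℤ} {s t : Finset C} (hst : s ⊆ t)
    (ht : ∀ a ∈ t, a ∈ S) (h : ∀ z ∈ S, z ∉ s → e z = 0 ∧ f z = u z * ∏ a ∈ s, (z - a) ^ e a) :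
    ∀ z ∈ S, z ∉ t → e z = 0 ∧ f z = u z * ∏ a ∈ t, (z - a) ^ e a := by
  intro z hz hzt
  obtain ⟨h1, h2⟩ := h z hz fun h' => hzt (hst h')
  refine ⟨h1, ?_⟩
  rw [h2, Finset.prod_subset hst]
  intro a ha has
  rw [(h a (ht a ha) has).1, zpow_zero]

theorem congr' (n : ℕ) (f g : C → C) (e e' : C → ℤ) (s : Finset C) (h : Loc T n f e)
    (hf : ∀ z ∈ Om T n, z ∉ s → f z = g z) (he : ∀ z ∈ Om T n, e z = e' z) : Loc T n g e' := by
  classical
  obtain ⟨s0, u, hu, hs, h⟩ := h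
  have ht : ∀ a ∈ s0 ∪ s.filter (fun a => a ∈ Om T n), a ∈ Om T n := by
    intro a ha
    rcases Finset.mem_union.1 ha with h' | h'
    · exact hs a h'
    · exact (Finset.mem_filter.1 h').2
  refine ⟨s0 ∪ s.filter (fun a => a ∈ Om T n), u, hu, ht, fun z hz hzt => ?_⟩
  obtain ⟨h1, h2⟩ := enlarge Finset.subset_union_left ht h z hz hzt
  refine ⟨he z hz ▸ h1, ?_⟩
  rw [← hf z hz fun h' => hzt (Finset.mem_union_right _ (Finset.mem_filter.2 ⟨h', hz⟩)), h2]
  congr 1
  exact Finset.prod_congr rfl fun a ha => by rw [he a (ht a ha)]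

theorem unit' (n : ℕ) (u : C → C) (hu : UnitOn (Om T n) u) : Loc T n u fun _ => 0 :=
  ⟨∅, u, hu, by simp, fun z _ _ => ⟨rfl, by simp⟩⟩

theorem fin' (n : ℕ) (f : C → C) (e : C → ℤ) (h : Loc T n f e) :
    {z | z ∈ Om T n ∧ e z ≠ 0}.Finite := by
  obtain ⟨s, u, -, -, h⟩ := h
  refine s.finite_toSet.subset fun z hz => ?_
  by_contra hc
  exact hz.2 (h z hz.1 hc).1

variable [Algebra (ZMod 2) C]

theorem restr' (F : FY T) (U : UNI T) (n m : ℕ) (f : C → C) (e : C → ℤ) (hnm : n ≤ m)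
    (h : Loc T m f e) : Loc T n f e := by
  classical
  obtain ⟨s, u, hu, -, h⟩ := h
  have hsub := F.mono n m hnm
  refine ⟨s.filter (fun a => a ∈ Om T n),
    fun z => u z * ∏ a ∈ s.filter (fun a => ¬ a ∈ Om T n), (z - a) ^ e a,
    U.mul n _ _ (U.mono _ _ u hsub hu) (U.prod C n _ (fun a z => (z - a) ^ e a) fun a ha =>
      U.zpow n (e a) _ (U.lin n a (Finset.mem_filter.1 ha).2)),
    fun a ha => (Finset.mem_filter.1 ha).2, fun z hz hzs => ?_⟩
  obtain ⟨h1, h2⟩ := h z (hsub hz) fun h' => hzs (Finset.mem_filter.2 ⟨h', hz⟩)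
  refine ⟨h1, ?_⟩
  rw [h2, mul_assoc, Finset.prod_filter_not_mul_prod_filter]

theorem mul' (U : UNI T) (n : ℕ) (f g : C → C) (e e' : C → ℤ) (h : Loc T n f e)
    (h' : Loc T n g e') : Loc T n (fun z => f z * g z) fun z => e z + e' z := by
  classical
  obtain ⟨s, u, hu, hs, h⟩ := h
  obtain ⟨s', u', hu', hs', h'⟩ := h'
  have ht : ∀ a ∈ s ∪ s', a ∈ Om T n := by
    intro a ha
    rcases Finset.mem_union.1 ha with h' | h'
    · exact hs a h'
    · exact hs' a h'
  refine ⟨s ∪ s', fun z => u z * u' z, U.mul n u u' hu hu', ht, fun z hz hzt => ?_⟩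
  obtain ⟨h1, h2⟩ := enlarge Finset.subset_union_left ht h z hz hzt
  obtain ⟨h3, h4⟩ := enlarge Finset.subset_union_right ht h' z hz hzt
  refine ⟨by simp only [h1, h3, add_zero], ?_⟩
  have h5 : ∏ a ∈ s ∪ s', (z - a) ^ (e a + e' a) =
      (∏ a ∈ s ∪ s', (z - a) ^ e a) * ∏ a ∈ s ∪ s', (z - a) ^ e' a := by
    rw [← Finset.prod_mul_distrib]
    refine Finset.prod_congr rfl fun a ha => zpow_add₀ (sub_ne_zero.2 ?_) _ _
    rintro rfl
    exact hzt ha
  simp only [h2, h4, h5]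
  ring

theorem zpow' (U : UNI T) (n : ℕ) (k : ℤ) (f : C → C) (e : C → ℤ) (h : Loc T n f e) :
    Loc T n (fun z => f z ^ k) fun z => k * e z := by
  obtain ⟨s, u, hu, hs, h⟩ := h
  refine ⟨s, fun z => u z ^ k, U.zpow n k u hu, hs, fun z hz hzs => ?_⟩
  obtain ⟨h1, h2⟩ := h z hz hzs
  refine ⟨by simp only [h1, mul_zero], ?_⟩
  simp only [h2, mul_zpow, ← Finset.prod_zpow]
  congr 1
  exact Finset.prod_congr rfl fun a _ => by rw [← zpow_mul, mul_comm]

theorem inv' (U : UNI T) (n : ℕ) (f : C → C) (e : C → ℤ) (h : Loc T n f e) :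
    Loc T n (fun z => (f z)⁻¹) fun z => - e z :=
  congr' n _ _ _ _ ∅ (zpow' U n (-1) f e h) (fun z _ _ => by simp) fun z _ => by simp

theorem prod' (U : UNI T) (ι : Type) (n : ℕ) (s : Finset ι) (φ : ι → C → C) (e : ι → C → ℤ)
    (h : ∀ i ∈ s, Loc T n (φ i) (e i)) :
    Loc T n (fun z => ∏ i ∈ s, φ i z) fun z => ∑ i ∈ s, e i z := by
  classical
  induction s using Finset.induction_on with
  | empty => simpa using unit' n _ (U.const (Om T n) 1 one_ne_zero)
  | insert i s hi ih =>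
    simp only [Finset.prod_insert hi, Finset.sum_insert hi]
    exact mul' U n _ _ _ _ (h i (Finset.mem_insert_self _ _))
      (ih fun j hj => h j (Finset.mem_insert_of_mem hj))

theorem sig' (H : HOL T) (U : UNI T) (σ : C ≃+* C) (hσ : Iso T σ) (n : ℕ) (f : C → C)
    (e : C → ℤ) (h : Loc T n f e) :
    Loc T n (fun z => σ (f (σ.symm z))) fun z => e (σ.symm z) := by
  obtain ⟨s, u, hu, hs, h⟩ := h
  obtain ⟨-, -, hom⟩ := H.sigom σ hσ
  refine ⟨s.map σ.toEquiv.toEmbedding, fun z => σ (u (σ.symm z)), U.sig σ hσ n u hu,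
    fun a ha => ?_, fun z hz hzs => ?_⟩
  · obtain ⟨b, hb, rfl⟩ := Finset.mem_map.1 ha
    exact (hom n b).2 (hs b hb)
  · have hz' : σ.symm z ∈ Om T n := (hom n _).1 (by simpa using hz)
    obtain ⟨h1, h2⟩ := h _ hz' fun h' => hzs (Finset.mem_map.2 ⟨_, h', by simp⟩)
    refine ⟨h1, ?_⟩
    simp only [h2, map_mul, map_prod, map_zpow₀, map_sub, Finset.prod_map]
    simp

variable [DecidableEq C]

theorem lin' (U : UNI T) (n : ℕ) (a : C) :
    Loc T n (fun z => z - a) fun z => if z = a then 1 else 0 := by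
  by_cases ha : a ∈ Om T n
  · refine ⟨{a}, fun _ => 1, U.const _ 1 one_ne_zero, by simpa using ha, fun z _ hz => ?_⟩
    have hz' : z ≠ a := by simpa using hz
    simp [hz']
  · refine ⟨∅, fun z => z - a, U.lin n a ha, by simp, fun z hz _ => ?_⟩
    have hz' : z ≠ a := by
      rintro rfl
      exact ha hz
    simp [hz']

theorem mset' (U : UNI T) (n : ℕ) (l : Multiset C) :
    Loc T n (fun z => (l.map fun a => z - a).prod) fun z => (l.count z : ℤ) := by
  induction l using Multiset.induction_on with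
  | empty => simpa using unit' n _ (U.const (Om T n) 1 one_ne_zero)
  | cons a l ih =>
    refine congr' n _ _ _ _ ∅ (mul' U n _ _ _ _ (lin' U n a) ih) (fun z _ _ => by simp)
      fun z _ => ?_
    rw [Multiset.count_cons]
    split_ifs <;> simp [add_comm]

theorem poly' [IsAlgClosed C] (U : UNI T) (n : ℕ) (Q : C[X]) (hQ : Q ≠ 0) :
    Loc T n (fun z => Q.eval z) fun z => (Q.roots.count z : ℤ) := by
  refine congr' n _ _ _ _ ∅ (mul' U n _ _ _ _
    (unit' n _ (U.const (Om T n) Q.leadingCoeff (leadingCoeff_ne_zero.2 hQ))) (mset' U n Q.roots))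
    (fun z _ _ => ?_) fun z _ => by simp
  exact ((IsAlgClosed.splits Q).eval_eq_prod_roots z).symm

theorem row : OfHD1 := by
  intro C _ _ _ _ _ _ T _ _ F H U
  exact ⟨restr' F U, congr', mul' U, inv' U, zpow' U, prod' U, unit', lin' U, mset' U, poly' U,
    sig' H U, fin'⟩

end Pool.Agent.MP_a88b1d_nt.RHD1
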