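import Pool.Agent.MP_a88b1d_nt.H93.Spec3
import Pool.Agent.MP_a88b1d_nt.H92.Prod

/-! Row HD2: orders of meromorphic functions, gluing and infinite products. -/

open Polynomial Filter Topology

noncomputable section

namespace Pool.Agent.MP_a88b1d_nt.RHD2

open Pool.Agent.MP_a88b1d_nt.St2 Pool.Agent.MP_a88b1d_nt.P2

variable {C : Type} [NontriviallyNormedField C]

theorem pow_tend (z : C) (m : ℕ) (hm : m ≠ 0) :
    Tendsto (fun w : C => (w - z) ^ m) (𝓝[≠] z) (𝓝 0) := by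
  have h : Tendsto (fun w : C => (w - z) ^ m) (𝓝 z) (𝓝 ((z - z) ^ m)) :=
    ((continuous_id.sub continuous_const).pow m).tendsto z
  rw [sub_self, zero_pow hm] at h
  exact h.mono_left nhdsWithin_le_nhds

theorem zero_of (f : C → C) (z : C) (k : ℤ) (c₁ c₂ : ℝ) (h : Ord f z k) (h1 : 0 < c₁)
    (hb : ∀ᶠ w in 𝓝[≠] z, c₁ ≤ ‖f w‖ ∧ ‖f w‖ ≤ c₂) : k = 0 := by
  obtain ⟨c, hc, ht⟩ := h
  have hne : ∀ᶠ w in 𝓝[≠] z, w - z ≠ 0 := by
    filter_upwards [self_mem_nhdsWithin] with w hw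
    exact sub_ne_zero.mpr hw
  rcases lt_trichotomy k 0 with hk | hk | hk
  · exfalso
    obtain ⟨m, hm⟩ : ∃ m : ℕ, k = -(m : ℤ) := ⟨k.natAbs, by omega⟩
    have hm0 : m ≠ 0 := by omega
    have h2 : Tendsto (fun w : C => c₂ * ‖(w - z) ^ m‖) (𝓝[≠] z) (𝓝 (c₂ * ‖(0 : C)‖)) :=
      (pow_tend z m hm0).norm.const_mul c₂
    rw [norm_zero, mul_zero] at h2
    have h3 : ‖c‖ ≤ 0 := by
      refine le_of_tendsto_of_tendsto ht.norm h2 ?_
      filter_upwards [hb] with w hw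
      rw [hm, zpow_neg, zpow_natCast, div_inv_eq_mul, norm_mul]
      exact mul_le_mul_of_nonneg_right hw.2 (norm_nonneg _)
    exact hc (norm_le_zero_iff.mp h3)
  · exact hk
  · exfalso
    obtain ⟨m, hm⟩ : ∃ m : ℕ, k = (m : ℤ) := ⟨k.natAbs, by omega⟩
    have hm0 : m ≠ 0 := by omega
    have h2 := (ht.mul (pow_tend z m hm0)).norm
    rw [mul_zero, norm_zero] at h2
    have h3 : c₁ ≤ 0 := by
      refine ge_of_tendsto h2 ?_
      filter_upwards [hb, hne] with w hw hw0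
      rw [hm, zpow_natCast, div_mul_cancel₀ _ (pow_ne_zero m hw0)]
      exact hw.1
    linarith

theorem uniq_of (f : C → C) (z : C) (k k' : ℤ) (h : Ord f z k) (h' : Ord f z k') : k = k' := by
  obtain ⟨c, hc, ht⟩ := h
  obtain ⟨c', hc', ht'⟩ := h'
  have hpos : 0 < ‖c'‖ := norm_pos_iff.mpr hc'
  have h0 : k - k' = 0 := by
    refine zero_of (fun w => f w / (w - z) ^ k') z (k - k') (‖c'‖ / 2) (‖c'‖ + 1)
      ⟨c, hc, ?_⟩ (by positivity) ?_
    · refine ht.congr' ?_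
      filter_upwards [self_mem_nhdsWithin] with w hw
      have hw0 : w - z ≠ 0 := sub_ne_zero.mpr hw
      rw [div_div, ← zpow_add₀ hw0, add_sub_cancel]
    · have h1 := ht'.norm.eventually (lt_mem_nhds (show ‖c'‖ / 2 < ‖c'‖ by linarith))
      have h2 := ht'.norm.eventually (gt_mem_nhds (show ‖c'‖ < ‖c'‖ + 1 by linarith))
      filter_upwards [h1, h2] with w hw1 hw2
      exact ⟨hw1.le, hw2.le⟩
  omega

variable [Algebra (ZMod 2) C] [DecidableEq C]

theorem ord_of {T : C} (hFY : FY T) (hHOL : HOL T) (n : ℕ) (f : C → C) (e : C → ℤ)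
    (h : Loc T n f e) (z : C) (hz : z ∈ Om T n) : Ord f z (e z) := by
  obtain ⟨s, u, hu, -, hs⟩ := h
  have hcu : ContinuousAt u z :=
    (hHOL.cont _ _ hu.1).continuousAt ((hFY.omopen n).mem_nhds hz)
  have hca : ∀ a ∈ s.erase z, Tendsto (fun w : C => (w - a) ^ e a) (𝓝 z) (𝓝 ((z - a) ^ e a)) := by
    intro a ha
    have hza : z - a ≠ 0 := sub_ne_zero.mpr (Finset.ne_of_mem_erase ha).symm
    exact ((continuous_id.sub continuous_const).tendsto z).zpow₀ (e a) (Or.inl hza)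
  have hlim := (hcu.tendsto.mul (tendsto_finsetProd (s.erase z) hca)).mono_left
    (nhdsWithin_le_nhds (s := {z}ᶜ))
  refine ⟨_, ?_, hlim.congr' ?_⟩
  · refine mul_ne_zero (hu.2.2 z hz) (Finset.prod_ne_zero_iff.mpr fun a ha => ?_)
    exact zpow_ne_zero _ (sub_ne_zero.mpr (Finset.ne_of_mem_erase ha).symm)
  · filter_upwards [hFY.punct n z hz s, self_mem_nhdsWithin] with w hw hwz
    have hw0 : w - z ≠ 0 := sub_ne_zero.mpr hwz
    rw [(hs w hw.1 hw.2).2]
    by_cases hzs : z ∈ s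
    · rw [← Finset.mul_prod_erase s _ hzs, eq_div_iff (zpow_ne_zero _ hw0)]
      ring
    · rw [Finset.erase_eq_of_notMem hzs, (hs z hz hzs).1, zpow_zero, div_one]

theorem glue_of {T : C} (hFY : FY T) (hHOL : HOL T) (hD : HD1 T) (f : C → C)
    (h : ∀ n, ∃ e, Loc T n f e) : ∃ e, HasDiv T f e := by
  classical
  choose e he using h
  refine ⟨fun z => if hz : ∃ n, z ∈ Om T n then e hz.choose z else 0, ?_⟩
  rw [hasDiv_iff]
  intro n
  refine hD.congr n f f (e n) _ ∅ (he n) (fun _ _ _ => rfl) fun z hz => ?_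
  have hex : ∃ n, z ∈ Om T n := ⟨n, hz⟩
  rw [dif_pos hex]
  exact uniq_of f z _ _ (ord_of hFY hHOL n f _ (he n) z hz)
    (ord_of hFY hHOL _ f _ (he _) z hex.choose_spec)

theorem mer_of [IsAlgClosed C] {T : C} (hFY : FY T) (hHOL : HOL T) (hWF : WF T) (hD : HD1 T)
    (f : C → C) (z0 : C) (hz0 : z0 ∉ Finf T)
    (h : ∀ n, ∃ (g : C → C) (Q : C[X]), Q ≠ 0 ∧ HolOn (Om T n) g ∧
      (z0 ∈ Om T n → g z0 ≠ 0) ∧ ∀ z ∈ Om T n, Q.eval z ≠ 0 → f z = g z / Q.eval z) :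
    ∃ e, HasDiv T f e := by
  refine glue_of hFY hHOL hD f fun n => ?_
  obtain ⟨k, hk⟩ := hFY.exh z0 hz0
  have hm : z0 ∈ Om T (max n k) := hFY.mono _ _ (le_max_right n k) hk
  have hsub : Om T (max n k) ⊆ Om T (max n k + 2) := hFY.mono _ _ (by omega)
  obtain ⟨g, Q, hQ, hg, hg0, hf⟩ := h (max n k + 2)
  obtain ⟨l, u, -, hu, hgu⟩ := hWF (max n k) g hg ⟨z0, hm, hg0 (hsub hm)⟩
  have h1 := hD.mul _ _ _ _ _ (hD.mul _ _ _ _ _ (hD.unit _ u hu) (hD.mset (max n k) l))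
    (hD.inv _ _ _ (hD.poly (max n k) Q hQ))
  refine ⟨_, hD.restr n (max n k) f _ (le_max_left n k)
    (hD.congr _ _ f _ _ Q.roots.toFinset h1 (fun z hz hzs => ?_) fun _ _ => rfl)⟩
  have hQz : Q.eval z ≠ 0 := by
    intro h0
    exact hzs (Multiset.mem_toFinset.mpr ((mem_roots hQ).mpr h0))
  rw [hf z (hsub hz) hQz, hgu z hz, div_eq_mul_inv]

theorem tprod_of [IsUltrametricDist C] [CompleteSpace C] {T : C} (hFY : FY T) (hHOL : HOL T)
    (hU : UNI T) (hD : HD1 T) (ι : Type) (φ : ι → C → C) (e : ι → C → ℤ)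
    (he : ∀ i, HasDiv T (φ i) (e i))
    (hφ : ∀ (n : ℕ) (ε : ℝ), 0 < ε → ∀ᶠ i in cofinite, HolOn (Om T n) (φ i) ∧
      ∀ z ∈ Om T n, ‖φ i z - 1‖ ≤ ε) :
    HasDiv T (fun z => ∏' i, φ i z) fun z => ∑ᶠ i, e i z := by
  classical
  rw [hasDiv_iff]
  intro n
  have hfin := hφ n (1 / 2) (by norm_num)
  rw [eventually_cofinite] at hfin
  set B := hfin.toFinset with hB
  have hoff : ∀ i ∉ B, HolOn (Om T n) (φ i) ∧ ∀ z ∈ Om T n, ‖φ i z - 1‖ ≤ 1 / 2 := by
    intro i hi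
    by_contra hcon
    exact hi (hfin.mem_toFinset.mpr hcon)
  have hnorm : ∀ i ∉ B, ∀ z ∈ Om T n, ‖φ i z‖ = 1 := fun i hi z hz =>
    H92.Prod.norm_eq_one (((hoff i hi).2 z hz).trans_lt (by norm_num))
  have he0 : ∀ i ∉ B, ∀ z ∈ Om T n, e i z = 0 := by
    intro i hi z hz
    refine zero_of (φ i) z _ 1 1 (ord_of hFY hHOL n _ _ (he i n) z hz) one_pos ?_
    filter_upwards [hFY.punct n z hz ∅] with w hw
    rw [hnorm i hi w hw.1]
    exact ⟨le_rfl, le_rfl⟩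
  set ψ : ι → C → C := fun i z => if i ∈ B then 1 else φ i z with hψ
  have hψ1 : ∀ ε : ℝ, 0 < ε → ∀ᶠ i in cofinite, ∀ z ∈ Om T n, ‖ψ i z - 1‖ ≤ ε := by
    intro ε hε
    filter_upwards [hφ n ε hε] with i hi z hz
    by_cases hiB : i ∈ B
    · simp [hψ, hiB, hε.le]
    · simpa [hψ, hiB] using hi.2 z hz
  have hψu : ∀ i, UnitOn (Om T n) (ψ i) := by
    intro i
    by_cases hiB : i ∈ B
    · refine hU.congr _ _ _ (hU.const (Om T n) 1 one_ne_zero) fun z _ => ?_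
      simp [hψ, hiB]
    · refine hU.congr _ _ _ (hU.ofle n (φ i) 1 one_pos (hoff i hiB).1 fun z hz => ?_)
        fun z _ => ?_
      · rw [hnorm i hiB z hz]
      · simp [hψ, hiB]
  have h1 := hD.mul _ _ _ _ _ (hD.prod ι n B φ e fun i _ => he i n)
    (hD.unit n _ (hU.tprod ι n ψ hψu hψ1))
  refine hD.congr n _ _ _ _ ∅ h1 (fun z hz _ => ?_) fun z hz => ?_
  · have hm : Multipliable fun i => ψ i z := by
      refine H92.Prod.multipliable ?_
      rw [Metric.tendsto_nhds]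
      intro ε hε
      filter_upwards [hψ1 (ε / 2) (by positivity)] with i hi
      rw [dist_eq_norm]
      exact (hi z hz).trans_lt (by linarith)
    have hp : HasProd (fun i => if i ∈ B then φ i z else 1) (∏ i ∈ B, φ i z) := by
      have h2 : HasProd (fun i => if i ∈ B then φ i z else 1)
          (∏ i ∈ B, if i ∈ B then φ i z else 1) :=
        hasProd_prod_of_ne_finset_one fun i hi => if_neg hi
      rwa [Finset.prod_congr rfl fun i hi => if_pos hi] at h2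
    have h3 := (hp.mul hm.hasProd).tprod_eq
    rw [← h3]
    refine tprod_congr fun i => ?_
    by_cases hiB : i ∈ B <;> simp [hψ, hiB]
  · rw [add_zero]
    refine (finsum_eq_sum_of_support_subset _ fun i hi => ?_).symm
    by_contra hiB
    exact hi (he0 i hiB z hz)

theorem row : OfHD2 := by
  intro C _ _ _ _ _ _ T _ _ hFY hHOL hUNI hWF hHD1
  exact
    { ord := ord_of hFY hHOL
      uniq := uniq_of
      zero := zero_of
      glue := glue_of hFY hHOL hHD1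
      mer := mer_of hFY hHOL hWF hHD1
      tprod := tprod_of hFY hHOL hUNI hHD1 }

end Pool.Agent.MP_a88b1d_nt.RHD2
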