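import Pool.Agent.MP_a88b1d_nt.H93.Spec3

/-! Row HD3: divisors of meromorphic functions under Moebius transformations. -/

open Polynomial OnePoint Filter Topology

namespace Pool.Agent.MP_a88b1d_nt.RHD3

open Pool.Agent.MP_a88b1d_nt.St2 Pool.Agent.MP_a88b1d_nt.P2
open Pool.Agent.MP_a88b1d_nt.H42 (MK den)

variable {C : Type} [NontriviallyNormedField C] [Algebra (ZMod 2) C] [DecidableEq C] {T : C}

theorem comp (B : MB T) (F : FY T) (U : UNI T) (H : HD1 T) (M : MOBN T) (h : MK T) (f : C → C)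
    (e : C → ℤ) (hf : HasDiv T f e) :
    HasDiv T (fun z => f (mob h.1 z)) fun z => e (mob h.1 z) := by
  rw [hasDiv_iff] at hf ⊢
  intro n
  obtain ⟨m, hm⟩ := M.maps' h n
  obtain ⟨s, u, hu, hs, hf⟩ := hf m
  have hψ : ∀ a : C, ∃ w : C, a ∈ s → w ∉ Finf T ∧ mob h.1 w = a := by
    intro a
    by_cases ha : a ∈ s
    · obtain ⟨w, hw, e⟩ := B.surj h a (F.notin m a (hs a ha))
      exact ⟨w, fun _ => ⟨hw, e⟩⟩
    · exact ⟨0, fun h => absurd h ha⟩
  choose ψ hψ using hψ
  have hd : UnitOn (Om T n) fun z => den h.1 z := by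
    refine U.den n _ (h.2.1 1 0) _ (h.2.1 1 1) ?_
    by_contra hc
    rw [not_or, not_not, not_not] at hc
    apply h.2.2
    rw [Matrix.det_fin_two, hc.1, hc.2, mul_zero, mul_zero, sub_zero]
  have hiff : ∀ z ∈ Om T n, ∀ a ∈ s, z = ψ a ↔ mob h.1 z = a := by
    intro z hz a ha
    refine ⟨fun e => by rw [e, (hψ a ha).2], fun e => ?_⟩
    exact B.inj h z (F.notin n z hz) _ (hψ a ha).1 (e.trans (hψ a ha).2.symm)
  have h1 : ∀ a ∈ s, Loc T n
      (fun z => ((h.1.det / den h.1 (ψ a) * (den h.1 z)⁻¹) * (z - ψ a)) ^ e a)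
      fun z => e a * (0 + if z = ψ a then 1 else 0) := by
    intro a ha
    refine H.zpow n _ _ _ (H.mul n _ _ _ _ (H.unit n _ ?_) (H.lin n _))
    exact U.mul n _ _ (U.const _ _ (div_ne_zero h.2.2 (B.den_ne h _ (hψ a ha).1))) (U.inv _ _ hd)
  have h2 := H.mul n _ _ _ _ (H.unit n _ (U.comp h n m u hm hu)) (H.prod C n s _ _ h1)
  refine H.congr n _ _ _ _ (s.image ψ) h2 (fun z hz hz' => ?_) fun z hz => ?_
  · have hn : mob h.1 z ∉ s := fun hc =>
      hz' (Finset.mem_image.2 ⟨_, hc, ((hiff z hz _ hc).2 rfl).symm⟩)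
    rw [(hf _ (hm z hz) hn).2]
    congr 1
    refine Finset.prod_congr rfl fun a ha => ?_
    congr 1
    have := B.sub' h z (F.notin n z hz) _ (hψ a ha).1
    rw [(hψ a ha).2] at this
    rw [this]
    ring
  · rw [zero_add, Finset.sum_congr rfl (g := fun a => if mob h.1 z = a then e a else 0)
      fun a ha => by simp [hiff z hz a ha], Finset.sum_ite_eq]
    split_ifs with hc
    · rfl
    · exact (hf _ (hm z hz) hc).1.symm

omit [DecidableEq C] in
theorem ev_notin (F : FY T) {z : C} (hz : z ∉ Finf T) : ∀ᶠ w in 𝓝[≠] z, w ∉ Finf T := by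
  obtain ⟨n, hn⟩ := F.exh z hz
  exact (F.punct n z hn ∅).mono fun w hw => F.notin n w hw.1

omit [DecidableEq C] in
theorem ord_of (F : FY T) (H : HD2 T) {f : C → C} {e : C → ℤ} (hf : HasDiv T f e) {z : C}
    (hz : z ∉ Finf T) : Ord f z (e z) := by
  obtain ⟨n, hn⟩ := F.exh z hz
  exact H.ord n f e (hf n) z hn

theorem row : OfHD3 := by
  intro C _ _ _ _ _ _ T hT L F _ U H1 H2 M
  refine ⟨comp L.mb F U H1 M, fun g f e c hf hc hg z hz => ?_, fun g f e c hf hd hg z hz hfix => ?_⟩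
  · refine H2.uniq _ z _ _ (ord_of F H2 (comp L.mb F U H1 M g f e hf) hz) ?_
    obtain ⟨c0, h0, ht⟩ := ord_of F H2 hf hz
    refine ⟨c * c0, mul_ne_zero hc h0, (ht.const_mul c).congr' ?_⟩
    filter_upwards [ev_notin F hz] with w hw
    rw [hg w hw, mul_div_assoc]
  · obtain ⟨c0, h0, ht⟩ := ord_of F H2 hf hz
    have t1 := L.mb.den_ne g z hz
    have h1 := M.tend g z hz
    rw [hfix] at h1
    have h2 := ht.comp h1
    have h3 : Tendsto (fun w => (den g.1 w * den g.1 z) ^ e z) (𝓝[≠] z)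
        (𝓝 ((den g.1 z * den g.1 z) ^ e z)) := by
      refine Tendsto.mono_left ?_ nhdsWithin_le_nhds
      refine Tendsto.zpow₀ (Tendsto.mul_const _ ?_) _ (Or.inl (mul_ne_zero t1 t1))
      exact Continuous.tendsto (by unfold den; fun_prop) z
    have h4 := (ht.const_mul c).mul h3
    have h5 : c * c0 * (den g.1 z * den g.1 z) ^ e z = c0 := by
      refine tendsto_nhds_unique (h4.congr' ?_) h2
      filter_upwards [ev_notin F hz] with w hw
      have := L.mb.sub' g w hw z hz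
      rw [hfix, hd, one_mul] at this
      rw [Function.comp_apply, hg w hw, this, div_zpow, div_div_eq_mul_div]
      ring
    apply mul_left_cancel₀ h0
    rw [zpow_mul, zpow_two]
    linear_combination h5

end Pool.Agent.MP_a88b1d_nt.RHD3
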