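import Pool.Agent.MP_a88b1d_nt.H93.Spec3

/-! Holomorphic functions on the affinoids: ring operations, limits, substitutions. -/

open Polynomial Filter Topology

noncomputable section

namespace Pool.Agent.MP_a88b1d_nt.RHOL

open Pool.Agent.MP_a88b1d_nt.St2 Pool.Agent.MP_a88b1d_nt.P2
open Pool.Agent.MP_a88b1d_nt.H42 (MK den)

variable {K : Type} [NontriviallyNormedField K]

/-- Rational functions without poles in `S`. -/
def IsRat (S : Set K) (f : K → K) : Prop :=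
  ∃ P Q : K[X], ∀ z ∈ S, Q.eval z ≠ 0 ∧ f z = P.eval z / Q.eval z

theorem IsRat.add {S : Set K} {f g : K → K} (hf : IsRat S f) (hg : IsRat S g) :
    IsRat S fun z => f z + g z := by
  obtain ⟨P, Q, h⟩ := hf
  obtain ⟨P', Q', h'⟩ := hg
  refine ⟨P * Q' + Q * P', Q * Q', fun z hz => ?_⟩
  obtain ⟨a, b⟩ := h z hz
  obtain ⟨a', b'⟩ := h' z hz
  refine ⟨by rw [eval_mul]; exact mul_ne_zero a a', ?_⟩
  simp only [b, b', eval_add, eval_mul]
  exact div_add_div _ _ a a'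

theorem IsRat.mul {S : Set K} {f g : K → K} (hf : IsRat S f) (hg : IsRat S g) :
    IsRat S fun z => f z * g z := by
  obtain ⟨P, Q, h⟩ := hf
  obtain ⟨P', Q', h'⟩ := hg
  refine ⟨P * P', Q * Q', fun z hz => ?_⟩
  obtain ⟨a, b⟩ := h z hz
  obtain ⟨a', b'⟩ := h' z hz
  refine ⟨by rw [eval_mul]; exact mul_ne_zero a a', ?_⟩
  simp only [b, b', eval_mul]
  exact div_mul_div_comm _ _ _ _

theorem IsRat.inv {S : Set K} {f : K → K} (hf : IsRat S f) (h0 : ∀ z ∈ S, f z ≠ 0) :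
    IsRat S fun z => (f z)⁻¹ := by
  obtain ⟨P, Q, h⟩ := hf
  refine ⟨Q, P, fun z hz => ⟨fun e => h0 z hz ?_, ?_⟩⟩
  · rw [(h z hz).2, e, zero_div]
  · simp only [(h z hz).2, inv_div]

theorem isRat_poly (S : Set K) (P : K[X]) : IsRat S fun z => P.eval z :=
  ⟨P, 1, fun z _ => by simp⟩

theorem isRat_const (S : Set K) (c : K) : IsRat S fun _ => c :=
  ⟨Polynomial.C c, 1, fun z _ => by simp⟩

theorem IsRat.eval {S : Set K} {f : K → K} (hf : IsRat S f) (P : K[X]) :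
    IsRat S fun z => P.eval (f z) := by
  induction P using Polynomial.induction_on with
  | C a => simpa only [eval_C] using isRat_const S a
  | add p q hp hq => simpa only [eval_add] using hp.add hq
  | monomial n a h => simpa only [pow_succ, ← mul_assoc, eval_mul, eval_X] using h.mul hf

theorem IsRat.cont {S : Set K} {f : K → K} (hf : IsRat S f) : ContinuousOn f S := by
  obtain ⟨P, Q, h⟩ := hf
  exact ((P.continuous.continuousOn).div Q.continuous.continuousOn fun z hz => (h z hz).1).congr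
    fun z hz => (h z hz).2

theorem hol_iff {S : Set K} {f : K → K} :
    HolOn S f ↔ ∀ ε : ℝ, 0 < ε → ∃ r, IsRat S r ∧ ∀ z ∈ S, ‖f z - r z‖ ≤ ε := by
  constructor
  · intro h ε hε
    obtain ⟨P, Q, h⟩ := h ε hε
    exact ⟨fun z => P.eval z / Q.eval z, ⟨P, Q, fun z hz => ⟨(h z hz).1, rfl⟩⟩,
      fun z hz => (h z hz).2⟩
  · intro h ε hε
    obtain ⟨r, ⟨P, Q, h1⟩, h2⟩ := h ε hε
    exact ⟨P, Q, fun z hz => ⟨(h1 z hz).1, (h1 z hz).2 ▸ h2 z hz⟩⟩

theorem IsRat.hol {S : Set K} {f : K → K} (hf : IsRat S f) : HolOn S f :=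
  hol_iff.2 fun ε hε => ⟨f, hf, fun z _ => by simpa using hε.le⟩

theorem hol_congr {S : Set K} {f g : K → K} (hf : HolOn S f) (e : ∀ z ∈ S, f z = g z) :
    HolOn S g := fun ε hε => by
  obtain ⟨P, Q, h⟩ := hf ε hε
  exact ⟨P, Q, fun z hz => e z hz ▸ h z hz⟩

theorem hol_lim {S : Set K} {f : K → K}
    (h : ∀ ε : ℝ, 0 < ε → ∃ g, HolOn S g ∧ ∀ z ∈ S, ‖f z - g z‖ ≤ ε) : HolOn S f := by
  intro ε hε
  obtain ⟨g, hg, h1⟩ := h (ε / 2) (half_pos hε)
  obtain ⟨P, Q, h2⟩ := hg (ε / 2) (half_pos hε)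
  refine ⟨P, Q, fun z hz => ⟨(h2 z hz).1, ?_⟩⟩
  have := norm_sub_le_norm_sub_add_norm_sub (f z) (g z) (P.eval z / Q.eval z)
  linarith [h1 z hz, (h2 z hz).2]

theorem hol_add {S : Set K} {f g : K → K} (hf : HolOn S f) (hg : HolOn S g) :
    HolOn S fun z => f z + g z := by
  refine hol_iff.2 fun ε hε => ?_
  obtain ⟨r, hr, h1⟩ := hol_iff.1 hf (ε / 2) (half_pos hε)
  obtain ⟨s, hs, h2⟩ := hol_iff.1 hg (ε / 2) (half_pos hε)
  refine ⟨_, hr.add hs, fun z hz => ?_⟩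
  have := norm_add_le (f z - r z) (g z - s z)
  rw [show f z + g z - (r z + s z) = f z - r z + (g z - s z) by ring]
  linarith [h1 z hz, h2 z hz]

theorem hol_neg {S : Set K} {f : K → K} (hf : HolOn S f) : HolOn S fun z => -f z := by
  intro ε hε
  obtain ⟨P, Q, h⟩ := hf ε hε
  refine ⟨-P, Q, fun z hz => ⟨(h z hz).1, ?_⟩⟩
  rw [eval_neg, neg_div, neg_sub_neg, norm_sub_rev]
  exact (h z hz).2

theorem hol_sum {ι : Type} {S : Set K} (s : Finset ι) {φ : ι → K → K}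
    (h : ∀ i ∈ s, HolOn S (φ i)) : HolOn S fun z => ∑ i ∈ s, φ i z := by
  classical
  induction s using Finset.induction_on with
  | empty => simpa using (isRat_const S 0).hol
  | insert a s ha ih =>
    simp only [Finset.sum_insert ha]
    exact hol_add (h a (Finset.mem_insert_self _ _))
      (ih fun i hi => h i (Finset.mem_insert_of_mem hi))

theorem hol_cont {S : Set K} {f : K → K} (hf : HolOn S f) : ContinuousOn f S := by
  refine continuousOn_of_uniform_approx_of_continuousOn fun u hu => ?_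
  obtain ⟨ε, hε, hu⟩ := Metric.mem_uniformity_dist.1 hu
  obtain ⟨r, hr, h⟩ := hol_iff.1 hf (ε / 2) (half_pos hε)
  refine ⟨r, hr.cont, fun z hz => hu ?_⟩
  rw [dist_eq_norm]
  linarith [h z hz]

theorem poly_bdd (R : ℝ) (P : K[X]) : ∃ M : ℝ, 0 ≤ M ∧ ∀ z, ‖z‖ ≤ R → ‖P.eval z‖ ≤ M := by
  induction P using Polynomial.induction_on with
  | C a => exact ⟨‖a‖, norm_nonneg _, fun z _ => by rw [eval_C]⟩
  | add p q hp hq =>
    obtain ⟨M, h0, hM⟩ := hp
    obtain ⟨N, h1, hN⟩ := hq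
    exact ⟨M + N, add_nonneg h0 h1, fun z hz => by
      rw [eval_add]; exact (norm_add_le _ _).trans (add_le_add (hM z hz) (hN z hz))⟩
  | monomial n a h =>
    obtain ⟨M, h0, hM⟩ := h
    refine ⟨M * |R|, mul_nonneg h0 (abs_nonneg _), fun z hz => ?_⟩
    rw [pow_succ, ← mul_assoc, eval_mul, eval_X, norm_mul]
    exact mul_le_mul (hM z hz) (hz.trans (le_abs_self R)) (norm_nonneg _) h0

theorem prod_low {S : Set K} {δ : ℝ} (hδ : 0 < δ) (l : Multiset K)
    (h : ∀ b ∈ l, ∀ z ∈ S, δ ≤ ‖z - b‖) :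
    ∃ c : ℝ, 0 < c ∧ ∀ z ∈ S, c ≤ ‖(l.map (z - ·)).prod‖ := by
  induction l using Multiset.induction_on with
  | empty => exact ⟨1, one_pos, fun z _ => by simp⟩
  | cons a l ih =>
    obtain ⟨c, hc, h1⟩ := ih fun b hb => h b (Multiset.mem_cons_of_mem hb)
    refine ⟨δ * c, mul_pos hδ hc, fun z hz => ?_⟩
    rw [Multiset.map_cons, Multiset.prod_cons, norm_mul]
    exact mul_le_mul (h a (Multiset.mem_cons_self _ _) z hz) (h1 z hz) hc.le (norm_nonneg _)

variable [Algebra (ZMod 2) K] {T : K}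

theorem rat_bdd [IsAlgClosed K] (hT : 1 < ‖T‖) (F : FY T) {n : ℕ} {f : K → K}
    (hf : IsRat (Om T n) f) : ∃ M : ℝ, 0 ≤ M ∧ ∀ z ∈ Om T n, ‖f z‖ ≤ M := by
  obtain ⟨P, Q, h⟩ := hf
  by_cases hQ : Q = 0
  · exact ⟨0, le_rfl, fun z hz => absurd (by rw [hQ, eval_zero]) (h z hz).1⟩
  have hp : 0 < ‖T‖ ^ n := pow_pos (one_pos.trans hT) n
  obtain ⟨c, hc, h1⟩ := prod_low (S := Om T n) (inv_pos.2 hp) Q.roots fun b hb z hz => by
    rw [inv_le_iff_one_le_mul₀' hp, norm_sub_rev]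
    exact not_lt.1 fun hlt => (h b (F.stab n z hz b hlt)).1 ((mem_roots hQ).1 hb)
  obtain ⟨M, h0, hM⟩ := poly_bdd (‖T‖ ^ n) P
  have hl : 0 < ‖Q.leadingCoeff‖ := norm_pos_iff.2 (leadingCoeff_ne_zero.2 hQ)
  refine ⟨M / (‖Q.leadingCoeff‖ * c), by positivity, fun z hz => ?_⟩
  rw [(h z hz).2, norm_div, (IsAlgClosed.splits Q).eval_eq_prod_roots, norm_mul]
  exact div_le_div₀ h0 (hM z hz.1) (mul_pos hl hc) (mul_le_mul_of_nonneg_left (h1 z hz) hl.le)

theorem hol_bdd [IsAlgClosed K] (hT : 1 < ‖T‖) (F : FY T) {n : ℕ} {f : K → K}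
    (hf : HolOn (Om T n) f) : ∃ M : ℝ, 0 < M ∧ ∀ z ∈ Om T n, ‖f z‖ ≤ M := by
  obtain ⟨r, hr, h⟩ := hol_iff.1 hf 1 one_pos
  obtain ⟨M, h0, hM⟩ := rat_bdd hT F hr
  refine ⟨M + 1, by linarith, fun z hz => ?_⟩
  have := norm_le_norm_add_norm_sub' (f z) (r z)
  linarith [h z hz, hM z hz]

theorem hol_mul [IsAlgClosed K] (hT : 1 < ‖T‖) (F : FY T) {n : ℕ} {f g : K → K}
    (hf : HolOn (Om T n) f) (hg : HolOn (Om T n) g) : HolOn (Om T n) fun z => f z * g z := by
  refine hol_iff.2 fun ε hε => ?_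
  obtain ⟨N, hN0, hN⟩ := hol_bdd hT F hg
  obtain ⟨r, hr, h1⟩ := hol_iff.1 hf (ε / 2 / N) (by positivity)
  obtain ⟨M, hM0, hM⟩ := hol_bdd hT F hr.hol
  obtain ⟨s, hs, h2⟩ := hol_iff.1 hg (ε / 2 / M) (by positivity)
  refine ⟨_, hr.mul hs, fun z hz => ?_⟩
  rw [show f z * g z - r z * s z = (f z - r z) * g z + r z * (g z - s z) by ring]
  refine (norm_add_le _ _).trans ?_
  rw [norm_mul, norm_mul]
  have a1 := mul_le_mul (h1 z hz) (hN z hz) (norm_nonneg _) (by positivity)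
  have a2 := mul_le_mul (hM z hz) (h2 z hz) (norm_nonneg _) hM0.le
  rw [div_mul_cancel₀ _ hN0.ne'] at a1
  rw [mul_div_cancel₀ _ hM0.ne'] at a2
  linarith

omit [Algebra (ZMod 2) K] in
theorem hol_tsum [IsUltrametricDist K] [CompleteSpace K] {ι : Type} {S : Set K} {φ : ι → K → K}
    (h : ∀ i, HolOn S (φ i)) (hφ : ∀ ε : ℝ, 0 < ε → ∀ᶠ i in cofinite, ∀ z ∈ S, ‖φ i z‖ ≤ ε) :
    HolOn S fun z => ∑' i, φ i z := by
  refine hol_lim fun ε hε => ?_
  have hfin := Filter.eventually_cofinite.1 (hφ ε hε)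
  refine ⟨_, hol_sum hfin.toFinset fun i _ => h i, fun z hz => ?_⟩
  have hs : Summable fun i => φ i z := by
    refine NonarchimedeanAddGroup.summable_of_tendsto_cofinite_zero ?_
    refine Metric.tendsto_nhds.2 fun δ hδ => (hφ (δ / 2) (half_pos hδ)).mono fun i hi => ?_
    rw [dist_zero_right]
    linarith [hi z hz]
  rw [← hs.sum_add_tsum_compl (s := hfin.toFinset), add_sub_cancel_left]
  refine IsUltrametricDist.norm_tsum_le_of_forall_le_of_nonneg hε.le fun i => ?_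
  have hi := i.2
  simp only [Set.mem_compl_iff, Finset.mem_coe, Set.Finite.mem_toFinset, Set.mem_ofPred_eq,
    not_not] at hi
  exact hi z hz

omit [Algebra (ZMod 2) K] in
theorem sigom (σ : K ≃+* K) (h : Iso T σ) : Iso T σ.symm ∧ (∀ z, σ z ∈ Finf T ↔ z ∈ Finf T) ∧
    ∀ n z, σ z ∈ Om T n ↔ z ∈ Om T n := by
  refine ⟨⟨fun x => ?_, fun x hx => ?_⟩, fun z => ⟨fun hz => ?_, fun hz => ?_⟩, fun n z => ?_⟩
  · rw [← h.1, σ.apply_symm_apply]
  · rw [σ.symm_apply_eq, h.2 x hx]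
  · rwa [σ.injective (h.2 _ hz)] at hz
  · rwa [h.2 z hz]
  · have e : ∀ x ∈ Finf T, ‖σ z - x‖ = ‖z - x‖ := fun x hx => by
      rw [← h.1 (z - x), map_sub, h.2 x hx]
    simp only [Om, Set.mem_ofPred_eq, h.1]
    exact and_congr_right fun _ => forall₂_congr fun x hx => by rw [e x hx]

theorem row : OfHOL := by
  intro K _ _ _ _ _ _ T hT L F
  refine
    { congr := fun S f g => hol_congr
      mono := fun S S' f hS hf ε hε => ?_
      rat := fun S P Q hQ => IsRat.hol ⟨P, Q, fun z hz => ⟨hQ z hz, rfl⟩⟩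
      poly := fun S P => (isRat_poly S P).hol
      const := fun S c => (isRat_const S c).hol
      lin := fun S a b => ?_
      add := fun S f g => hol_add
      sub := fun S f g hf hg => ?_
      bdd := fun n f => hol_bdd hT F
      mul := fun n f g => hol_mul hT F
      pow := fun n k f hf => ?_
      sum := fun ι S s φ => hol_sum s
      prod := fun ι n s φ h => ?_
      cont := fun S f => hol_cont
      lim := fun S f => hol_lim
      tsum := fun ι S φ => hol_tsum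
      comp := fun h n m f hm hf => ?_
      sigom := sigom
      sig := fun σ hσ n f hf ε hε => ?_ }
  · obtain ⟨P, Q, h⟩ := hf ε hε
    exact ⟨P, Q, fun z hz => h z (hS hz)⟩
  · exact hol_congr (isRat_poly S (Polynomial.C a * X + Polynomial.C b)).hol fun z _ => by simp
  · simpa only [sub_eq_add_neg] using hol_add hf (hol_neg hg)
  · induction k with
    | zero => simpa using (isRat_const _ 1).hol
    | succ k ih => simpa only [pow_succ] using hol_mul hT F ih hf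
  · classical
    induction s using Finset.induction_on with
    | empty => simpa using (isRat_const _ 1).hol
    | insert a s ha ih =>
      simp only [Finset.prod_insert ha]
      exact hol_mul hT F (h a (Finset.mem_insert_self _ _))
        (ih fun i hi => h i (Finset.mem_insert_of_mem hi))
  · refine hol_iff.2 fun ε hε => ?_
    obtain ⟨P, Q, h1⟩ := hf ε hε
    have hr : IsRat (Om T n) (mob h.1) :=
      ⟨Polynomial.C (h.1 0 0) * X + Polynomial.C (h.1 0 1),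
        Polynomial.C (h.1 1 0) * X + Polynomial.C (h.1 1 1), fun z hz =>
          ⟨by simpa [den] using L.mb.den_ne h z (F.notin n z hz), by simp [mob]⟩⟩
    refine ⟨_, (hr.eval P).mul ((hr.eval Q).inv fun z hz => (h1 _ (hm z hz)).1), fun z hz => ?_⟩
    simpa only [div_eq_mul_inv] using (h1 _ (hm z hz)).2
  · obtain ⟨P, Q, h1⟩ := hf ε hε
    refine ⟨P.map σ.toRingHom, Q.map σ.toRingHom, fun z hz => ?_⟩
    obtain ⟨w, rfl⟩ := σ.surjective z
    have e : ∀ R : K[X], (R.map σ.toRingHom).eval (σ w) = σ (R.eval w) := fun R =>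
      eval_map_apply σ.toRingHom w
    obtain ⟨h2, h3⟩ := h1 w (((sigom σ hσ).2.2 n w).1 hz)
    beta_reduce
    rw [e, e, σ.symm_apply_apply, ← map_div₀, ← map_sub, hσ.1]
    exact ⟨(map_ne_zero σ).2 h2, h3⟩

end Pool.Agent.MP_a88b1d_nt.RHOL
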