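import Pool.Agent.MP_a88b1d_nt.H93.Spec3

/-! Row LOWA: lower bounds of Gauss norms along the tree and the number of zeros. -/

open Polynomial

noncomputable section

namespace Pool.Agent.MP_a88b1d_nt.RLOWA

open Pool.Agent.MP_a88b1d_nt.St2 Pool.Agent.MP_a88b1d_nt.P2

theorem real_ge {d d' r lo hi : ℝ} (h0 : 0 < lo) (h1 : lo ≤ r) (h2 : r ≤ hi) (h3 : hi * lo = r ^ 2)
    (t1 : d ≤ max d' r) (t2 : d' ≤ max d r) (t3 : r ≤ max d d') :
    max d r ^ 3 ≤ max d hi * max d lo * max d' lo := by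
  have hr : 0 < r := h0.trans_le h1
  rcases lt_or_ge r d with h | h
  · have e : d' = d := le_antisymm (by simpa [h.le] using t2)
      ((le_max_iff.1 t1).resolve_right (not_le.2 h))
    have hd : 0 < d := hr.trans h
    rw [e, max_eq_left h.le, max_eq_left (h1.trans h.le)]
    calc d ^ 3 = d * d * d := by ring
      _ ≤ max d hi * d * d := by gcongr; exact le_max_left _ _
  · rw [max_eq_right h, max_eq_right (h.trans h2)]
    have hh : 0 < hi := hr.trans_le h2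
    rcases le_max_iff.1 t3 with k | k
    · calc r ^ 3 = hi * r * lo := by linear_combination -r * h3
        _ ≤ hi * max d lo * max d' lo := by
          gcongr
          · exact k.trans (le_max_left _ _)
          · exact le_max_right _ _
    · calc r ^ 3 = hi * lo * r := by linear_combination -r * h3
        _ ≤ hi * max d lo * max d' lo := by
          gcongr
          · exact le_max_right _ _
          · exact k.trans (le_max_left _ _)

theorem real_eq {d d' r lo hi : ℝ} (h1 : lo < r) (h2 : r < hi) (h3 : hi * lo = r ^ 2)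
    (t1 : d ≤ max d' r) (t2 : d' ≤ max d r) (t3 : r ≤ max d d')
    (h : hi ≤ d ∨ (d ≤ r ∧ (d ≤ lo ∨ d' ≤ lo))) :
    max d hi * max d lo * max d' lo = max d r ^ 3 := by
  rcases h with h | ⟨h, k | k⟩
  · have hd : r < d := h2.trans_le h
    have e : d' = d := le_antisymm (by simpa [hd.le] using t2)
      ((le_max_iff.1 t1).resolve_right (not_le.2 hd))
    rw [e, max_eq_left h, max_eq_left hd.le, max_eq_left (h1.trans hd).le]; ring
  · have e : d' = r := le_antisymm (by simpa [h] using t2)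
      ((le_max_iff.1 t3).resolve_left (not_le.2 (k.trans_lt h1)))
    rw [e, max_eq_right h, max_eq_right k, max_eq_right (h.trans h2.le), max_eq_left h1.le]
    linear_combination r * h3
  · have e : d = r := le_antisymm h ((le_max_iff.1 t3).resolve_right (not_le.2 (k.trans_lt h1)))
    rw [e, max_self, max_eq_right k, max_eq_right h2.le, max_eq_left h1.le]
    linear_combination r * h3

theorem walk (g : ℕ → ℝ) (h0 : 0 ≤ g 0) (k : ℕ) (hs : ∀ i < k, g i ^ 3 ≤ g (i + 1)) :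
    g 0 ^ 3 ^ k ≤ g k := by
  induction k with
  | zero => simp
  | succ k ih =>
    have h1 := ih fun i hi => hs i (by omega)
    calc g 0 ^ 3 ^ (k + 1) = (g 0 ^ 3 ^ k) ^ 3 := by rw [pow_succ, pow_mul]
      _ ≤ g k ^ 3 := by gcongr
      _ ≤ g (k + 1) := hs k (by omega)

theorem pow_count {α : Type} (p : α → Prop) [DecidablePred p] (f : α → ℝ) (q : ℝ) (hq : 0 ≤ q)
    (h1 : ∀ a, 1 ≤ f a) (h2 : ∀ a, p a → q ≤ f a) (s : Multiset α) :
    q ^ s.countP p ≤ (s.map f).prod := by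
  induction s using Multiset.induction_on with
  | empty => simp
  | cons a s ih =>
    rw [Multiset.countP_cons, Multiset.map_cons, Multiset.prod_cons, pow_add, mul_comm]
    have h3 : 0 ≤ f a := zero_le_one.trans (h1 a)
    split_ifs with h
    · rw [pow_one]; gcongr; exact h2 a h
    · rw [pow_zero]; gcongr; exact h1 a

theorem count_le {α : Type} (p p1 p2 p3 : α → Prop) [DecidablePred p] [DecidablePred p1]
    [DecidablePred p2] [DecidablePred p3] (h : ∀ a, p a → p1 a ∨ p2 a ∨ p3 a) (s : Multiset α) :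
    s.countP p ≤ s.countP p1 + s.countP p2 + s.countP p3 := by
  induction s using Multiset.induction_on with
  | empty => simp
  | cons a s ih =>
    simp only [Multiset.countP_cons]
    have := h a
    split_ifs <;> first | omega | simp_all

variable {C : Type} [NontriviallyNormedField C]

/-- The defect of a root at a vertex. -/
def kap (T y : C) (j : ℤ) (a : C) : ℝ :=
  max ‖a - y‖ (‖T‖ ^ (j + 1)) * max ‖a - y‖ (‖T‖ ^ (j - 1)) *
    max ‖a - (y + T ^ j)‖ (‖T‖ ^ (j - 1)) / max ‖a - y‖ (‖T‖ ^ j) ^ 3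

theorem hilo {q : ℝ} (hq : 1 < q) (j : ℤ) : q ^ (j + 1) * q ^ (j - 1) = (q ^ j) ^ 2 := by
  have : q ≠ 0 := by positivity
  rw [← zpow_add₀ this, sq, ← zpow_add₀ this]; congr 1; ring

theorem gs_id {T : C} (hT : 1 < ‖T‖) (y : C) (j : ℤ) (P : C[X]) :
    gs y (‖T‖ ^ (j + 1)) P * gs y (‖T‖ ^ (j - 1)) P * gs (y + T ^ j) (‖T‖ ^ (j - 1)) P =
      gs y (‖T‖ ^ j) P ^ 3 * (P.roots.map (kap T y j)).prod := by
  have h : ∀ s : Multiset C, (s.map fun a => max ‖a - y‖ (‖T‖ ^ (j + 1))).prod *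
      (s.map fun a => max ‖a - y‖ (‖T‖ ^ (j - 1))).prod *
      (s.map fun a => max ‖a - (y + T ^ j)‖ (‖T‖ ^ (j - 1))).prod =
      (s.map fun a => max ‖a - y‖ (‖T‖ ^ j)).prod ^ 3 * (s.map (kap T y j)).prod := by
    intro s
    rw [← Multiset.prod_map_mul, ← Multiset.prod_map_mul, ← Multiset.prod_map_pow,
      ← Multiset.prod_map_mul]
    congr 1
    refine Multiset.map_congr rfl fun a _ => ?_
    have : 0 < max ‖a - y‖ (‖T‖ ^ j) := lt_max_of_lt_right (by positivity)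
    rw [kap]; field_simp
  simp only [gs]
  linear_combination ‖P.leadingCoeff‖ ^ 3 * h P.roots

variable [IsUltrametricDist C]

theorem um (a b c : C) : ‖a - c‖ ≤ max ‖a - b‖ ‖b - c‖ := by
  have := IsUltrametricDist.norm_add_le_max (a - b) (b - c)
  rwa [sub_add_sub_cancel] at this

theorem tri (T y : C) (j : ℤ) (a : C) :
    ‖a - y‖ ≤ max ‖a - (y + T ^ j)‖ (‖T‖ ^ j) ∧ ‖a - (y + T ^ j)‖ ≤ max ‖a - y‖ (‖T‖ ^ j) ∧
      ‖T‖ ^ j ≤ max ‖a - y‖ ‖a - (y + T ^ j)‖ := by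
  refine ⟨?_, ?_, ?_⟩
  · simpa [norm_zpow] using um a (y + T ^ j) y
  · simpa [norm_zpow] using um a y (y + T ^ j)
  · have := um y a (y + T ^ j)
    rw [norm_sub_rev y a] at this
    simpa [norm_zpow] using this

theorem kap_ge {T : C} (hT : 1 < ‖T‖) (y : C) (j : ℤ) (a : C) : 1 ≤ kap T y j a := by
  obtain ⟨t1, t2, t3⟩ := tri T y j a
  have : 0 < max ‖a - y‖ (‖T‖ ^ j) := lt_max_of_lt_right (by positivity)
  rw [kap, le_div_iff₀ (by positivity), one_mul]
  exact real_ge (by positivity) (zpow_le_zpow_right₀ hT.le (by omega))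
    (zpow_le_zpow_right₀ hT.le (by omega)) (hilo hT j) t1 t2 t3

theorem kap_ann {T : C} (hT : 1 < ‖T‖) (y : C) (j : ℤ) (a : C) (h1 : ‖T‖ ^ (j - 1) < ‖a - y‖)
    (h2 : ‖a - y‖ ≤ ‖T‖ ^ j) : kap T y (j - 1) a = ‖T‖ ^ j / ‖a - y‖ := by
  obtain ⟨t1, t2, -⟩ := tri T y (j - 1) a
  have e : ‖a - (y + T ^ (j - 1))‖ = ‖a - y‖ := le_antisymm (by simpa [h1.le] using t2)
    ((le_max_iff.1 t1).resolve_right (not_le.2 h1))
  have h3 : ‖T‖ ^ (j - 1 - 1) ≤ ‖a - y‖ := (zpow_le_zpow_right₀ hT.le (by omega)).trans h1.le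
  have h4 : 0 < ‖a - y‖ := lt_trans (by positivity) h1
  rw [kap, e, sub_add_cancel, max_eq_right h2, max_eq_left h3, max_eq_left h1.le]
  field_simp

theorem kap_big {T : C} (hT : 1 < ‖T‖) (y : C) (j : ℤ) (a : C) (h : ‖a - y‖ ≤ ‖T‖ ^ j)
    (h1 : ‖T‖ ^ (j - 1) < ‖a - y‖) (h2 : ‖T‖ ^ (j - 1) < ‖a - (y + T ^ j)‖) :
    ‖T‖ ≤ kap T y j a * kap T y (j - 1) a * kap T (y + T ^ j) (j - 1) a := by
  obtain ⟨-, t2, -⟩ := tri T y j a
  have h' : ‖a - (y + T ^ j)‖ ≤ ‖T‖ ^ j := by simpa [h] using t2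
  have h4 : 0 < ‖a - y‖ := lt_trans (by positivity) h1
  have h5 : 0 < ‖a - (y + T ^ j)‖ := lt_trans (by positivity) h2
  have h6 : ‖T‖ ≠ 0 := by positivity
  rw [kap_ann hT y j a h1 h, kap_ann hT _ j a h2 h', kap, max_eq_right h, max_eq_left h1.le,
    max_eq_left h2.le, max_eq_right (h.trans (zpow_le_zpow_right₀ hT.le (by omega))),
    zpow_add_one₀ h6]
  apply le_of_eq
  field_simp

variable [Algebra (ZMod 2) C]

theorem kap_eq {T : C} (hT : 1 < ‖T‖) (F : FY T) (n : ℕ) {y : C} (hy : y ∈ Finf T)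
    (hn : ‖y‖ ≤ ‖T‖ ^ n) {j : ℤ} (j1 : -(n : ℤ) - 1 ≤ j) (j2 : j ≤ n) {a : C}
    (ha : a ∉ Om T (n + 2)) : kap T y j a = 1 := by
  obtain ⟨t1, t2, t3⟩ := tri T y j a
  have : 0 < max ‖a - y‖ (‖T‖ ^ j) := lt_max_of_lt_right (by positivity)
  have h6 : ‖T‖ ≠ 0 := by positivity
  rw [kap, div_eq_one_iff_eq (by positivity)]
  refine real_eq (zpow_lt_zpow_right₀ hT (by omega)) (zpow_lt_zpow_right₀ hT (by omega))
    (hilo hT j) t1 t2 t3 ?_
  rcases F.out _ a ha with h | ⟨x, hx, -, h⟩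
  · left
    have h1 : ‖T‖ ^ (j + 1) ≤ ‖T‖ ^ (n + 2) := by
      rw [← zpow_natCast]; exact zpow_le_zpow_right₀ hT.le (by push_cast; omega)
    have h2 : ‖y‖ < ‖a‖ := (hn.trans (pow_le_pow_right₀ hT.le (by omega))).trans_lt h
    have h3 := um a y 0
    rw [sub_zero, sub_zero] at h3
    exact h1.trans (h.le.trans ((le_max_iff.1 h3).resolve_right (not_le.2 h2)))
  · have h1 : ‖a - x‖ ≤ ‖T‖ ^ (j - 1) := by
      have h2 : (1 : ℝ) ≤ ‖T‖ ^ (n + 2) * ‖T‖ ^ (j - 1) := by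
        rw [← zpow_natCast, ← zpow_add₀ h6]
        exact one_le_zpow₀ hT.le (by push_cast; omega)
      exact le_of_mul_le_mul_left (h.le.trans h2) (by positivity)
    have h0 : ‖T‖ ^ (j - 1) < ‖T‖ ^ j := zpow_lt_zpow_right₀ hT (by omega)
    have hxy := (Finf T).sub_mem hx hy
    rcases le_or_gt ‖x - y‖ (‖T‖ ^ j) with k | k
    · right
      refine ⟨(um a x y).trans (max_le (h1.trans h0.le) k), ?_⟩
      rcases F.split _ hxy j k with k2 | k2
      · exact Or.inl ((um a x y).trans (max_le h1 k2))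
      · rw [sub_sub] at k2
        exact Or.inr ((um a x _).trans (max_le h1 k2))
    · left
      obtain ⟨m, hm⟩ := F.val _ hxy (by
        intro e
        rw [e, norm_zero] at k
        exact absurd k (not_lt.2 (by positivity)))
      have h2 : j < m := by
        rw [hm] at k
        exact (zpow_lt_zpow_iff_right₀ hT).1 k
      have h3 := um x a y
      rw [norm_sub_rev x a] at h3
      have h4 := (le_max_iff.1 h3).resolve_left (not_le.2 ((h1.trans_lt h0).trans k))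
      refine le_trans ?_ h4
      rw [hm]
      exact zpow_le_zpow_right₀ hT.le (by omega)

omit [Algebra (ZMod 2) C] in
theorem gs_congr {y y' : C} {r : ℝ} (h : ‖y - y'‖ ≤ r) (P : C[X]) : gs y r P = gs y' r P := by
  simp only [gs]
  congr 2
  refine Multiset.map_congr rfl fun a _ => le_antisymm ?_ ?_
  · refine max_le ((um a y' y).trans (max_le_max le_rfl ?_)) (le_max_right _ _)
    rwa [norm_sub_rev]
  · exact max_le ((um a y y').trans (max_le_max le_rfl h)) (le_max_right _ _)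

omit [Algebra (ZMod 2) C] in
theorem upper {T : C} (hT : 1 < ‖T‖) (X : MAX T) (n : ℕ) {M : ℝ} {P Q : C[X]}
    (hM : ∀ z ∈ Om T (n + 2), ‖P.eval z / Q.eval z‖ ≤ M) {y : C} (hy : y ∈ Finf T)
    (hn : ‖y‖ ≤ ‖T‖ ^ n) {j : ℤ} (j1 : -(n : ℤ) - 2 ≤ j) (j2 : j ≤ n + 1) :
    gs y (‖T‖ ^ j) P / gs y (‖T‖ ^ j) Q ≤ M := by
  classical
  have h6 : ‖T‖ ≠ 0 := by positivity
  obtain ⟨z, z1, z2, z3⟩ := X.genv y hy (T ^ j) (zpow_ne_zero _ (norm_ne_zero_iff.1 h6))
    (P.roots.toFinset ∪ Q.roots.toFinset)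
  rw [norm_zpow] at z1 z2 z3
  simp only [Finset.mem_union, Multiset.mem_toFinset] at z3
  rw [← X.eq y _ P z fun a ha => z3 a (Or.inl ha), ← X.eq y _ Q z fun a ha => z3 a (Or.inr ha),
    ← norm_div]
  refine hM z ⟨?_, fun x hx => ?_⟩
  · have h3 := um z y 0
    rw [sub_zero, sub_zero, z1] at h3
    refine h3.trans (max_le ?_ (hn.trans (pow_le_pow_right₀ hT.le (by omega))))
    rw [← zpow_natCast]; exact zpow_le_zpow_right₀ hT.le (by push_cast; omega)
  · have h2 : (1 : ℝ) ≤ ‖T‖ ^ (n + 2) * ‖T‖ ^ j := by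
      rw [← zpow_natCast, ← zpow_add₀ h6]
      exact one_le_zpow₀ hT.le (by push_cast; omega)
    exact h2.trans (mul_le_mul_of_nonneg_left (z2 x hx) (by positivity))

theorem row : OfLOWA := by
  intro C _ _ _ _ _ _ T hT _ F X n M μ hμ
  classical
  rcases lt_or_ge M μ with hMμ | hMμ
  · refine ⟨0, 1, one_pos, fun P Q _ hM ⟨z, hz, h⟩ => ?_⟩
    exact absurd (h.trans (hM z (F.mono _ _ (by omega) hz))) (not_le.2 hMμ)
  have hM0 : 0 < M := hμ.trans_le hMμ
  have h6 : ‖T‖ ≠ 0 := by positivity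
  set c0 : ℝ := μ / M with hc0
  have c0p : 0 < c0 := by positivity
  have c01 : c0 ≤ 1 := (div_le_one hM0).2 hMμ
  set c : ℝ := (c0 ^ 3 ^ (2 * n)) ^ 3 ^ (2 * n + 1) with hc
  have cp : 0 < c := by positivity
  obtain ⟨B, hB⟩ := pow_unbounded_of_one_lt ((c ^ 3)⁻¹ ^ 3) hT
  refine ⟨2 ^ (2 * n + 1) * B, c * M, by positivity, fun P Q hQ hM ⟨z, hz, hzμ⟩ => ?_⟩
  have hQ0 : Q ≠ 0 := fun e => hQ z (F.mono _ _ (by omega) hz) (by rw [e, eval_zero])
  have hP0 : P ≠ 0 := fun e => by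
    rw [e, eval_zero, zero_div, norm_zero] at hzμ
    exact absurd hzμ (not_le.2 hμ)
  set g : C → ℤ → ℝ := fun y j => gs y (‖T‖ ^ j) P / gs y (‖T‖ ^ j) Q / M with hg
  have gp : ∀ y j, 0 < g y j := fun y j =>
    div_pos (div_pos (X.pos _ _ _ (by positivity) hP0) (X.pos _ _ _ (by positivity) hQ0)) hM0
  have g1 : ∀ y ∈ Finf T, ‖y‖ ≤ ‖T‖ ^ n → ∀ j : ℤ, -(n : ℤ) - 2 ≤ j → j ≤ n + 1 → g y j ≤ 1 :=
    fun y hy hn j j1 j2 => (div_le_one hM0).2 (upper hT X n hM hy hn j1 j2)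
  have nb : ∀ y ∈ Finf T, ‖y‖ ≤ ‖T‖ ^ n → ∀ j : ℤ, j ≤ n →
      y + T ^ j ∈ Finf T ∧ ‖y + T ^ j‖ ≤ ‖T‖ ^ n := fun y hy hn j j2 => by
    refine ⟨(Finf T).add_mem hy ((Finf T).zpow_mem F.memT j), ?_⟩
    refine (IsUltrametricDist.norm_add_le_max _ _).trans (max_le hn ?_)
    rw [norm_zpow, ← zpow_natCast]; exact zpow_le_zpow_right₀ hT.le j2
  have K1 : ∀ y j, 1 ≤ (P.roots.map (kap T y j)).prod := fun y j => by
    simpa using pow_count (fun _ => True) (kap T y j) 1 zero_le_one (kap_ge hT y j)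
      (fun a _ => kap_ge hT y j a) P.roots
  have gid : ∀ y ∈ Finf T, ‖y‖ ≤ ‖T‖ ^ n → ∀ j : ℤ, -(n : ℤ) - 1 ≤ j → j ≤ n →
      g y (j + 1) * g y (j - 1) * g (y + T ^ j) (j - 1) =
        g y j ^ 3 * (P.roots.map (kap T y j)).prod := fun y hy hn j j1 j2 => by
    have e1 := gs_id hT y j P
    have e2 := gs_id hT y j Q
    have e3 : (Q.roots.map (kap T y j)).prod = 1 := Multiset.prod_eq_one (by
      intro x hx
      obtain ⟨a, ha, rfl⟩ := Multiset.mem_map.1 hx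
      exact kap_eq hT F n hy hn j1 j2 fun h => hQ a h ((mem_roots hQ0).1 ha))
    rw [e3, mul_one] at e2
    simp only [hg]
    rw [div_mul_div_comm, div_mul_div_comm, div_mul_div_comm, div_mul_div_comm, e1, e2]
    ring
  have step : ∀ y ∈ Finf T, ‖y‖ ≤ ‖T‖ ^ n → ∀ j : ℤ, -(n : ℤ) - 1 ≤ j → j ≤ n →
      g y j ^ 3 ≤ g y (j + 1) ∧ g y j ^ 3 ≤ g y (j - 1) ∧
        g y j ^ 3 * (P.roots.map (kap T y j)).prod ≤ 1 := fun y hy hn j j1 j2 => by
    have e := gid y hy hn j j1 j2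
    obtain ⟨m1, m2⟩ := nb y hy hn j j2
    have a1 := g1 y hy hn (j + 1) (by omega) (by omega)
    have a2 := g1 y hy hn (j - 1) (by omega) (by omega)
    have a3 := g1 _ m1 m2 (j - 1) (by omega) (by omega)
    have b1 := gp y (j + 1)
    have b2 := gp y (j - 1)
    have b3 := gp (y + T ^ j) (j - 1)
    have b4 := gp y j
    have le : g y j ^ 3 ≤ g y (j + 1) * g y (j - 1) * g (y + T ^ j) (j - 1) := by
      rw [e]; exact le_mul_of_one_le_right (by positivity) (K1 y j)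
    refine ⟨le.trans ?_, le.trans ?_, ?_⟩
    · calc _ ≤ g y (j + 1) * 1 * 1 := by gcongr
        _ = _ := by ring
    · calc _ ≤ 1 * g y (j - 1) * 1 := by gcongr
        _ = _ := by ring
    · rw [← e]
      calc _ ≤ (1 : ℝ) * 1 * 1 := by gcongr
        _ = _ := by ring
  obtain ⟨y0, hy0, j0, hn0, j01, j02, hz0⟩ :=
    X.maxv n P Q (fun w hw => hQ w (F.mono _ _ (by omega) hw)) z hz
  have top0 : c0 ^ 3 ^ (2 * n) ≤ g y0 n := by
    obtain ⟨k, hk⟩ : ∃ k : ℕ, (n : ℤ) = j0 + k := ⟨(n - j0).toNat, by omega⟩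
    have w := walk (fun i => g y0 (j0 + i)) (gp _ _).le k fun i hi => by
      have := (step y0 hy0 hn0 (j0 + i) (by omega) (by omega)).1
      rwa [add_assoc, ← Nat.cast_succ] at this
    simp only [Nat.cast_zero, add_zero] at w
    rw [hk]
    refine le_trans ?_ w
    calc c0 ^ 3 ^ (2 * n) ≤ c0 ^ 3 ^ k :=
          pow_le_pow_of_le_one c0p.le c01 (Nat.pow_le_pow_right (by omega) (by omega))
      _ ≤ g y0 j0 ^ 3 ^ k := by
          gcongr
          exact div_le_div_of_nonneg_right (hzμ.trans hz0) hM0.le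
  have low : ∀ y ∈ Finf T, ‖y‖ ≤ ‖T‖ ^ n → ∀ j : ℤ, -(n : ℤ) - 1 ≤ j → j ≤ n → c ≤ g y j := by
    intro y hy hn j j1 j2
    have e : g y0 n = g y n := by
      have : ‖y0 - y‖ ≤ ‖T‖ ^ (n : ℤ) := by
        rw [zpow_natCast]
        have h3 := um y0 0 y
        rw [sub_zero, zero_sub, norm_neg] at h3
        exact h3.trans (max_le hn0 hn)
      simp only [hg, gs_congr this]
    obtain ⟨k, hk⟩ : ∃ k : ℕ, j = n - k := ⟨(n - j).toNat, by omega⟩
    have w := walk (fun i => g y (n - i)) (gp _ _).le k fun i hi => by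
      have := (step y hy hn (n - i) (by omega) (by omega)).2.1
      rwa [sub_sub, ← Nat.cast_succ] at this
    simp only [Nat.cast_zero, sub_zero] at w
    rw [hk]
    refine le_trans ?_ w
    calc c ≤ (c0 ^ 3 ^ (2 * n)) ^ 3 ^ k :=
          pow_le_pow_of_le_one (by positivity) (pow_le_one₀ c0p.le c01)
            (Nat.pow_le_pow_right (by omega) (by omega))
      _ ≤ g y n ^ 3 ^ k := by
          gcongr
          rw [← e]; exact top0
  have Kle : ∀ y ∈ Finf T, ‖y‖ ≤ ‖T‖ ^ n → ∀ j : ℤ, -(n : ℤ) - 1 ≤ j → j ≤ n →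
      (P.roots.map (kap T y j)).prod ≤ (c ^ 3)⁻¹ := fun y hy hn j j1 j2 => by
    have a1 := (step y hy hn j j1 j2).2.2
    have a2 := low y hy hn j j1 j2
    have a3 : 0 ≤ (P.roots.map (kap T y j)).prod := zero_le_one.trans (K1 y j)
    rw [← one_div, le_div_iff₀ (by positivity), mul_comm]
    refine le_trans ?_ a1
    gcongr
  have cnt : ∀ k : ℕ, k ≤ 2 * n + 1 → ∀ y ∈ Finf T, ‖y‖ ≤ ‖T‖ ^ n →
      P.roots.countP (fun a => a ∈ Om T n ∧ ‖a - y‖ ≤ ‖T‖ ^ (-(n : ℤ) - 1 + k)) + B ≤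
        2 ^ k * B := by
    intro k
    induction k with
    | zero =>
      intro _ y hy hn
      rw [Multiset.countP_eq_zero.2]
      · simp
      · rintro a - ⟨ha, h⟩
        have h1 := ha.2 y hy
        have h2 : ‖T‖ ^ n * ‖T‖ ^ (-(n : ℤ) - 1 + (0 : ℕ)) < 1 := by
          rw [← zpow_natCast, ← zpow_add₀ h6]
          exact zpow_lt_one_of_neg₀ hT (by push_cast; omega)
        exact absurd (h1.trans (mul_le_mul_of_nonneg_left h (by positivity))) (not_le.2 h2)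
    | succ k ih =>
      intro hk y hy hn
      obtain ⟨j, hj⟩ : ∃ j : ℤ, j = -(n : ℤ) - 1 + (k + 1 : ℕ) := ⟨_, rfl⟩
      have hj' : -(n : ℤ) - 1 + k = j - 1 := by push_cast at hj; omega
      obtain ⟨m1, m2⟩ := nb y hy hn j (by push_cast at hj; omega)
      have i1 := ih (by omega) y hy hn
      have i2 := ih (by omega) _ m1 m2
      rw [hj'] at i1 i2
      rw [← hj]
      have i3 := count_le (fun a => a ∈ Om T n ∧ ‖a - y‖ ≤ ‖T‖ ^ j)
        (fun a => a ∈ Om T n ∧ ‖a - y‖ ≤ ‖T‖ ^ (j - 1))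
        (fun a => a ∈ Om T n ∧ ‖a - (y + T ^ j)‖ ≤ ‖T‖ ^ (j - 1))
        (fun a => ‖a - y‖ ≤ ‖T‖ ^ j ∧ ‖T‖ ^ (j - 1) < ‖a - y‖ ∧
          ‖T‖ ^ (j - 1) < ‖a - (y + T ^ j)‖) (fun a ⟨h1, h2⟩ => by
          by_contra hc
          simp only [not_or, not_and, not_le, not_lt] at hc
          exact absurd (hc.2.2 h2 (hc.1 h1)) (not_le.2 (hc.2.1 h1))) P.roots
      have i4 := pow_count (fun a => ‖a - y‖ ≤ ‖T‖ ^ j ∧ ‖T‖ ^ (j - 1) < ‖a - y‖ ∧
          ‖T‖ ^ (j - 1) < ‖a - (y + T ^ j)‖)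
        (fun a => kap T y j a * kap T y (j - 1) a * kap T (y + T ^ j) (j - 1) a) ‖T‖
        (norm_nonneg _) (fun a => one_le_mul_of_one_le_of_one_le
          (one_le_mul_of_one_le_of_one_le (kap_ge hT _ _ _) (kap_ge hT _ _ _)) (kap_ge hT _ _ _))
        (fun a h => kap_big hT y j a h.1 h.2.1 h.2.2) P.roots
      rw [Multiset.prod_map_mul, Multiset.prod_map_mul] at i4
      have a1 := Kle y hy hn j (by omega) (by omega)
      have a2 := Kle y hy hn (j - 1) (by omega) (by omega)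
      have a3 := Kle _ m1 m2 (j - 1) (by omega) (by omega)
      have b2 := zero_le_one.trans (K1 y (j - 1))
      have b3 := zero_le_one.trans (K1 (y + T ^ j) (j - 1))
      have i5 : (P.roots.map (kap T y j)).prod * (P.roots.map (kap T y (j - 1))).prod *
          (P.roots.map (kap T (y + T ^ j) (j - 1))).prod ≤ (c ^ 3)⁻¹ ^ 3 := by
        calc _ ≤ (c ^ 3)⁻¹ * (c ^ 3)⁻¹ * (c ^ 3)⁻¹ := by gcongr
          _ = _ := by ring
      have i6 := (pow_lt_pow_iff_right₀ hT).1 ((i4.trans i5).trans_lt hB)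
      rw [pow_succ, mul_right_comm]
      omega
  refine ⟨?_, fun y hy j hn j1 j2 => (le_div_iff₀ hM0).1 (low y hy hn j (by omega) j2)⟩
  have h := cnt (2 * n + 1) le_rfl 0 (Finf T).zero_mem (by rw [norm_zero]; positivity)
  have e : -(n : ℤ) - 1 + (2 * n + 1 : ℕ) = n := by push_cast; ring
  rw [e, zpow_natCast] at h
  refine le_trans ?_ (le_trans (Nat.le_add_right _ _) h)
  rw [rin, ← Multiset.countP_eq_card_filter]
  apply le_of_eq
  convert Multiset.countP_congr rfl fun a _ => ?_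
  simp only [sub_zero, eq_iff_iff]
  exact ⟨fun h => ⟨h, h.1⟩, fun h => h.1⟩

end Pool.Agent.MP_a88b1d_nt.RLOWA
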