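import Pool.Agent.MP_a88b1d_nt.H93.Spec3

/-! Gauss norms on discs and the maximum principle on the affinoids. -/

open Polynomial

noncomputable section

namespace Pool.Agent.MP_a88b1d_nt.RMAX

open Pool.Agent.MP_a88b1d_nt.St2 Pool.Agent.MP_a88b1d_nt.P2

variable {C : Type} [NontriviallyNormedField C]

section Ultra
variable [IsUltrametricDist C]

theorem tri (a b c : C) : ‖a - c‖ ≤ max ‖a - b‖ ‖b - c‖ := by
  have h := IsUltrametricDist.norm_add_le_max (a - b) (b - c)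
  rwa [sub_add_sub_cancel] at h

theorem tri0 (a b : C) : ‖a‖ ≤ max ‖a - b‖ ‖b‖ := by
  have h := tri a b 0
  rwa [sub_zero, sub_zero] at h

/-- If `|z - y| = r ≤ |z - a|` then `|z - a| = max |a - y| r`. -/
theorem eq_max {z y a : C} {r : ℝ} (h : ‖z - y‖ = r) (h' : r ≤ ‖z - a‖) :
    ‖z - a‖ = max ‖a - y‖ r := by
  apply le_antisymm
  · have h1 := tri z y a
    rwa [h, norm_sub_rev y a, max_comm] at h1
  · refine max_le ?_ h'
    have h1 := tri a z y
    rw [h, norm_sub_rev a z] at h1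
    exact h1.trans (max_le le_rfl h')

/-- If `|b - y| ≠ |x - y|` then `|b - y| ≤ |b - x|`. -/
theorem le_of_ne {b x y : C} (h : ‖b - y‖ ≠ ‖x - y‖) : ‖b - y‖ ≤ ‖b - x‖ := by
  by_contra hc
  rw [not_le] at hc
  have h1 := tri b x y
  have h2 := tri x b y
  rw [norm_sub_rev x b] at h2
  apply h
  apply le_antisymm
  · rcases le_max_iff.1 h1 with h3 | h3
    · exact absurd h3 (not_le.2 hc)
    · exact h3
  · exact h2.trans (max_le hc.le le_rfl)

end Ultra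

theorem norm_prod' (m : Multiset C) (z : C) :
    ‖(m.map fun a => z - a).prod‖ = (m.map fun a => ‖z - a‖).prod := by
  induction m using Multiset.induction_on with
  | empty => simp
  | cons a m ih => simp [ih]

theorem norm_eval [IsAlgClosed C] (P : C[X]) (z : C) :
    ‖P.eval z‖ = ‖P.leadingCoeff‖ * (P.roots.map fun a => ‖z - a‖).prod := by
  rw [(IsAlgClosed.splits P).eval_eq_prod_roots, norm_mul, norm_prod']

theorem gs_mul (y : C) (r : ℝ) (P Q : C[X]) : gs y r (P * Q) = gs y r P * gs y r Q := by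
  by_cases h : P * Q = 0
  · rcases mul_eq_zero.1 h with rfl | rfl <;> simp [gs]
  · rw [gs, gs, gs, leadingCoeff_mul, roots_mul h, Multiset.map_add, Multiset.prod_add, norm_mul]
    ring

theorem pr_pos (y : C) {r : ℝ} (hr : 0 < r) (m : Multiset C) :
    0 < (m.map fun a => max ‖a - y‖ r).prod :=
  Multiset.prod_pos fun x hx => by
    obtain ⟨a, -, rfl⟩ := Multiset.mem_map.1 hx
    exact hr.trans_le (le_max_right _ _)

theorem gs_pos (y : C) (r : ℝ) (P : C[X]) (hr : 0 < r) (hP : P ≠ 0) : 0 < gs y r P :=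
  mul_pos (norm_pos_iff.2 (leadingCoeff_ne_zero.2 hP)) (pr_pos y hr _)

theorem gs_nonneg (y : C) {r : ℝ} (P : C[X]) (hr : 0 < r) : 0 ≤ gs y r P :=
  mul_nonneg (norm_nonneg _) (pr_pos y hr _).le

theorem gs_le [IsUltrametricDist C] [IsAlgClosed C] (y : C) (r : ℝ) (P : C[X]) (z : C)
    (h : ‖z - y‖ ≤ r) : ‖P.eval z‖ ≤ gs y r P := by
  rw [norm_eval, gs]
  refine mul_le_mul_of_nonneg_left ?_ (norm_nonneg _)
  refine Multiset.prod_map_le_prod_map₀ _ _ (fun a _ => norm_nonneg _) fun a _ => ?_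
  refine (tri z y a).trans (max_le (h.trans (le_max_right _ _)) ?_)
  rw [norm_sub_rev]
  exact le_max_left _ _

theorem gs_eq [IsAlgClosed C] (y : C) (r : ℝ) (P : C[X]) (z : C)
    (h : ∀ a ∈ P.roots, ‖z - a‖ = max ‖a - y‖ r) : ‖P.eval z‖ = gs y r P := by
  rw [norm_eval, gs, Multiset.map_congr rfl h]

variable [Algebra (ZMod 2) C]

theorem genv0 {T : C} (F : FY T) (y ρ : C) (hρ : ρ ≠ 0) (s : Finset C) :
    ∃ z, ‖z - y‖ = ‖ρ‖ ∧ ∀ a ∈ s, ‖ρ‖ ≤ ‖z - a‖ := by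
  classical
  obtain ⟨t, ht, h⟩ := F.avoid (s.image fun a => (a - y) / ρ)
  refine ⟨y + ρ * t, by rw [add_sub_cancel_left, norm_mul, ht.1, mul_one], fun a ha => ?_⟩
  have h1 := h _ (Finset.mem_image_of_mem _ ha)
  have h2 : y + ρ * t - a = ρ * (t - (a - y) / ρ) := by field_simp; ring
  rw [h2, norm_mul]
  exact le_mul_of_one_le_right (norm_nonneg _) h1

theorem genv [IsUltrametricDist C] {T : C} (hT : 1 < ‖T‖) (F : FY T) (y : C) (hy : y ∈ Finf T)
    (ρ : C) (hρ : ρ ≠ 0) (s : Finset C) :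
    ∃ z, ‖z - y‖ = ‖ρ‖ ∧ Far T ‖ρ‖ z ∧ ∀ a ∈ s, ‖z - a‖ = max ‖a - y‖ ‖ρ‖ := by
  classical
  have hρ' : 0 < ‖ρ‖ := norm_pos_iff.2 hρ
  obtain ⟨j, hj1, hj2⟩ := exists_mem_Ico_zpow hρ' hT
  obtain ⟨z, hz, h⟩ := genv0 F y ρ hρ (insert (y + T ^ j) s)
  refine ⟨z, hz, fun x hx => ?_, fun a ha => eq_max hz (h a (Finset.mem_insert_of_mem ha))⟩
  by_cases hne : ‖z - y‖ = ‖x - y‖
  · have hxy : x - y ≠ 0 := norm_pos_iff.1 (by rw [← hne, hz]; exact hρ')
    obtain ⟨n, hn⟩ := F.val _ (sub_mem hx hy) hxy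
    have hn' : ‖ρ‖ = ‖T‖ ^ n := by rw [← hz, hne, hn]
    have hnj : n = j := by
      rw [hn'] at hj1 hj2
      have h1 := (zpow_le_zpow_iff_right₀ hT).1 hj1
      have h2 := (zpow_lt_zpow_iff_right₀ hT).1 hj2
      omega
    subst hnj
    have hlt : ‖T‖ ^ (n - 1) < ‖T‖ ^ n := (zpow_lt_zpow_iff_right₀ hT).2 (by omega)
    rcases F.split _ (sub_mem hx hy) n hn.le with h1 | h1
    · rw [hn] at h1
      exact absurd h1 (not_le.2 hlt)
    · have h2 := h _ (Finset.mem_insert_self _ _)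
      have h3 := tri z x (y + T ^ n)
      rw [← sub_sub x] at h3
      rcases le_max_iff.1 (h2.trans h3) with h4 | h4
      · exact h4
      · rw [hn'] at h4
        exact absurd (h4.trans h1) (not_le.2 hlt)
  · rw [← hz]
    exact le_of_ne hne

/-- The nearest point of `F_∞`. -/
theorem key [IsUltrametricDist C] [IsAlgClosed C] {T : C} (F : FY T) (n : ℕ) (P Q : C[X])
    (hQ : ∀ z ∈ Om T n, Q.eval z ≠ 0) (z : C) (hz : z ∈ Om T n) :
    ∃ y ∈ Finf T, z - y ≠ 0 ∧ ‖y‖ ≤ ‖T‖ ^ n ∧ ‖z - y‖ ≤ ‖T‖ ^ n ∧ 1 ≤ ‖T‖ ^ n * ‖z - y‖ ∧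
      ‖P.eval z / Q.eval z‖ ≤ gs y ‖z - y‖ P / gs y ‖z - y‖ Q := by
  obtain ⟨y, hy, h⟩ := F.near z (F.notin n z hz)
  have h0 : z - y ≠ 0 := fun e => F.notin n z hz (by rw [sub_eq_zero.1 e]; exact hy)
  have h1 : ‖z - y‖ ≤ ‖T‖ ^ n := by
    have := h 0 (zero_mem _)
    rw [sub_zero] at this
    exact this.trans hz.1
  refine ⟨y, hy, h0, ?_, h1, hz.2 y hy, ?_⟩
  · refine (tri0 y z).trans (max_le ?_ hz.1)
    rwa [norm_sub_rev]
  · have hQ' : ‖Q.eval z‖ = gs y ‖z - y‖ Q := by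
      refine gs_eq _ _ _ _ fun b hb => eq_max rfl ?_
      by_contra hc
      rw [not_le] at hc
      refine hQ b ⟨?_, fun x hx => ?_⟩ (isRoot_of_mem_roots hb)
      · refine (tri0 b z).trans (max_le ?_ hz.1)
        rw [norm_sub_rev]
        exact hc.le.trans h1
      · refine (hz.2 x hx).trans (mul_le_mul_of_nonneg_left ?_ (by positivity))
        rcases le_max_iff.1 (tri z b x) with h2 | h2
        · exact absurd ((h x hx).trans h2) (not_le.2 hc)
        · exact h2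
    rw [norm_div, hQ']
    exact div_le_div_of_nonneg_right (gs_le _ _ _ _ le_rfl)
      (gs_nonneg _ _ (norm_pos_iff.2 h0))

theorem maxp [IsUltrametricDist C] [IsAlgClosed C] {T : C} (hT : 1 < ‖T‖) (F : FY T) (n : ℕ)
    (P Q : C[X]) (s : Finset C) (hQ : ∀ z ∈ Om T n, Q.eval z ≠ 0) (z : C) (hz : z ∈ Om T n) :
    ∃ z' ∈ Om T n, (∀ a ∈ s, 1 ≤ ‖T‖ ^ n * ‖z' - a‖) ∧
      ‖P.eval z / Q.eval z‖ ≤ ‖P.eval z' / Q.eval z'‖ := by
  classical
  obtain ⟨y, hy, h0, h1, h2, h3, h4⟩ := key F n P Q hQ z hz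
  obtain ⟨w, hw, hf, h⟩ := genv hT F y hy _ h0 (s ∪ (P.roots.toFinset ∪ Q.roots.toFinset))
  have hq : 0 ≤ ‖T‖ ^ n := by positivity
  refine ⟨w, ⟨?_, fun x hx => ?_⟩, fun a ha => ?_, ?_⟩
  · exact (tri0 w y).trans (max_le (hw.trans_le h2) h1)
  · exact h3.trans (mul_le_mul_of_nonneg_left (hf x hx) hq)
  · refine h3.trans (mul_le_mul_of_nonneg_left ?_ hq)
    rw [h a (Finset.mem_union_left _ ha)]
    exact le_max_right _ _
  · rw [norm_div (P.eval w), gs_eq y ‖z - y‖ P w fun a ha => h a (by simp [ha]),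
      gs_eq y ‖z - y‖ Q w fun a ha => h a (by simp [ha])]
    exact h4

section Count
omit [Algebra (ZMod 2) C]

open Classical in
/-- The number of points in the closed disc. -/
def cnt (y : C) (r : ℝ) (m : Multiset C) : ℕ := m.countP fun a => ‖a - y‖ ≤ r

theorem tan_le (y : C) {r r' : ℝ} (hr : 0 < r) (hr' : 0 < r') (m : Multiset C) :
    (m.map fun a => max ‖a - y‖ r).prod * (r' / r) ^ cnt y r m ≤
      (m.map fun a => max ‖a - y‖ r').prod := by
  induction m using Multiset.induction_on with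
  | empty => simp [cnt]
  | cons a m ih =>
    have hp := (pr_pos y hr m).le
    rw [cnt] at ih
    rw [cnt, Multiset.map_cons, Multiset.map_cons, Multiset.prod_cons, Multiset.prod_cons,
      Multiset.countP_cons, add_comm, pow_add, mul_mul_mul_comm]
    refine mul_le_mul ?_ ih (by positivity) (by positivity)
    split_ifs with h
    · rw [max_eq_right h, pow_one, mul_div_cancel₀ _ hr.ne']
      exact le_max_right _ _
    · rw [max_eq_left (not_le.1 h).le, pow_zero, mul_one]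
      exact le_max_left _ _

theorem tan_eq (y : C) {r r' : ℝ} (hr : 0 < r) (m : Multiset C)
    (hm : ∀ a ∈ m, (‖a - y‖ ≤ r → ‖a - y‖ ≤ r') ∧ (r < ‖a - y‖ → r' ≤ ‖a - y‖)) :
    (m.map fun a => max ‖a - y‖ r').prod =
      (m.map fun a => max ‖a - y‖ r).prod * (r' / r) ^ cnt y r m := by
  induction m using Multiset.induction_on with
  | empty => simp [cnt]
  | cons a m ih =>
    have ih' := ih fun b hb => hm b (Multiset.mem_cons_of_mem hb)
    have ha := hm a (Multiset.mem_cons_self _ _)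
    rw [cnt] at ih'
    rw [cnt, Multiset.map_cons, Multiset.map_cons, Multiset.prod_cons, Multiset.prod_cons,
      Multiset.countP_cons, add_comm, pow_add, mul_mul_mul_comm, ih']
    congr 1
    split_ifs with h
    · rw [max_eq_right h, pow_one, mul_div_cancel₀ _ hr.ne', max_eq_right (ha.1 h)]
    · rw [max_eq_left (not_le.1 h).le, pow_zero, mul_one, max_eq_left (ha.2 (not_le.1 h))]

theorem move (y : C) {r r' : ℝ} (hr : 0 < r) (hr' : 0 < r') (P Q : C[X]) (hQ : Q ≠ 0)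
    (hm : ∀ a ∈ Q.roots, (‖a - y‖ ≤ r → ‖a - y‖ ≤ r') ∧ (r < ‖a - y‖ → r' ≤ ‖a - y‖))
    (hc : (r' / r) ^ cnt y r Q.roots ≤ (r' / r) ^ cnt y r P.roots) :
    gs y r P / gs y r Q ≤ gs y r' P / gs y r' Q := by
  have h1 : gs y r P * (r' / r) ^ cnt y r P.roots ≤ gs y r' P := by
    rw [gs, gs, mul_assoc]
    exact mul_le_mul_of_nonneg_left (tan_le y hr hr' _) (norm_nonneg _)
  have h2 : gs y r' Q = gs y r Q * (r' / r) ^ cnt y r Q.roots := by
    rw [gs, gs, mul_assoc, tan_eq y hr _ hm]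
  have h3 : 0 < (r' / r) ^ cnt y r Q.roots := by positivity
  rw [← mul_div_mul_right _ _ h3.ne', ← h2]
  exact div_le_div_of_nonneg_right
    ((mul_le_mul_of_nonneg_left hc (gs_nonneg _ _ hr)).trans h1) (gs_pos _ _ _ hr' hQ).le

end Count

theorem maxv [IsUltrametricDist C] [IsAlgClosed C] {T : C} (hT : 1 < ‖T‖) (F : FY T) (n : ℕ)
    (P Q : C[X]) (hQ : ∀ z ∈ Om T n, Q.eval z ≠ 0) (z : C) (hz : z ∈ Om T n) :
    ∃ y ∈ Finf T, ∃ j : ℤ, ‖y‖ ≤ ‖T‖ ^ n ∧ -(n : ℤ) ≤ j ∧ j ≤ n ∧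
      ‖P.eval z / Q.eval z‖ ≤ gs y (‖T‖ ^ j) P / gs y (‖T‖ ^ j) Q := by
  obtain ⟨y, hy, h0, h1, h2, h3, h4⟩ := key F n P Q hQ z hz
  have hr : 0 < ‖z - y‖ := norm_pos_iff.2 h0
  have hq : 0 < ‖T‖ := zero_lt_one.trans hT
  have hQ0 : Q ≠ 0 := fun e => hQ z hz (by rw [e, eval_zero])
  generalize ‖z - y‖ = r at h2 h3 h4 hr
  obtain ⟨j, hj1, hj2⟩ := exists_mem_Ico_zpow hr hT
  have hlow : -(n : ℤ) ≤ j := by
    have h5 : ‖T‖ ^ (0 : ℤ) < ‖T‖ ^ ((n : ℤ) + (j + 1)) := by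
      rw [zpow_zero, zpow_add₀ hq.ne', zpow_natCast]
      exact h3.trans_lt (mul_lt_mul_of_pos_left hj2 (by positivity))
    have := (zpow_lt_zpow_iff_right₀ hT).1 h5
    omega
  have hup : j ≤ n := by
    refine (zpow_le_zpow_iff_right₀ hT).1 ?_
    rw [zpow_natCast]
    exact hj1.trans h2
  rcases hj1.eq_or_lt with he | hlt
  · exact ⟨y, hy, j, h1, hlow, hup, by rwa [he]⟩
  have hup' : j + 1 ≤ n := by
    have h5 : ‖T‖ ^ j < ‖T‖ ^ (n : ℤ) := by
      rw [zpow_natCast]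
      exact hlt.trans_le h2
    have := (zpow_lt_zpow_iff_right₀ hT).1 h5
    omega
  have hpole : ∀ b ∈ Q.roots, ‖b - y‖ ≤ ‖T‖ ^ j ∨ ‖T‖ ^ (j + 1) ≤ ‖b - y‖ := by
    intro b hb
    by_contra hc
    rw [not_or, not_le, not_le] at hc
    refine hQ b ⟨?_, fun x hx => ?_⟩ (isRoot_of_mem_roots hb)
    · refine (tri0 b y).trans (max_le (hc.2.le.trans ?_) h1)
      rw [← zpow_natCast]
      exact (zpow_le_zpow_iff_right₀ hT).2 hup'
    · have hne : ‖b - y‖ ≠ ‖x - y‖ := by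
        intro e
        have hxy : x - y ≠ 0 := norm_pos_iff.1 (by rw [← e]; exact (zpow_pos hq j).trans hc.1)
        obtain ⟨k, hk⟩ := F.val _ (sub_mem hx hy) hxy
        rw [e, hk, zpow_lt_zpow_iff_right₀ hT, zpow_lt_zpow_iff_right₀ hT] at hc
        omega
      have h5 : ‖T‖ ^ (0 : ℤ) ≤ ‖T‖ ^ ((n : ℤ) + j) := (zpow_le_zpow_iff_right₀ hT).2 (by omega)
      rw [zpow_zero, zpow_add₀ hq.ne', zpow_natCast] at h5
      exact h5.trans (mul_le_mul_of_nonneg_left (hc.1.le.trans (le_of_ne hne)) (by positivity))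
  rcases le_total (cnt y r Q.roots) (cnt y r P.roots) with hc | hc
  · refine ⟨y, hy, j + 1, h1, by omega, hup', h4.trans ?_⟩
    refine move y hr (zpow_pos hq _) P Q hQ0 (fun b hb => ⟨fun h => h.trans hj2.le, fun h => ?_⟩)
      (pow_le_pow_right₀ ((one_le_div hr).2 hj2.le) hc)
    exact (hpole b hb).resolve_left (not_le.2 (hlt.trans h))
  · refine ⟨y, hy, j, h1, hlow, hup, h4.trans ?_⟩
    refine move y hr (zpow_pos hq _) P Q hQ0 (fun b hb => ⟨fun h => ?_, fun h => (hlt.trans h).le⟩)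
      (pow_le_pow_of_le_one (by positivity) ((div_le_one hr).2 hlt.le) hc)
    exact (hpole b hb).resolve_right (not_le.2 (h.trans_lt hj2))

theorem row : OfMAX := by
  intro C _ _ _ _ _ _ T hT _ F
  exact ⟨gs_mul, gs_pos, gs_le, gs_eq, genv hT F, maxp hT F, maxv hT F⟩

end Pool.Agent.MP_a88b1d_nt.RMAX
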