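import Pool.Agent.MP_a88b1d_nt.H93.Spec3

/-! Row MFA: algebra of functions with multipliers. -/

open Polynomial OnePoint

noncomputable section

namespace Pool.Agent.MP_a88b1d_nt.RMFA

open Pool.Agent.MP_a88b1d_nt.St2 Pool.Agent.MP_a88b1d_nt.P2
open Pool.Agent.MP_a88b1d_nt.H42 (den)

variable {C : Type} [NontriviallyNormedField C] {T : C}

theorem c_one (Λ : Set C) : CuspOrd T Λ (fun _ => 1) 0 := ⟨0, 1, 1, one_pos, fun z _ => by simp⟩

theorem c_mul {Λ : Set C} (hΛ : ∀ z ∉ Finf T, ex Λ z ≠ 0) {f g : C → C} {k j : ℤ}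
    (hf : CuspOrd T Λ f k) (hg : CuspOrd T Λ g j) : CuspOrd T Λ (fun z => f z * g z) (k + j) := by
  obtain ⟨r, a, b, ha, hf⟩ := hf
  obtain ⟨r', a', b', ha', hg⟩ := hg
  refine ⟨max (max r r') 1, a * a', b * b', mul_pos ha ha', fun z hz => ?_⟩
  obtain ⟨h1, h2⟩ := hf z fun x hx => (le_max_of_le_left (le_max_left _ _)).trans (hz x hx)
  obtain ⟨h3, h4⟩ := hg z fun x hx => (le_max_of_le_left (le_max_right _ _)).trans (hz x hx)
  have hz' : z ∉ Finf T := fun h => by
    have := (le_max_right _ _).trans (hz z h)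
    norm_num at this
  rw [norm_mul, zpow_add₀ (norm_ne_zero_iff.2 (hΛ z hz')), mul_mul_mul_comm]
  exact ⟨mul_le_mul h1 h3 ha'.le (ha.le.trans h1),
    mul_le_mul h2 h4 (ha'.le.trans h3) ((ha.le.trans h1).trans h2)⟩

theorem c_inv {Λ : Set C} {f : C → C} {k : ℤ} (hf : CuspOrd T Λ f k) :
    CuspOrd T Λ (fun z => (f z)⁻¹) (-k) := by
  obtain ⟨r, a, b, ha, hf⟩ := hf
  refine ⟨r, (max a b)⁻¹, a⁻¹, inv_pos.2 (lt_max_of_lt_left ha), fun z hz => ?_⟩
  obtain ⟨h1, h2⟩ := hf z hz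
  rw [norm_inv, zpow_neg, ← mul_inv]
  exact ⟨inv_anti₀ (ha.trans_le h1) (le_max_of_le_right h2), inv_anti₀ ha h1⟩

theorem cg [DecidableEq C] {Γ : Subgroup (GL (Fin 2) C)} {K : Set (GL (Fin 2) C)} {χ χ' : Γ →* Cˣ}
    {f : C → C} {D : OnePoint C → ℤ} (h : χ = χ') (a : MF T Γ K χ f D) : MF T Γ K χ' f D := h ▸ a

theorem row : OfMFA := by
  intro C _ _ _ _ _ _ T hT L fy uni h1 h3 mb exp disc
  have one : ∀ Γ K, Setup T Γ K → MF T Γ K 1 (fun _ => 1) 0 := fun Γ K _ =>
    ⟨(isDiv_iff ..).2 ⟨fun n => h1.congr n _ _ _ _ ∅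
      (h1.unit n (fun _ => 1) (uni.const _ 1 one_ne_zero)) (fun _ _ _ => rfl)
      fun z _ => by simp [eD], fun γ _ => c_one _, fun _ _ => rfl⟩, fun g z _ => by simp⟩
  have mul : ∀ Γ K χ χ' f f' D D', Setup T Γ K → MF T Γ K χ f D → MF T Γ K χ' f' D' →
      MF T Γ K (χ * χ') (fun z => f z * f' z) (D + D') := by
    intro Γ K χ χ' f f' D D' S a b
    obtain ⟨a1, a2, a3⟩ := (isDiv_iff ..).1 a.div
    obtain ⟨b1, b2, b3⟩ := (isDiv_iff ..).1 b.div
    refine ⟨(isDiv_iff ..).2 ⟨fun n => h1.congr n _ _ _ _ ∅ (h1.mul n _ _ _ _ (a1 n) (b1 n))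
      (fun _ _ _ => rfl) fun z _ => by simp [eD, mul_add], fun γ hγ =>
      c_mul (exp.ne _ (disc.latt Γ S.disc γ (S.cusp γ hγ))) (a2 γ hγ) (b2 γ hγ),
      fun x hx => by simp [a3 x hx, b3 x hx]⟩, fun g z hz => ?_⟩
    rw [a.aut g z hz, b.aut g z hz, MonoidHom.mul_apply, Units.val_mul, mul_mul_mul_comm]
  have inv : ∀ Γ K χ f D, Setup T Γ K → MF T Γ K χ f D →
      MF T Γ K χ⁻¹ (fun z => (f z)⁻¹) (-D) := by
    intro Γ K χ f D S a
    obtain ⟨a1, a2, a3⟩ := (isDiv_iff ..).1 a.div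
    refine ⟨(isDiv_iff ..).2 ⟨fun n => h1.congr n _ _ _ _ ∅ (h1.inv n _ _ (a1 n))
      (fun _ _ _ => rfl) fun z _ => by simp [eD], fun γ hγ => c_inv (a2 γ hγ),
      fun x hx => by simp [a3 x hx]⟩, fun g z hz => ?_⟩
    rw [a.aut g z hz, MonoidHom.inv_apply, Units.val_inv_eq_inv_val, mul_inv]
  have pow : ∀ Γ K χ f D (n : ℕ), Setup T Γ K → MF T Γ K χ f D →
      MF T Γ K (χ ^ n) (fun z => f z ^ n) (n • D) := by
    intro Γ K χ f D n S a
    induction n with
    | zero => exact cg (pow_zero χ).symm (by simpa only [pow_zero, zero_smul] using one Γ K S)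
    | succ n ih =>
      exact cg (pow_succ χ n).symm
        (by simpa only [pow_succ, succ_nsmul] using mul _ _ _ _ _ _ _ _ S ih a)
  refine ⟨one, mul, inv, fun Γ K χ f D c S a => ?_, fun Γ K ι s χ f D S a => ?_,
    fun Γ K D S => ⟨fun h => ?_, fun ⟨f, a⟩ => AddSubgroup.subset_closure
      ⟨f, fun g hg z hz => by simpa using a.aut ⟨g, hg⟩ z hz, a.div⟩⟩,
    fun Γ K χ f D S a g z hz hg => ?_⟩
  · obtain ⟨n, rfl | rfl⟩ := c.eq_nat_or_neg
    · exact cg (zpow_natCast χ n).symm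
        (by simpa only [zpow_natCast, natCast_zsmul] using pow Γ K χ f D n S a)
    · refine cg ((zpow_neg χ n).trans (congrArg _ (zpow_natCast χ n))).symm ?_
      simpa only [zpow_neg, zpow_natCast, neg_smul, natCast_zsmul] using
        inv _ _ _ _ _ S (pow Γ K χ f D n S a)
  · classical
    induction s using Finset.induction_on with
    | empty => simpa only [Finset.prod_empty, Finset.sum_empty] using one Γ K S
    | insert i s hi ih =>
      simpa only [Finset.prod_insert hi, Finset.sum_insert hi] using mul _ _ _ _ _ _ _ _ S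
        (a i (Finset.mem_insert_self _ _)) (ih fun j hj => a j (Finset.mem_insert_of_mem hj))
  · induction h using AddSubgroup.closure_induction with
    | mem D h =>
      obtain ⟨f, hf, hD⟩ := h
      exact ⟨f, hD, fun g z hz => by simpa using hf g.1 g.2 z hz⟩
    | zero => exact ⟨_, one Γ K S⟩
    | add D E _ _ a b =>
      obtain ⟨f, a⟩ := a
      obtain ⟨g, b⟩ := b
      exact ⟨_, cg (mul_one _) (mul _ _ _ _ _ _ _ _ S a b)⟩
    | neg D _ a =>
      obtain ⟨f, a⟩ := a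
      exact ⟨_, cg (by ext; simp) (inv _ _ _ _ _ S a)⟩
  · have e := h3.ell (toMK S.disc g) f (eD Γ D) (χ g) a.div.ord (S.disc.det g.1 g.2) (a.aut g) z hz
      hg
    have fix : ∀ h : MulAction.stabilizer Γ (z : OnePoint C), mob h.1.1.1 z = z := fun h =>
      OnePoint.coe_injective ((mb.smul h.1.1 (S.disc.mem _ h.1.2) z hz).symm.trans h.2)
    let φ : MulAction.stabilizer Γ (z : OnePoint C) →* C :=
      { toFun := fun h => den h.1.1.1 z
        map_one' := by simp [den]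
        map_mul' := fun h k => by
          have := L.mb.den_mul (toMK S.disc h.1) (toMK S.disc k.1) z hz
          rw [← map_mul, toMK_val, toMK_val, toMK_val, fix k] at this
          exact this }
    have hs : g ∈ MulAction.stabilizer Γ (z : OnePoint C) :=
      (mb.smul g.1 (S.disc.mem _ g.2) z hz).trans (congrArg _ hg)
    have hp : den g.1.1 z ^ Nat.card (MulAction.stabilizer Γ (z : OnePoint C)) = 1 := by
      change φ ⟨g, hs⟩ ^ _ = 1
      rw [← map_pow, pow_card_eq_one', map_one]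
    rw [toMK_val, eD, mul_left_comm, zpow_mul, zpow_natCast, hp, one_zpow, mul_one] at e
    exact Units.ext e

end Pool.Agent.MP_a88b1d_nt.RMFA
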