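import Pool.Agent.MP_a88b1d_nt.H93.Spec3

/-! Row NEW: a relation among the conjugates of 59 torsion classes of the new quotient. -/

open Polynomial OnePoint

noncomputable section

namespace Pool.Agent.MP_a88b1d_nt.RNEW

open Pool.Agent.MP_a88b1d_nt.St2 Pool.Agent.MP_a88b1d_nt.P2
open Pool.Agent.MP_a88b1d_nt.H42 (A pp qq)

theorem row : OfNEW := by
  intro C _ _ _ _ _ _ T hT L lin ⟨F, F1, F2⟩ disc mfa th un gal old σ k ω hI D hD hK
  classical
  have n0 : pp * qq ≠ (0 : A) := fun h => by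
    have := congrArg (eval 0) h
    simp [pp, qq] at this
  have hS := disc.set0 (pp * qq)
  choose χ θ hχ using fun j => th.div0 _ _ hS (D j) (hD j)
  choose κ φ hκ hκ1 using fun j => old.kill _ n0 _ (hK j)
  have hη : ∀ j, ∃ U, MF T (G0 T (pp * qq)) (GA T) (χ j ^ ((3 : ℤ) ^ k) * (κ j)⁻¹) U 0 := fun j => by
    have := mfa.mul _ _ _ _ _ _ _ _ hS (mfa.zpow _ _ _ _ _ ((3 : ℤ) ^ k) hS (hχ j))
      (mfa.inv _ _ _ _ _ hS (hκ j))
    have e : (3 : ℤ) ^ k • D j + -(3 ^ k • D j) = 0 := by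
      rw [← natCast_zsmul, Nat.cast_pow, Nat.cast_ofNat, add_neg_cancel]
    rw [e] at this
    exact ⟨_, this⟩
  choose U hU using hη
  choose ν ν1 ν2 using fun j => un.new _ n0 _ _ (hU j)
  have T0 : 0 < ‖T‖ := by linarith
  have hv : ∀ j, ∀ μ ∈ NN T (pp * qq),
      ((χ j ^ ((3 : ℤ) ^ k) * (κ j)⁻¹ : G0 T (pp * qq) →* Cˣ) μ : C) = (χ j μ : C) ^ 3 ^ k := by
    intro j μ hμ
    rw [MonoidHom.mul_apply, MonoidHom.inv_apply, hκ1 j μ hμ, inv_one, mul_one,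
      MonoidHom.zpow_apply, Units.val_zpow_eq_zpow_val, ← zpow_natCast]
    push_cast
    rfl
  have hg : ∀ g : G0 T (pp * qq), ∃ μ : H42.Gam0 (pp * qq), g.1 = ev T μ.1 := fun g => by
    obtain ⟨μ, h1, h2⟩ := g.2
    exact ⟨⟨μ, h1⟩, h2.symm⟩
  choose s hs using hg
  have sm : ∀ a b, s (a * b) = s a * s b := fun a b => Subtype.ext (disc.evinj (by
    rw [← hs, Subgroup.coe_mul, Subgroup.coe_mul, map_mul, ← hs, ← hs]))
  obtain ⟨c, c1, c2⟩ := lin (G0 T (pp * qq)) (NN T (pp * qq)) (fun g => F (s g)) ν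
    ⟨1, old.one _⟩ (old.mul _) (fun a _ b _ => by rw [sm, F1])
    (fun j a _ b _ => zpow_right_injective₀ T0 hT.ne' (by
      change ‖T‖ ^ ν j (a * b) = ‖T‖ ^ (ν j a + ν j b)
      rw [zpow_add₀ T0.ne', ← ν1, ← ν1, ← ν1, map_mul, Units.val_mul, norm_mul]))
    fun a ha h j => ν2 j (s a) a (hs a) (F2 _ (old.new _ _ (hs a) ha) h)
  refine ⟨c, c1, ?_⟩
  have ω0 : ω ≠ 0 := fun e => by simpa [e] using hI.cube
  have hm := mfa.prod _ _ _ Finset.univ _ _ _ hS fun j _ => mfa.zpow _ _ _ _ _ (c j) hS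
    (mfa.mul _ _ _ _ _ _ _ _ hS (gal.mf _ _ _ _ _ σ hS hI.iso (hχ j)) (mfa.inv _ _ _ _ _ hS (hχ j)))
  have lv : ∀ g, ((∏ j, (chs σ (χ j) * (χ j)⁻¹) ^ c j : G0 T (pp * qq) →* Cˣ) g : C) =
      ∏ j, (σ (χ j g) / χ j g) ^ c j := fun g => by
    rw [MonoidHom.finsetProd_apply, Units.coe_prod]
    refine Finset.prod_congr rfl fun j _ => ?_
    rw [MonoidHom.zpow_apply, Units.val_zpow_eq_zpow_val, MonoidHom.mul_apply, MonoidHom.inv_apply,
      Units.val_mul, chs_val, Units.val_inv_eq_inv_val, div_eq_mul_inv]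
  obtain ⟨f, E, hE, hf⟩ := old.inv _ n0 _ (fun g => by
    rw [lv, norm_prod]
    refine Finset.prod_eq_one fun j _ => ?_
    rw [norm_zpow, norm_div, hI.iso.1, div_self (norm_ne_zero_iff.2 (χ j g).ne_zero), one_zpow])
    fun μ hμ => Units.ext (by
      rw [lv, Units.val_one]
      have e : ∀ j, σ (χ j μ) / χ j μ = ω ^ ν j μ := fun j => by
        rw [hI.act _ (ν j μ) (by rw [← hv j μ hμ]; exact un.sig _ _ _ _ hS (hU j) σ hI.iso μ)
          (by rw [← hv j μ hμ]; exact ν1 j μ), mul_div_cancel_right₀ _ (χ j μ).ne_zero]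
      obtain ⟨t, ht⟩ := c2 μ hμ
      have p : ∀ S : Finset (Fin 59), ∏ j ∈ S, (ω ^ ν j μ) ^ c j = ω ^ ∑ j ∈ S, c j * ν j μ := by
        intro S
        induction S using Finset.induction_on with
        | empty => simp
        | insert j S hj ih =>
          rw [Finset.prod_insert hj, Finset.sum_insert hj, ih, zpow_add₀ ω0, ← zpow_mul, mul_comm (c j)]
      simp only [e]
      rw [p, ht, zpow_mul, show ω ^ (3 : ℤ) = 1 from (zpow_natCast ω 3).trans hI.cube, one_zpow])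
  have hp := mfa.mul _ _ _ _ _ _ _ _ hS hm (mfa.inv _ _ _ _ _ hS hf)
  have e1 : ∀ x : G0 T (pp * qq) →* Cˣ, x * x⁻¹ = 1 := fun x => MonoidHom.ext fun g => by simp
  rw [e1] at hp
  have := AddSubgroup.add_mem _ (AddSubgroup.mem_sup_left ((mfa.prin _ _ _ hS).2 ⟨_, hp⟩))
    (AddSubgroup.mem_sup_right (S := Prin T (G0 T (pp * qq)) (GA T)) hE)
  simpa only [neg_add_cancel_right, sub_eq_add_neg] using this

end Pool.Agent.MP_a88b1d_nt.RNEW
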