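import Pool.Agent.MP_a88b1d_nt.H93.Spec3

/-! The size of a unit on an affinoid, and Liouville's theorem for units on the half-plane. -/

open Polynomial

namespace Pool.Agent.MP_a88b1d_nt.RNF

open Pool.Agent.MP_a88b1d_nt.St2 Pool.Agent.MP_a88b1d_nt.P2

variable {C : Type} [NontriviallyNormedField C] [IsUltrametricDist C]

theorem sub_le (a b : C) : ‖a - b‖ ≤ max ‖a‖ ‖b‖ := by
  have := IsUltrametricDist.norm_add_le_max a (-b)
  rwa [norm_neg, ← sub_eq_add_neg] at this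

theorem tri (a b c : C) : ‖a - c‖ ≤ max ‖a - b‖ ‖b - c‖ := by
  have := IsUltrametricDist.norm_add_le_max (a - b) (b - c)
  rwa [sub_add_sub_cancel] at this

theorem sub_eq_right {a b : C} (h : ‖a‖ < ‖b‖) : ‖a - b‖ = ‖b‖ := by
  have := IsUltrametricDist.norm_add_eq_max_of_norm_ne_norm (x := a) (y := -b)
    (by rw [norm_neg]; exact h.ne)
  rwa [norm_neg, ← sub_eq_add_neg, max_eq_right h.le] at this

theorem shift {z a x : C} (h : ‖a - x‖ < ‖z - x‖) : ‖z - a‖ = ‖z - x‖ := by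
  have := sub_eq_right h
  rw [← this, ← norm_neg]
  congr 1
  ring

/-- `y` is within `δ` of one. -/
def Nr (δ : ℝ) (y : C) : Prop := ‖y - 1‖ ≤ δ

theorem Nr.norm {δ : ℝ} (hδ : δ < 1) {y : C} (h : Nr δ y) : ‖y‖ = 1 := by
  have h1 : ‖y - 1‖ < ‖(-1 : C)‖ := by
    rw [norm_neg, norm_one]
    exact lt_of_le_of_lt h hδ
  have h2 := sub_eq_right h1
  rw [norm_neg, norm_one] at h2
  rw [← h2]
  congr 1
  ring

theorem Nr.mul {δ : ℝ} (hδ : δ < 1) {x y : C} (hx : Nr δ x) (hy : Nr δ y) : Nr δ (x * y) := by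
  have h1 := IsUltrametricDist.norm_add_le_max ((x - 1) * y) (y - 1)
  rw [norm_mul, hy.norm hδ, mul_one] at h1
  have h2 : x * y - 1 = (x - 1) * y + (y - 1) := by ring
  unfold Nr
  rw [h2]
  exact h1.trans (max_le hx hy)

theorem Nr.inv {δ : ℝ} (hδ : δ < 1) {y : C} (hy : Nr δ y) : Nr δ y⁻¹ := by
  have h1 := hy.norm hδ
  have h0 : y ≠ 0 := by
    intro h
    rw [h, norm_zero] at h1
    exact zero_ne_one h1
  have h2 : y⁻¹ - 1 = -(y - 1) * y⁻¹ := by
    field_simp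
    ring
  unfold Nr
  rw [h2, norm_mul, norm_neg, norm_inv, h1, inv_one, mul_one]
  exact hy

theorem nr_div {δ : ℝ} {x y : C} (hy : y ≠ 0) (h : ‖x - y‖ ≤ δ * ‖y‖) : Nr δ (x / y) := by
  have h2 : x / y - 1 = (x - y) / y := by field_simp
  unfold Nr
  rw [h2, norm_div, div_le_iff₀ (norm_pos_iff.2 hy)]
  exact h

/-- The quotient of the values at `z` and at `w` of the monic polynomial with roots `s`. -/
noncomputable def rat (z w : C) (s : Multiset C) : C := (s.map fun a => (z - a) / (w - a)).prod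

open Classical in
/-- The number of elements of `s` in the disc of radius `r` about `x`. -/
noncomputable def cnt (r : ℝ) (x : C) (s : Multiset C) : ℕ := s.countP fun a => ‖a - x‖ ≤ r

omit [IsUltrametricDist C] in
theorem cnt_pos {r : ℝ} {x a : C} (s : Multiset C) (h : ‖a - x‖ ≤ r) :
    cnt r x (a ::ₘ s) = cnt r x s + 1 := by
  unfold cnt
  exact Multiset.countP_cons_of_pos (p := fun a => ‖a - x‖ ≤ r) s h

omit [IsUltrametricDist C] in
theorem cnt_neg {r : ℝ} {x a : C} (s : Multiset C) (h : ¬ ‖a - x‖ ≤ r) :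
    cnt r x (a ::ₘ s) = cnt r x s := by
  unfold cnt
  exact Multiset.countP_cons_of_neg (p := fun a => ‖a - x‖ ≤ r) s h

omit [IsUltrametricDist C] in
theorem cnt_ex {r : ℝ} {x : C} {s : Multiset C} (h : 0 < cnt r x s) : ∃ b ∈ s, ‖b - x‖ ≤ r := by
  unfold cnt at h
  exact Multiset.countP_pos.1 h

/-- The geometric data of the matching argument. -/
structure Geo (K : Set C) (δ r R ρ M : ℝ) (z w : C) : Prop where
  d0 : 0 ≤ δ
  d1 : δ < 1
  r0 : 0 ≤ r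
  rρ : r < ρ
  rR : r ≤ R
  MR : M ≤ R
  e1 : M ≤ δ * R
  e2 : r ≤ δ * ρ
  hK : ∀ x ∈ K, ‖x‖ ≤ R
  zM : ‖z‖ ≤ M
  wM : ‖w‖ ≤ M
  zK : ∀ x ∈ K, ρ ≤ ‖z - x‖
  wK : ∀ x ∈ K, ρ ≤ ‖w - x‖

def Out (K : Set C) (r R : ℝ) (a : C) : Prop := R < ‖a‖ ∨ ∃ x ∈ K, ‖a - x‖ ≤ r

section
variable {K : Set C} {δ r R ρ M : ℝ} {z w : C}

theorem Geo.big (G : Geo K δ r R ρ M z w) {a : C} (ha : R < ‖a‖) :
    Nr δ ((z - a) / (w - a)) := by
  have h1 : ‖w - a‖ = ‖a‖ := sub_eq_right (lt_of_le_of_lt (G.wM.trans G.MR) ha)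
  have hR : 0 ≤ R := G.r0.trans G.rR
  refine nr_div ?_ ?_
  · intro h
    rw [h, norm_zero] at h1
    linarith
  · have h2 : z - a - (w - a) = z - w := by ring
    rw [h2, h1]
    have h3 : ‖z - w‖ ≤ M := (sub_le z w).trans (max_le G.zM G.wM)
    exact h3.trans (G.e1.trans (mul_le_mul_of_nonneg_left ha.le G.d0))

theorem Geo.notin (G : Geo K δ r R ρ M z w) {a x : C} (ha : R < ‖a‖) (hx : x ∈ K) :
    ¬ ‖a - x‖ ≤ r := by
  intro h
  have h1 : ‖x - a‖ = ‖a‖ := sub_eq_right (lt_of_le_of_lt (G.hK x hx) ha)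
  rw [norm_sub_rev] at h1
  have := G.rR
  linarith

theorem small (d0 : 0 ≤ δ) (r0 : 0 ≤ r) (rρ : r < ρ) (e2 : r ≤ δ * ρ) {a b x : C}
    (hz : ρ ≤ ‖z - x‖) (ha : ‖a - x‖ ≤ r) (hb : ‖b - x‖ ≤ r) :
    z - b ≠ 0 ∧ Nr δ ((z - a) / (z - b)) := by
  have h1 : ‖z - b‖ = ‖z - x‖ := shift (lt_of_le_of_lt hb (lt_of_lt_of_le rρ hz))
  have h0 : z - b ≠ 0 := by
    intro h
    rw [h, norm_zero] at h1
    linarith
  refine ⟨h0, nr_div h0 ?_⟩
  have h2 : z - a - (z - b) = b - a := by ring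
  have h3 : ‖b - a‖ ≤ r := (tri b x a).trans (max_le hb (by rwa [norm_sub_rev]))
  rw [h2, h1]
  exact h3.trans (e2.trans (mul_le_mul_of_nonneg_left hz d0))

theorem Geo.allbig (G : Geo K δ r R ρ M z w) (t : Multiset C) (ht : ∀ b ∈ t, R < ‖b‖) :
    Nr δ (rat z w t) := by
  induction t using Multiset.induction_on with
  | empty => simpa [Nr, rat] using G.d0
  | cons b t ih =>
    have h1 := G.big (ht b (Multiset.mem_cons_self b t))
    have h2 := ih fun c hc => ht c (Multiset.mem_cons_of_mem hc)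
    unfold rat at h2 ⊢
    rw [Multiset.map_cons, Multiset.prod_cons]
    exact h1.mul G.d1 h2

theorem Geo.matching (G : Geo K δ r R ρ M z w) (s : Multiset C) : ∀ t : Multiset C,
    (∀ a ∈ s, Out K r R a) → (∀ b ∈ t, Out K r R b) → (∀ x ∈ K, cnt r x s = cnt r x t) →
    Nr δ (rat z w s * (rat z w t)⁻¹) := by
  classical
  induction s using Multiset.induction_on with
  | empty =>
    intro t _ ht hc
    have h1 : ∀ b ∈ t, R < ‖b‖ := by
      intro b hb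
      rcases ht b hb with h | ⟨x, hx, h⟩
      · exact h
      · have h2 := hc x hx
        unfold cnt at h2
        rw [Multiset.countP_zero, eq_comm, Multiset.countP_eq_zero] at h2
        exact absurd h (h2 b hb)
    have h2 := (G.allbig t h1).inv G.d1
    simpa [rat] using h2
  | cons a s ih =>
    intro t hs ht hc
    have hs' : ∀ c ∈ s, Out K r R c := fun c h => hs c (Multiset.mem_cons_of_mem h)
    have hra : rat z w (a ::ₘ s) = (z - a) / (w - a) * rat z w s := by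
      unfold rat
      rw [Multiset.map_cons, Multiset.prod_cons]
    rcases hs a (Multiset.mem_cons_self a s) with h | ⟨x, hx, h⟩
    · have h1 := ih t hs' ht fun y hy => by
        have h2 := hc y hy
        rwa [cnt_neg _ (G.notin h hy)] at h2
      rw [hra, mul_assoc]
      exact (G.big h).mul G.d1 h1
    · have h2 := hc x hx
      rw [cnt_pos _ h] at h2
      obtain ⟨b, hb, hbx⟩ := cnt_ex (lt_of_lt_of_le (Nat.succ_pos _) h2.le)
      obtain ⟨t', rfl⟩ := Multiset.exists_cons_of_mem hb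
      have hab : ‖a - b‖ ≤ r := (tri a x b).trans (max_le h (by rwa [norm_sub_rev]))
      have h1 := ih t' hs' (fun c h => ht c (Multiset.mem_cons_of_mem h)) fun y hy => by
        have h3 := hc y hy
        by_cases hay : ‖a - y‖ ≤ r
        · have hby : ‖b - y‖ ≤ r :=
            (tri b a y).trans (max_le (by rwa [norm_sub_rev]) hay)
          rw [cnt_pos _ hay, cnt_pos _ hby] at h3
          omega
        · have hby : ¬ ‖b - y‖ ≤ r := fun hby => hay ((tri a b y).trans (max_le hab hby))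
          rwa [cnt_neg _ hay, cnt_neg _ hby] at h3
      have hrb : rat z w (b ::ₘ t') = (z - b) / (w - b) * rat z w t' := by
        unfold rat
        rw [Multiset.map_cons, Multiset.prod_cons]
      obtain ⟨z0, hz⟩ := small G.d0 G.r0 G.rρ G.e2 (G.zK x hx) h hbx
      obtain ⟨w0, hw⟩ := small G.d0 G.r0 G.rρ G.e2 (G.wK x hx) hbx h
      obtain ⟨w1, -⟩ := small G.d0 G.r0 G.rρ G.e2 (G.wK x hx) h hbx
      have h4 := (hz.mul G.d1 hw).mul G.d1 h1
      have h5 : rat z w (a ::ₘ s) * (rat z w (b ::ₘ t'))⁻¹ =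
          (z - a) / (z - b) * ((w - b) / (w - a)) * (rat z w s * (rat z w t')⁻¹) := by
        rw [hra, hrb, mul_inv]
        generalize (rat z w t')⁻¹ = p
        field_simp
      rw [h5]
      exact h4

end

section
variable [IsAlgClosed C]

omit [IsUltrametricDist C] in
theorem eval_prod (P : C[X]) (z : C) :
    P.eval z = P.leadingCoeff * (P.roots.map fun a => z - a).prod :=
  (IsAlgClosed.splits P).eval_eq_prod_roots z

omit [IsUltrametricDist C] in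
theorem norm_eval (P : C[X]) (z : C) :
    ‖P.eval z‖ = ‖P.leadingCoeff‖ * (P.roots.map fun a => ‖z - a‖).prod := by
  rw [eval_prod, norm_mul]
  congr 1
  induction P.roots using Multiset.induction_on with
  | empty => simp
  | cons a s ih => simp [ih]

omit [IsUltrametricDist C] in
theorem eval_div (P : C[X]) (z w : C) (hw : P.eval w ≠ 0) :
    P.eval z / P.eval w = rat z w P.roots := by
  rw [eval_prod P w] at hw
  rw [eval_prod P z, eval_prod P w, mul_div_mul_left _ _ (left_ne_zero_of_mul hw), rat,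
    Multiset.prod_map_div]

end

variable [Algebra (ZMod 2) C] {T : C}

theorem root_size (F : FY T) (hT : 1 < ‖T‖) (n : ℕ) (s : Multiset C)
    (hs : ∀ a ∈ s, a ∉ Om T n) : ∃ (c : ℝ) (l : Multiset C), 0 < c ∧ (∀ y ∈ l, y ∈ Finf T) ∧
      ∀ z ∈ Om T n, (s.map fun a => ‖z - a‖).prod = c * (l.map fun y => ‖z - y‖).prod := by
  have hq : 0 < ‖T‖ ^ n := pow_pos (by linarith) n
  induction s using Multiset.induction_on with
  | empty => exact ⟨1, 0, one_pos, by simp, by simp⟩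
  | cons a s ih =>
    obtain ⟨c, l, hc, hl, h⟩ := ih fun b hb => hs b (Multiset.mem_cons_of_mem hb)
    rcases F.out n a (hs a (Multiset.mem_cons_self a s)) with ha | ⟨x, hx, -, ha⟩
    · refine ⟨‖a‖ * c, l, mul_pos (hq.trans ha) hc, hl, fun z hz => ?_⟩
      rw [Multiset.map_cons, Multiset.prod_cons, h z hz, sub_eq_right (lt_of_le_of_lt hz.1 ha),
        mul_assoc]
    · refine ⟨c, x ::ₘ l, hc, fun y hy => ?_, fun z hz => ?_⟩
      · rcases Multiset.mem_cons.1 hy with rfl | hy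
        · exact hx
        · exact hl y hy
      · have h1 : ‖a - x‖ < ‖z - x‖ :=
          lt_of_mul_lt_mul_left (lt_of_lt_of_le ha (hz.2 x hx)) hq.le
        rw [Multiset.map_cons, Multiset.prod_cons, h z hz, shift h1, Multiset.map_cons,
          Multiset.prod_cons]
        ring

omit [Algebra (ZMod 2) C] in
theorem norm_of_approx {u p q : C} {ε : ℝ} (hε : ε < 1) (hp : p ≠ 0) (hq : q ≠ 0)
    (h : ‖u * q / p - 1‖ ≤ ε) : ‖u‖ = ‖p‖ / ‖q‖ := by
  have h1 := Nr.norm hε h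
  rw [norm_div, norm_mul, div_eq_one_iff_eq (norm_ne_zero_iff.2 hp)] at h1
  rw [eq_div_iff (norm_ne_zero_iff.2 hq), h1]

omit [IsUltrametricDist C] [Algebra (ZMod 2) C] in
theorem roots_out {S : Set C} {P : C[X]} (h : ∀ z ∈ S, P.eval z ≠ 0) :
    ∀ a ∈ P.roots, a ∉ S := fun a ha hS => h a hS (isRoot_of_mem_roots ha)

theorem nf [IsAlgClosed C] (F : FY T) (U : UNI T) (hT : 1 < ‖T‖) (n : ℕ) (u : C → C)
    (hu : UnitOn (Om T n) u) : ∃ (c : ℝ) (l l' : Multiset C), 0 < c ∧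
    (∀ y ∈ l, y ∈ Finf T) ∧ (∀ y ∈ l', y ∈ Finf T) ∧ ∀ z ∈ Om T n,
      ‖u z‖ = c * (l.map fun y => ‖z - y‖).prod / (l'.map fun y => ‖z - y‖).prod := by
  obtain ⟨P, Q, h⟩ := U.approx n u hu (1 / 2) (by norm_num)
  obtain ⟨c, l, hc, hl, hP⟩ := root_size F hT n P.roots (roots_out fun z hz => (h z hz).1)
  obtain ⟨c', l', hc', hl', hQ⟩ := root_size F hT n Q.roots (roots_out fun z hz => (h z hz).2.1)
  obtain ⟨z1, hz1, -⟩ := F.avoid ∅
  have hz2 := F.mono 0 n (Nat.zero_le n) (F.gen_om z1 hz1)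
  have hP0 : 0 < ‖P.leadingCoeff‖ := by
    rw [norm_pos_iff, leadingCoeff_ne_zero]
    rintro rfl
    exact (h z1 hz2).1 eval_zero
  have hQ0 : 0 < ‖Q.leadingCoeff‖ := by
    rw [norm_pos_iff, leadingCoeff_ne_zero]
    rintro rfl
    exact (h z1 hz2).2.1 eval_zero
  refine ⟨‖P.leadingCoeff‖ * c / (‖Q.leadingCoeff‖ * c'), l, l', by positivity, hl, hl',
    fun z hz => ?_⟩
  obtain ⟨h1, h2, h3⟩ := h z hz
  rw [norm_of_approx (by norm_num) h1 h2 h3, norm_eval, norm_eval, hP z hz, hQ z hz]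
  ring

theorem dist_gen (F : FY T) {z0 : C} (h0 : Gen z0) (j : ℤ) {x y : C} (hx : x ∈ Finf T)
    (hy : y ∈ Finf T) : ‖x + T ^ j * z0 - y‖ = max (‖T‖ ^ j) ‖x - y‖ := by
  have h1 := F.gen z0 h0 (T ^ j) (zpow_mem F.memT j) (x - y) (sub_mem hx hy)
  rw [norm_zpow] at h1
  rw [← h1]
  congr 1
  ring

theorem mem_om (F : FY T) (hT : 1 < ‖T‖) {z0 : C} (h0 : Gen z0) (N : ℕ) (j : ℤ)
    (h1 : -(N : ℤ) ≤ j) (h2 : j ≤ N) {x : C} (hx : x ∈ Finf T) (hN : ‖x‖ ≤ ‖T‖ ^ N) :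
    x + T ^ j * z0 ∈ Om T N := by
  refine ⟨?_, fun y hy => ?_⟩
  · have h3 := dist_gen F h0 j hx (zero_mem _)
    rw [sub_zero, sub_zero] at h3
    rw [h3]
    refine max_le ?_ hN
    rw [← zpow_natCast]
    exact zpow_le_zpow_right₀ hT.le h2
  · rw [dist_gen F h0 j hx hy]
    have hp : 0 < ‖T‖ := by linarith
    have h3 : (1 : ℝ) ≤ ‖T‖ ^ N * ‖T‖ ^ j := by
      rw [← zpow_natCast, ← zpow_add₀ hp.ne']
      exact one_le_zpow₀ hT.le (by omega)
    exact h3.trans (mul_le_mul_of_nonneg_left (le_max_left _ _) (pow_pos hp N).le)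

theorem out_of (F : FY T) (hT : 1 < ‖T‖) (N : ℕ) {a : C} (ha : a ∉ Om T N) :
    ‖T‖ ^ N < ‖a‖ ∨ ∃ x ∈ Finf T, ‖x‖ ≤ ‖T‖ ^ N ∧ ‖a - x‖ < ‖T‖ ^ (-(N : ℤ)) := by
  have hp : 0 < ‖T‖ ^ N := pow_pos (by linarith) N
  rcases F.out N a ha with h | ⟨x, hx, h1, h2⟩
  · exact Or.inl h
  · refine Or.inr ⟨x, hx, h1, ?_⟩
    rw [zpow_neg, zpow_natCast, ← one_div, lt_div_iff₀ hp, mul_comm]
    exact h2

theorem step (F : FY T) (hT : 1 < ‖T‖) {z0 : C} (h0 : Gen z0) (N : ℕ) (hN : 1 ≤ N) {x : C}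
    (hx : x ∈ Finf T) (hxN : ‖x‖ ≤ ‖T‖ ^ N) (s : Multiset C) (hs : ∀ a ∈ s, a ∉ Om T N) :
    (s.map fun a => ‖x + T ^ (-(N : ℤ) + 1) * z0 - a‖).prod =
      (s.map fun a => ‖x + T ^ (-(N : ℤ)) * z0 - a‖).prod *
        ‖T‖ ^ cnt (‖T‖ ^ (-(N : ℤ))) x s := by
  classical
  have hp : 0 < ‖T‖ := by linarith
  have m1 := mem_om F hT h0 N (-(N : ℤ)) le_rfl (by omega) hx hxN
  have m2 := mem_om F hT h0 N (-(N : ℤ) + 1) (by omega) (by omega) hx hxN
  have hle : ‖T‖ ^ (-(N : ℤ)) ≤ ‖T‖ ^ (-(N : ℤ) + 1) := zpow_le_zpow_right₀ hT.le (by omega)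
  induction s using Multiset.induction_on with
  | empty => simp [cnt]
  | cons a s ih =>
    have ih' := ih fun b hb => hs b (Multiset.mem_cons_of_mem hb)
    rw [Multiset.map_cons, Multiset.prod_cons, Multiset.map_cons, Multiset.prod_cons, ih']
    rcases out_of F hT N (hs a (Multiset.mem_cons_self a s)) with ha | ⟨y, hy, -, ha⟩
    · have h1 : ¬ ‖a - x‖ ≤ ‖T‖ ^ (-(N : ℤ)) := by
        rw [norm_sub_rev, sub_eq_right (lt_of_le_of_lt hxN ha), not_le]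
        refine lt_of_le_of_lt ?_ ha
        rw [← zpow_natCast]
        exact zpow_le_zpow_right₀ hT.le (by omega)
      rw [cnt_neg _ h1, sub_eq_right (lt_of_le_of_lt m1.1 ha),
        sub_eq_right (lt_of_le_of_lt m2.1 ha), mul_assoc]
    · have d1 := dist_gen F h0 (-(N : ℤ)) hx hy
      have d2 := dist_gen F h0 (-(N : ℤ) + 1) hx hy
      have e1 := shift (z := x + T ^ (-(N : ℤ)) * z0)
        (lt_of_lt_of_le ha (by rw [d1]; exact le_max_left _ _))
      have e2 := shift (z := x + T ^ (-(N : ℤ) + 1) * z0)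
        (lt_of_lt_of_le ha (by rw [d2]; exact hle.trans (le_max_left _ _)))
      rw [e1, e2, d1, d2]
      by_cases hxy : ‖x - y‖ ≤ ‖T‖ ^ (-(N : ℤ))
      · have h1 : ‖a - x‖ ≤ ‖T‖ ^ (-(N : ℤ)) :=
          (tri a y x).trans (max_le ha.le (by rwa [norm_sub_rev]))
        rw [cnt_pos _ h1, max_eq_left hxy, max_eq_left (hxy.trans hle),
          zpow_add₀ hp.ne', zpow_one, pow_succ]
        ring
      · have h1 : ¬ ‖a - x‖ ≤ ‖T‖ ^ (-(N : ℤ)) := fun h1 =>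
          hxy ((tri x a y).trans (max_le (by rwa [norm_sub_rev]) ha.le))
        have hne : x - y ≠ 0 := by
          intro h
          rw [h, norm_zero] at hxy
          exact hxy (zpow_pos hp _).le
        obtain ⟨k, hk⟩ := F.val (x - y) (sub_mem hx hy) hne
        have hk1 : -(N : ℤ) < k := by
          rw [hk, not_le] at hxy
          exact (zpow_lt_zpow_iff_right₀ hT).1 hxy
        have h2 : ‖T‖ ^ (-(N : ℤ) + 1) ≤ ‖x - y‖ := by
          rw [hk]
          exact zpow_le_zpow_right₀ hT.le (by omega)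
        rw [cnt_neg _ h1, max_eq_right h2, max_eq_right (hle.trans h2),
          mul_assoc]

theorem close [IsAlgClosed C] (F : FY T) (UN : UNI T) (hT : 1 < ‖T‖) (U : C → C) {z0 : C}
    (hU : ∀ n, UnitOn (Om T n) U) (h0 : Gen z0)
    (hn : ∀ y ∈ Finf T, ∀ j : ℤ, ‖U (y + T ^ j * z0)‖ = ‖U z0‖) (m k : ℕ) {z w : C}
    (hz : z ∈ Om T m) (hw : w ∈ Om T m) : Nr (‖T‖⁻¹ ^ (k + 1)) (U z / U w) := by
  have hp : 0 < ‖T‖ := by linarith
  have hi0 : 0 < ‖T‖⁻¹ := inv_pos.2 hp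
  have hi1 : ‖T‖⁻¹ < 1 := inv_lt_one_of_one_lt₀ hT
  have d0 : 0 < ‖T‖⁻¹ ^ (k + 1) := pow_pos hi0 _
  have d1 : ‖T‖⁻¹ ^ (k + 1) < 1 := pow_lt_one₀ hi0.le hi1 (Nat.succ_ne_zero k)
  obtain ⟨N, hN⟩ : ∃ N, N = m + (k + 1) := ⟨_, rfl⟩
  obtain ⟨P, Q, h⟩ := UN.approx N U (hU N) _ d0
  have hPo := roots_out fun z hz => (h z hz).1
  have hQo := roots_out fun z hz => (h z hz).2.1
  have low : ∀ v ∈ Om T m, ∀ x ∈ Finf T, ‖T‖ ^ (-(m : ℤ)) ≤ ‖v - x‖ := by
    intro v hv x hx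
    rw [zpow_neg, zpow_natCast, ← one_div, div_le_iff₀ (pow_pos hp m), mul_comm]
    exact hv.2 x hx
  have G : Geo {x | x ∈ Finf T ∧ ‖x‖ ≤ ‖T‖ ^ N} (‖T‖⁻¹ ^ (k + 1)) (‖T‖ ^ (-(N : ℤ))) (‖T‖ ^ N)
      (‖T‖ ^ (-(m : ℤ))) (‖T‖ ^ m) z w :=
    { d0 := d0.le
      d1 := d1
      r0 := (zpow_pos hp _).le
      rρ := zpow_lt_zpow_right₀ hT (by omega)
      rR := by
        rw [← zpow_natCast]
        exact zpow_le_zpow_right₀ hT.le (by omega)
      MR := pow_le_pow_right₀ hT.le (by omega)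
      e1 := by
        rw [hN, pow_add ‖T‖ m, inv_pow]
        refine le_of_eq ?_
        field_simp
      e2 := by
        rw [hN, zpow_neg, zpow_neg, zpow_natCast, zpow_natCast, pow_add ‖T‖ m, inv_pow, mul_inv,
          mul_comm]
      hK := fun x hx => hx.2
      zM := hz.1
      wM := hw.1
      zK := fun x hx => low z hz x hx.1
      wK := fun x hx => low w hw x hx.1 }
  have ho : ∀ a ∉ Om T N, Out {x | x ∈ Finf T ∧ ‖x‖ ≤ ‖T‖ ^ N} (‖T‖ ^ (-(N : ℤ))) (‖T‖ ^ N) a := by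
    intro a ha
    rcases out_of F hT N ha with h1 | ⟨x, hx, h1, h2⟩
    · exact Or.inl h1
    · exact Or.inr ⟨x, ⟨hx, h1⟩, h2.le⟩
  have hM := G.matching P.roots Q.roots (fun a ha => ho a (hPo a ha)) (fun a ha => ho a (hQo a ha))
    (by
      rintro x ⟨hx, hxN⟩
      have m1 := mem_om F hT h0 N (-(N : ℤ)) le_rfl (by omega) hx hxN
      have m2 := mem_om F hT h0 N (-(N : ℤ) + 1) (by omega) (by omega) hx hxN
      obtain ⟨a1, a2, a3⟩ := h _ m1
      obtain ⟨b1, b2, b3⟩ := h _ m2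
      have c1 := norm_of_approx d1 a1 a2 a3
      have c2 := norm_of_approx d1 b1 b2 b3
      rw [hn x hx] at c1 c2
      have p2 : ‖P.eval (x + T ^ (-(N : ℤ) + 1) * z0)‖ =
          ‖P.eval (x + T ^ (-(N : ℤ)) * z0)‖ * ‖T‖ ^ cnt (‖T‖ ^ (-(N : ℤ))) x P.roots := by
        rw [norm_eval, norm_eval, step F hT h0 N (by omega) hx hxN _ hPo, mul_assoc]
      have q2 : ‖Q.eval (x + T ^ (-(N : ℤ) + 1) * z0)‖ =
          ‖Q.eval (x + T ^ (-(N : ℤ)) * z0)‖ * ‖T‖ ^ cnt (‖T‖ ^ (-(N : ℤ))) x Q.roots := by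
        rw [norm_eval, norm_eval, step F hT h0 N (by omega) hx hxN _ hQo, mul_assoc]
      rw [c1, p2, q2, mul_div_mul_comm] at c2
      have e0 : ‖P.eval (x + T ^ (-(N : ℤ)) * z0)‖ / ‖Q.eval (x + T ^ (-(N : ℤ)) * z0)‖ ≠ 0 :=
        div_ne_zero (norm_ne_zero_iff.2 a1) (norm_ne_zero_iff.2 a2)
      have e1 := (mul_eq_left₀ e0).1 c2.symm
      rw [div_eq_one_iff_eq (pow_pos hp _).ne'] at e1
      exact pow_right_injective₀ hp hT.ne' e1)
  have hzN := F.mono m N (by omega) hz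
  have hwN := F.mono m N (by omega) hw
  obtain ⟨a1, a2, a3⟩ := h z hzN
  obtain ⟨b1, b2, b3⟩ := h w hwN
  have b0 : U w ≠ 0 := (hU N).2.2 w hwN
  rw [← eval_div P z w b1, ← eval_div Q z w b2] at hM
  have h4 := (Nr.mul d1 a3 (Nr.inv d1 b3)).mul d1 hM
  have h5 : U z / U w = U z * Q.eval z / P.eval z * (U w * Q.eval w / P.eval w)⁻¹ *
      (P.eval z / P.eval w * (Q.eval z / Q.eval w)⁻¹) := by
    field_simp
  rw [h5]
  exact h4

theorem row : OfNF := by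
  intro C _ _ _ _ _ _ T hT _ F UN
  refine ⟨nf F UN hT, fun U z0 hU h0 hn z hz w hw => ?_⟩
  obtain ⟨m1, h1⟩ := F.exh z hz
  obtain ⟨m2, h2⟩ := F.exh w hw
  have h3 := F.mono m1 _ (le_max_left m1 m2) h1
  have h4 := F.mono m2 _ (le_max_right m1 m2) h2
  have b0 : U w ≠ 0 := (hU m2).2.2 w h2
  have hi0 : 0 < ‖T‖⁻¹ := inv_pos.2 (by linarith)
  have hi1 : ‖T‖⁻¹ < 1 := inv_lt_one_of_one_lt₀ hT
  by_contra hne
  have h5 : 0 < ‖U z / U w - 1‖ := by
    rw [norm_pos_iff, sub_ne_zero]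
    intro h
    exact hne ((div_eq_one_iff_eq b0).1 h)
  obtain ⟨k, hk⟩ := exists_pow_lt_of_lt_one h5 hi1
  have h6 : ‖U z / U w - 1‖ ≤ ‖T‖⁻¹ ^ (k + 1) := close F UN hT U hU h0 hn _ k h3 h4
  have h7 : ‖T‖⁻¹ ^ (k + 1) ≤ ‖T‖⁻¹ ^ k := pow_le_pow_of_le_one hi0.le hi1.le (Nat.le_succ k)
  linarith

end Pool.Agent.MP_a88b1d_nt.RNF
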