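import Pool.Agent.MP_a88b1d_nt.H93.Spec3

/-! Normalisation of a function with multiplier at the removable points. -/

open Polynomial Filter Topology OnePoint

noncomputable section

namespace Pool.Agent.MP_a88b1d_nt.RNORM

open Pool.Agent.MP_a88b1d_nt.St2
open Pool.Agent.MP_a88b1d_nt.P2

variable {C : Type} [NontriviallyNormedField C] {T : C}

/-- The normalised function. -/
def nf (f : C → C) (e : C → ℤ) (z : C) : C := if e z = 0 then limUnder (𝓝[≠] z) f else 0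

theorem hasDiv_of_strict {f : C → C} {e : C → ℤ} (h : Strict T f e) : HasDiv T f e := by
  intro n
  obtain ⟨s, u, hu, hs, h0, h⟩ := h n
  exact ⟨s, u, hu, fun a ha => (hs a ha).1, fun z hz hzs => ⟨h0 z hz hzs, h z hz⟩⟩

theorem far_notin {r : ℝ} (hr : 0 < r) {z : C} (hz : Far T r z) : z ∉ Finf T := by
  intro h
  have := hz z h
  rw [sub_self, norm_zero] at this
  exact absurd hr (not_lt.2 this)

theorem far_near [IsUltrametricDist C] {r : ℝ} {z w : C} (hz : Far T r z) (hw : ‖w - z‖ < r) :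
    Far T r w := by
  intro x hx
  have h1 := hz x hx
  have h2 : z - x = (w - x) + -(w - z) := by ring
  have h3 := IsUltrametricDist.norm_add_le_max (w - x) (-(w - z))
  rw [← h2, norm_neg] at h3
  rcases le_max_iff.1 (h1.trans h3) with h | h
  · exact h
  · exact absurd hw (not_lt.2 h)

variable [Algebra (ZMod 2) C]

theorem loc_data (F : FY T) (H : HOL T) {f : C → C} {e : C → ℤ} {n : ℕ} (h : Loc T n f e) :
    ∃ (s : Finset C) (u : C → C), UnitOn (Om T n) u ∧ (∀ a ∈ s, a ∈ Om T n ∧ e a ≠ 0) ∧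
      (∀ z ∈ Om T n, z ∉ s → e z = 0) ∧ ∀ z ∈ Om T n, e z = 0 →
        Tendsto f (𝓝[≠] z) (𝓝 (u z * ∏ a ∈ s, (z - a) ^ e a)) := by
  classical
  obtain ⟨s, u, hu, hs, h⟩ := h
  refine ⟨s.filter fun a => e a ≠ 0, u, hu,
    fun a ha => ⟨hs a (Finset.mem_filter.1 ha).1, (Finset.mem_filter.1 ha).2⟩,
    fun z hz hzs => ?_, fun z hz hez => ?_⟩
  · by_contra hc
    by_cases hz' : z ∈ s
    · exact hzs (Finset.mem_filter.2 ⟨hz', hc⟩)
    · exact hc (h z hz hz').1
  · have hu' : ContinuousAt u z :=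
      (H.cont _ u hu.1).continuousAt ((F.omopen n).mem_nhds hz)
    have hp : ContinuousAt (fun w => ∏ a ∈ s.filter fun a => e a ≠ 0, (w - a) ^ e a) z := by
      refine tendsto_finsetProd _ fun a ha => ?_
      refine ContinuousAt.zpow₀ (f := fun w : C => w - a) (by fun_prop) _ (Or.inl ?_)
      refine sub_ne_zero.2 ?_
      rintro rfl
      exact (Finset.mem_filter.1 ha).2 hez
    refine ((hu'.mul hp).tendsto.mono_left nhdsWithin_le_nhds).congr' ?_
    filter_upwards [F.punct n z hz s] with w hw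
    rw [(h w hw.1 hw.2).2]
    change u w * _ = u w * _
    congr 1
    refine Finset.prod_subset (Finset.filter_subset _ _) fun a ha ha' => ?_
    have : e a = 0 := by
      by_contra hc
      exact ha' (Finset.mem_filter.2 ⟨ha, hc⟩)
    rw [this, zpow_zero]

theorem nf_strict (F : FY T) (H : HOL T) {f : C → C} {e : C → ℤ} (h : HasDiv T f e) :
    Strict T (nf f e) e := by
  intro n
  obtain ⟨s, u, hu, hs, h0, ht⟩ := loc_data F H (h n)
  refine ⟨s, u, hu, hs, h0, fun z hz => ?_⟩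
  unfold nf
  split_ifs with hez
  · exact (ht z hz hez).limUnder_eq
  · have hzs : z ∈ s := by
      by_contra hc
      exact hez (h0 z hz hc)
    rw [Finset.prod_eq_zero hzs (by rw [sub_self, zero_zpow _ hez]), mul_zero]

theorem nf_tend (F : FY T) (H : HOL T) {f : C → C} {e : C → ℤ} (h : HasDiv T f e) {z : C}
    (hz : z ∉ Finf T) (hez : e z = 0) : Tendsto f (𝓝[≠] z) (𝓝 (nf f e z)) := by
  obtain ⟨n, hn⟩ := F.exh z hz
  obtain ⟨s, u, -, -, -, ht⟩ := loc_data F H (h n)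
  have h1 := ht z hn hez
  unfold nf
  rw [if_pos hez, h1.limUnder_eq]
  exact h1

theorem ev_notin (F : FY T) {z : C} (hz : z ∉ Finf T) : ∀ᶠ w in 𝓝[≠] z, w ∉ Finf T := by
  obtain ⟨n, hn⟩ := F.exh z hz
  filter_upwards [F.punct n z hn ∅] with w hw
  exact F.notin n w hw.1

variable [DecidableEq C]

theorem nf_aut (F : FY T) (H : HOL T) (H3 : HD3 T) (M : MOBN T) (B : MB T) {f : C → C}
    {e : C → ℤ} (h : HasDiv T f e) (g : H42.MK T) (c : C) (hc : c ≠ 0)
    (ha : ∀ w ∉ Finf T, f (mob g.1 w) = c * f w) (z : C) (hz : z ∉ Finf T) :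
    nf f e (mob g.1 z) = c * nf f e z := by
  have he := H3.inv g f e c h hc ha z hz
  by_cases hez : e z = 0
  · have h1 := (nf_tend F H h (B.om g z hz) (he.trans hez)).comp (M.tend g z hz)
    have h2 := (nf_tend F H h hz hez).const_mul c
    refine tendsto_nhds_unique h1 (h2.congr' ?_)
    filter_upwards [ev_notin F hz] with w hw
    exact (ha w hw).symm
  · unfold nf
    rw [if_neg hez, if_neg (he ▸ hez), mul_zero]

theorem nf_cusp [IsUltrametricDist C] (F : FY T) (H : HOL T) (H2 : HD2 T) (H3 : HD3 T)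
    (M : MOBN T) (B : MB T) (E : EXP T) {f : C → C} {e : C → ℤ} (h : HasDiv T f e)
    (g : H42.MK T) (Λ : Set C) (hΛ : Latt T Λ) (k : ℤ)
    (hc : CuspOrd T Λ (fun z => f (mob g.1 z)) k) :
    CuspOrd T Λ (fun z => nf f e (mob g.1 z)) k := by
  obtain ⟨r, c₁, c₂, hc₁, hc⟩ := hc
  refine ⟨max r 1, c₁, c₂, hc₁, fun z hz => ?_⟩
  have hr : 0 < max r 1 := lt_of_lt_of_le one_pos (le_max_right _ _)
  have hzF : z ∉ Finf T := far_notin hr hz
  have hE : 0 < ‖ex Λ z‖ ^ k := zpow_pos (norm_pos_iff.2 (E.ne Λ hΛ z hzF)) k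
  have hev : ∀ᶠ w in 𝓝[≠] z,
      c₁ ≤ ‖f (mob g.1 w)‖ * ‖ex Λ z‖ ^ k ∧ ‖f (mob g.1 w)‖ * ‖ex Λ z‖ ^ k ≤ c₂ := by
    refine mem_nhdsWithin_of_mem_nhds ?_
    filter_upwards [Metric.ball_mem_nhds z hr] with w hw
    rw [Metric.mem_ball, dist_eq_norm] at hw
    rw [← E.shift Λ hΛ _ z w hz hw]
    exact hc w fun x hx => (le_max_left _ _).trans (far_near hz hw x hx)
  obtain ⟨n, hn⟩ := F.exh z hzF
  have hord := H2.ord n _ _ (H3.comp g f e h n) z hn
  have hez : e (mob g.1 z) = 0 := by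
    refine H2.zero _ z _ (c₁ / ‖ex Λ z‖ ^ k) (c₂ / ‖ex Λ z‖ ^ k) hord (div_pos hc₁ hE) ?_
    filter_upwards [hev] with w hw
    exact ⟨(div_le_iff₀ hE).2 hw.1, (le_div_iff₀ hE).2 hw.2⟩
  have h1 := (((nf_tend F H h (B.om g z hzF) hez).comp (M.tend g z hzF)).norm).mul_const
    (‖ex Λ z‖ ^ k)
  exact ⟨ge_of_tendsto h1 (hev.mono fun w hw => hw.1), le_of_tendsto h1 (hev.mono fun w hw => hw.2)⟩

theorem strict' [IsUltrametricDist C] (F : FY T) (H : HOL T) (H2 : HD2 T) (H3 : HD3 T)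
    (M : MOBN T) (B : MB T) (E : EXP T) (DI : DISC T) (Γ : Subgroup (GL (Fin 2) C))
    (K : Set (GL (Fin 2) C)) (χ : Γ →* Cˣ) (f : C → C) (D : OnePoint C → ℤ) (S : Setup T Γ K)
    (h : MF T Γ K χ f D) : ∃ f', MF T Γ K χ f' D ∧ Strict T f' (eD Γ D) := by
  have hd : HasDiv T f (eD Γ D) := h.div.ord
  have hs := nf_strict F H hd
  refine ⟨nf f (eD Γ D), ⟨⟨hasDiv_of_strict hs, fun γ hγ => ?_, h.div.off⟩, fun g z hz => ?_⟩, hs⟩
  · exact nf_cusp F H H2 H3 M B E hd (glMK T γ (DI.ga.mem γ (S.cusp γ hγ))) (Lam Γ γ)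
      (DI.latt Γ S.disc γ (S.cusp γ hγ)) _ (h.div.cusp γ hγ)
  · exact nf_aut F H H3 M B hd (toMK S.disc g) (χ g) (χ g).ne_zero (h.aut g) z hz

theorem row : OfNORM := by
  intro C _ _ _ _ _ _ T _ L F H U _ H2 H3 M E DI
  refine ⟨strict' F H H2 H3 M L.mb E DI, fun Γ K χ f S h => ?_⟩
  obtain ⟨f', h1, h2⟩ := strict' F H H2 H3 M L.mb E DI Γ K χ f 0 S h
  refine ⟨f', h1, h2, fun n => ?_⟩
  obtain ⟨s, u, hu, hs, -, hf⟩ := h2 n
  refine U.congr _ u f' hu fun z hz => ?_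
  have : s = ∅ := Finset.eq_empty_of_forall_notMem fun a ha => (hs a ha).2 (by simp [eD])
  rw [hf z hz, this, Finset.prod_empty, mul_one]

end Pool.Agent.MP_a88b1d_nt.RNORM
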