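import Pool.Agent.MP_a88b1d_nt.H93.Spec3
import Pool.Agent.MP_a88b1d_nt.H45.Fin
import Pool.Agent.MP_a88b1d_nt.H94.Pm

/-! Row OLD: multipliers of old divisors. -/

open Polynomial OnePoint

noncomputable section

namespace Pool.Agent.MP_a88b1d_nt.ROLD

open Pool.Agent.MP_a88b1d_nt.St2 Pool.Agent.MP_a88b1d_nt.P2
open Pool.Agent.MP_a88b1d_nt.H42 (A M2 MK pp qq)

variable {C : Type} [NontriviallyNormedField C] [Algebra (ZMod 2) C] [DecidableEq C]

omit [DecidableEq C] in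
theorem mobmul {T : C} (L : LIB T) (g h : GL (Fin 2) C) (hg : ∀ i j, g.1 i j ∈ Finf T)
    (hh : ∀ i j, h.1 i j ∈ Finf T) (z : C) (hz : z ∉ Finf T) :
    mob (g * h).1 z = mob g.1 (mob h.1 z) :=
  L.mb.mul (glMK T g hg) (glMK T h hh) z hz

omit [DecidableEq C] in
theorem delta_mem {T : C} {n m d : A} {δ : GL (Fin 2) C} (h : PullD T n m d δ) :
    ∀ i j, δ.1 i j ∈ Finf T := by
  intro i j
  rw [h.val]
  fin_cases i <;> fin_cases j
  · exact H42.aeval_mem_Finf T d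
  · exact zero_mem _
  · exact zero_mem _
  · exact one_mem _

/-- Conjugation by the degeneracy matrix. -/
def cj {Γ Γ' : Subgroup (GL (Fin 2) C)} (δ : GL (Fin 2) C) (h : ∀ g ∈ Γ, δ * g * δ⁻¹ ∈ Γ') :
    Γ →* Γ' where
  toFun g := ⟨δ * g.1 * δ⁻¹, h g.1 g.2⟩
  map_one' := Subtype.ext (by simp)
  map_mul' a b := Subtype.ext (by simp [mul_assoc])

theorem pullMF {T : C} (L : LIB T) (hD : DISC T) (hA : PULLA T) (hC : PULLC T) {n m d : A}
    {δ : GL (Fin 2) C} (h : PullD T n m d δ) (χ : G0 T m →* Cˣ) (f : C → C)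
    (D : OnePoint C → ℤ) (hf : MF T (G0 T m) (GA T) χ f D) :
    MF T (G0 T n) (GA T) (χ.comp (cj δ (hA n m d δ h).1)) (fun z => f (mob δ.1 z))
      (pull (G0 T n) (G0 T m) δ D) := by
  obtain ⟨h1, h2⟩ := (hA n m d δ h).2 f D hf.div
  refine ⟨(isDiv_iff _ _ _ _ _).2 ⟨h1, fun γ hγ => hC n m d δ h f D hf.div γ hγ, h2⟩, ?_⟩
  intro g z hz
  have hδ := delta_mem h
  have hg := (hD.set0 n).disc.mem g.1 g.2
  have hg' := (hD.set0 m).disc.mem _ ((hA n m d δ h).1 g.1 g.2)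
  have e1 : mob δ.1 (mob g.1.1 z) = mob (δ * g.1 * δ⁻¹).1 (mob δ.1 z) := by
    rw [← mobmul L δ g.1 hδ hg z hz, ← mobmul L _ δ hg' hδ z hz, inv_mul_cancel_right]
  have hz' : mob δ.1 z ∉ Finf T := L.mb.om (glMK T δ hδ) z hz
  show f (mob δ.1 (mob g.1.1 z)) = _
  rw [e1]
  exact hf.aut (cj δ (hA n m d δ h).1 g) _ hz'

omit [DecidableEq C] in
/-- The degeneracy matrix. -/
theorem ex_delta {T : C} (hF : FY T) (d : A) (hd : d ≠ 0) :
    ∃ δ : GL (Fin 2) C, δ.1 = !![aeval T d, 0; 0, 1] := by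
  have h0 : aeval T d ≠ 0 := by
    intro h
    have := hF.one_le d hd
    rw [h, norm_zero] at this
    linarith
  exact ⟨Matrix.GeneralLinearGroup.mkOfDetNeZero !![aeval T d, 0; 0, 1] (by
    rw [Matrix.det_fin_two_of]; simpa using h0), rfl⟩

theorem killOld {T : C} (L : LIB T) (hD : DISC T) (hM : MFA T) (hT : TH T) (hA : PULLA T)
    (hC : PULLC T) (n : A) (hn : n ≠ 0) (E : OnePoint C → ℤ) (hE : E ∈ Old T n) :
    ∃ χ f, MF T (G0 T n) (GA T) χ f E ∧ ∀ μ ∈ NN T n, χ μ = 1 := by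
  induction hE using AddSubgroup.closure_induction with
  | mem D h =>
    obtain ⟨m, d, δ, D', h1, h2, h3, rfl⟩ := (isPull_iff T n hn D).1 h
    obtain ⟨χ, f, hf⟩ := hT.div0 _ _ (hD.set0 m) D' h3
    exact ⟨_, _, pullMF L hD hA hC h1 χ f D' hf, fun μ hμ =>
      hμ m d δ h1 h2 χ f D' hf _ rfl⟩
  | zero => exact ⟨1, _, hM.one _ _ (hD.set0 n), fun _ _ => rfl⟩
  | add x y _ _ hx hy =>
    obtain ⟨χ, f, hf, hχ⟩ := hx
    obtain ⟨χ', f', hf', hχ'⟩ := hy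
    exact ⟨_, _, hM.mul _ _ _ _ _ _ _ _ (hD.set0 n) hf hf', fun μ hμ => by
      rw [MonoidHom.mul_apply, hχ μ hμ, hχ' μ hμ, mul_one]⟩
  | neg x _ hx =>
    obtain ⟨χ, f, hf, hχ⟩ := hx
    exact ⟨_, _, hM.inv _ _ _ _ _ (hD.set0 n) hf, fun μ hμ => by
      rw [MonoidHom.inv_apply, hχ μ hμ, inv_one]⟩

/-- The index set of the degeneracy maps. -/
def Idx (n : A) : Type := {p : A × A // p.1 * p.2 ∣ n ∧ ¬ n ∣ p.1}

theorem idx_fin (n : A) (hn : n ≠ 0) : Finite (Idx n) := by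
  have h := (H94.finite_natDegree_le n.natDegree).prod (H94.finite_natDegree_le n.natDegree)
  refine (h.subset fun p (hp : p.1 * p.2 ∣ n ∧ ¬ n ∣ p.1) => ?_).to_subtype
  exact ⟨natDegree_le_of_dvd ((Dvd.intro _ rfl).trans hp.1) hn,
    natDegree_le_of_dvd ((Dvd.intro_left _ rfl).trans hp.1) hn⟩

theorem invOld [IsAlgClosed C] {T : C} (L : LIB T) (hB : BAER) (hF : FY T) (hD : DISC T)
    (hM : MFA T) (hJ : JAC T) (hA : PULLA T) (hC : PULLC T) (n : A) (hn : n ≠ 0)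
    (lam : G0 T n →* Cˣ) (h1 : ∀ g, ‖(lam g : C)‖ = 1) (h2 : ∀ μ ∈ NN T n, lam μ = 1) :
    ∃ f, ∃ E ∈ Old T n, MF T (G0 T n) (GA T) lam f E := by
  have := idx_fin n hn
  let _ : Fintype (Idx n) := Fintype.ofFinite _
  have hmd : ∀ i : Idx n, i.1.1 * i.1.2 ≠ 0 := fun i h => hn (by
    have := i.2.1
    rw [h] at this
    exact zero_dvd_iff.1 this)
  choose δ hδ using fun i : Idx n => ex_delta hF i.1.2 (right_ne_zero_of_mul (hmd i))
  have hP : ∀ i : Idx n, PullD T n i.1.1 i.1.2 (δ i) := fun i => ⟨hn, i.2.1, hδ i⟩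
  obtain ⟨χ, hχ1, hχ2, hχ3⟩ := hB C (G0 T n) (Idx n) (fun i => G0 T i.1.1)
    (fun i => cj (δ i) (hA _ _ _ _ (hP i)).1)
    (fun i => {χ | ∃ f D, MF T (G0 T i.1.1) (GA T) χ f D}) lam h1 (by
      intro g hg
      refine h2 g fun m d δ' hp hnm ψ f D hf g' hg' => ?_
      have e : δ' = δ ⟨(m, d), hp.dvd, hnm⟩ := Units.ext (by rw [hp.val, hδ])
      have e2 : g' = cj (δ ⟨(m, d), hp.dvd, hnm⟩) (hA _ _ _ _ (hP ⟨(m, d), hp.dvd, hnm⟩)).1 g :=
        Subtype.ext (hg'.trans (congrArg (fun x => x * g.1 * x⁻¹) e))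
      rw [e2]
      exact hg ⟨(m, d), hp.dvd, hnm⟩ ψ ⟨f, D, hf⟩)
  have hex : ∀ i : Idx n, ∃ f, ∃ D ∈ Div0 T (G0 T i.1.1) (GA T),
      MF T (G0 T i.1.1) (GA T) (χ i) f D := fun i =>
    hJ.lev _ (left_ne_zero_of_mul (hmd i)) (χ i) (hχ1 i) fun g z hz hg =>
      hχ2 i g fun ψ ⟨f, D, hf⟩ => hM.stab _ _ ψ f D (hD.set0 _) hf g z hz hg
  choose f D hD0 hf using hex
  have hp := hM.prod _ _ (Idx n) Finset.univ _ _ _ (hD.set0 n)
    fun i _ => pullMF L hD hA hC (hP i) (χ i) (f i) (D i) (hf i)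
  have e : lam = ∏ i, (χ i).comp (cj (δ i) (hA _ _ _ _ (hP i)).1) := by
    ext g
    rw [hχ3 g, MonoidHom.finsetProd_apply]
    rfl
  rw [← e] at hp
  refine ⟨_, _, sum_mem fun i _ => AddSubgroup.subset_closure ?_, hp⟩
  exact (isPull_iff T n hn _).2 ⟨_, _, _, _, hP i, i.2.2, hD0 i, rfl⟩

omit [DecidableEq C] in
theorem ex_al [IsUltrametricDist C] {T : C} (hT : 1 < ‖T‖) (hF : FY T) :
    ∃ al : Cˣ, ‖(al : C)‖ = 1 ∧ ¬ IsOfFinOrder al := by
  have hT0 : T ≠ 0 := by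
    rintro rfl
    rw [norm_zero] at hT
    linarith
  have hn : ‖T + 1‖ = ‖T‖ := by
    rw [IsUltrametricDist.norm_add_eq_max_of_norm_ne_norm (by rw [norm_one]; exact hT.ne'),
      norm_one, max_eq_left hT.le]
  have h1 : T + 1 ≠ 0 := by
    intro h
    rw [h, norm_zero] at hn
    linarith
  refine ⟨Units.mk0 ((T + 1) / T) (div_ne_zero h1 hT0), ?_, ?_⟩
  · rw [Units.val_mk0, norm_div, hn, div_self (norm_ne_zero_iff.2 hT0)]
  · intro h
    obtain ⟨j, hj, hj1⟩ := isOfFinOrder_iff_pow_eq_one.1 h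
    have h2 : ((T + 1) / T) ^ j = 1 := by simpa using congrArg Units.val hj1
    rw [div_pow, div_eq_one_iff_eq (pow_ne_zero _ hT0)] at h2
    have h3 : ((X + 1) ^ j - X ^ j : A) ≠ 0 := by
      intro h
      have := congrArg (eval 0) h
      simp [hj.ne'] at this
    have h4 := hF.one_le _ h3
    simp only [map_sub, map_pow, map_add, aeval_X, map_one, h2, sub_self, norm_zero] at h4
    linarith

theorem newOld [IsUltrametricDist C] {T : C} (hT : 1 < ‖T‖) (hF : FY T) (hN : MOBN T)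
    (hD : DISC T) (hJ : JAC T) (μ : H42.Gam0 (pp * qq)) (g : G0 T (pp * qq))
    (hg : g.1 = ev T μ.1) (hNN : g ∈ NN T (pp * qq)) : H42.New μ := by
  intro d hd φ g' hg'
  have hq : qq ≠ 0 := right_ne_zero_of_mul H45.nn_ne
  have hd0 : d ≠ 0 := by
    rcases hd with rfl | rfl
    · exact one_ne_zero
    · exact left_ne_zero_of_mul H45.nn_ne
  have hdv : qq * d ∣ pp * qq := by
    rcases hd with rfl | rfl
    · rw [mul_one]; exact Dvd.intro_left _ rfl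
    · rw [mul_comm]
  obtain ⟨δ, hδ⟩ := ex_delta hF d hd0
  obtain ⟨al, ha1, ha2⟩ := ex_al hT hF
  let e : Gam0 qq ≃* G0 T qq := (Gam0 qq).equivMapOfInjective (ev T) hD.evinj
  let ψ : G0 T qq →* Multiplicative ℤ := φ.comp e.symm.toMonoidHom
  let χ : G0 T qq →* Cˣ := (zpowersHom Cˣ al).comp ψ
  have hχ : ∀ x, χ x = al ^ (ψ x).toAdd := fun x => rfl
  obtain ⟨f, D, -, hf⟩ := hJ.lev qq hq χ (fun x => by
    rw [hχ, Units.val_zpow_eq_zpow_val, norm_zpow, ha1, one_zpow]) (by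
    intro x z hz hx
    have hdisc := (hD.set0 qq).disc
    have := hD.stabfin _ hdisc z hz
    have hs : x ∈ MulAction.stabilizer (G0 T qq) (z : OnePoint C) := by
      rw [MulAction.mem_stabilizer_iff]
      show x.1 • (z : OnePoint C) = z
      rw [hN.smul x.1 (hdisc.mem x.1 x.2) z hz, hx]
    have h0 := (MulAction.stabilizer (G0 T qq) (z : OnePoint C)).subtype.isOfFinOrder
      (isOfFinOrder_of_finite (⟨x, hs⟩ : MulAction.stabilizer (G0 T qq) (z : OnePoint C)))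
    have h1 : IsOfFinOrder x := h0
    have h2 : ψ x = 1 := (ψ.isOfFinOrder h1).eq_one'
    rw [hχ, h2, toAdd_one, zpow_zero])
  have h3 : (e g').1 = δ * g.1 * δ⁻¹ := by
    rw [eq_mul_inv_iff_mul_eq, hg]
    apply Units.ext
    have h4 := congrArg (fun M : M2 A => M.map (aeval T : A →ₐ[ZMod 2] C)) hg'
    simp only [Matrix.map_mul] at h4
    have h5 : (!![d, 0; 0, 1] : M2 A).map (aeval T : A →ₐ[ZMod 2] C) = δ.1 := by
      rw [hδ]
      ext i j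
      fin_cases i <;> fin_cases j <;> simp
    rw [h5] at h4
    exact h4.symm
  have h6 := hNN qq d δ ⟨H45.nn_ne, hdv, hδ⟩ H45.nn_not_dvd χ f D hf (e g') h3
  have h7 : ψ (e g') = φ g' := congrArg φ (e.symm_apply_apply g')
  rw [hχ, h7] at h6
  have h8 := injective_zpow_iff_not_isOfFinOrder.2 ha2 (h6.trans (zpow_zero al).symm)
  exact toAdd_eq_zero.1 h8

theorem row : OfOLD := by
  intro C _ _ _ _ _ _ T hT L hB hF hN hD hM hTH hJ hA hC
  refine ⟨?_, ?_, ?_, fun n hn lam h1 h2 => invOld L hB hF hD hM hJ hA hC n hn lam h1 h2,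
    fun μ g h1 h2 => newOld hT hF hN hD hJ μ g h1 h2⟩
  · intro n m d δ _ _ χ f D _ g hg
    have : g = 1 := Subtype.ext (by rw [hg]; simp)
    rw [this, map_one]
  · intro n μ hμ ν hν m d δ hp hnm χ f D hf g hg
    have e : g = cj δ (hA _ _ _ _ hp).1 μ * cj δ (hA _ _ _ _ hp).1 ν := by
      rw [← map_mul]
      exact Subtype.ext hg
    rw [e, map_mul, hμ m d δ hp hnm χ f D hf _ rfl, hν m d δ hp hnm χ f D hf _ rfl, mul_one]
  · intro n hn E hE
    obtain ⟨P, hP, O, hO, rfl⟩ := AddSubgroup.mem_sup.1 hE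
    obtain ⟨f, hf⟩ := (hM.prin _ _ P (hD.set0 n)).1 hP
    obtain ⟨χ, f', hf', hχ⟩ := killOld L hD hM hTH hA hC n hn O hO
    exact ⟨_, _, hM.mul _ _ _ _ _ _ _ _ (hD.set0 n) hf hf', fun μ hμ => by
      rw [MonoidHom.mul_apply, hχ μ hμ, mul_one]; rfl⟩

end Pool.Agent.MP_a88b1d_nt.ROLD
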