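import Pool.Agent.MP_a88b1d_nt.H93.Spec3

/-! Row POT: the potential of a meromorphic function on the tree. -/

open Polynomial OnePoint

namespace Pool.Agent.MP_a88b1d_nt.RPOT

open Pool.Agent.MP_a88b1d_nt.St2 Pool.Agent.MP_a88b1d_nt.P2
open Pool.Agent.MP_a88b1d_nt.H42 (A M2 MK nrm dd st Orth)

variable {C : Type} [NontriviallyNormedField C] [Algebra (ZMod 2) C]

theorem mset {T : C} (hT : 1 < ‖T‖) (P : PROF T) {z0 : C} (hz : Gen z0) (l : Multiset C)
    (hl : ∀ y ∈ l, y ∈ Finf T) : ∃ β : MK T → ℤ,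
      (∀ x : MK T, (l.map fun y => ‖mob x.1 z0 - y‖).prod = ‖T‖ ^ β x) ∧
      (∀ x x', dd T x x' = 0 → β x = β x') ∧ ∀ x, ∑ k, β (x * st T k) = 3 * β x := by
  have h0 : ‖T‖ ≠ 0 := by linarith
  induction l using Multiset.induction_on with
  | empty => exact ⟨fun _ => 0, fun x => by simp, fun _ _ _ => rfl, fun x => by simp⟩
  | cons a l ih =>
    obtain ⟨β, h1, h2, h3⟩ := ih fun y hy => hl y (Multiset.mem_cons_of_mem hy)
    obtain ⟨γ, g1, g2, g3⟩ := P.bd z0 hz a (hl a (Multiset.mem_cons_self a l))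
    refine ⟨fun x => γ x + β x, fun x => ?_, fun x x' h => ?_, fun x => ?_⟩
    · rw [Multiset.map_cons, Multiset.prod_cons, h1, g1, zpow_add₀ h0]
    · simp only [h2 x x' h, g2 x x' h]
    · rw [Finset.sum_add_distrib, h3, g3]; ring

theorem prod_zpow {ι : Type} {q : ℝ} (hq : q ≠ 0) (s : Finset ι) (b : ι → ℤ) :
    ∏ a ∈ s, q ^ b a = q ^ ∑ a ∈ s, b a := by
  classical
  induction s using Finset.induction_on with
  | empty => simp
  | insert a s ha ih => rw [Finset.prod_insert ha, Finset.sum_insert ha, ih, zpow_add₀ hq]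

theorem point {T : C} (hT : 1 < ‖T‖) (L : LIB T) (P : PROF T) {z0 w0 : C} (ho : Orth z0 w0)
    (S : Set (MK T)) (a : C) : ∃ β : MK T → ℤ, (∃ g ∈ S, a = mob g.1 w0) →
      (∀ x : MK T, ‖mob x.1 z0 - a‖ = ‖T‖ ^ β x) ∧ (∀ x x', dd T x x' = 0 → β x = β x') ∧
      (∀ x, 3 * β x ≤ ∑ k, β (x * st T k)) ∧
      (a = w0 → 3 * β 1 < ∑ k, β (1 * st T k)) ∧
      ∀ x, (∀ g ∈ S, dd T x g ≠ 0) → ∑ k, β (x * st T k) = 3 * β x := by
  by_cases h : ∃ g ∈ S, a = mob g.1 w0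
  · obtain ⟨g, hg, rfl⟩ := h
    obtain ⟨β, h1, h2, h3⟩ := P.int z0 w0 ho g
    refine ⟨β, fun _ => ⟨h1, h2, fun x => ?_, fun ha => ?_, fun x hx => ?_⟩⟩
    · rw [h3]; split_ifs <;> omega
    · obtain ⟨γ, g1, -, g3⟩ := P.int z0 w0 ho 1
      have e1 : mob (1 : MK T).1 w0 = w0 := L.mb.one w0
      have hβ : β = γ := by
        funext x
        have := h1 x
        rw [ha, ← e1, g1 x] at this
        exact (zpow_right_injective₀ (by linarith) hT.ne' this).symm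
      have ht : H42.IsTree (dd T) (st T) := L.tree.tree
      rw [hβ, g3, if_pos (ht.self 1)]
      omega
    · rw [h3, if_neg (hx g hg), add_zero]
  · exact ⟨fun _ => 0, fun h' => absurd h' h⟩

theorem level [DecidableEq C] {T : C} (hT : 1 < ‖T‖) (L : LIB T) (F : FY T) (N : NF T) (P : PROF T)
    {f : C → C} {e : C → ℤ} {z0 w0 : C} {S : Set (MK T)} (ho : Orth z0 w0) (hs : Strict T f e)
    (he : ∀ a ∉ Finf T, e a ≠ 0 → 0 < e a ∧ ∃ g ∈ S, a = mob g.1 w0) (n : ℕ) :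
    ∃ (c : ℝ) (β : MK T → ℤ), 0 < c ∧
      (∀ x : MK T, mob x.1 z0 ∈ Om T n → ‖f (mob x.1 z0)‖ = c * ‖T‖ ^ β x) ∧
      (∀ x x', dd T x x' = 0 → β x = β x') ∧ (∀ x, 3 * β x ≤ ∑ k, β (x * st T k)) ∧
      (w0 ∈ Om T n → e w0 ≠ 0 → 3 * β 1 < ∑ k, β (1 * st T k)) ∧
      ∀ x, (∀ g ∈ S, dd T x g ≠ 0) → ∑ k, β (x * st T k) = 3 * β x := by
  have h0 : ‖T‖ ≠ 0 := by linarith
  have hz := (L.gen z0 w0 ho).1
  obtain ⟨s, u, hu, hs1, hs2, hs3⟩ := hs n
  obtain ⟨c, l, l', hc, hl, hl', hn⟩ := N.nf n u hu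
  obtain ⟨α, a1, a2, a3⟩ := mset hT P hz l hl
  obtain ⟨α', b1, b2, b3⟩ := mset hT P hz l' hl'
  choose β hβ using point hT L P ho S
  have hpos : ∀ a ∈ s, 0 < e a := fun a ha =>
    (he a (F.notin n a (hs1 a ha).1) (hs1 a ha).2).1
  have hb := fun a (ha : a ∈ s) => hβ a (he a (F.notin n a (hs1 a ha).1) (hs1 a ha).2).2
  have hsum : ∀ x, ∑ k, (α (x * st T k) - α' (x * st T k) + ∑ a ∈ s, β a (x * st T k) * e a) =
      3 * α x - 3 * α' x + ∑ a ∈ s, (∑ k, β a (x * st T k)) * e a := by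
    intro x
    rw [Finset.sum_add_distrib, Finset.sum_sub_distrib, a3, b3, Finset.sum_comm]
    simp only [Finset.sum_mul]
  have h3 : ∀ x, 3 * (α x - α' x + ∑ a ∈ s, β a x * e a) =
      3 * α x - 3 * α' x + ∑ a ∈ s, (3 * β a x) * e a := by
    intro x
    rw [mul_add, mul_sub, Finset.mul_sum]
    simp only [mul_assoc]
  refine ⟨c, fun x => α x - α' x + ∑ a ∈ s, β a x * e a, hc, fun x hx => ?_, fun x x' h => ?_,
    fun x => ?_, fun hw hw' => ?_, fun x hx => ?_⟩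
  · rw [hs3 _ hx, norm_mul, hn _ hx, a1, b1, norm_prod, zpow_add₀ h0, zpow_sub₀ h0,
      ← prod_zpow h0, mul_div_assoc, mul_assoc]
    congr 2
    refine Finset.prod_congr rfl fun a ha => ?_
    rw [norm_zpow, (hb a ha).1 x, zpow_mul]
  · simp only [a2 x x' h, b2 x x' h]
    congr 1
    exact Finset.sum_congr rfl fun a ha => by rw [(hb a ha).2.1 x x' h]
  · rw [hsum, h3]
    exact add_le_add le_rfl (Finset.sum_le_sum fun a ha =>
      mul_le_mul_of_nonneg_right ((hb a ha).2.2.1 x) (hpos a ha).le)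
  · rw [hsum, h3]
    have hw0 : w0 ∈ s := by
      by_contra hc'
      exact hw' (hs2 w0 hw hc')
    exact add_lt_add_of_le_of_lt le_rfl (Finset.sum_lt_sum (fun a ha =>
      mul_le_mul_of_nonneg_right ((hb a ha).2.2.1 1) (hpos a ha).le)
      ⟨w0, hw0, mul_lt_mul_of_pos_right ((hb w0 hw0).2.2.2.1 rfl) (hpos w0 hw0)⟩)
  · rw [hsum, h3]
    congr 1
    exact Finset.sum_congr rfl fun a ha => by rw [(hb a ha).2.2.2.2 x hx]

theorem row : OfPOT := by
  intro C _ _ _ _ _ _ T hT L F N P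
  have h0 : (0 : ℝ) < ‖T‖ := by linarith
  have hg : ∀ z : C, Gen z → ∀ x : MK T, ∃ n, mob x.1 z ∈ Om T n := fun z hz x =>
    F.exh _ (L.mb.om x z (F.notin 0 z (F.gen_om z hz)))
  refine ⟨fun f e z0 w0 S ho hs he => ?_, fun U hU z z' hz hz' x => ?_⟩
  · obtain ⟨hz, hw⟩ := L.gen z0 w0 ho
    choose c β hc hv hcg hsub hst hh using level hT L F N P ho hs he
    choose m hm using hg z0 hz
    have e1 : mob (1 : MK T).1 z0 = z0 := L.mb.one z0
    have hz0 : ∀ n, ‖f z0‖ = c n * ‖T‖ ^ β n 1 := fun n => by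
      have := hv n 1 (by rw [e1]; exact F.mono 0 n (Nat.zero_le n) (F.gen_om z0 hz))
      rwa [e1] at this
    have hne : 0 < ‖f z0‖ := by rw [hz0 0]; exact mul_pos (hc 0) (zpow_pos h0 _)
    have hval : ∀ n (x : MK T), mob x.1 z0 ∈ Om T n →
        ‖f (mob x.1 z0)‖ = ‖f z0‖ * ‖T‖ ^ (β n x - β n 1) := fun n x hx => by
      rw [hv n x hx, hz0 n, mul_assoc, ← zpow_add₀ h0.ne']
      congr 2
      ring
    have key : ∀ n (x : MK T), m x ≤ n → β (m x) x - β (m x) 1 = β n x - β n 1 := fun n x hx => by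
      have h1 := hval _ x (hm x)
      rw [hval n x (F.mono _ _ hx (hm x))] at h1
      exact (zpow_right_injective₀ h0 hT.ne' (mul_left_cancel₀ hne.ne' h1)).symm
    have lap : ∀ x : MK T, ∃ n, 3 * (β (m x) x - β (m x) 1) = 3 * β n x - 3 * β n 1 ∧
        ∑ k, (β (m (x * st T k)) (x * st T k) - β (m (x * st T k)) 1) =
          ∑ k, β n (x * st T k) - 3 * β n 1 := fun x => by
      refine ⟨m x + ∑ k, m (x * st T k), ?_, ?_⟩
      · rw [key _ x (Nat.le_add_right _ _)]; ring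
      · rw [Finset.sum_congr rfl fun k _ => key (m x + ∑ k, m (x * st T k)) (x * st T k)
          ((Finset.single_le_sum (f := fun k => m (x * st T k)) (fun _ _ => Nat.zero_le _)
            (Finset.mem_univ k)).trans (Nat.le_add_left _ _)), Finset.sum_sub_distrib]
        simp
    refine ⟨fun x => β (m x) x - β (m x) 1, ⟨norm_pos_iff.1 hne, fun x => hval _ x (hm x),
      fun x y h => ?_⟩, fun x => ?_, fun hw' => ?_, fun x hx => ?_⟩
    · rw [key (m x + m y) x (Nat.le_add_right _ _), key (m x + m y) y (Nat.le_add_left _ _),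
        hcg _ x y h]
    · obtain ⟨n, h1, h2⟩ := lap x
      simp only
      rw [h1, h2]
      have := hsub n x
      omega
    · obtain ⟨n, h1, h2⟩ := lap 1
      simp only
      rw [h1, h2]
      have := hst n (F.mono 0 n (Nat.zero_le n) (F.gen_om w0 hw)) hw'
      omega
    · obtain ⟨n, h1, h2⟩ := lap x
      simp only
      rw [h1, h2, hh n x hx]
  · obtain ⟨n, hn⟩ := hg z hz x
    obtain ⟨n', hn'⟩ := hg z' hz' x
    obtain ⟨c, l, l', -, hl, hl', h⟩ := N.nf (n + n') U (hU _)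
    rw [h _ (F.mono _ _ (Nat.le_add_right _ _) hn), h _ (F.mono _ _ (Nat.le_add_left _ _) hn'),
      Multiset.map_congr rfl fun y hy => P.indep z z' hz hz' y (hl y hy) x,
      Multiset.map_congr rfl fun y hy => P.indep z z' hz hz' y (hl' y hy) x]

end Pool.Agent.MP_a88b1d_nt.RPOT
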