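import Pool.Agent.MP_a88b1d_nt.H93.Spec3

/-! Row PROF: the distance profiles of a point of `F_∞` and of a point of the half-plane along the
vertices of the tree. -/

open Polynomial

noncomputable section

namespace Pool.Agent.MP_a88b1d_nt.RPROF

open Pool.Agent.MP_a88b1d_nt.St2 Pool.Agent.MP_a88b1d_nt.P2
open Pool.Agent.MP_a88b1d_nt.H42 (M2 MK nrm dd st QQ den Orth)

variable {C : Type} [NontriviallyNormedField C]

/-- The max norm of the row `(r, s) x`. -/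
def Nr (r s : C) (x : M2 C) : ℝ := max ‖r * x 0 0 + s * x 1 0‖ ‖r * x 0 1 + s * x 1 1‖

theorem Nr_nonneg (r s : C) (x : M2 C) : 0 ≤ Nr r s x := le_max_of_le_left (norm_nonneg _)

theorem Nr_pos {r s : C} (h : r ≠ 0 ∨ s ≠ 0) {x : M2 C} (hx : x.det ≠ 0) : 0 < Nr r s x := by
  by_contra hn
  have h0 : Nr r s x ≤ 0 := not_lt.1 hn
  have h1 : r * x 0 0 + s * x 1 0 = 0 := norm_le_zero_iff.1 ((le_max_left _ _).trans h0)
  have h2 : r * x 0 1 + s * x 1 1 = 0 := norm_le_zero_iff.1 ((le_max_right _ _).trans h0)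
  rw [Matrix.det_fin_two] at hx
  rcases h with h | h
  · exact mul_ne_zero h hx (by linear_combination x 1 1 * h1 - x 1 0 * h2)
  · exact mul_ne_zero h hx (by linear_combination x 0 0 * h2 - x 0 1 * h1)

theorem Nr_mul_le [IsUltrametricDist C] (r s : C) (x M : M2 C) :
    Nr r s (x * M) ≤ Nr r s x * nrm M := by
  have key : ∀ j : Fin 2, ‖M 0 j‖ ≤ nrm M → ‖M 1 j‖ ≤ nrm M →
      ‖r * (x * M) 0 j + s * (x * M) 1 j‖ ≤ Nr r s x * nrm M := by
    intro j h0 h1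
    have e : r * (x * M) 0 j + s * (x * M) 1 j
        = (r * x 0 0 + s * x 1 0) * M 0 j + (r * x 0 1 + s * x 1 1) * M 1 j := by
      simp only [Matrix.mul_apply, Fin.sum_univ_two]; ring
    rw [e]
    refine (IsUltrametricDist.norm_add_le_max _ _).trans (max_le ?_ ?_)
    · rw [norm_mul]
      exact mul_le_mul (le_max_left _ _) h0 (norm_nonneg _) (Nr_nonneg _ _ _)
    · rw [norm_mul]
      exact mul_le_mul (le_max_right _ _) h1 (norm_nonneg _) (Nr_nonneg _ _ _)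
  refine max_le (key 0 ?_ ?_) (key 1 ?_ ?_)
  · exact le_max_of_le_left (le_max_left _ _)
  · exact le_max_of_le_right (le_max_left _ _)
  · exact le_max_of_le_left (le_max_right _ _)
  · exact le_max_of_le_right (le_max_right _ _)

theorem Nr_adj (r s : C) (x x' : M2 C) :
    Nr r s (x * (x.adjugate * x')) = ‖x.det‖ * Nr r s x' := by
  rw [← Matrix.mul_assoc, Matrix.mul_adjugate, Matrix.smul_mul, Matrix.one_mul]
  simp only [Nr, Matrix.smul_apply, smul_eq_mul]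
  rw [mul_max_of_nonneg _ _ (norm_nonneg _), ← norm_mul, ← norm_mul]
  congr 2 <;> ring

section
variable [IsUltrametricDist C] [Algebra (ZMod 2) C] {T : C}

theorem half (L : LIB T) (r s : C) (x x' : MK T) (h : dd T x x' = 0) :
    ‖x.1.det‖ * Nr r s x'.1 ^ 2 ≤ ‖x'.1.det‖ * Nr r s x.1 ^ 2 := by
  have h1 := L.tree.spec x x'
  rw [h, pow_zero, one_mul] at h1
  have h2 := Nr_mul_le r s x.1 (x.1.adjugate * x'.1)
  rw [Nr_adj] at h2
  have h3 := pow_le_pow_left₀ (mul_nonneg (norm_nonneg _) (Nr_nonneg _ _ _)) h2 2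
  rw [mul_pow, mul_pow, ← h1] at h3
  have h4 : 0 < ‖x.1.det‖ := norm_pos_iff.2 x.2.2
  refine le_of_mul_le_mul_left ?_ h4
  nlinarith [h3]

theorem cls_eq (L : LIB T) (r s : C) (x x' : MK T) (h : dd T x x' = 0) :
    ‖x.1.det‖ * Nr r s x'.1 ^ 2 = ‖x'.1.det‖ * Nr r s x.1 ^ 2 :=
  le_antisymm (half L r s x x' h) (half L r s x' x (by rw [L.tree.tree.comm, h]))

omit [IsUltrametricDist C] in
theorem step (hT : 1 < ‖T‖) (F : FY T) {a b : C} (ha : a ∈ Finf T) (hb : b ∈ Finf T)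
    (h : ‖b‖ < ‖a‖) : ‖T‖ * ‖b‖ ≤ ‖a‖ := by
  by_cases hb0 : b = 0
  · simp [hb0]
  obtain ⟨i, hi⟩ := F.val a ha (by rintro rfl; simp at h; linarith [norm_nonneg b])
  obtain ⟨j, hj⟩ := F.val b hb hb0
  rw [hi, hj] at h ⊢
  have := (zpow_lt_zpow_iff_right₀ hT).1 h
  rw [mul_comm, ← zpow_add_one₀ (by linarith)]
  exact (zpow_le_zpow_iff_right₀ hT).2 (by omega)

theorem res2 (hT : 1 < ‖T‖) (F : FY T) {a b : C} (ha : a ∈ Finf T) (hb : b ∈ Finf T)
    (h : ‖a‖ = ‖b‖) : ‖T‖ * ‖a + b‖ ≤ ‖a‖ := by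
  by_cases ha0 : a = 0
  · have : b = 0 := by rw [ha0, norm_zero] at h; exact norm_eq_zero.1 h.symm
    simp [ha0, this]
  obtain ⟨j, hj⟩ := F.val a ha ha0
  have hlt : ‖T‖ ^ (j - 1) < ‖T‖ ^ j := (zpow_lt_zpow_iff_right₀ hT).2 (by omega)
  have h1 := (F.split a ha j hj.le).resolve_left (by rw [hj]; exact not_le.2 hlt)
  have h2 := (F.split b hb j (h ▸ hj.le)).resolve_left (by rw [← h, hj]; exact not_le.2 hlt)
  have : CharP C 2 := charP_of_injective_algebraMap (algebraMap (ZMod 2) C).injective 2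
  have e : a + b = (a - T ^ j) + (b - T ^ j) := by
    have : (2 : C) = 0 := CharTwo.two_eq_zero
    linear_combination T ^ j * this
  have h3 : ‖a + b‖ ≤ ‖T‖ ^ (j - 1) := by
    rw [e]; exact (IsUltrametricDist.norm_add_le_max _ _).trans (max_le h1 h2)
  have h0 : 0 < ‖T‖ := by linarith
  calc ‖T‖ * ‖a + b‖ ≤ ‖T‖ * ‖T‖ ^ (j - 1) := by gcongr
    _ = ‖a‖ := by rw [hj, mul_comm, ← zpow_add_one₀ h0.ne']; congr 1; ring

theorem three (hT : 1 < ‖T‖) (F : FY T) {a b : C} (ha : a ∈ Finf T) (hb : b ∈ Finf T) :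
    max ‖a‖ ‖b * T‖ * max ‖a‖ ‖(a + b) * T‖ * max ‖a * T‖ ‖b‖ = ‖T‖ ^ 2 * max ‖a‖ ‖b‖ ^ 3 := by
  simp only [norm_mul]
  have pa := norm_nonneg a
  have pb := norm_nonneg b
  rcases lt_trichotomy ‖a‖ ‖b‖ with h | h | h
  · have h1 := step hT F hb ha h
    have h2 : ‖a + b‖ = ‖b‖ := by
      rw [IsUltrametricDist.norm_add_eq_max_of_norm_ne_norm h.ne, max_eq_right h.le]
    rw [h2, max_eq_right h.le, max_eq_right (show ‖a‖ ≤ ‖b‖ * ‖T‖ by nlinarith),
      max_eq_right (show ‖a‖ * ‖T‖ ≤ ‖b‖ by linarith)]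
    ring
  · have h1 := res2 hT F ha hb h
    rw [← h, max_self, max_eq_right (show ‖a‖ ≤ ‖a‖ * ‖T‖ by nlinarith),
      max_eq_left (show ‖a + b‖ * ‖T‖ ≤ ‖a‖ by linarith),
      max_eq_left (show ‖a‖ ≤ ‖a‖ * ‖T‖ by nlinarith)]
    ring
  · have h1 := step hT F ha hb h
    have h2 : ‖a + b‖ = ‖a‖ := by
      rw [IsUltrametricDist.norm_add_eq_max_of_norm_ne_norm h.ne', max_eq_left h.le]
    rw [h2, max_eq_left h.le, max_eq_left (show ‖b‖ * ‖T‖ ≤ ‖a‖ by linarith),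
      max_eq_right (show ‖a‖ ≤ ‖a‖ * ‖T‖ by nlinarith),
      max_eq_left (show ‖b‖ ≤ ‖a‖ * ‖T‖ by nlinarith)]
    ring

theorem star (hT : 1 < ‖T‖) (L : LIB T) (F : FY T) {r s : C} (hr : r ∈ Finf T)
    (hs : s ∈ Finf T) (x : MK T) :
    Nr r s (x * st T 0).1 * Nr r s (x * st T 1).1 * Nr r s (x * st T 2).1
      = ‖T‖ ^ 2 * Nr r s x.1 ^ 3 := by
  have ha : r * x.1 0 0 + s * x.1 1 0 ∈ Finf T :=
    add_mem (mul_mem hr (x.2.1 0 0)) (mul_mem hs (x.2.1 1 0))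
  have hb : r * x.1 0 1 + s * x.1 1 1 ∈ Finf T :=
    add_mem (mul_mem hr (x.2.1 0 1)) (mul_mem hs (x.2.1 1 1))
  have := three hT F ha hb
  simp only [Submonoid.coe_mul, L.st0, L.st1, L.st2]
  unfold Nr
  rw [← this]
  simp only [Matrix.mul_apply, Fin.sum_univ_two, Matrix.of_apply, Matrix.cons_val', Matrix.cons_val_zero,
    Matrix.cons_val_one, Matrix.cons_val_fin_one]
  congr 1
  · congr 1
    · congr 2 <;> ring
    · congr 2 <;> ring
  · congr 2 <;> ring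

omit [IsUltrametricDist C] in
theorem det_st (L : LIB T) (x : MK T) (k : Fin 3) :
    ‖(x * st T k).1.det‖ = ‖x.1.det‖ * ‖T‖ := by
  rw [Submonoid.coe_mul, Matrix.det_mul, norm_mul]
  congr 2
  fin_cases k
  · simp [L.st0]
  · simp [L.st1]
  · simp [L.st2]

omit [IsUltrametricDist C] in
theorem den_norm (F : FY T) {z : C} (hz : Gen z) (x : MK T) : ‖den x.1 z‖ = Nr 0 1 x.1 := by
  rw [den, F.gen z hz _ (x.2.1 1 0) _ (x.2.1 1 1)]
  simp [Nr]

omit [IsUltrametricDist C] in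
theorem dist_eq (F : FY T) {z y : C} (hz : Gen z) (hy : y ∈ Finf T) (x : MK T) :
    ‖mob x.1 z - y‖ = Nr 1 (-y) x.1 / Nr 0 1 x.1 := by
  have h1 := den_norm F hz x
  have h2 : den x.1 z ≠ 0 := by
    rw [← norm_pos_iff, h1]; exact Nr_pos (Or.inr one_ne_zero) x.2.2
  have e : mob x.1 z - y
      = ((1 * x.1 0 0 + -y * x.1 1 0) * z + (1 * x.1 0 1 + -y * x.1 1 1)) / den x.1 z := by
    rw [eq_div_iff h2, sub_mul]
    unfold den at h2
    unfold mob den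
    rw [div_mul_cancel₀ _ h2]
    ring
  rw [e, norm_div, h1, F.gen z hz]
  · rfl
  · exact add_mem (mul_mem (one_mem _) (x.2.1 0 0)) (mul_mem (neg_mem hy) (x.2.1 1 0))
  · exact add_mem (mul_mem (one_mem _) (x.2.1 0 1)) (mul_mem (neg_mem hy) (x.2.1 1 1))

omit [IsUltrametricDist C] in
theorem max_val (F : FY T) {a b : C} (ha : a ∈ Finf T) (hb : b ∈ Finf T)
    (h : 0 < max ‖a‖ ‖b‖) : ∃ n : ℤ, max ‖a‖ ‖b‖ = ‖T‖ ^ n := by
  rcases max_choice ‖a‖ ‖b‖ with e | e <;> rw [e] at h ⊢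
  · exact F.val a ha (norm_pos_iff.1 h)
  · exact F.val b hb (norm_pos_iff.1 h)

omit [IsUltrametricDist C] in
theorem Nr_val (F : FY T) {r s : C} (hr : r ∈ Finf T) (hs : s ∈ Finf T) (h : r ≠ 0 ∨ s ≠ 0)
    (x : MK T) : ∃ n : ℤ, Nr r s x.1 = ‖T‖ ^ n :=
  max_val F (add_mem (mul_mem hr (x.2.1 0 0)) (mul_mem hs (x.2.1 1 0)))
    (add_mem (mul_mem hr (x.2.1 0 1)) (mul_mem hs (x.2.1 1 1))) (Nr_pos h x.2.2)

end

theorem inj {q : ℝ} (hq : 1 < q) {a b : ℤ} (h : q ^ a = q ^ b) : a = b :=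
  zpow_right_injective₀ (by linarith) hq.ne' h

theorem row : OfPROF := by
  intro C _ _ _ _ _ _ T hT L F
  have h0 : 0 < ‖T‖ := by linarith
  have p0 : ∀ x : MK T, 0 < Nr 0 1 x.1 := fun x => Nr_pos (Or.inr one_ne_zero) x.2.2
  have pd : ∀ x : MK T, 0 < ‖x.1.det‖ := fun x => norm_pos_iff.2 x.2.2
  have z2 : ∀ n : ℤ, ‖T‖ ^ (2 * n) = (‖T‖ ^ n) ^ 2 := fun n => by
    rw [mul_comm, zpow_mul]; norm_cast
  have z3 : ∀ n : ℤ, ‖T‖ ^ (3 * n) = (‖T‖ ^ n) ^ 3 := fun n => by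
    rw [mul_comm, zpow_mul]; norm_cast
  refine ⟨fun z z' hz hz' y hy x => by rw [dist_eq F hz hy, dist_eq F hz' hy], ?_, ?_⟩
  · intro z0 hz y hy
    have p1 : ∀ x : MK T, 0 < Nr 1 (-y) x.1 := fun x => Nr_pos (Or.inl one_ne_zero) x.2.2
    have ex : ∀ x : MK T, ∃ n : ℤ, Nr 1 (-y) x.1 / Nr 0 1 x.1 = ‖T‖ ^ n := fun x => by
      obtain ⟨i, hi⟩ := Nr_val F (one_mem _) (neg_mem hy) (Or.inl one_ne_zero) x
      obtain ⟨j, hj⟩ := Nr_val F (zero_mem _) (one_mem _) (Or.inr one_ne_zero) x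
      exact ⟨i - j, by rw [hi, hj, zpow_sub₀ h0.ne']⟩
    choose β hβ using ex
    refine ⟨β, fun x => by rw [dist_eq F hz hy, hβ], fun x x' h => ?_, fun x => ?_⟩
    · have e1 := cls_eq L 1 (-y) x x' h
      have e2 := cls_eq L 0 1 x x' h
      have : 2 * β x = 2 * β x' := inj hT (by
        rw [z2, z2, ← hβ, ← hβ, div_pow, div_pow,
          div_eq_div_iff (pow_pos (p0 x) 2).ne' (pow_pos (p0 x') 2).ne']
        refine mul_left_cancel₀ (pd x).ne' ?_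
        linear_combination Nr 1 (-y) x.1 ^ 2 * e2 - Nr 0 1 x.1 ^ 2 * e1)
      omega
    · refine inj hT ?_
      have e1 := star hT L F (one_mem _) (neg_mem hy) x
      have e2 := star hT L F (zero_mem _) (one_mem _) x
      rw [Fin.sum_univ_three, zpow_add₀ h0.ne', zpow_add₀ h0.ne', z3, ← hβ, ← hβ, ← hβ, ← hβ,
        div_mul_div_comm, div_mul_div_comm, e1, e2, div_pow,
        mul_div_mul_left _ _ (pow_pos h0 2).ne']
  · intro z0 w0 ho g
    obtain ⟨hz, hw⟩ := L.gen z0 w0 ho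
    obtain ⟨nz, nw, -⟩ := L.orth.adm z0 w0 ho
    have hM : ∀ (x : MK T) i j, (x.1.adjugate * g.1) i j ∈ Finf T := fun x i j => by
      rw [Matrix.mul_apply]
      refine sum_mem fun k _ => mul_mem ?_ (g.2.1 k j)
      rw [Matrix.adjugate_fin_two]
      fin_cases i <;> fin_cases k
      · exact x.2.1 1 1
      · exact neg_mem (x.2.1 0 1)
      · exact neg_mem (x.2.1 1 0)
      · exact x.2.1 0 0
    have de : ∀ x : MK T, ‖mob x.1 z0 - mob g.1 w0‖
        = nrm (x.1.adjugate * g.1) / (Nr 0 1 x.1 * Nr 0 1 g.1) := fun x => by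
      rw [L.mb.sub x g z0 nz w0 nw, norm_div, norm_mul, den_norm F hz, den_norm F hw,
        L.orth.norm z0 w0 ho _ (hM x)]
    have ex : ∀ x : MK T, ∃ n : ℤ, ‖mob x.1 z0 - mob g.1 w0‖ = ‖T‖ ^ n := fun x => by
      have hne : x.1.adjugate * g.1 ≠ 0 := by
        intro h
        have := congrArg Matrix.det h
        rw [Matrix.det_mul, Matrix.det_adjugate, Matrix.det_zero] at this
        exact mul_ne_zero (pow_ne_zero _ x.2.2) g.2.2 this
      obtain ⟨n, M0, -, -, hn, -⟩ := L.orth.lead _ (hM x) hne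
      obtain ⟨i, hi⟩ := Nr_val F (zero_mem _) (one_mem _) (Or.inr one_ne_zero) x
      obtain ⟨j, hj⟩ := Nr_val F (zero_mem _) (one_mem _) (Or.inr one_ne_zero) g
      exact ⟨n - (i + j), by rw [de, hn, hi, hj, zpow_sub₀ h0.ne', zpow_add₀ h0.ne']⟩
    choose β hβ using ex
    have sq : ∀ x : MK T, ‖T‖ ^ (2 * β x - dd T x g) * (Nr 0 1 x.1 ^ 2 * Nr 0 1 g.1 ^ 2)
        = ‖x.1.det‖ * ‖g.1.det‖ := fun x => by
      have a1 := p0 x
      have a2 := p0 g
      rw [zpow_sub₀ h0.ne', z2, ← hβ, de, div_pow, ← L.tree.spec, zpow_natCast]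
      field_simp
    refine ⟨β, hβ, fun x x' h => ?_, fun x => ?_⟩
    · have e2 := cls_eq L 0 1 x x' h
      have e3 := L.api.congr x x' g h
      have s1 := sq x
      have s2 := sq x'
      have : 2 * β x - dd T x g = 2 * β x' - dd T x' g := inj hT (by
        refine mul_right_cancel₀ (mul_pos (mul_pos (pow_pos (p0 x) 2) (pow_pos (p0 x') 2))
          (pow_pos (p0 g) 2)).ne' ?_
        linear_combination Nr 0 1 x'.1 ^ 2 * s1 - Nr 0 1 x.1 ^ 2 * s2 + ‖g.1.det‖ * e2)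
      omega
    · have e2 := star hT L F (zero_mem _) (one_mem _) x
      have e3 := L.api.star x g
      have s0 := sq (x * st T 0)
      have s1 := sq (x * st T 1)
      have s2 := sq (x * st T 2)
      have s := sq x
      rw [det_st L] at s0 s1 s2
      have : (2 * β (x * st T 0) - dd T (x * st T 0) g) + (2 * β (x * st T 1) - dd T (x * st T 1) g)
          + (2 * β (x * st T 2) - dd T (x * st T 2) g) + 1 = 3 * (2 * β x - dd T x g) := inj hT (by
        rw [zpow_add_one₀ h0.ne', zpow_add₀ h0.ne', zpow_add₀ h0.ne', z3]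
        refine mul_right_cancel₀ (mul_pos (pow_pos h0 3)
          (pow_pos (mul_pos (pow_pos (p0 x) 2) (pow_pos (p0 g) 2)) 3)).ne' ?_
        have m := congrArg₂ (· * ·) (congrArg₂ (· * ·) s0 s1) s2
        have c := congrArg (· ^ 3) s
        have e4 := congrArg (· ^ 2) e2
        linear_combination m - ‖T‖ ^ 3 * c -
          ‖T‖ ^ (2 * β (x * st T 0) - dd T (x * st T 0) g)
            * ‖T‖ ^ (2 * β (x * st T 1) - dd T (x * st T 1) g)
            * ‖T‖ ^ (2 * β (x * st T 2) - dd T (x * st T 2) g) * Nr 0 1 g.1 ^ 6 * e4)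
      rw [Fin.sum_univ_three] at e3 ⊢
      split_ifs at e3 ⊢ <;> omega

end Pool.Agent.MP_a88b1d_nt.RPROF
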