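import Pool.Agent.MP_a88b1d_nt.H93.Spec3

/-! Poincare series with a multiplier of polynomial growth. -/

open Polynomial Filter Topology

noncomputable section

namespace Pool.Agent.MP_a88b1d_nt.RPS

open Pool.Agent.MP_a88b1d_nt.St2 Pool.Agent.MP_a88b1d_nt.P2
open Pool.Agent.MP_a88b1d_nt.H42 (M2 MK nrm QQ den)

variable {C : Type} [NontriviallyNormedField C]

theorem qq_mul (h g : M2 C) (z w : C) (hh : h.det = 1) (hd : den h z ≠ 0) :
    QQ (h * g) (mob h z) w = QQ g z w / den h z := by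
  rw [Matrix.det_fin_two] at hh
  unfold den at *
  unfold QQ mob
  simp only [Matrix.mul_apply, Fin.sum_univ_two]
  rw [eq_div_iff hd, sub_mul, mul_right_comm, div_mul_cancel₀ _ hd]
  linear_combination (z * (g 1 0 * w + g 1 1) - (g 0 0 * w + g 0 1)) * hh

/-- The terms of the series. -/
def tm {Γ : Subgroup (GL (Fin 2) C)} (χ : Γ →* Cˣ) (m : ℕ) (w : C) (g : Γ) (z : C) : C :=
  (χ g : C) * (QQ g.1.1 z w)⁻¹ ^ (m + 1)

theorem small [DecidableEq C] {T : C} (hT : 1 < ‖T‖) (hM : MOBN T)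
    {Γ : Subgroup (GL (Fin 2) C)} (hΓ : Disc T Γ) (χ : Γ →* Cˣ) (m : ℕ)
    (hχ : ∀ g, ‖(χ g : C)‖ ≤ nrm g.1.1 ^ m) (n : ℕ) (w : C) (hw : w ∈ Om T n) (ε : ℝ)
    (hε : 0 < ε) : ∀ᶠ g in cofinite, ∀ z ∈ Om T n, ‖tm χ m w g z‖ ≤ ε := by
  have hq : 0 < ‖T‖ ^ (4 * n) := by positivity
  set a := ‖T‖ ^ (4 * n) with ha
  refine (hΓ.fin (max a (a ^ (m + 1) / ε))).subset fun g hg => ?_
  by_contra hcon
  apply hg
  intro z hz
  simp only [Set.mem_ofPred_eq, not_le, max_lt_iff] at hcon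
  have h1 := hM.ql (toMK hΓ g) n (hΓ.det g.1 g.2) hcon.1 z hz w hw
  rw [toMK_val, ← ha] at h1
  set N := nrm g.1.1 with hN
  have hN0 : 0 < N := hq.trans hcon.1
  have h2 : ‖(QQ g.1.1 z w)⁻¹‖ ≤ a / N := by
    have h3 : N / a ≤ ‖QQ g.1.1 z w‖ := by rw [div_le_iff₀ hq]; linarith
    rw [norm_inv, ← inv_div]
    exact inv_anti₀ (by positivity) h3
  have h4 : a ^ (m + 1) / N ≤ ε := by
    have := hcon.2
    rw [div_lt_iff₀ hε] at this
    rw [div_le_iff₀ hN0]; linarith
  calc ‖tm χ m w g z‖ = ‖(χ g : C)‖ * ‖(QQ g.1.1 z w)⁻¹‖ ^ (m + 1) := by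
        rw [tm, norm_mul, norm_pow]
    _ ≤ N ^ m * (a / N) ^ (m + 1) := by
        have := hχ g
        gcongr
    _ = a ^ (m + 1) / N := by rw [div_pow]; field_simp; ring
    _ ≤ ε := h4

theorem row : OfPS := by
  intro C _ _ _ _ _ _ T hT L hF hH hD hM hDi Γ hΓ χ m hχ
  obtain ⟨w, hw, hfree⟩ := hDi.free Γ hΓ
  have hwn : ∀ n, w ∈ Om T n := fun n => hF.mono 0 n n.zero_le (hF.gen_om w hw)
  have hwK : w ∉ Finf T := hF.notin 0 w (hwn 0)
  have hden : ∀ g : Γ, ∀ z ∉ Finf T, den g.1.1 z ≠ 0 := fun g => L.mb.den_ne (toMK hΓ g)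
  have hqq : ∀ (g : Γ) (z : C), QQ g.1.1 z w = den g.1.1 w * (z - mob g.1.1 w) :=
    fun g z => L.mb.qq (toMK hΓ g) z w hwK
  have h1w : mob (1 : Γ).1.1 w = w := L.mb.one w
  have hmer := hD.mer (fun z => ∑' g, tm χ m w g z) w hwK fun n => by
    set B := (hDi.orbfin Γ hΓ w hwK n).toFinset with hB
    have hmB : ∀ g : Γ, g ∈ B ↔ mob g.1.1 w ∈ Om T n := fun g => by simp [hB]
    have h1B : (1 : Γ) ∈ B := by rw [hmB, h1w]; exact hwn n
    have hsm := small hT hM hΓ χ m hχ n w (hwn n)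
    have hsm' : ∀ ε : ℝ, 0 < ε → ∀ᶠ g in cofinite, ∀ z ∈ Om T n,
        ‖if g ∈ B then 0 else tm χ m w g z‖ ≤ ε := fun ε hε =>
      (hsm ε hε).mono fun g hg z hz => by
        split_ifs
        · simpa using hε.le
        · exact hg z hz
    let Q : C[X] := ∏ g ∈ B, (X - Polynomial.C (mob g.1.1 w)) ^ (m + 1)
    let R : C[X] := ∑ g ∈ B, Polynomial.C ((χ g : C) * (den g.1.1 w)⁻¹ ^ (m + 1)) *
      ∏ g' ∈ B.erase g, (X - Polynomial.C (mob g'.1.1 w)) ^ (m + 1)
    have hQ : ∀ z, Q.eval z = ∏ g ∈ B, (z - mob g.1.1 w) ^ (m + 1) := fun z => by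
      simp [Q, eval_prod]
    have hR : ∀ z, R.eval z = ∑ g ∈ B, ((χ g : C) * (den g.1.1 w)⁻¹ ^ (m + 1)) *
        ∏ g' ∈ B.erase g, (z - mob g'.1.1 w) ^ (m + 1) := fun z => by
      simp only [R, eval_finsetSum, eval_mul, eval_C, eval_prod, eval_pow, eval_sub, eval_X]
    refine ⟨fun z => R.eval z + Q.eval z * ∑' g, if g ∈ B then 0 else tm χ m w g z, Q,
      Finset.prod_ne_zero_iff.mpr fun g _ => pow_ne_zero _ (X_sub_C_ne_zero _), ?_, ?_, ?_⟩
    · refine hH.add _ _ _ (hH.poly _ _) (hH.mul n _ _ (hH.poly _ _) (hH.tsum _ _ _ ?_ hsm'))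
      intro g
      by_cases hg : g ∈ B
      · simp only [hg, if_true]
        exact hH.const _ _
      · simp only [hg, if_false]
        refine hH.congr _ _ _ (hH.rat _ (Polynomial.C (χ g : C))
          ((Polynomial.C (den g.1.1 w) * (X - Polynomial.C (mob g.1.1 w))) ^ (m + 1)) ?_) ?_
        · intro z hz
          simp only [eval_pow, eval_mul, eval_C, eval_sub, eval_X]
          refine pow_ne_zero _ (mul_ne_zero (hden g w hwK) (sub_ne_zero.mpr ?_))
          rintro rfl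
          exact hg ((hmB g).mpr hz)
        · intro z _
          simp only [eval_pow, eval_mul, eval_C, eval_sub, eval_X]
          rw [tm, hqq, div_eq_mul_inv, inv_pow]
    · intro _
      have hQ0 : Q.eval w = 0 := by
        rw [hQ]
        exact Finset.prod_eq_zero h1B (by rw [h1w]; simp)
      simp only [hQ0, zero_mul, add_zero]
      rw [hR, Finset.sum_eq_single_of_mem 1 h1B]
      · refine mul_ne_zero (mul_ne_zero (Units.ne_zero _)
          (pow_ne_zero _ (inv_ne_zero (hden 1 w hwK)))) (Finset.prod_ne_zero_iff.mpr ?_)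
        intro g hg
        refine pow_ne_zero _ (sub_ne_zero.mpr fun h => ?_)
        exact (Finset.mem_erase.mp hg).1 (hfree g h.symm)
      · intro g _ hg
        rw [Finset.prod_eq_zero (Finset.mem_erase.mpr ⟨hg.symm, h1B⟩) (by rw [h1w]; simp),
          mul_zero]
    · intro z hz hQz
      have hs2 : Summable fun g => if g ∈ B then 0 else tm χ m w g z := by
        apply NonarchimedeanAddGroup.summable_of_tendsto_cofinite_zero
        rw [NormedAddGroup.tendsto_nhds_zero]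
        intro ε hε
        exact (hsm' (ε / 2) (by positivity)).mono fun g hg => (hg z hz).trans_lt (by linarith)
      have hs1 : HasSum (fun g => if g ∈ B then tm χ m w g z else 0)
          (∑ g ∈ B, tm χ m w g z) := by
        have := hasSum_sum_of_ne_finset_zero (L := SummationFilter.unconditional Γ)
          (f := fun g => if g ∈ B then tm χ m w g z else 0) (s := B)
          fun g hg => by simp [hg]
        rwa [Finset.sum_congr rfl fun g hg => if_pos hg] at this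
      have hs : ∑' g, tm χ m w g z =
          ∑ g ∈ B, tm χ m w g z + ∑' g, if g ∈ B then 0 else tm χ m w g z := by
        rw [← (hs1.add hs2.hasSum).tsum_eq]
        refine tsum_congr fun g => ?_
        split_ifs <;> simp
      rw [hs, add_div, mul_div_cancel_left₀ _ hQz, hR, Finset.sum_div]
      congr 1
      refine Finset.sum_congr rfl fun g hg => ?_
      rw [eq_div_iff hQz]
      rw [hQ] at hQz ⊢
      have h2 : (z - mob g.1.1 w) ≠ 0 := fun h =>
        hQz (Finset.prod_eq_zero hg (by rw [h]; simp))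
      rw [← Finset.mul_prod_erase B _ hg, tm, hqq, mul_inv, mul_pow, inv_pow (z - mob g.1.1 w)]
      have h3 := pow_ne_zero (m + 1) h2
      field_simp
  obtain ⟨e, he⟩ := hmer
  refine ⟨_, e, he, fun h z hz => ?_⟩
  rw [← (Equiv.mulLeft h).tsum_eq, ← tsum_mul_left]
  refine tsum_congr fun g => ?_
  have h1 : (h * g).1.1 = h.1.1 * g.1.1 := rfl
  rw [Equiv.coe_mulLeft, tm, tm, h1, qq_mul _ _ _ _ (hΓ.det h.1 h.2) (hden h z hz), map_mul,
    Units.val_mul, inv_div, div_eq_mul_inv, mul_pow]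
  ring

end Pool.Agent.MP_a88b1d_nt.RPS
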