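import Pool.Agent.MP_a88b1d_nt.H93.Spec3

/-! Pullback of divisors along the degeneracy maps: the half-plane part. -/

open Polynomial OnePoint

noncomputable section

namespace Pool.Agent.MP_a88b1d_nt.RPULLA

open Pool.Agent.MP_a88b1d_nt.St2 Pool.Agent.MP_a88b1d_nt.P2
open Pool.Agent.MP_a88b1d_nt.H42 (A MK)

/-- Orders of stabilisers under conjugation into a larger group. -/
theorem card_stab {G X : Type} [Group G] [MulAction G X] (Γ Γ' : Subgroup G) (δ : G) (x : X)
    (h : ∀ g ∈ Γ, δ * g * δ⁻¹ ∈ Γ') :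
    Nat.card (MulAction.stabilizer Γ x) *
      Γ.relIndex (Γ'.comap (MulAut.conj δ).toMonoidHom ⊓ MulAction.stabilizer G x) =
      Nat.card (MulAction.stabilizer Γ' (δ • x)) := by
  set H := Γ'.comap (MulAut.conj δ).toMonoidHom ⊓ MulAction.stabilizer G x with hH
  have mH : ∀ g, g ∈ H ↔ δ * g * δ⁻¹ ∈ Γ' ∧ g • x = x := fun g => Iff.rfl
  have e1 : MulAction.stabilizer Γ x ≃ Γ.subgroupOf H :=
    { toFun := fun g => ⟨⟨g.1.1, (mH _).mpr ⟨h _ g.1.2, g.2⟩⟩, g.1.2⟩
      invFun := fun g => ⟨⟨g.1.1, g.2⟩, ((mH _).mp g.1.2).2⟩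
      left_inv := fun _ => rfl
      right_inv := fun _ => rfl }
  have e2 : H ≃ MulAction.stabilizer Γ' (δ • x) :=
    { toFun := fun g => ⟨⟨δ * g.1 * δ⁻¹, ((mH _).mp g.2).1⟩, by
        change (δ * g.1 * δ⁻¹) • δ • x = δ • x
        rw [mul_smul, inv_smul_smul, mul_smul, ((mH _).mp g.2).2]⟩
      invFun := fun g => ⟨δ⁻¹ * g.1.1 * δ, (mH _).mpr ⟨by
        have : δ * (δ⁻¹ * g.1.1 * δ) * δ⁻¹ = g.1.1 := by group
        rw [this]; exact g.1.2, by
        have : g.1.1 • δ • x = δ • x := g.2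
        rw [mul_smul, mul_smul, this, inv_smul_smul]⟩⟩
      left_inv := fun g => Subtype.ext (by
        change δ⁻¹ * (δ * g.1 * δ⁻¹) * δ = g.1
        group)
      right_inv := fun g => Subtype.ext (Subtype.ext (by
        change δ * (δ⁻¹ * g.1.1 * δ) * δ⁻¹ = g.1.1
        group)) }
  rw [Nat.card_congr e1, ← Nat.card_congr e2]
  exact Subgroup.card_mul_index (Γ.subgroupOf H)

variable {C : Type} [NontriviallyNormedField C] [Algebra (ZMod 2) C]

theorem ev_val (T : C) (g : GL (Fin 2) A) (i j : Fin 2) : (ev T g).1 i j = aeval T (g.1 i j) := rfl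

theorem aeval_mem {T : C} (hT : T ∈ Finf T) (b : A) : aeval T b ∈ Finf T := by
  induction b using Polynomial.induction_on' with
  | add p q hp hq => rw [map_add]; exact add_mem hp hq
  | monomial n a =>
    rw [aeval_monomial]
    refine mul_mem ?_ (pow_mem hT n)
    obtain ⟨k, rfl⟩ := ZMod.natCast_zmod_surjective a
    rw [map_natCast]
    exact natCast_mem _ k

theorem conj_mem {T : C} {n m d : A} {δ : GL (Fin 2) C} (h : PullD T n m d δ) :
    ∀ g ∈ G0 T n, δ * g * δ⁻¹ ∈ G0 T m := by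
  rintro _ ⟨g, hg, rfl⟩
  have hg' : n ∣ g.1 1 0 := hg
  obtain ⟨c, hc⟩ := h.dvd.trans hg'
  have hdet : (!![g.1 0 0, d * g.1 0 1; m * c, g.1 1 1] : Matrix (Fin 2) (Fin 2) A).det =
      g.1.det := by
    rw [Matrix.det_fin_two_of, Matrix.det_fin_two, hc]; ring
  have hu : IsUnit (!![g.1 0 0, d * g.1 0 1; m * c, g.1 1 1] : Matrix (Fin 2) (Fin 2) A) := by
    rw [Matrix.isUnit_iff_isUnit_det, hdet]
    exact Matrix.isUnits_det_units g
  refine ⟨hu.unit, ?_, ?_⟩
  · change m ∣ (hu.unit : Matrix (Fin 2) (Fin 2) A) 1 0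
    rw [hu.unit_spec]
    exact dvd_mul_right m c
  · rw [eq_mul_inv_iff_mul_eq]
    ext i j
    simp only [Units.val_mul, Matrix.mul_apply, Fin.sum_univ_two, ev_val, hu.unit_spec, h.val]
    fin_cases i <;> fin_cases j <;> simp [hc] <;> ring

variable [DecidableEq C]

omit [Algebra (ZMod 2) C] in
theorem infty_eq {g h : GL (Fin 2) C} {s t : C} (hs : s ≠ 0) (ht : t ≠ 0)
    (h0 : s * g.1 0 0 = t * h.1 0 0) (h1 : s * g.1 1 0 = t * h.1 1 0) :
    g • (∞ : OnePoint C) = h • ∞ := by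
  rw [smul_infty_eq_ite, smul_infty_eq_ite]
  by_cases hg : g.1 1 0 = 0
  · have : h.1 1 0 = 0 := by
      rw [hg, mul_zero] at h1
      exact (mul_eq_zero.mp h1.symm).resolve_left ht
    rw [if_pos hg, if_pos this]
  · have : h.1 1 0 ≠ 0 := fun hh => by
      rw [hh, mul_zero] at h1
      exact hg ((mul_eq_zero.mp h1).resolve_left hs)
    rw [if_neg hg, if_neg this, ← mul_div_mul_left (g.1 0 0) (g.1 1 0) hs, h0, h1,
      mul_div_mul_left _ _ ht]

theorem row : OfPULLA := by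
  intro C _ _ _ _ _ _ T hT L hF h1 h3 hM hD hR n m d δ h
  have hd : d ≠ 0 := fun h0 => h.ne (by
    have := h.dvd
    rwa [h0, mul_zero, zero_dvd_iff] at this)
  have hne : ∀ b : A, b ≠ 0 → aeval T b ≠ 0 := fun b hb =>
    norm_pos_iff.mp (zero_lt_one.trans_le (hF.one_le b hb))
  have hδ : ∀ i j, δ.1 i j ∈ Finf T := by
    intro i j
    rw [h.val]
    fin_cases i <;> fin_cases j
    · exact aeval_mem hF.memT d
    · exact zero_mem _
    · exact zero_mem _
    · exact one_mem _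
  refine ⟨conj_mem h, fun f D hf => ⟨fun k => ?_, fun x hx => ?_⟩⟩
  · refine h1.congr k _ _ _ _ ∅ (h3.comp (glMK T δ hδ) f _ hf.ord k) (fun _ _ _ => rfl)
      fun z hz => ?_
    have e := hM.smul δ hδ z (hF.notin k z hz)
    change (Nat.card (MulAction.stabilizer (G0 T m) ((mob δ.1 z : C) : OnePoint C)) : ℤ) *
      D ((mob δ.1 z : C) : OnePoint C) = _
    rw [← e, ← card_stab (G0 T n) (G0 T m) δ (z : OnePoint C) (conj_mem h), Nat.cast_mul,
      mul_assoc]
    rfl
  · refine mul_eq_zero_of_right _ (hf.off _ fun hc => hx ?_)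
    rcases hc with ⟨z, hz, e⟩ | ⟨_, ⟨γ, rfl⟩, e⟩
    · exact Or.inl (hM.back δ hδ x z hz e)
    · have hcol : γ.1 0 0 ≠ 0 ∨ d * γ.1 1 0 ≠ 0 := by
        by_contra hc
        push Not at hc
        have hu := (Matrix.isUnits_det_units γ).ne_zero
        rw [Matrix.det_fin_two, hc.1, (mul_eq_zero.mp hc.2).resolve_left hd] at hu
        exact hu (by ring)
      obtain ⟨γ', t, ht, ha, hc⟩ := hR.col _ _ hcol
      refine Or.inr ⟨ev T γ', ⟨γ', rfl⟩, ?_⟩
      rw [← smul_left_cancel_iff δ, e, ← mul_smul]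
      refine infty_eq (hne d hd) (hne t ht) ?_ ?_
      · simp only [Units.val_mul, Matrix.mul_apply, Fin.sum_univ_two, ev_val, h.val, ha, map_mul]
        simp
        ring
      · simp only [Units.val_mul, Matrix.mul_apply, Fin.sum_univ_two, ev_val, h.val]
        rw [← map_mul, hc]
        simp

end Pool.Agent.MP_a88b1d_nt.RPULLA
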