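import Pool.Agent.MP_a88b1d_nt.H93.Spec3

/-! Row PULLC: orders at the cusps of a pullback. -/

open Polynomial OnePoint Matrix.GeneralLinearGroup

namespace Pool.Agent.MP_a88b1d_nt.RPULLC

open Pool.Agent.MP_a88b1d_nt.St2 Pool.Agent.MP_a88b1d_nt.P2
open Pool.Agent.MP_a88b1d_nt.H42 (A M2 MK)

theorem transv {G : Type} [CommGroup G] (L L' : Subgroup G) (F : Set G) (hF : F.Finite)
    (cov : ∀ b ∈ L', ∃ x ∈ F, x ∈ L' ∧ x⁻¹ * b ∈ L) :
    ∃ s : Finset G, s.card = L.relIndex L' ∧ (∀ x ∈ s, x ∈ L') ∧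
      ∀ b ∈ L', ∃! x, x ∈ s ∧ x⁻¹ * b ∈ L := by
  classical
  have hfin : Finite (L' ⧸ L.subgroupOf L') := by
    have h1 : {x : L' | x.1 ∈ F}.Finite := hF.preimage Subtype.val_injective.injOn
    have h2 := h1.image (QuotientGroup.mk : L' → L' ⧸ L.subgroupOf L')
    refine Set.finite_univ_iff.1 (h2.subset fun y _ => ?_)
    obtain ⟨b, rfl⟩ := QuotientGroup.mk_surjective y
    obtain ⟨x, h3, h4, h5⟩ := cov b.1 b.2
    exact ⟨⟨x, h4⟩, h3, QuotientGroup.eq.2 h5⟩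
  have := Fintype.ofFinite (L' ⧸ L.subgroupOf L')
  have hi : Function.Injective fun y : L' ⧸ L.subgroupOf L' => (y.out : G) :=
    Subtype.val_injective.comp Quotient.out_injective
  refine ⟨Finset.univ.image fun y : L' ⧸ L.subgroupOf L' => (y.out : G), ?_, ?_, fun b hb => ?_⟩
  · rw [Finset.card_image_of_injective _ hi, Finset.card_univ, Subgroup.relIndex,
      Subgroup.index_eq_card, Nat.card_eq_fintype_card]
  · intro x hx
    obtain ⟨y, -, rfl⟩ := Finset.mem_image.1 hx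
    exact y.out.2
  · refine ⟨((QuotientGroup.mk ⟨b, hb⟩ : L' ⧸ L.subgroupOf L').out : G),
      ⟨Finset.mem_image_of_mem _ (Finset.mem_univ _), ?_⟩, ?_⟩
    · have e := QuotientGroup.eq.1
        (QuotientGroup.out_eq' (QuotientGroup.mk ⟨b, hb⟩ : L' ⧸ L.subgroupOf L'))
      exact e
    · rintro x ⟨hx, h⟩
      obtain ⟨y, -, rfl⟩ := Finset.mem_image.1 hx
      have e : (QuotientGroup.mk y.out : L' ⧸ L.subgroupOf L') = QuotientGroup.mk ⟨b, hb⟩ :=
        QuotientGroup.eq.2 h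
      rw [← e, QuotientGroup.out_eq']

variable {C : Type} [NontriviallyNormedField C]

theorem tri_conj (β : GL (Fin 2) C) (h : β.1 1 0 = 0) (b : C) :
    β * upperRightHom b * β⁻¹ = upperRightHom (β.1 0 0 / β.1 1 1 * b) := by
  have hd : β.1.det ≠ 0 := (Matrix.isUnits_det_units β).ne_zero
  rw [Matrix.det_fin_two, h, mul_zero, sub_zero] at hd
  have h1 := right_ne_zero_of_mul hd
  rw [mul_inv_eq_iff_eq_mul]
  ext i j
  fin_cases i <;> fin_cases j <;> simp [Matrix.mul_apply, Fin.sum_univ_two, h]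
  field_simp
  ring

/-- Translations conjugated by `γ`. -/
noncomputable def cc (γ : GL (Fin 2) C) : Multiplicative C →* GL (Fin 2) C :=
  (MulAut.conj γ).toMonoidHom.comp (upperRightHom (R := C)).toMonoidHom

theorem cc_apply (γ : GL (Fin 2) C) (b : C) :
    cc γ (Multiplicative.ofAdd b) = γ * upperRightHom b * γ⁻¹ := rfl

theorem latt_scale {T t : C} {Λ Λ' : Set C} (ht : t ∈ Finf T) (h0 : t ≠ 0) (h : Latt T Λ')
    (e : ∀ b, b ∈ Λ ↔ t * b ∈ Λ') : Latt T Λ where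
  zero := by rw [e, mul_zero]; exact h.zero
  add := fun a ha b hb => by rw [e] at *; rw [mul_add]; exact h.add _ ha _ hb
  neg := fun a ha => by rw [e] at *; rw [mul_neg]; exact h.neg _ ha
  mem := fun a ha => by
    have := div_mem (h.mem _ ((e a).1 ha)) ht
    rwa [mul_div_cancel_left₀ _ h0] at this
  fin := fun R => by
    refine ((h.fin (‖t‖ * R)).preimage (mul_right_injective₀ h0).injOn).subset fun b hb => ?_
    exact ⟨(e b).1 hb.1, by rw [norm_mul]; exact mul_le_mul_of_nonneg_left hb.2 (norm_nonneg _)⟩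

theorem row : OfPULLC := by
  intro C _ _ _ _ _ _ T hT L fy mo ep di re pa n m d δ hp f D hD γ hγ
  have hd0 : d ≠ 0 := by
    rintro rfl
    exact hp.ne (by simpa using hp.dvd)
  have ne0 : ∀ a : A, a ≠ 0 → aeval T a ≠ 0 := fun a ha h => by
    have := fy.one_le a ha
    rw [h, norm_zero] at this
    linarith
  have hδ : ∀ i j, δ.1 i j ∈ Finf T := fun i j => by
    rw [hp.val]
    fin_cases i <;> fin_cases j <;> simp [H42.aeval_mem_Finf T d, finf_eq]
  obtain ⟨γ0, rfl⟩ := hγ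
  have hγ : ev T γ0 ∈ GA T := ⟨γ0, rfl⟩
  obtain ⟨γ1, t0, ht0, e0, e1⟩ := re.col (d * γ0.1 0 0) (γ0.1 1 0) (by
    by_contra hc
    push Not at hc
    have h1 : γ0.1.det ≠ 0 := (Matrix.isUnits_det_units γ0).ne_zero
    rw [Matrix.det_fin_two, hc.2, (mul_eq_zero.1 hc.1).resolve_left hd0] at h1
    simp at h1)
  have hγ1 : ev T γ1 ∈ GA T := ⟨γ1, rfl⟩
  set γ := ev T γ0 with hγd
  set γ' := ev T γ1 with hγ'd
  have einf : δ • γ • (∞ : OnePoint C) = γ' • ∞ := by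
    have a0 : (δ * γ) 0 0 = aeval T t0 * γ' 0 0 := by
      have : (δ * γ) 0 0 = aeval T (d * γ0.1 0 0) := by
        change (δ.1 * γ.1) 0 0 = _
        rw [hp.val, map_mul]
        simp [Matrix.mul_apply, Fin.sum_univ_two]
        exact Or.inl rfl
      rw [this, e0, map_mul]
      rfl
    have a1 : (δ * γ) 1 0 = aeval T t0 * γ' 1 0 := by
      have : (δ * γ) 1 0 = aeval T (γ0.1 1 0) := by
        change (δ.1 * γ.1) 1 0 = _
        rw [hp.val]
        simp [Matrix.mul_apply, Fin.sum_univ_two]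
        rfl
      rw [this, e1, map_mul]
      rfl
    rw [← mul_smul, smul_infty_eq_ite, smul_infty_eq_ite, a0, a1,
      mul_div_mul_left _ _ (ne0 _ ht0)]
    simp [ne0 _ ht0]
  set β := γ'⁻¹ * (δ * γ) with hβd
  have hb10 : β.1 1 0 = 0 := by
    have : β • (∞ : OnePoint C) = ∞ := by rw [hβd, mul_smul, mul_smul, einf, inv_smul_smul]
    exact smul_infty_eq_self_iff.1 this
  have m0 := di.ga.mem _ hγ
  have m1 := di.ga.mem _ hγ1
  have hβ : ∀ i j, β.1 i j ∈ Finf T :=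
    (glMK T γ'⁻¹ (mo.invmem _ m1) * (glMK T δ hδ * glMK T γ m0)).2.1
  have hdet : β.1.det ≠ 0 := (Matrix.isUnits_det_units β).ne_zero
  rw [Matrix.det_fin_two, hb10, mul_zero, sub_zero] at hdet
  set t := β.1 0 0 / β.1 1 1 with htd
  set u := β.1 0 1 / β.1 1 1 with hud
  have ht : t ∈ Finf T := div_mem (hβ _ _) (hβ _ _)
  have hu : u ∈ Finf T := div_mem (hβ _ _) (hβ _ _)
  have t0' : t ≠ 0 := div_ne_zero (left_ne_zero_of_mul hdet) (right_ne_zero_of_mul hdet)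
  have tpos : 0 < ‖t‖ := norm_pos_iff.2 t0'
  have eβ : δ * γ = γ' * β := by rw [hβd, mul_inv_cancel_left]
  have conj : ∀ b, δ * (γ * upperRightHom b * γ⁻¹) * δ⁻¹ = γ' * upperRightHom (t * b) * γ'⁻¹ := by
    intro b
    rw [htd, ← tri_conj β hb10, hβd]
    group
  set Γ2 := (G0 T m).comap (MulAut.conj δ).toMonoidHom with hΓ2
  have memL : ∀ b, b ∈ Lam Γ2 γ ↔ t * b ∈ Lam (G0 T m) γ' := fun b => by
    change δ * (γ * upperRightHom b * γ⁻¹) * δ⁻¹ ∈ G0 T m ↔ _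
    rw [conj]
    rfl
  have l0 := di.latt _ (di.set0 n).disc γ hγ
  have l1 := di.latt _ (di.set0 m).disc γ' hγ1
  have l2 : Latt T (Lam Γ2 γ) := latt_scale ht t0' l1 memL
  have sub : Lam (G0 T n) γ ⊆ Lam Γ2 γ := fun b hb => (pa n m d δ hp).1 _ hb
  have hH : Γ2 ⊓ MulAction.stabilizer (GL (Fin 2) C) (γ • (∞ : OnePoint C)) =
      (Γ2.comap (cc γ)).map (cc γ) := by
    ext g
    constructor
    · rintro ⟨h1, h2⟩
      have h3 : δ * g * δ⁻¹ ∈ G0 T m := h1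
      have h4 : γ'⁻¹ * (δ * g * δ⁻¹) * γ' ∈ GA T :=
        mul_mem (mul_mem (inv_mem hγ1) ((di.set0 m).le ⟨_, hγ⟩ h3)) hγ1
      have h5 : g • γ • (∞ : OnePoint C) = γ • ∞ := h2
      have h6 : (γ'⁻¹ * (δ * g * δ⁻¹) * γ') • (∞ : OnePoint C) = ∞ := by
        rw [mul_smul, mul_smul, mul_smul, mul_smul, ← einf, inv_smul_smul, h5, einf, inv_smul_smul]
      have h7 := di.tri _ h4 (smul_infty_eq_self_iff.1 h6)
      have h8 := conj ((γ'⁻¹ * (δ * g * δ⁻¹) * γ').1 0 1 / t)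
      rw [mul_div_cancel₀ _ t0', ← h7] at h8
      have h9 : cc γ (Multiplicative.ofAdd ((γ'⁻¹ * (δ * g * δ⁻¹) * γ').1 0 1 / t)) = g := by
        rw [cc_apply]
        have : δ * g * δ⁻¹ = γ' * (γ'⁻¹ * (δ * g * δ⁻¹) * γ') * γ'⁻¹ := by group
        rw [← this] at h8
        exact mul_left_cancel (mul_right_cancel h8)
      exact ⟨_, by rw [SetLike.mem_coe, Subgroup.mem_comap, h9]; exact h1, h9⟩
    · rintro ⟨b, hb, rfl⟩
      refine ⟨hb, ?_⟩
      change (γ * upperRightHom b.toAdd * γ⁻¹) • γ • (∞ : OnePoint C) = γ • ∞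
      rw [mul_smul, mul_smul, inv_smul_smul, smul_infty_eq_self_iff.2 (by simp)]
  obtain ⟨s, hs1, hs2, hs3⟩ := transv ((G0 T n).comap (cc γ)) (Γ2.comap (cc γ))
    (Multiplicative.ofAdd '' {b | b ∈ Lam Γ2 γ ∧ ‖b‖ ≤ ‖aeval T n‖}) ((l2.fin _).image _) (by
      intro b hb
      have hb' : b.toAdd ∈ Lam Γ2 γ := hb
      obtain ⟨a, ha⟩ := fy.ppart _ (l2.mem _ hb') n hp.ne
      have h1 := di.lam0 n a γ hγ
      have h2 : b.toAdd - aeval T (n * a) ∈ Lam Γ2 γ := by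
        rw [sub_eq_add_neg]
        exact l2.add _ hb' _ (l2.neg _ (sub h1))
      refine ⟨Multiplicative.ofAdd (b.toAdd - aeval T (n * a)), ⟨_, ⟨h2, ha.le⟩, rfl⟩, h2, ?_⟩
      change -(b.toAdd - aeval T (n * a)) + b.toAdd ∈ Lam (G0 T n) γ
      rwa [neg_sub, sub_add_cancel])
  obtain ⟨r1, c, hr1, hc, hidx⟩ := ep.index (Lam (G0 T n) γ) (Lam Γ2 γ)
    (s.map Multiplicative.toAdd.toEmbedding) l0 l2 sub (fun x hx => by
      obtain ⟨y, hy, rfl⟩ := Finset.mem_map.1 hx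
      exact hs2 y hy) (fun b hb => by
      obtain ⟨x, ⟨h1, h2⟩, h3⟩ := hs3 (Multiplicative.ofAdd b) hb
      refine ⟨x.toAdd, ⟨Finset.mem_map_of_mem _ h1, ?_⟩, ?_⟩
      · rw [sub_eq_neg_add]; exact h2
      · rintro y ⟨h4, h5⟩
        obtain ⟨y', hy, rfl⟩ := Finset.mem_map.1 h4
        rw [sub_eq_neg_add] at h5
        exact congrArg Multiplicative.toAdd (h3 y' ⟨hy, h5⟩))
  rw [Finset.card_map, hs1, Subgroup.relIndex_comap, ← hH] at hidx
  obtain ⟨r0, c1, c2, hc1, hb⟩ := hD.cusp γ' hγ1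
  have hk : pull (G0 T n) (G0 T m) δ D (γ • ∞) = (G0 T n).relIndex
      (Γ2 ⊓ MulAction.stabilizer (GL (Fin 2) C) (γ • (∞ : OnePoint C))) * D (γ' • ∞) := by
    rw [← einf]; rfl
  rw [hk]
  generalize (G0 T n).relIndex
      (Γ2 ⊓ MulAction.stabilizer (GL (Fin 2) C) (γ • (∞ : OnePoint C))) = N at hidx
  generalize D (γ' • ∞) = k at hb
  have hp1 : 0 < (‖t‖ * c) ^ k := zpow_pos (mul_pos tpos hc) k
  refine ⟨max r1 ((max r0 ‖u‖ + 1) / ‖t‖), c1 / (‖t‖ * c) ^ k, c2 / (‖t‖ * c) ^ k,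
    div_pos hc1 hp1, fun z hz => ?_⟩
  have f1 : Far T r1 z := fun x hx => (le_max_left _ _).trans (hz x hx)
  have hz0 : z ∉ Finf T := fun h => by
    have := f1 z h
    rw [sub_self, norm_zero] at this
    linarith
  have f2 : Far T (max r0 ‖u‖ + 1) (t * z) := fun x hx => by
    have h1 := (le_max_right _ _).trans (hz (x / t) (div_mem hx ht))
    rw [div_le_iff₀ tpos, ← norm_mul, sub_mul, div_mul_cancel₀ _ t0', mul_comm] at h1
    exact h1
  have f3 : ∀ x ∈ Finf T, r0 ≤ ‖t * z + u - x‖ := fun x hx => by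
    have h1 := f2 (x - u) (sub_mem hx hu)
    have h2 := le_max_left r0 ‖u‖
    rw [show t * z - (x - u) = t * z + u - x by ring] at h1
    linarith
  have em : mob δ.1 (mob γ.1 z) = mob γ'.1 (t * z + u) := by
    have h1 := L.mb.mul (glMK T δ hδ) (glMK T γ m0) z hz0
    have h2 := L.mb.mul (glMK T γ' m1) (glMK T β hβ) z hz0
    have h3 : mob β.1 z = t * z + u := by
      unfold mob
      rw [hb10, zero_mul, zero_add, htd, hud, add_div, div_mul_eq_mul_div]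
    have h4 : glMK T δ hδ * glMK T γ m0 = glMK T γ' m1 * glMK T β hβ :=
      Subtype.ext (congrArg Units.val eβ)
    rw [h4, h2] at h1
    rw [← h3]
    exact h1.symm
  have e2 : ‖ex (Lam (G0 T m) γ') (t * z + u)‖ = ‖t‖ * c * ‖ex (Lam (G0 T n) γ) z‖ ^ N := by
    rw [ep.shift _ l1 _ _ _ f2 (by
      rw [add_sub_cancel_left]
      have := le_max_right r0 ‖u‖
      linarith), mul_assoc, ← hidx z f1, ← ep.scale _ t z t0']
    congr 2
    ext b
    constructor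
    · intro hb
      exact ⟨b / t, by rw [memL, mul_div_cancel₀ _ t0']; exact hb, (mul_div_cancel₀ _ t0').symm⟩
    · rintro ⟨a, ha, rfl⟩
      exact (memL a).1 ha
  have h := hb (t * z + u) f3
  change c1 ≤ ‖f (mob γ'.1 (t * z + u))‖ * ‖ex (Lam (G0 T m) γ') (t * z + u)‖ ^ k ∧
    ‖f (mob γ'.1 (t * z + u))‖ * ‖ex (Lam (G0 T m) γ') (t * z + u)‖ ^ k ≤ c2 at h
  rw [e2, mul_zpow, ← zpow_natCast, ← zpow_mul, ← em, mul_left_comm, mul_comm] at h
  exact ⟨(div_le_iff₀ hp1).2 h.1, (le_div_iff₀ hp1).2 h.2⟩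

end Pool.Agent.MP_a88b1d_nt.RPULLC
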