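import Pool.Agent.MP_a88b1d_nt.H93.Spec3
import Pool.Agent.MP_a88b1d_nt.H64.Eq1

/-! Potentials are constant along the cusps; potentials of functions with multipliers. -/

open Polynomial OnePoint

noncomputable section

namespace Pool.Agent.MP_a88b1d_nt.RRAY

open Pool.Agent.MP_a88b1d_nt.St2 Pool.Agent.MP_a88b1d_nt.P2
open Pool.Agent.MP_a88b1d_nt.H42 (A M2 MK dd st rG vv UU)

theorem UU_add (a b : A) : UU (a + b) = UU a * UU b := by
  ext i j
  fin_cases i <;> fin_cases j <;> simp [UU, add_comm]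

theorem UU_sq (b : A) : UU b * UU b = 1 := by
  rw [← UU_add, CharTwo.add_self_eq_zero]
  ext i j
  fin_cases i <;> fin_cases j <;> simp [UU]

theorem conj_mem (m c : A) (γ : GL (Fin 2) A) : γ * UU (m * c) * γ⁻¹ ∈ Gam0 m := by
  change m ∣ (γ * UU (m * c) * γ⁻¹).1 1 0
  have h : (γ * γ⁻¹).1 1 0 = 0 := by simp
  simp only [Units.val_mul, Matrix.mul_apply, Fin.sum_univ_two] at h
  refine ⟨γ.1 1 0 * c * (γ⁻¹).1 1 0, ?_⟩
  simp only [Units.val_mul, Matrix.mul_apply, Fin.sum_univ_two, UU, Matrix.of_apply,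
    Matrix.cons_val', Matrix.cons_val_zero, Matrix.cons_val_one, Matrix.cons_val_fin_one]
  linear_combination h

theorem zero_of_double {s : ℕ → ℤ} {n : ℕ} (h : ∀ i, n ≤ i → s (i + 1) = 2 * s i) {B : ℤ} {i0 : ℕ}
    (hB : ∀ i, i0 ≤ i → |s i| ≤ B) {i : ℕ} (hi : n ≤ i) : s i = 0 := by
  have two : ∀ j, s (i + j) = 2 ^ j * s i := fun j => by
    induction j with
    | zero => simp
    | succ j ih => rw [← add_assoc, h _ (by omega), ih]; ring
  by_contra hne
  have h1 := hB (i + (i0 + B.toNat)) (by omega)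
  rw [two, abs_mul, abs_of_pos (pow_pos two_pos _)] at h1
  have h2 : (1 : ℤ) ≤ |s i| := Int.one_le_abs hne
  have h3 : ((i0 + B.toNat : ℕ) : ℤ) < 2 ^ (i0 + B.toNat) := by
    exact_mod_cast Nat.lt_two_pow_self
  have h4 : (0 : ℤ) < 2 ^ (i0 + B.toNat) := pow_pos two_pos _
  have h5 : B ≤ B.toNat := Int.self_le_toNat B
  push_cast at h3
  nlinarith

theorem row : OfRAY := by
  intro C _ _ _ _ _ _ T _ L hR m l hm hc ha hh hb
  have t := L.tree.tree
  have l1 : l (rG T 1) = 0 := by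
    have := ha 1 (one_mem _) (rG T 1)
    rw [← map_mul, mul_one] at this
    omega
  have cg : ∀ (γ : GL (Fin 2) A) {x y}, dd T x y = 0 → l (rG T γ * x) = l (rG T γ * y) :=
    fun γ x y h => hc _ _ (by rwa [t.inv])
  have hU : ∀ γ c x, l (rG T γ * (rG T (UU (m * c)) * x)) = l (rG T γ * x) := fun γ c x => by
    have g0 : l (rG T (γ * UU (m * c) * γ⁻¹)) = 0 := by
      have := ha _ (conj_mem m c γ) (rG T (γ * UU (m * c) * γ⁻¹))
      rw [← map_mul, show γ * UU (m * c) * γ⁻¹ * (γ * UU (m * c) * γ⁻¹) =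
        γ * (UU (m * c) * UU (m * c)) * γ⁻¹ by group, UU_sq, mul_one, mul_inv_cancel, l1] at this
      omega
    have := ha _ (conj_mem m c γ) (rG T γ * x)
    rw [g0, zero_add, ← mul_assoc, ← map_mul, inv_mul_cancel_right, map_mul, mul_assoc] at this
    exact this
  have n0 : ∀ γ i, l (rG T γ * vv T (i + 1) * st T 0) = l (rG T γ * vv T i) := fun γ i => by
    rw [mul_assoc]; exact cg γ (H64.s0 L.pm i)
  have n1 : ∀ γ i, m.natDegree ≤ i →
      l (rG T γ * vv T (i + 1) * st T 1) = l (rG T γ * vv T i) := fun γ i hi => by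
    have hr : (X ^ (i + 1) % m : A).natDegree ≤ i :=
      (natDegree_le_natDegree (degree_mod_lt _ hm).le).trans hi
    rw [mul_assoc, cg γ (H64.s1 L.pm i), ← EuclideanDomain.div_add_mod (X ^ (i + 1)) m, UU_add,
      map_mul, mul_assoc, hU, cg γ (H64.fixU L.pm hr)]
  have n2 : ∀ γ i, l (rG T γ * vv T i * st T 2) = l (rG T γ * vv T (i + 1)) := fun γ i => by
    rw [mul_assoc, H64.v_succ L.pm]
  have key : ∀ γ i, m.natDegree ≤ i → l (rG T γ * vv T (i + 1)) = l (rG T γ * vv T i) := by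
    intro γ i hi
    obtain ⟨B, i0, hB⟩ := hb γ
    refine sub_eq_zero.1 (zero_of_double
      (s := fun i => l (rG T γ * vv T (i + 1)) - l (rG T γ * vv T i)) (B := B + B) (i0 := i0)
      (fun j hj => ?_) (fun j hj => ?_) hi)
    · have := hh (rG T γ * vv T (j + 1)) fun γ' => by
        have h := H64.lowv L.pm (γ⁻¹ * γ') (j + 1)
        rw [← t.inv (rG T γ), ← map_mul, mul_inv_cancel_left] at h
        omega
      rw [Fin.sum_univ_three, n0, n1 γ j hj, n2] at this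
      linarith
    · exact (abs_sub _ _).trans (add_le_add (hB _ (by omega)) (hB _ hj))
  obtain ⟨s, hs⟩ := hR.idx m hm
  refine ⟨s.sup fun γ => (Finset.range (m.natDegree + 1)).sup fun i => dd T 1 (rG T γ * vv T i),
    fun x y hxy hne => ?_⟩
  obtain ⟨γ, i, hx⟩ := hR.vert x
  have hi : i ≤ m.natDegree := by
    by_contra hi
    obtain ⟨j, rfl⟩ : ∃ j, i = j + 1 := ⟨i - 1, by omega⟩
    obtain ⟨k, hk⟩ := L.api.nbr (rG T γ * vv T (j + 1)) y (by rw [← L.api.congr _ _ _ hx, hxy])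
    refine hne ?_
    rw [hc _ _ hx, ← hc _ _ hk]
    fin_cases k
    · exact (key γ j (by omega)).trans (n0 γ j).symm
    · exact (key γ j (by omega)).trans (n1 γ j (by omega)).symm
    · exact (key γ (j + 1) (by omega)).symm.trans (n2 γ (j + 1)).symm
  obtain ⟨g, hg, γ', hγ', rfl⟩ := hs γ
  refine ⟨g⁻¹, inv_mem hg, ?_⟩
  have e : dd T (rG T g⁻¹ * x) (rG T γ' * vv T i) = 0 := by
    rw [← hx, ← t.inv (rG T g⁻¹) x, ← mul_assoc, ← map_mul, inv_mul_cancel_left]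
  rw [t.comm, L.api.congr _ _ _ e, t.comm]
  exact le_trans (Finset.le_sup (f := fun i => dd T 1 (rG T γ' * vv T i))
    (Finset.mem_range.2 (by omega))) (Finset.le_sup (f := fun γ =>
      (Finset.range (m.natDegree + 1)).sup fun i => dd T 1 (rG T γ * vv T i)) hγ')

theorem abs_le_of_bounds {q c c₁ c₂ : ℝ} (hq : 1 < q) (hc : 0 < c) (h1 : 0 < c₁) :
    ∃ B : ℤ, ∀ k : ℤ, c₁ ≤ c * q ^ k → c * q ^ k ≤ c₂ → |k| ≤ B := by
  obtain ⟨N, hN⟩ := pow_unbounded_of_one_lt (c₂ / c) hq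
  obtain ⟨M, hM⟩ := pow_unbounded_of_one_lt (c / c₁) hq
  have q0 : 0 < q := by linarith
  refine ⟨N + M, fun k a b => abs_le.2 ⟨?_, ?_⟩⟩
  · have : q ^ (-k) < q ^ (M : ℤ) := by
      rw [zpow_natCast, zpow_neg]
      refine lt_of_le_of_lt ?_ hM
      rw [le_div_iff₀ h1, inv_mul_le_iff₀ (zpow_pos q0 k)]
      linarith
    have := (zpow_lt_zpow_iff_right₀ hq).1 this
    omega
  · have : q ^ k < q ^ (N : ℤ) := by
      rw [zpow_natCast]
      refine lt_of_le_of_lt ?_ hN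
      rw [le_div_iff₀ hc]
      linarith
    have := (zpow_lt_zpow_iff_right₀ hq).1 this
    omega

theorem row2 : OfPOTF := by
  intro C _ _ _ _ _ _ T hT L gr hF hD hR hP Γ K χ f D z0 w0 h hcase ho hM hS hK hsup
  have t := L.tree.tree
  have z0n : z0 ∉ Finf T := (L.orth.adm z0 w0 ho).1
  have q0 : 0 < ‖T‖ := by linarith
  obtain ⟨l, hl, hsub, hstr, hharm⟩ := hP.pot f (eD Γ D) z0 w0 (Set.range (toMK h)) ho hS
    fun a ha he => by
      obtain ⟨h1, g, hg, h2⟩ := hsup a ha he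
      exact ⟨h1, toMK h ⟨g, hg⟩, ⟨_, rfl⟩, h2⟩
  have f0 : 0 < ‖f z0‖ := norm_pos_iff.2 hl.ne
  have hval : ∀ (g : Γ) (x : MK T), ‖T‖ ^ l (toMK h g * x) = ‖(χ g : C)‖ * ‖T‖ ^ l x := by
    intro g x
    have e := hl.val (toMK h g * x)
    rw [L.mb.mul _ _ _ z0n, toMK_val, hM.aut g _ (L.mb.om x _ z0n), norm_mul, hl.val] at e
    refine mul_left_cancel₀ f0.ne' ?_
    linarith
  have l1 : ‖T‖ ^ l 1 = 1 := by
    have e := hl.val 1
    rw [OneMemClass.coe_one, L.mb.one] at e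
    refine mul_left_cancel₀ f0.ne' ?_
    linarith
  have hχ : ∀ g : Γ, ‖(χ g : C)‖ = ‖T‖ ^ l (toMK h g) := fun g => by
    have e := hval g 1
    rw [mul_one, l1, mul_one] at e
    exact e.symm
  have hadd : ∀ (g : Γ) x, l (toMK h g * x) = l (toMK h g) + l x := fun g x => by
    refine zpow_right_injective₀ q0 hT.ne' ?_
    simp only
    rw [hval, hχ, zpow_add₀ q0.ne']
  have hfin : ∃ R : ℕ, ∀ x y, dd T x y = 1 → l x ≠ l y → ∃ g, dd T 1 (toMK h g * x) ≤ R := by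
    rcases hcase with ⟨-, h', R, hR'⟩ | ⟨m, hm, rfl, rfl⟩
    · exact ⟨R, fun x _ _ _ => hR' x⟩
    have e : ∀ g (hg : g ∈ Gam0 m), rG T g = toMK h ⟨ev T g, g, hg, rfl⟩ :=
      fun g _ => Subtype.ext (L.rg g)
    obtain ⟨R, hR'⟩ := hR m l hm hl.congr (fun g hg x => by rw [e g hg]; exact hadd _ x)
      (fun x hx => hharm x (by
        rintro _ ⟨⟨_, g, hg, rfl⟩, rfl⟩
        rw [← e g hg]; exact hx g))
      fun γ => by
        obtain ⟨r, c₁, c₂, h1, h2⟩ := hM.div.cusp (ev T γ) ⟨γ, rfl⟩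
        obtain ⟨B, hB⟩ := abs_le_of_bounds (c₂ := c₂) hT f0 h1
        obtain ⟨N, hN⟩ := pow_unbounded_of_one_lt r hT
        refine ⟨B, N, fun i hi => ?_⟩
        have hz : mob (vv T i).1 z0 = T ^ i * z0 := by simp [L.vv, mob]
        have h3 := h2 (T ^ i * z0) fun x hx => by
          rw [sub_eq_add_neg, hF.gen z0 (L.gen z0 w0 ho).1 _ (pow_mem hF.memT i) _ (neg_mem hx),
            norm_pow]
          exact le_max_of_le_left (hN.le.trans (pow_le_pow_right₀ hT.le hi))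
        beta_reduce at h3
        rw [hK _ ⟨γ, rfl⟩, zpow_zero, mul_one, ← L.rg, ← hz, ← L.mb.mul _ _ _ z0n, hl.val] at h3
        exact hB _ h3.1 h3.2
    refine ⟨R, fun x y hxy hne => ?_⟩
    obtain ⟨g, hg, h1⟩ := hR' x y hxy hne
    exact ⟨_, e g hg ▸ h1⟩
  have hI : Inv (dd T) (toMK h) l := ⟨hl.congr, hadd, hfin⟩
  have hH := gr (MK T) (dd T) (st T) Γ (toMK h) l t (hD.good Γ h).2 hI hsub
  refine ⟨l, hl, hI, hH, ?_, hχ⟩
  by_contra hne
  exact (hstr hne).ne' (hH 1)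

end Pool.Agent.MP_a88b1d_nt.RRAY
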