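import Pool.Agent.MP_a88b1d_nt.H93.Spec3

/-!
Isometric automorphisms: conjugate elements, and generators of tame inertia modulo 3.
-/

open Polynomial

noncomputable section

namespace Pool.Agent.MP_a88b1d_nt.RSIGE

open Pool.Agent.MP_a88b1d_nt.St2 Pool.Agent.MP_a88b1d_nt.P2

/-- Uniqueness of the extension of the norm. -/
theorem norm_eq {K L C : Type} [NontriviallyNormedField K] [IsUltrametricDist K] [CompleteSpace K]
    [Field L] [Algebra K L] [Algebra.IsAlgebraic K L] [NormedField C] (φ ψ : L →+* C)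
    (hφ : ∀ k, ‖φ (algebraMap K L k)‖ = ‖k‖) (hψ : ∀ k, ‖ψ (algebraMap K L k)‖ = ‖k‖) (x : L) :
    ‖φ x‖ = ‖ψ x‖ := by
  have h1 := spectralNorm_unique_field_norm_ext (K := K)
    (f := (NormedField.toAbsoluteValue C).comp φ.injective) hφ x
  have h2 := spectralNorm_unique_field_norm_ext (K := K)
    (f := (NormedField.toAbsoluteValue C).comp ψ.injective) hψ x
  exact h1.trans h2.symm

/-- Extension by density. -/
theorem ext1 {L C : Type} [Field L] [NormedField C] [CompleteSpace C] (i φ : L →+* C)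
    (hd : DenseRange i) (h : ∀ x, ‖φ x‖ = ‖i x‖) :
    ∃ Φ : C →+* C, Continuous Φ ∧ ∀ x, Φ (i x) = φ x := by
  let _ : PseudoMetricSpace L := PseudoMetricSpace.induced i inferInstance
  have hi : Isometry i := Isometry.of_dist_eq fun _ _ => rfl
  have hp : Isometry φ := Isometry.of_dist_eq fun x y => by
    change dist (φ x) (φ y) = dist (i x) (i y)
    rw [dist_eq_norm, dist_eq_norm, ← map_sub, ← map_sub, h]
  refine ⟨IsDenseInducing.extendRingHom hi.isUniformInducing hd hp.uniformContinuous,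
    (uniformContinuous_uniformly_extend hi.isUniformInducing hd hp.uniformContinuous).continuous,
    fun x => ?_⟩
  exact IsDenseInducing.extend_eq (hi.isUniformInducing.isDenseInducing hd) hp.continuous x

theorem ext2 {L C : Type} [Field L] [NormedField C] [CompleteSpace C] (i : L →+* C)
    (hd : DenseRange i) (s : L ≃+* L) (h : ∀ x, ‖i (s x)‖ = ‖i x‖) :
    ∃ σ : C ≃+* C, (∀ x, ‖σ x‖ = ‖x‖) ∧ ∀ x, σ (i x) = i (s x) := by
  obtain ⟨Φ, hΦ, eΦ⟩ := ext1 i (i.comp s.toRingHom) hd h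
  obtain ⟨Ψ, hΨ, eΨ⟩ := ext1 i (i.comp s.symm.toRingHom) hd fun x => by
    have := h (s.symm x)
    rw [RingEquiv.apply_symm_apply] at this
    exact this.symm
  have e1 : ∀ x, Φ (i x) = i (s x) := eΦ
  have e2 : ∀ x, Ψ (i x) = i (s.symm x) := eΨ
  have l1 : ∀ x, Ψ (Φ x) = x := fun x => by
    refine hd.induction_on (p := fun x => Ψ (Φ x) = x) x
      (isClosed_eq (hΨ.comp hΦ) continuous_id) fun y => ?_
    rw [e1, e2, RingEquiv.symm_apply_apply]
  have l2 : ∀ x, Φ (Ψ x) = x := fun x => by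
    refine hd.induction_on (p := fun x => Φ (Ψ x) = x) x
      (isClosed_eq (hΦ.comp hΨ) continuous_id) fun y => ?_
    rw [e2, e1, RingEquiv.apply_symm_apply]
  refine ⟨RingEquiv.ofRingHom Φ Ψ (RingHom.ext l2) (RingHom.ext l1), fun x => ?_, e1⟩
  change ‖Φ x‖ = ‖x‖
  refine hd.induction_on (p := fun x => ‖Φ x‖ = ‖x‖) x
    (isClosed_eq hΦ.norm continuous_norm) fun y => ?_
  rw [e1, h]

theorem row : OfSIGE := by
  intro C _ _ _ _ _ _ T hT _ hF hD M hKM hM a b ha hab
  let _ : NontriviallyNormedField (Finf T) :=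
    { (inferInstance : NormedField (Finf T)) with non_trivial := ⟨⟨T, hF.memT⟩, hT⟩ }
  have : CompleteSpace (Finf T) := hF.closed.completeSpace_coe
  let _ : Algebra (Finf T) M := (Subfield.inclusion hKM).toAlgebra
  have : IsScalarTower (Finf T) M C := IsScalarTower.of_algebraMap_eq fun _ => rfl
  have : Algebra.IsAlgebraic (Finf T) M := ⟨fun x =>
    (isAlgebraic_algebraMap_iff (algebraMap M C).injective).1 (hM x.1 x.2)⟩
  have up : ∀ x : C, IsAlgebraic (Finf T) x → x ∈ algebraicClosure M C := fun x hx =>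
    mem_algebraicClosure_iff.2 (hx.tower_top M)
  have : Algebra.IsAlgebraic (Finf T) (algebraicClosure M C) :=
    Algebra.IsAlgebraic.trans (Finf T) M _
  have haM : IsAlgebraic M a := ha.tower_top M
  have hb : b ∈ algebraicClosure M C :=
    mem_algebraicClosure_iff.2 ⟨minpoly M a, minpoly.ne_zero haM.isIntegral, hab⟩
  obtain ⟨s, hs⟩ := minpoly.exists_algEquiv_of_root' (K := M) (L := algebraicClosure M C)
    (x := ⟨b, hb⟩) (y := ⟨a, up a ha⟩) (Algebra.IsAlgebraic.isAlgebraic _) (by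
      rw [IntermediateField.minpoly_eq]
      apply (algebraMap (algebraicClosure M C) C).injective
      rw [← aeval_algebraMap_apply, map_zero]
      exact hab)
  have hd : DenseRange (algebraMap (algebraicClosure M C) C) :=
    Dense.mono (fun x hx => ⟨⟨x, up x hx⟩, rfl⟩) hD
  obtain ⟨σ, h1, h2⟩ := ext2 (algebraMap (algebraicClosure M C) C) hd s.toRingEquiv fun x =>
    norm_eq (K := Finf T) ((algebraMap (algebraicClosure M C) C).comp s.toRingEquiv.toRingHom)
      (algebraMap (algebraicClosure M C) C) (fun k => by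
        have : s (algebraMap (Finf T) (algebraicClosure M C) k) = algebraMap (Finf T) _ k := by
          rw [IsScalarTower.algebraMap_apply (Finf T) M (algebraicClosure M C), AlgEquiv.commutes]
        change ‖algebraMap _ C (s (algebraMap (Finf T) (algebraicClosure M C) k))‖ = _
        rw [this]
        rfl) (fun _ => rfl) x
  refine ⟨σ, h1, fun x hx => ?_, ?_⟩
  · have := h2 (algebraMap M _ ⟨x, hx⟩)
    have e : s.toRingEquiv (algebraMap M _ ⟨x, hx⟩) = algebraMap M _ ⟨x, hx⟩ := s.commutes _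
    rw [e] at this
    exact this
  · have := h2 ⟨a, up a ha⟩
    have e : s.toRingEquiv ⟨a, up a ha⟩ = ⟨b, hb⟩ := hs
    rw [e] at this
    exact this

theorem two_eq {C : Type} [Field C] [Algebra (ZMod 2) C] : (2 : C) = 0 := by
  have : (algebraMap (ZMod 2) C) 2 = 2 := map_ofNat _ 2
  rw [← this]
  exact map_zero (algebraMap (ZMod 2) C)

/-- No roots of unity of order a power of 3 are near 1. -/
theorem eq_one {C : Type} [NormedField C] [IsUltrametricDist C] [Algebra (ZMod 2) C] (k : ℕ) :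
    ∀ z : C, z ^ 3 ^ k = 1 → ‖z - 1‖ < 1 → z = 1 := by
  induction k with
  | zero => intro z h _; simpa using h
  | succ k ih =>
    intro z h hz
    have hn : ‖z‖ ≤ 1 := by
      have := IsUltrametricDist.norm_add_le_max (z - 1) 1
      rw [sub_add_cancel, norm_one] at this
      exact this.trans (max_le hz.le le_rfl)
    have hs : ‖z * (z - 1)‖ < 1 := by
      rw [norm_mul]
      exact lt_of_le_of_lt (mul_le_of_le_one_left (norm_nonneg _) hn) hz
    have e : z ^ 3 - 1 = (z - 1) * (z * (z - 1) + 1) := by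
      linear_combination (z * (z - 1)) * (two_eq (C := C))
    have hq : ‖z * (z - 1) + 1‖ ≤ 1 := by
      refine (IsUltrametricDist.norm_add_le_max _ _).trans ?_
      rw [norm_one]
      exact max_le hs.le le_rfl
    have h3 : z ^ 3 = 1 := by
      refine ih _ (by rw [← pow_mul, ← pow_succ', h]) ?_
      rw [e, norm_mul]
      exact lt_of_le_of_lt (mul_le_of_le_one_right (norm_nonneg _) hq) hz
    rw [h3, sub_self] at e
    rcases mul_eq_zero.1 e.symm with h0 | h0
    · exact sub_eq_zero.1 h0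
    · rw [eq_neg_of_add_eq_zero_left h0, norm_neg, norm_one] at hs
      exact absurd hs (lt_irrefl _)

/-- A conjugate cube root. -/
theorem other {C : Type} [Field C] [IsAlgClosed C] [Algebra (ZMod 2) C] (M : Subfield C) (p : C)
    (hp : p ∉ M) (h3 : p ^ 3 ∈ M) : ∃ b, aeval b (minpoly M p) = 0 ∧ b ≠ p ∧ b ^ 3 = p ^ 3 := by
  classical
  have hp0 : p ≠ 0 := fun h => hp (h ▸ M.zero_mem)
  have hr : aeval p (X ^ 3 - Polynomial.C (⟨p ^ 3, h3⟩ : M)) = 0 := by
    simp only [map_sub, map_pow, aeval_X, aeval_C]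
    exact sub_self _
  have hint : IsIntegral M p := ⟨_, monic_X_pow_sub_C _ (by norm_num), hr⟩
  have hdvd := minpoly.dvd M p hr
  have hsep : (X ^ 3 - Polynomial.C (⟨p ^ 3, h3⟩ : M)).Separable := by
    refine separable_X_pow_sub_C _ (fun h => ?_) fun h => ?_
    · have h' : ((3 : ℕ) : C) = 0 := by
        rw [← map_natCast (algebraMap M C), h, map_zero]
      have : (1 : C) = 0 := by
        push_cast at h'
        linear_combination h' - two_eq (C := C)
      exact one_ne_zero this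
    · exact pow_ne_zero 3 hp0 (congrArg Subtype.val h)
  have hcard := card_rootSet_eq_natDegree (K := C) (hsep.of_dvd hdvd) (IsAlgClosed.splits _)
  have h2 : 2 ≤ (minpoly M p).natDegree :=
    (minpoly.two_le_natDegree_iff hint).2 fun ⟨x, hx⟩ => hp (hx ▸ x.2)
  have hne := minpoly.ne_zero hint
  obtain ⟨b, hb⟩ := Fintype.exists_ne_of_one_lt_card (α := (minpoly M p).rootSet C) (by omega)
    ⟨p, (mem_rootSet_of_ne hne).2 (minpoly.aeval M p)⟩
  have hb0 := (mem_rootSet_of_ne hne).1 b.2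
  refine ⟨b.1, hb0, fun h => hb (Subtype.ext h), ?_⟩
  have := aeval_eq_zero_of_dvd_aeval_eq_zero hdvd hb0
  simp only [map_sub, map_pow, aeval_X, aeval_C] at this
  exact sub_eq_zero.1 this

theorem row2 : OfSIG := by
  intro C _ _ _ _ _ _ T hT _ hF hV hE hD S hS
  classical
  obtain ⟨M, N, hN, hKM, hSM, hcM, hM, hval⟩ := hV.val S hS
  have hT0 : T ≠ 0 := fun h => by rw [h, norm_zero] at hT; linarith
  have hTp : 0 < ‖T‖ := norm_pos_iff.2 hT0
  have hex : ∃ k : ℕ, ¬ ∃ p ∈ M, p ^ 3 ^ k = T := by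
    refine ⟨N, fun ⟨p, hp, e⟩ => ?_⟩
    have hp0 : p ≠ 0 := fun h => hT0 (by rw [← e, h, zero_pow (by positivity)])
    obtain ⟨j, hj⟩ := hval p hp hp0
    have e1 : ‖T‖ ^ (N : ℤ) = ‖T‖ ^ (j * (3 ^ N : ℕ)) := by
      rw [zpow_mul, ← hj, zpow_natCast, zpow_natCast, ← pow_mul, mul_comm, pow_mul,
        ← norm_pow p, e]
    have e2 := zpow_right_injective₀ hTp hT.ne' e1
    have hd : (3 ^ N : ℕ) ∣ N := Int.natCast_dvd_natCast.1 (Dvd.intro_left j e2.symm)
    have := Nat.le_of_dvd hN hd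
    have := Nat.lt_pow_self (n := N) (show 1 < 3 by norm_num)
    omega
  have hk := Nat.find_spec hex
  obtain ⟨k, ek⟩ : ∃ k, Nat.find hex = k + 1 := Nat.exists_eq_succ_of_ne_zero fun h => by
    rw [h] at hk
    exact hk ⟨T, hKM hF.memT, by simp⟩
  obtain ⟨q, hq, eq⟩ := not_not.1 (Nat.find_min hex (m := k) (by omega))
  rw [ek] at hk
  obtain ⟨p, hp⟩ := IsAlgClosed.exists_pow_nat_eq q (show 0 < 3 by norm_num)
  have epT : p ^ 3 ^ (k + 1) = T := by rw [pow_succ', pow_mul, hp, eq]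
  have hpM : p ∉ M := fun h => hk ⟨p, h, epT⟩
  have hp0 : p ≠ 0 := fun h => hpM (h ▸ M.zero_mem)
  obtain ⟨b, hb, hbp, hb3⟩ := other M p hpM (hp ▸ hq)
  have hpa : IsAlgebraic (Finf T) p :=
    IsAlgebraic.of_pow (show 0 < 3 by norm_num) (hp ▸ hM q hq)
  obtain ⟨σ, h1, h2, h3⟩ := hE hD M hKM hM p b hpa hb
  refine ⟨σ, k + 1, b / p, ⟨⟨h1, fun x hx => h2 x (hKM hx)⟩, ?_, ?_, ?_⟩,
    fun x hx => h2 x (hSM x hx)⟩
  · rw [div_pow, hb3, div_self (pow_ne_zero 3 hp0)]
  · exact fun h => hbp ((div_eq_one_iff_eq hp0).1 h)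
  · intro y n hy hn
    have hpn : p ^ n ≠ 0 := zpow_ne_zero n hp0
    have ee : (y / p ^ n) ^ 3 ^ (k + 1) = y ^ 3 ^ (k + 1) / T ^ n := by
      rw [div_pow, ← epT, ← zpow_natCast (p ^ n), ← zpow_mul, mul_comm, zpow_mul, zpow_natCast]
    have hu : ‖y / p ^ n‖ = 1 := by
      refine (pow_eq_one_iff_of_nonneg (norm_nonneg _) (n := 3 ^ (k + 1)) (by positivity)).1 ?_
      rw [← norm_pow, ee, norm_div, hn, norm_zpow, div_self (zpow_pos hTp n).ne']
    set u := y / p ^ n with hud
    have hu0 : u ≠ 0 := fun h => by rw [h, norm_zero] at hu; exact zero_ne_one hu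
    obtain ⟨x, hx, hux⟩ := hV.res hD u hu
    have hsx : ‖σ u - x‖ < 1 := by
      rw [← h2 x (hcM x hx), ← map_sub, h1]
      exact hux
    have hsu : ‖σ u - u‖ < 1 := by
      have := IsUltrametricDist.norm_add_le_max (σ u - x) (x - u)
      rw [sub_add_sub_cancel, norm_sub_rev x u] at this
      exact this.trans_lt (max_lt hsx hux)
    have hz : σ u / u = 1 := by
      refine eq_one (k + 1) _ ?_ ?_
      · rw [div_pow, ← map_pow, ee, map_div₀, hy, map_zpow₀, h2 T (hKM hF.memT), ← ee,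
          div_self (pow_ne_zero _ hu0)]
      · rw [div_sub_one hu0, norm_div, hu, div_one]
        exact hsu
    have hsu' : σ u = u := (div_eq_one_iff_eq hu0).1 hz
    have ey : y = u * p ^ n := by rw [hud, div_mul_cancel₀ _ hpn]
    rw [ey, map_mul, hsu', map_zpow₀, h3, div_zpow]
    field_simp

end Pool.Agent.MP_a88b1d_nt.RSIGE
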