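import Pool.Agent.MP_a88b1d_nt.H93.Spec3
import Pool.Agent.MP_a88b1d_nt.H92.Res

/-! Row SIGV: the value group and the residues of a finite extension with all constants. -/

open Polynomial

noncomputable section

namespace Pool.Agent.MP_a88b1d_nt.RSIGV

open Pool.Agent.MP_a88b1d_nt.St2 Pool.Agent.MP_a88b1d_nt.P2

variable {C : Type} [NontriviallyNormedField C] [IsUltrametricDist C] [Algebra (ZMod 2) C]

omit [IsUltrametricDist C] in
theorem tor {x : C} (h : IsAlgebraic (ZMod 2) x) (h0 : x ≠ 0) : ∃ n, n ≠ 0 ∧ x ^ n = 1 := by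
  have := IntermediateField.adjoin.finiteDimensional h.isIntegral
  have : Finite (IntermediateField.adjoin (ZMod 2) {x}) := Module.finite_of_finite (ZMod 2)
  have hy : IntermediateField.AdjoinSimple.gen (ZMod 2) x ≠ 0 := fun e =>
    h0 (congrArg Subtype.val e)
  obtain ⟨n, n0, e⟩ := isOfFinOrder_iff_pow_eq_one.1 (isOfFinOrder_of_finite (Units.mk0 _ hy))
  exact ⟨n, n0.ne', congrArg (fun u => (u.1 : C)) (congrArg Units.val e)⟩

/-- a vanishing sum has two terms of the same size -/
theorem two {ι : Type} (s : Finset ι) (t : ι → C) (h : ∑ i ∈ s, t i = 0) (h0 : ∃ i ∈ s, t i ≠ 0) :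
    ∃ i ∈ s, ∃ j ∈ s, i ≠ j ∧ t i ≠ 0 ∧ ‖t i‖ = ‖t j‖ := by
  classical
  obtain ⟨i0, s0, t0⟩ := h0
  obtain ⟨i, hi, hm⟩ := s.exists_max_image (fun i => ‖t i‖) ⟨i0, s0⟩
  have p : 0 < ‖t i‖ := (norm_pos_iff.2 t0).trans_le (hm i0 s0)
  by_contra c
  push Not at c
  have := H92.norm_sum_lt (s.erase i) t p fun j hj => lt_of_le_of_ne (hm j (Finset.mem_of_mem_erase hj))
    (c i hi j (Finset.mem_of_mem_erase hj) (Finset.ne_of_mem_erase hj).symm (norm_pos_iff.1 p)).symm
  rw [← Finset.add_sum_erase _ _ hi, add_eq_zero_iff_eq_neg] at h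
  rw [← norm_neg, ← h] at this
  exact lt_irrefl _ this

theorem onele (s : Multiset ℝ) (h : ∀ r ∈ s, 1 ≤ r) : 1 ≤ s.prod := by
  induction s using Multiset.induction_on with
  | empty => simp
  | cons a s ih =>
    rw [Multiset.prod_cons]
    exact one_le_mul_of_one_le_of_one_le (h a (Multiset.mem_cons_self _ _))
      (ih fun r hr => h r (Multiset.mem_cons_of_mem hr))

theorem span_val {T : C} (hT : 1 < ‖T‖) (fy : FY T) {y : C}
    (hy : y ∈ Submodule.span (Finf T) (algebraicClosure (ZMod 2) C : Set C)) (h0 : y ≠ 0) :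
    ∃ j : ℤ, ‖y‖ = ‖T‖ ^ j := by
  classical
  let b := Module.Basis.ofVectorSpace (ZMod 2) (algebraicClosure (ZMod 2) C)
  have h1 : y ∈ Submodule.span (Finf T) (Set.range fun i => (b i : C)) := by
    refine Submodule.span_le.2 (fun x hx => ?_) hy
    have := congrArg Subtype.val (b.linearCombination_repr ⟨x, hx⟩)
    rw [Finsupp.linearCombination_apply, Finsupp.sum] at this
    push_cast at this
    rw [← this]
    refine Submodule.sum_mem _ fun i _ => ?_
    generalize b.repr ⟨x, hx⟩ i = a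
    have h2 : ∀ a : ZMod 2, a = 0 ∨ a = 1 := by decide
    rcases h2 a with rfl | rfl
    · rw [zero_smul]; exact Submodule.zero_mem _
    · rw [one_smul]; exact Submodule.subset_span (Set.mem_range_self i)
  obtain ⟨c, hc⟩ := Finsupp.mem_span_range_iff_exists_finsupp.1 h1
  have n1 : ∀ x : algebraicClosure (ZMod 2) C, x ≠ 0 → ‖(x : C)‖ = 1 := fun x hx => by
    obtain ⟨n, n0, e⟩ := tor ((mem_algebraicClosure_iff).1 x.2) fun e => hx (Subtype.ext e)
    exact H92.norm_of_pow n0 e
  have e : ∑ i : c.support, (c i : C) * (b i : C) = y := by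
    rw [← hc, Finsupp.sum, ← Finset.sum_coe_sort c.support]
    rfl
  obtain ⟨j, t, jt, j0, -, hl⟩ := H92.comb hT (fun i : c.support => (c i : C)) (fun i => (b i : C))
    (fun i => (c i).2) (fun i => (n1 _ (b.ne_zero _)).le) (by
      by_contra z
      push Not at z
      exact h0 (by rw [← e]; simp [z]))
  have n2 : ‖∑ i ∈ t, (b i : C)‖ = 1 := by
    rw [← AddSubmonoidClass.coe_finsetSum]
    refine n1 _ fun z => ?_
    have := linearIndependent_iff'.1 (b.linearIndependent.comp _ Subtype.val_injective) t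
      (fun _ => 1) (by simpa using z) j jt
    exact one_ne_zero this
  obtain ⟨n, hn⟩ := fy.val _ (c j).2 j0
  refine ⟨n, hn ▸ ?_⟩
  rw [e] at hl
  have n3 : ‖(c j : C) * ∑ i ∈ t, (b i : C)‖ = ‖(c j : C)‖ := by rw [norm_mul, n2, mul_one]
  rw [← n3] at hl ⊢
  have := IsUltrametricDist.norm_add_eq_max_of_norm_ne_norm hl.ne
  rwa [sub_add_cancel, max_eq_right hl.le] at this

theorem row : OfSIGV := by
  intro C _ _ _ _ _ _ T hT L fy
  have T0 : 0 < ‖T‖ := by linarith
  have ak : ∀ x ∈ (algebraicClosure (ZMod 2) C : Set C), IsAlgebraic (Finf T) x := fun x hx => by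
    by_cases h0 : x = 0
    · exact h0 ▸ isAlgebraic_zero
    obtain ⟨n, n0, e⟩ := tor ((mem_algebraicClosure_iff).1 hx) h0
    exact IsAlgebraic.of_pow (Nat.pos_of_ne_zero n0) (e ▸ isAlgebraic_one)
  refine ⟨fun S hS => ?_, fun hd u hu => ?_⟩
  · let M0 := IntermediateField.adjoin (Finf T) (algebraicClosure (ZMod 2) C : Set C)
    have : Algebra.IsAlgebraic (Finf T) M0 :=
      IntermediateField.isAlgebraic_adjoin fun x hx => (ak x hx).isIntegral
    have v0 : ∀ y : M0, y ≠ 0 → ∃ j : ℤ, ‖(y : C)‖ = ‖T‖ ^ j := fun y hy => by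
      refine span_val hT fy ?_ fun e => hy (Subtype.ext e)
      have h1 : (y : C) ∈ M0.toSubalgebra := y.2
      rw [IntermediateField.adjoin_toSubalgebra_of_isAlgebraic ak, ← Subalgebra.mem_toSubmodule,
        Algebra.adjoin_eq_span] at h1
      exact Submodule.span_mono (Submonoid.closure_le (S := (algebraicClosure (ZMod 2)
        C).toSubalgebra.toSubmonoid).2 subset_rfl) h1
    let M := IntermediateField.adjoin M0 (S : Set C)
    have : FiniteDimensional M0 M := IntermediateField.finiteDimensional_adjoin fun x hx =>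
      ((hS x hx).tower_top M0).isIntegral
    have am : ∀ y ∈ M, IsIntegral M0 y := fun y hy =>
      IntermediateField.isIntegral_iff.1 (IsIntegral.of_finite M0 (⟨y, hy⟩ : M))
    refine ⟨M.toSubfield, (Module.finrank M0 M).factorial, Nat.factorial_pos _,
      fun x hx => M.algebraMap_mem ⟨x, M0.algebraMap_mem ⟨x, hx⟩⟩,
      fun x hx => IntermediateField.subset_adjoin _ _ hx,
      fun x hx => M.algebraMap_mem ⟨x, IntermediateField.subset_adjoin _ _
        ((mem_algebraicClosure_iff).2 hx)⟩,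
      fun x hx => (am x hx).isAlgebraic.restrictScalars _, fun y hy h0 => ?_⟩
    have hd : (minpoly M0 y).natDegree ≤ Module.finrank M0 M := by
      have := minpoly.natDegree_le (A := M0) (⟨y, hy⟩ : M)
      rwa [IntermediateField.minpoly_eq] at this
    have y0 : 0 < ‖y‖ := norm_pos_iff.2 h0
    have key : ∀ i j : ℕ, i < j → j ≤ Module.finrank M0 M → ∀ a b : M0, a ≠ 0 → b ≠ 0 →
        ‖(a : C) * y ^ i‖ = ‖(b : C) * y ^ j‖ →
        ∃ j : ℤ, ‖y‖ ^ (Module.finrank M0 M).factorial = ‖T‖ ^ j := by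
      intro i j ij jn a b a0 b0 e
      obtain ⟨m, hm⟩ := v0 a a0
      obtain ⟨n, hn⟩ := v0 b b0
      obtain ⟨d, rfl⟩ := Nat.exists_eq_add_of_lt ij
      obtain ⟨c, hc⟩ := Nat.dvd_factorial (Nat.succ_pos d) (show d + 1 ≤ Module.finrank M0 M by omega)
      refine ⟨(m - n) * c, ?_⟩
      rw [hc, pow_mul, zpow_mul, zpow_natCast, zpow_sub₀ T0.ne']
      congr 1
      rw [norm_mul, norm_mul, norm_pow, norm_pow, hm, hn, add_assoc, pow_add] at e
      rw [eq_div_iff (zpow_ne_zero _ T0.ne')]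
      refine mul_right_cancel₀ (pow_ne_zero i y0.ne') ?_
      rw [e, Nat.succ_eq_add_one]
      ring
    have hz := minpoly.aeval M0 y
    rw [aeval_eq_sum_range] at hz
    obtain ⟨i, hi, j, hj, ij, t0, e⟩ := two _ _ hz ⟨_, Finset.self_mem_range_succ _, by
      rw [coeff_natDegree, (minpoly.monic (am y hy)).leadingCoeff, one_smul]
      exact pow_ne_zero _ h0⟩
    have t1 : (minpoly M0 y).coeff j • y ^ j ≠ 0 := by
      rw [← norm_ne_zero_iff, ← e, norm_ne_zero_iff]; exact t0
    rw [Finset.mem_range] at hi hj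
    rcases lt_or_gt_of_ne ij with l | l
    · exact key i j l (by omega) _ _ (left_ne_zero_of_smul t0) (left_ne_zero_of_smul t1) e
    · exact key j i l (by omega) _ _ (left_ne_zero_of_smul t1) (left_ne_zero_of_smul t0) e.symm
  · obtain ⟨w, ⟨p, p0, hp⟩, hw⟩ := hd.exists_dist_lt u one_pos
    rw [dist_eq_norm] at hw
    have w1 : ‖w‖ ≤ 1 := by
      have := IsUltrametricDist.norm_add_le_max u (-(u - w))
      rw [norm_neg, ← sub_eq_add_neg, sub_sub_cancel] at this
      exact this.trans (max_le hu.le hw.le)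
    rw [aeval_eq_sum_range, ← Fin.sum_univ_eq_sum_range fun i => p.coeff i • w ^ i] at hp
    obtain ⟨j, t, jt, j0, -, hl⟩ := H92.comb hT
      (fun i : Fin (p.natDegree + 1) => (p.coeff i : C)) (fun i => w ^ (i : ℕ))
      (fun i => (p.coeff i).2) (fun i => by rw [norm_pow]; exact pow_le_one₀ (norm_nonneg _) w1)
      ⟨Fin.last _, fun e => p0 (leadingCoeff_eq_zero.1 (Subtype.ext e))⟩
    have hp' : ∑ i : Fin (p.natDegree + 1), (p.coeff i : C) * w ^ (i : ℕ) = 0 := hp
    rw [hp', zero_sub, norm_neg, norm_mul, mul_lt_iff_lt_one_right (norm_pos_iff.2 j0)] at hl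
    obtain ⟨R, hR⟩ : ∃ R : (ZMod 2)[X], R = ∑ i ∈ t, X ^ (i : ℕ) := ⟨_, rfl⟩
    have R0 : R ≠ 0 := fun e => by
      have := congrArg (coeff · j) (hR.symm.trans e)
      simp only [finsetSum_coeff, coeff_X_pow, coeff_zero, Fin.val_inj] at this
      rw [Finset.sum_ite_eq, if_pos jt] at this
      exact one_ne_zero this
    have Rm : R.Monic := by
      have : ∀ a : ZMod 2, a ≠ 0 → a = 1 := by decide
      exact this _ (leadingCoeff_ne_zero.2 R0)
    have e1 : aeval w R = ∑ i ∈ t, w ^ (i : ℕ) := by simp [hR]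
    rw [← e1, ← eval_map_algebraMap,
      (IsAlgClosed.splits _).eval_eq_prod_roots_of_monic (Rm.map _)] at hl
    by_contra c
    push Not at c
    refine absurd hl (not_lt.2 ?_)
    rw [← normHom_apply, map_multiset_prod, Multiset.map_map]
    refine onele _ fun r hr => ?_
    obtain ⟨a, ha, rfl⟩ := Multiset.mem_map.1 hr
    have h1 := c a ⟨R, R0, by rw [← eval_map_algebraMap]; exact (mem_roots'.1 ha).2⟩
    have := IsUltrametricDist.norm_add_le_max (u - w) (w - a)
    rw [sub_add_sub_cancel] at this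
    exact (le_max_iff.1 (h1.trans this)).resolve_left (not_le.2 hw)

end Pool.Agent.MP_a88b1d_nt.RSIGV
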