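import Pool.Agent.MP_a88b1d_nt.H93.Spec3
import Pool.Agent.MP_a88b1d_nt.H50.Tree
import Pool.Agent.MP_a88b1d_nt.H64.Eq1
import Pool.Agent.MP_a88b1d_nt.H94.Pm

/-! Row RED: reduction theory for the group of invertible polynomial matrices. -/

open Polynomial

namespace Pool.Agent.MP_a88b1d_nt.RRED

open Pool.Agent.MP_a88b1d_nt.St2 Pool.Agent.MP_a88b1d_nt.P2
open Pool.Agent.MP_a88b1d_nt.H42 (A M2 MK nrm dd st rG vv stA pm)

theorem idx (m : A) (hm : m ≠ 0) :
    ∃ s : Finset (GL (Fin 2) A), ∀ γ, ∃ g ∈ Gam0 m, ∃ γ' ∈ s, γ = g * γ' := by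
  classical
  have h1 : Module.Finite (ZMod 2) (AdjoinRoot m) := (AdjoinRoot.powerBasis hm).finite
  have h2 : Finite (AdjoinRoot m) := Module.finite_of_finite (ZMod 2)
  have h3 := Fintype.ofFinite (AdjoinRoot m)
  let φ : GL (Fin 2) A → AdjoinRoot m × AdjoinRoot m :=
    fun γ => (AdjoinRoot.mk m (γ.1 1 0), AdjoinRoot.mk m (γ.1 1 1))
  refine ⟨Finset.univ.image (Function.invFun φ), fun γ => ?_⟩
  have e : φ (Function.invFun φ (φ γ)) = φ γ := Function.invFun_eq ⟨γ, rfl⟩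
  refine ⟨γ * (Function.invFun φ (φ γ))⁻¹, ?_, Function.invFun φ (φ γ),
    Finset.mem_image_of_mem _ (Finset.mem_univ _), by rw [inv_mul_cancel_right]⟩
  generalize Function.invFun φ (φ γ) = δ at e
  have e1 : AdjoinRoot.mk m (δ.1 1 0) = AdjoinRoot.mk m (γ.1 1 0) := congrArg Prod.fst e
  have e2 : AdjoinRoot.mk m (δ.1 1 1) = AdjoinRoot.mk m (γ.1 1 1) := congrArg Prod.snd e
  change m ∣ (γ * δ⁻¹).1 1 0
  have e3 : (γ * δ⁻¹).1 1 0 = γ.1 1 0 * δ.1 1 1 - γ.1 1 1 * δ.1 1 0 := by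
    rw [Units.val_mul, Matrix.coe_units_inv, Matrix.inv_def, H94.det_GL, Ring.inverse_one, one_smul,
      Matrix.adjugate_fin_two, Matrix.mul_apply, Fin.sum_univ_two]
    simp [sub_eq_add_neg]
  rw [e3, ← AdjoinRoot.mk_eq_zero, map_sub, map_mul, map_mul, e1, e2, mul_comm, sub_self]

theorem col (a c : A) (h : a ≠ 0 ∨ c ≠ 0) : ∃ (γ : GL (Fin 2) A) (t : A), t ≠ 0 ∧
    a = t * γ.1 0 0 ∧ c = t * γ.1 1 0 := by
  classical
  have ht : EuclideanDomain.gcd a c ≠ 0 := fun h0 => by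
    rw [EuclideanDomain.gcd_eq_zero_iff] at h0
    exact h.elim (fun h => h h0.1) fun h => h h0.2
  obtain ⟨a', ha⟩ := EuclideanDomain.gcd_dvd_left a c
  obtain ⟨c', hc⟩ := EuclideanDomain.gcd_dvd_right a c
  have hb := EuclideanDomain.gcd_eq_gcd_ab a c
  generalize EuclideanDomain.gcdA a c = u at hb
  generalize EuclideanDomain.gcdB a c = v at hb
  generalize EuclideanDomain.gcd a c = t at *
  have e : a' * u + c' * v = 1 := by
    refine mul_left_cancel₀ ht ?_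
    rw [mul_one]
    conv_rhs => rw [hb, ha, hc]
    ring
  refine ⟨Matrix.GeneralLinearGroup.mk'' !![a', -v; c', u] ?_, t, ht, ha, hc⟩
  have e2 : (!![a', -v; c', u] : M2 A).det = 1 := by
    rw [Matrix.det_fin_two_of]
    linear_combination e
  rw [e2]
  exact isUnit_one

theorem unit_one {a d : A} (h : a * d = 1) : a = 1 := by
  obtain ⟨r, hr, hC⟩ := Polynomial.isUnit_iff.1 (IsUnit.of_mul_eq_one d h)
  have h01 : ∀ r : ZMod 2, r ≠ 0 → r = 1 := by decide
  rw [← hC, h01 r hr.ne_zero, map_one]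

variable {C : Type} [NontriviallyNormedField C] [Algebra (ZMod 2) C] {T : C}

theorem faith (L : LIB T) (g : GL (Fin 2) A) (h : ∀ x, dd T x (rG T g * x) = 0) : g = 1 := by
  have hd := H94.det_GL g
  have key : ∀ (k : Fin 3) (i j : Fin 2) (b : A),
      ((stA k).adjugate * (g.1 * stA k)) i j = X ^ 2 * b → b = 0 := by
    intro k i j b e
    by_contra hb
    have hk : (stA k).det ≠ 0 := by rw [H64.det_s]; exact X_ne_zero
    have h1 := L.pm.low (stA k) (g.1 * stA k) i j 1 hk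
      (by rw [Matrix.det_mul, hd, one_mul]; exact hk)
      (by rw [e]; exact mul_ne_zero (pow_ne_zero _ X_ne_zero) hb)
      (by
        rw [e, Matrix.det_mul, hd, one_mul, H64.det_s, natDegree_X,
          natDegree_mul (pow_ne_zero _ X_ne_zero) hb, natDegree_X_pow]
        omega)
    rw [L.pm.mul _ _ (H64.det_ne g) hk, ← L.pm.rg, h] at h1
    omega
  have hb : g.1 0 1 = 0 := key 0 0 1 _ (by
    simp [stA, Matrix.adjugate_fin_two, Matrix.mul_apply, Fin.sum_univ_two]; ring)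
  have hc : g.1 1 0 = 0 := key 2 1 0 _ (by
    simp [stA, Matrix.adjugate_fin_two, Matrix.mul_apply, Fin.sum_univ_two]; ring)
  rw [Matrix.det_fin_two, hb, zero_mul, sub_zero] at hd
  have ha := unit_one hd
  have hd' := unit_one ((mul_comm _ _).trans hd)
  refine Units.ext (Matrix.ext fun i j => ?_)
  fin_cases i <;> fin_cases j
  · simpa using ha
  · simpa using hb
  · simpa using hc
  · simpa using hd'

theorem vert (L : LIB T) (x : MK T) : ∃ γ i, dd T x (rG T γ * vv T i) = 0 := by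
  have t := L.tree.tree
  have nb : ∀ (i : ℕ) (k : Fin 3), ∃ γ j, dd T (vv T i * st T k) (rG T γ * vv T j) = 0 := by
    intro i k
    have h3 : k = 0 ∨ k = 1 ∨ k = 2 := by revert k; decide
    rcases h3 with rfl | rfl | rfl
    · rcases i with _ | i
      · exact ⟨_, _, H64.w1 L.pm⟩
      · exact ⟨1, i, by rw [map_one, one_mul]; exact H64.s0 L.pm i⟩
    · rcases i with _ | i
      · exact ⟨_, _, H64.w3 L.pm⟩
      · exact ⟨_, _, H64.s1 L.pm i⟩
    · exact ⟨1, i + 1, by rw [map_one, one_mul, H64.v_succ L.pm, t.self]⟩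
  refine L.api.conn (fun y => ∃ γ i, dd T y (rG T γ * vv T i) = 0) 1 (fun y hy => ⟨1, 0, ?_⟩)
    (fun y y' h1 _ ⟨γ, i, h2⟩ => ?_) x
  · have e : vv T 0 = 1 := by
      rw [← L.pm.one, vv, pow_zero, Matrix.one_fin_two]
    rw [map_one, one_mul, e, t.comm, hy]
  · rw [L.api.congr _ _ y' h2] at h1
    obtain ⟨k, h3⟩ := L.api.nbr _ _ h1
    obtain ⟨γ', j, h4⟩ := nb i k
    refine ⟨γ * γ', j, ?_⟩
    rw [← t.inv (rG T γ), ← mul_assoc, ← mul_assoc, ← map_mul] at h4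
    rw [t.comm] at h3
    have h5 := t.tri y' (rG T γ * vv T i * st T k) (rG T (γ * γ') * vv T j)
    omega

omit [Algebra (ZMod 2) C] in
theorem mob_smul {c : C} (hc : c ≠ 0) (g : M2 C) (z : C) : mob (c • g) z = mob g z := by
  simp only [mob, Matrix.smul_apply, smul_eq_mul, mul_assoc, ← mul_add]
  rw [mul_div_mul_left _ _ hc]

theorem key [IsUltrametricDist C] [DecidableEq C] (L : LIB T) (hF : FY T) (hM : MOBN T)
    (u x : MK T) {n : ℕ} {z : C} (hz : z ∈ Om T n) :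
    ∃ w ∈ Om T (3 * n + dd T u x), mob u.1 w = mob x.1 z := by
  let k : MK T := ⟨u.1.adjugate * x.1, mul_mem (H50.adj_mem u) x.2⟩
  refine ⟨mob k.1 z, hM.maps k n _ (le_of_eq ?_) z hz, ?_⟩
  · change nrm (u.1.adjugate * x.1) ^ 2 = _ * ‖(u.1.adjugate * x.1).det‖
    rw [← L.tree.spec, Matrix.det_mul, H50.det_adj, norm_mul]
  · rw [← L.mb.mul u k z (hF.notin n z hz)]
    change mob (u.1 * (u.1.adjugate * x.1)) z = _
    rw [← Matrix.mul_assoc, Matrix.mul_adjugate, Matrix.smul_mul, Matrix.one_mul, mob_smul u.2.2]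

theorem start (hT : 1 < ‖T‖) (hF : FY T) {z : C} (hz : z ∉ Finf T) :
    ∃ x : MK T, ∃ z' ∈ Om T 1, z = mob x.1 z' := by
  have h0 : T ≠ 0 := norm_pos_iff.1 (by linarith)
  obtain ⟨y, hy, j, z', h1, h2⟩ := hF.vert z hz
  refine ⟨⟨!![T ^ j, y; 0, 1], fun a b => ?_, ?_⟩, z', h1, ?_⟩
  · fin_cases a <;> fin_cases b
    · exact zpow_mem hF.memT j
    · exact hy
    · exact zero_mem _
    · exact one_mem _
  · rw [Matrix.det_fin_two_of, mul_one, mul_zero, sub_zero]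
    exact zpow_ne_zero _ h0
  · simp [mob, h2, add_comm]

theorem scale (hT : 1 < ‖T‖) (hF : FY T) {w : C} (hw : w ∈ Om T 3) (i : ℕ) :
    Far T ‖T‖ (T ^ i * w) ∨ T ^ i * w ∈ Om T 6 := by
  have hp : 0 < ‖T‖ := by linarith
  have h0 : T ≠ 0 := norm_pos_iff.1 hp
  have h1 : ∀ x ∈ Finf T, ‖T‖ ^ i ≤ ‖T‖ ^ 3 * ‖T ^ i * w - x‖ := fun x hx => by
    have h2 := hw.2 (x / T ^ i) (div_mem hx (pow_mem hF.memT i))
    have e : T ^ i * w - x = T ^ i * (w - x / T ^ i) := by field_simp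
    rw [e, norm_mul, norm_pow, mul_left_comm]
    exact le_mul_of_one_le_right (by positivity) h2
  rcases le_or_gt 4 i with h | h
  · refine Or.inl fun x hx => le_of_mul_le_mul_left (a := ‖T‖ ^ 3) ?_ (by positivity)
    rw [← pow_succ]
    exact (pow_le_pow_right₀ hT.le h).trans (h1 x hx)
  · refine Or.inr ⟨?_, fun x hx => ?_⟩
    · rw [norm_mul, norm_pow, show 6 = 3 + 3 from rfl, pow_add]
      exact mul_le_mul (pow_le_pow_right₀ hT.le (by omega)) hw.1 (norm_nonneg _) (by positivity)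
    · exact ((one_le_pow₀ hT.le).trans (h1 x hx)).trans
        (mul_le_mul_of_nonneg_right (pow_le_pow_right₀ hT.le (by norm_num)) (norm_nonneg _))

theorem row : OfRED := by
  intro C _ _ _ _ _ _ T hT L hF hM
  refine ⟨vert L, idx, fun z hz => ?_, fun Γ h ⟨R, hR⟩ => ⟨3 + R, fun z hz => ?_⟩, faith L, col⟩
  · obtain ⟨x, z', h1, rfl⟩ := start hT hF hz
    obtain ⟨γ, i, h2⟩ := vert L x
    obtain ⟨w, h3, h4⟩ := key L hF hM (rG T γ * vv T i) x h1
    rw [L.tree.tree.comm, h2] at h3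
    have h5 := hF.notin _ w h3
    have e : mob (vv T i).1 w = T ^ i * w := by
      rw [L.vv]
      simp [mob]
    refine ⟨ev T γ, ⟨γ, rfl⟩, T ^ i * w, e ▸ L.mb.om _ w h5, ?_, scale hT hF h3 i⟩
    rw [← h4, L.mb.mul _ _ w h5, e, L.rg]
  · obtain ⟨x, z', h1, rfl⟩ := start hT hF hz
    obtain ⟨g, hg⟩ := hR x
    obtain ⟨w, h3, h4⟩ := key L hF hM 1 (toMK h g * x) h1
    rw [L.mb.mul _ _ z' (hF.notin _ _ h1), toMK_val, OneMemClass.coe_one, L.mb.one] at h4
    exact ⟨g.1, g.2, h4 ▸ hF.mono _ _ (by omega) h3⟩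

end Pool.Agent.MP_a88b1d_nt.RRED
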