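import Pool.Agent.MP_a88b1d_nt.H93R.DEG
import Pool.Agent.MP_a88b1d_nt.H93R.EXP
import Pool.Agent.MP_a88b1d_nt.H93R.FINS
import Pool.Agent.MP_a88b1d_nt.H93R.MFA
import Pool.Agent.MP_a88b1d_nt.H93R.RED

/-! The divisor of a function with a multiplier is a divisor of degree zero on the curve. -/

open Polynomial OnePoint Filter Topology

namespace Pool.Agent.MP_a88b1d_nt.RSUB

open Pool.Agent.MP_a88b1d_nt.St2 Pool.Agent.MP_a88b1d_nt.P2
open Pool.Agent.MP_a88b1d_nt.H42 (A M2 MK dd rG vv)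

theorem zero_of {a b c : ℝ} {j : ℤ} (ha : 0 < a) (hc : 0 < c)
    (h : ∀ M : ℝ, ∃ x, M ≤ x ∧ a ≤ c * x ^ j ∧ c * x ^ j ≤ b) : j = 0 := by
  rcases lt_trichotomy j 0 with hj | hj | hj
  · obtain ⟨x, h1, h2, -⟩ := h (max 1 (c / a + 1))
    have hx : 1 ≤ x := (le_max_left _ _).trans h1
    have h3 : x ^ j ≤ x ^ (-1 : ℤ) := zpow_le_zpow_right₀ hx (by omega)
    have h4 : c / a < x := by linarith [(le_max_right _ _).trans h1]
    rw [div_lt_iff₀ ha] at h4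
    have h5 : a ≤ c * x⁻¹ := by
      rw [zpow_neg_one] at h3
      exact h2.trans (mul_le_mul_of_nonneg_left h3 hc.le)
    rw [← div_eq_mul_inv, le_div_iff₀ (by linarith)] at h5
    linarith
  · exact hj
  · obtain ⟨x, h1, -, h2⟩ := h (max 1 (b / c + 1))
    have hx : 1 ≤ x := (le_max_left _ _).trans h1
    have h3 : x ^ (1 : ℤ) ≤ x ^ j := zpow_le_zpow_right₀ hx (by omega)
    have h4 : b / c < x := by linarith [(le_max_right _ _).trans h1]
    rw [div_lt_iff₀ hc] at h4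
    rw [zpow_one] at h3
    nlinarith [mul_le_mul_of_nonneg_left h3 hc.le]

variable {C : Type} [NontriviallyNormedField C] [Algebra (ZMod 2) C] [IsUltrametricDist C]
  [CompleteSpace C] {T : C}

theorem big (hT : 1 < ‖T‖) (fy : FY T) {Λ : Set C} (h : Latt T Λ) (r M : ℝ) :
    ∃ z, Far T r z ∧ M ≤ ‖ex Λ z‖ := by
  obtain ⟨w, hw, -⟩ := fy.avoid ∅
  obtain ⟨i, hi⟩ := pow_unbounded_of_one_lt (max r M) hT
  have hn : ∀ x ∈ Finf T, ‖T ^ i * w - x‖ = max (‖T‖ ^ i) ‖x‖ := fun x hx => by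
    rw [sub_eq_add_neg, fy.gen w hw _ (pow_mem fy.memT i) (-x) (neg_mem hx), norm_pow, norm_neg]
  refine ⟨T ^ i * w, fun x hx => ?_, ?_⟩
  · rw [hn x hx]
    exact le_max_of_le_left ((le_max_left _ _).trans hi.le)
  · have h1 : 1 ≤ ‖∏' b : {b // b ∈ Λ ∧ b ≠ 0}, (1 - T ^ i * w / b.1)‖ := by
      refine ge_of_tendsto' (REXP.hp h (T ^ i * w)) fun s => ?_
      refine Finset.prod_induction _ (fun x : ℝ => 1 ≤ x) (fun a b => one_le_mul_of_one_le_of_one_le)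
        le_rfl fun b _ => ?_
      rw [one_le_div₀ (norm_pos_iff.2 b.2.2), hn _ (h.mem _ b.2.1)]
      exact le_max_right _ _
    rw [ex, norm_mul, norm_mul, norm_pow, hw.1, mul_one]
    exact ((le_max_right _ _).trans hi.le).trans (le_mul_of_one_le_right (by positivity) h1)

theorem uniq (hT : 1 < ‖T‖) (fy : FY T) {Λ : Set C} (h : Latt T Λ) {f g : C → C} {k k' : ℤ} {c : C}
    (hf : CuspOrd T Λ f k) (hg : CuspOrd T Λ g k') (hc : c ≠ 0)
    (e : ∀ z ∉ Finf T, g z = c * f z) : k' = k := by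
  obtain ⟨r, a, b, ha, hab⟩ := RMFA.c_mul (fun z hz => REXP.ne h hz) hg (RMFA.c_inv hf)
  refine add_neg_eq_zero.1 (zero_of (b := b) ha (norm_pos_iff.2 hc) fun M => ?_)
  obtain ⟨z, h1, h2⟩ := big hT fy h (max r 1) M
  have h3 := hab z fun x hx => (le_max_left _ _).trans (h1 x hx)
  have hz : z ∉ Finf T := RDEG.far_notin (lt_max_of_lt_right one_pos) h1
  have h4 : f z ≠ 0 := fun h0 => by
    simp only [h0, inv_zero, mul_zero, norm_zero, zero_mul] at h3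
    linarith [h3.1]
  simp only [e z hz, mul_inv_cancel_right₀ h4] at h3
  exact ⟨_, h2, h3⟩

omit [CompleteSpace C] in
theorem red [DecidableEq C] (hT : 1 < ‖T‖) (L : LIB T) (fy : FY T) (mo : MOBN T) (r : ℝ) :
    ∃ N, ∀ z ∉ Finf T, ∃ γ : GL (Fin 2) A, ∃ z' ∉ Finf T, z = mob (ev T γ).1 z' ∧
      (Far T r z' ∨ z' ∈ Om T N) := by
  have hp : 0 < ‖T‖ := by linarith
  have h0 : T ≠ 0 := norm_pos_iff.1 hp
  obtain ⟨j, hj⟩ := pow_unbounded_of_one_lt r hT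
  refine ⟨j + 6, fun z hz => ?_⟩
  obtain ⟨x, z', h1, rfl⟩ := RRED.start hT fy hz
  obtain ⟨γ, i, h2⟩ := RRED.vert L x
  obtain ⟨w, h3, h4⟩ := RRED.key L fy mo (rG T γ * vv T i) x h1
  rw [L.tree.tree.comm, h2] at h3
  have h5 := fy.notin _ w h3
  have e : mob (vv T i).1 w = T ^ i * w := by
    rw [L.vv]
    simp [mob]
  refine ⟨γ, T ^ i * w, e ▸ L.mb.om _ w h5, by rw [← h4, L.mb.mul _ _ w h5, e, L.rg], ?_⟩
  have h6 : ∀ x ∈ Finf T, ‖T‖ ^ i ≤ ‖T‖ ^ 3 * ‖T ^ i * w - x‖ := fun x hx => by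
    have h2 := h3.2 (x / T ^ i) (div_mem hx (pow_mem fy.memT i))
    have e : T ^ i * w - x = T ^ i * (w - x / T ^ i) := by field_simp
    rw [e, norm_mul, norm_pow, mul_left_comm]
    exact le_mul_of_one_le_right (by positivity) h2
  rcases le_or_gt (3 + j) i with h | h
  · refine Or.inl fun x hx => hj.le.trans (le_of_mul_le_mul_left (a := ‖T‖ ^ 3) ?_ (by positivity))
    rw [← pow_add]
    exact (pow_le_pow_right₀ hT.le h).trans (h6 x hx)
  · refine Or.inr ⟨?_, fun x hx => ?_⟩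
    · rw [norm_mul, norm_pow, show j + 6 = j + 3 + 3 from rfl, pow_add _ (j + 3)]
      exact mul_le_mul (pow_le_pow_right₀ hT.le (by omega)) h3.1 (norm_nonneg _) (by positivity)
    · exact ((one_le_pow₀ hT.le).trans (h6 x hx)).trans
        (mul_le_mul_of_nonneg_right (pow_le_pow_right₀ hT.le (by omega)) (norm_nonneg _))

theorem row : OfSUB := by
  intro C _ _ _ _ _ _ T hT L fy h1 h2 h3 mo ep di re de Γ K χ f D hc M
  classical
  refine de Γ K χ f D hc ?_ M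
  have hS := di.case Γ K hc
  have h := hS.disc
  obtain ⟨a1, a2, a3⟩ := (isDiv_iff ..).1 M.div
  have hcard : ∀ z ∉ Finf T, (Nat.card (MulAction.stabilizer Γ (z : OnePoint C)) : ℤ) ≠ 0 :=
    fun z hz => by
      have := di.stabfin Γ h z hz
      exact Int.natCast_ne_zero.2 Nat.card_pos.ne'
  have hinv : ∀ g ∈ Γ, ∀ x, D (g • x) = D x := by
    intro g hg x
    by_cases hx : x ∈ Pts T K
    · rcases hx with ⟨z, hz, rfl⟩ | ⟨γ, hγ, rfl⟩
      · have e3 := h3.inv (toMK h ⟨g, hg⟩) f _ (χ ⟨g, hg⟩) a1 (Units.ne_zero _) (M.aut ⟨g, hg⟩) z hz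
        rw [toMK_val, eD, eD, ← mo.smul g (h.mem g hg) z hz, di.cardinv Γ z g hg] at e3
        exact mul_left_cancel₀ (hcard z hz) e3
      · have b1 := a2 _ (hS.stable g hg γ hγ)
        have e1 : Lam Γ (g * γ) = Lam Γ γ := by
          ext b
          change g * γ * _ * (g * γ)⁻¹ ∈ Γ ↔ γ * _ * γ⁻¹ ∈ Γ
          rw [mul_inv_rev, ← mul_assoc, mul_mem_cancel_right (inv_mem hg), mul_assoc, mul_assoc,
            mul_mem_cancel_left hg, ← mul_assoc]
        rw [e1, mul_smul] at b1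
        have hγ' := di.ga.mem γ (hS.cusp γ hγ)
        refine uniq hT fy (di.latt Γ h γ (hS.cusp γ hγ)) (a2 γ hγ) b1 (χ ⟨g, hg⟩).ne_zero
          fun z hz => ?_
        exact (congrArg f (L.mb.mul (glMK T g (h.mem g hg)) (glMK T γ hγ') z hz)).trans
          (M.aut ⟨g, hg⟩ _ (L.mb.om (glMK T γ hγ') z hz))
    · rw [a3 x hx, a3]
      intro hx'
      exact hx (by simpa using di.ptsinv Γ K hS _ hx' g⁻¹ (inv_mem hg))
  have hsup : ∃ (N : ℕ) (s : Finset (GL (Fin 2) C)), (∀ γ ∈ s, γ ∈ K) ∧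
      (∀ γ ∈ K, ∃ g ∈ Γ, ∃ γ' ∈ s, γ = g * γ') ∧
      ∀ z ∉ Finf T, D z ≠ 0 → ∃ g ∈ Γ, mob g.1 z ∈ Om T N := by
    rcases hc with ⟨rfl, h', hc⟩ | ⟨m, hm, rfl, rfl⟩
    · obtain ⟨N, hN⟩ := re.coc Γ h' hc
      exact ⟨N, ∅, by simp, by simp, fun z hz _ => hN z hz⟩
    · obtain ⟨s, hs⟩ := re.idx m hm
      choose r c₁ c₂ hc₁ hr using fun γ : GL (Fin 2) A => a2 (ev T γ) ⟨γ, rfl⟩
      obtain ⟨R, hR⟩ := (s.finite_toSet.image r).bddAbove
      obtain ⟨N0, hN0⟩ := red hT L fy mo (max R 1)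
      choose N hN using fun γ : GL (Fin 2) A => mo.maps' (rG T γ) N0
      refine ⟨s.sup N, s.image (ev T), fun γ hγ => ?_, ?_, fun z hz hne => ?_⟩
      · obtain ⟨γ, -, rfl⟩ := Finset.mem_image.1 hγ
        exact ⟨γ, rfl⟩
      · rintro _ ⟨γ, rfl⟩
        obtain ⟨g, hg, γ', hγ', rfl⟩ := hs γ
        exact ⟨ev T g, Subgroup.mem_map_of_mem _ hg, ev T γ', Finset.mem_image_of_mem _ hγ',
          map_mul _ _ _⟩
      obtain ⟨γ, z', hz', rfl, hc⟩ := hN0 z hz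
      obtain ⟨g, hg, γ', hγ', rfl⟩ := hs γ
      have e1 : mob (ev T g⁻¹).1 (mob (ev T (g * γ')).1 z') = mob (rG T γ').1 z' := by
        rw [← L.rg, ← L.rg, ← L.mb.mul _ _ z' hz', ← map_mul, inv_mul_cancel_left]
      have hg' : ev T g⁻¹ ∈ G0 T m := Subgroup.mem_map_of_mem _ (inv_mem hg)
      rcases hc with hc | hc
      · refine absurd ?_ hne
        rw [← hinv _ hg', mo.smul _ (h.mem _ hg') _ hz, e1]
        obtain ⟨n, hn⟩ := fy.exh z' hz'
        have ho := h2.ord n _ _ (h3.comp (rG T γ') _ _ a1 n) z' hn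
        have hp : (0 : ℝ) < max R 1 := lt_max_of_lt_right one_pos
        have hΛ := di.latt _ h (ev T γ') ⟨γ', rfl⟩
        have hE : 0 < ‖ex (Lam (G0 T m) (ev T γ')) z'‖ ^ D (ev T γ' • ∞) :=
          zpow_pos (norm_pos_iff.2 (ep.ne _ hΛ z' hz')) _
        have h0 := h2.zero _ z' _ (c₁ γ' / _) (c₂ γ' / _) ho (div_pos (hc₁ γ') hE) (by
          have hb : ∀ᶠ w in 𝓝 z', ‖w - z'‖ < max R 1 := by
            filter_upwards [Metric.ball_mem_nhds z' hp] with w hw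
            exact mem_ball_iff_norm.1 hw
          filter_upwards [hb.filter_mono nhdsWithin_le_nhds] with w hw
          have := hr γ' w fun x hx => ((hR ⟨γ', hγ', rfl⟩).trans (le_max_left _ _)).trans
            (RDEG.far_near hc hw x hx)
          rw [ep.shift _ hΛ _ z' w hc hw] at this
          rw [div_le_iff₀ hE, le_div_iff₀ hE, L.rg]
          exact this)
        exact (mul_eq_zero.1 h0).resolve_left (hcard _ (L.mb.om _ z' hz'))
      · exact ⟨_, hg', e1 ▸ fy.mono _ _ (Finset.le_sup hγ') (hN γ' z' hc)⟩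
  obtain ⟨N, s, hs1, hs2, hs3⟩ := hsup
  have hfin := h1.fin N f _ (a1 N)
  refine RFINS.orbit ((hfin.toFinset.image fun z : C => (z : OnePoint C)) ∪
    s.image fun γ => γ • (∞ : OnePoint C)) (fun a ha => ?_) D hinv fun x hx => ?_
  · rcases Finset.mem_union.1 ha with ha | ha
    · obtain ⟨z, hz, rfl⟩ := Finset.mem_image.1 ha
      exact Or.inl ⟨z, fy.notin N z (hfin.mem_toFinset.1 hz).1, rfl⟩
    · obtain ⟨γ, hγ, rfl⟩ := Finset.mem_image.1 ha
      exact Or.inr ⟨γ, hs1 γ hγ, rfl⟩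
  · rcases (by_contra fun hc => hx (a3 x hc) : x ∈ Pts T K) with ⟨z, hz, rfl⟩ | ⟨γ, hγ, rfl⟩
    · obtain ⟨g, hg, hm⟩ := hs3 z hz hx
      have e1 := mo.smul g (h.mem g hg) z hz
      refine ⟨(mob g.1 z : C), Finset.mem_union_left _ (Finset.mem_image.2
        ⟨_, hfin.mem_toFinset.2 ⟨hm, ?_⟩, rfl⟩), g⁻¹, inv_mem hg, by rw [← e1, inv_smul_smul]⟩
      refine mul_ne_zero (hcard _ (fy.notin N _ hm)) ?_
      rwa [← e1, hinv g hg]
    · obtain ⟨g, hg, γ', hγ', rfl⟩ := hs2 γ hγ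
      exact ⟨γ' • ∞, Finset.mem_union_right _ (Finset.mem_image_of_mem _ hγ'), g, hg,
        (mul_smul _ _ _).symm⟩

end Pool.Agent.MP_a88b1d_nt.RSUB
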