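import Pool.Agent.MP_a88b1d_nt.H93.Spec3
import Pool.Agent.MP_a88b1d_nt.H92.Prod

/-! Row THA: divisor and automorphy of the theta product. -/

open Polynomial OnePoint Filter Topology

noncomputable section

namespace Pool.Agent.MP_a88b1d_nt.RTHA

open Pool.Agent.MP_a88b1d_nt.St2
open Pool.Agent.MP_a88b1d_nt.P2
open Pool.Agent.MP_a88b1d_nt.H42 (A M2 MK nrm den)

variable {C : Type} [NontriviallyNormedField C]

theorem LL_mul (h g : M2 C) (p : Fin 2 → C) (z : C) (hd : h.det = 1) (hz : den h z ≠ 0) :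
    LL (h * g) p (mob h z) = LL g p z / den h z := by
  rw [Matrix.det_fin_two] at hd
  unfold den at hz
  unfold LL mob den
  rw [← Matrix.mulVec_mulVec, Matrix.mulVec_fin_two h]
  simp only [Matrix.cons_val_zero, Matrix.cons_val_one]
  rw [eq_div_iff hz, sub_mul, mul_right_comm, div_mul_cancel₀ _ hz]
  linear_combination (z * g.mulVec p 1 - g.mulVec p 0) * hd

theorem phi_mul (h g : M2 C) (p : Fin 2 → C) (w z1 z : C) (hd : h.det = 1) (hz : den h z ≠ 0)
    (hz1 : den h z1 ≠ 0) (h1 : LL g p z1 ≠ 0) (h2 : LL g ![w, 1] z1 ≠ 0) :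
    phi (h * g) p w z1 (mob h z) = phi (h * g) p w z1 (mob h z1) * phi g p w z1 z := by
  unfold phi
  rw [LL_mul h g p z hd hz, LL_mul h g _ z hd hz, LL_mul h g p z1 hd hz1, LL_mul h g _ z1 hd hz1]
  by_cases h3 : LL g ![w, 1] z = 0
  · simp [h3]
  by_cases h4 : LL (h * g) p z1 = 0
  · simp [h4]
  field_simp

theorem phi_ne (h g : M2 C) (p : Fin 2 → C) (w z1 : C) (hd : h.det = 1)
    (hz1 : den h z1 ≠ 0) (h1 : LL g p z1 ≠ 0) (h2 : LL g ![w, 1] z1 ≠ 0)
    (h3 : LL (h * g) p z1 ≠ 0) (h4 : LL (h * g) ![w, 1] z1 ≠ 0) :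
    phi (h * g) p w z1 (mob h z1) ≠ 0 := by
  unfold phi
  rw [LL_mul h g p z1 hd hz1, LL_mul h g _ z1 hd hz1]
  exact div_ne_zero (mul_ne_zero (div_ne_zero h1 hz1) h4) (mul_ne_zero (div_ne_zero h2 hz1) h3)

variable [DecidableEq C]

theorem smul_pt (g : GL (Fin 2) C) (z : C) : g • (z : OnePoint C) =
    if g.1.mulVec ![z, 1] 1 = 0 then ∞ else
      ((g.1.mulVec ![z, 1] 0 / g.1.mulVec ![z, 1] 1 : C) : OnePoint C) := by
  rw [smul_some_eq_ite, Matrix.mulVec_fin_two]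
  simp

theorem smul_cusp (g γ : GL (Fin 2) C) : g • γ • (∞ : OnePoint C) =
    if g.1.mulVec (fun i => γ.1 i 0) 1 = 0 then ∞ else
      ((g.1.mulVec (fun i => γ.1 i 0) 0 / g.1.mulVec (fun i => γ.1 i 0) 1 : C) : OnePoint C) := by
  rw [← mul_smul, smul_infty_eq_ite, Matrix.mulVec_fin_two]
  simp [Matrix.mul_apply, Fin.sum_univ_two]

open Classical in
theorem loc_LL {T : C} (un : UNI T) (h1 : HD1 T) (n : ℕ) (g : M2 C) (p : Fin 2 → C)
    (y : OnePoint C) (z1 : C) (hz1 : LL g p z1 ≠ 0)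
    (hy : y = if g.mulVec p 1 = 0 then ∞ else ((g.mulVec p 0 / g.mulVec p 1 : C) : OnePoint C)) :
    Loc T n (LL g p) fun z => if (z : OnePoint C) = y then (1 : ℤ) else 0 := by
  by_cases h0 : g.mulVec p 1 = 0
  · rw [if_pos h0] at hy
    have h2 : - g.mulVec p 0 ≠ 0 := by
      unfold LL at hz1
      rw [h0] at hz1
      simpa using hz1
    refine h1.congr n _ _ _ _ ∅ (h1.unit n _ (un.const _ _ h2)) (fun z _ _ => ?_) fun z _ => ?_
    · unfold LL
      rw [h0]
      ring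
    · rw [hy, if_neg (OnePoint.coe_ne_infty z)]
  · rw [if_neg h0] at hy
    refine h1.congr n _ _ _ _ ∅ (h1.mul n _ _ _ _ (h1.unit n _ (un.const _ _ h0))
      (h1.lin n (g.mulVec p 0 / g.mulVec p 1))) (fun z _ _ => ?_) fun z _ => ?_
    · unfold LL
      field_simp
    · rw [hy, zero_add]
      simp only [OnePoint.coe_eq_coe]

open Classical in
theorem div_phi {T : C} (un : UNI T) (h1 : HD1 T) (g : M2 C) (p : Fin 2 → C) (w z1 : C)
    (y y' : OnePoint C) (hz1 : LL g p z1 ≠ 0) (hz2 : LL g ![w, 1] z1 ≠ 0)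
    (hy : y = if g.mulVec p 1 = 0 then ∞ else ((g.mulVec p 0 / g.mulVec p 1 : C) : OnePoint C))
    (hy' : y' = if g.mulVec ![w, 1] 1 = 0 then ∞ else
      ((g.mulVec ![w, 1] 0 / g.mulVec ![w, 1] 1 : C) : OnePoint C)) :
    HasDiv T (phi g p w z1) fun z => (if (z : OnePoint C) = y then (1 : ℤ) else 0) -
      if (z : OnePoint C) = y' then (1 : ℤ) else 0 := by
  intro n
  have a1 := loc_LL un h1 n g p y z1 hz1 hy
  have a2 := loc_LL un h1 n g _ y' z1 hz2 hy'
  have a3 := h1.unit n _ (un.const (Om T n) _ (div_ne_zero hz2 hz1))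
  refine h1.congr n _ _ _ _ ∅ (h1.mul n _ _ _ _ a3 (h1.mul n _ _ _ _ a1 (h1.inv n _ _ a2)))
    (fun z _ _ => ?_) fun z _ => ?_
  · unfold phi
    rw [div_eq_mul_inv, div_eq_mul_inv, mul_inv]
    ring
  · ring

variable [Algebra (ZMod 2) C]

open Classical in
theorem fin_supp {T : C} (di : DISC T) {Γ : Subgroup (GL (Fin 2) C)} (h : Disc T Γ)
    (x : OnePoint C) {z : C} (hz : z ∉ Finf T) :
    Function.HasFiniteSupport fun g : Γ => if (z : OnePoint C) = g.1 • x then (1 : ℤ) else 0 := by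
  have hf := di.stabfin Γ h z hz
  have key : {g : Γ | (z : OnePoint C) = g.1 • x}.Finite := by
    rcases Set.eq_empty_or_nonempty {g : Γ | (z : OnePoint C) = g.1 • x} with h0 | ⟨g0, h0⟩
    · rw [h0]
      exact Set.finite_empty
    · have h2 : (MulAction.stabilizer Γ (z : OnePoint C) : Set Γ).Finite := Set.toFinite _
      refine (h2.image fun a => a * g0).subset fun g hg => ⟨g * g0⁻¹, ?_, by simp⟩
      have e0 : (z : OnePoint C) = g0 • x := h0
      have e1 : (z : OnePoint C) = g • x := hg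
      show (g * g0⁻¹) • (z : OnePoint C) = z
      rw [mul_smul, e0, inv_smul_smul, ← e1, e0]
  refine key.subset fun g hg => ?_
  by_contra h3
  exact hg (if_neg h3)

theorem row : OfTHA := by
  intro C _ _ _ _ _ _ T hT L fy un h1 h2 mo di tt Γ K p x w z1 hD
  obtain ⟨hne, hcv⟩ := tt Γ K p x w z1 hD
  have h := hD.setup.disc
  have tend : ∀ z ∉ Finf T, Tendsto (fun g : Γ => phi g.1.1 p w z1 z) cofinite (𝓝 1) := by
    intro z hz
    obtain ⟨n, hn⟩ := fy.exh z hz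
    rw [Metric.tendsto_nhds]
    intro ε hε
    filter_upwards [hcv n (ε / 2) (by positivity)] with g hg
    rw [dist_eq_norm]
    linarith [hg.2 z hn]
  have hp : ∀ z ∉ Finf T, HasProd (fun g : Γ => phi g.1.1 p w z1 z) (th Γ p w z1 z) :=
    fun z hz => (H92.Prod.multipliable (tend z hz)).hasProd
  have hden : ∀ g : Γ, ∀ z ∉ Finf T, den g.1.1 z ≠ 0 := fun g z hz => L.mb.den_ne (toMK h g) z hz
  have hom : ∀ g : Γ, ∀ z ∉ Finf T, mob g.1.1 z ∉ Finf T := fun g z hz => L.mb.om (toMK h g) z hz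
  refine ⟨hp, ?_, fun a z hz => ?_, fun a => ?_⟩
  · classical
    have hx : ∀ g : Γ, g.1 • x = if g.1.1.mulVec p 1 = 0 then ∞ else
        ((g.1.1.mulVec p 0 / g.1.1.mulVec p 1 : C) : OnePoint C) := by
      intro g
      rcases hD.vec with ⟨z, -, rfl, rfl⟩ | ⟨γ, -, rfl, rfl⟩
      · exact smul_pt _ _
      · exact smul_cusp _ _
    have h3 := h2.tprod Γ (fun g => phi g.1.1 p w z1) _
      (fun g => div_phi un h1 g.1.1 p w z1 (g.1 • x) (g.1 • (w : OnePoint C)) (hne g).1 (hne g).2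
        (hx g) (smul_pt _ _)) hcv
    intro n
    refine h1.congr n _ _ _ _ ∅ (h3 n) (fun z _ _ => rfl) fun z hz => ?_
    have hz' := fy.notin n z hz
    rw [finsum_sub_distrib (fin_supp di h x hz') (fin_supp di h w hz'), di.cnt Γ h x z hz',
      di.cnt Γ h w z hz']
    unfold eD
    rw [Pi.sub_apply, mul_sub]
  · have a1 := (Equiv.mulLeft a).hasProd_iff.2 (hp _ (hom a z hz))
    have a2 := (Equiv.mulLeft a).hasProd_iff.2 (hp _ (hom a z1 hD.hz))
    refine a1.unique ?_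
    convert a2.mul (hp z hz) using 2 with g
    exact phi_mul a.1.1 g.1.1 p w z1 z (h.det a.1 a.2) (hden a z hz) (hden a z1 hD.hz) (hne g).1
      (hne g).2
  · refine H92.Prod.tprod_ne_zero (tend _ (hom a z1 hD.hz)) fun g => ?_
    have e : g.1.1 = a.1.1 * (a⁻¹ * g).1.1 := by
      rw [← Units.val_mul, ← Subgroup.coe_mul, mul_inv_cancel_left]
    have := phi_ne a.1.1 (a⁻¹ * g).1.1 p w z1 (h.det a.1 a.2) (hden a z1 hD.hz) (hne _).1
      (hne _).2 (e ▸ (hne g).1) (e ▸ (hne g).2)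
    rwa [← e] at this

end Pool.Agent.MP_a88b1d_nt.RTHA
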