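import Pool.Agent.MP_a88b1d_nt.H93.Spec3
import Pool.Agent.MP_a88b1d_nt.H92.Prod

/-! Row THC: orders of theta functions at the cusps. -/

open Polynomial OnePoint Matrix.GeneralLinearGroup Filter Topology

namespace Pool.Agent.MP_a88b1d_nt.RTHC

open Pool.Agent.MP_a88b1d_nt.St2 Pool.Agent.MP_a88b1d_nt.P2
open Pool.Agent.MP_a88b1d_nt.H42 (A M2 MK den)

variable {C : Type} [NontriviallyNormedField C]

theorem LL_mob (h g : M2 C) (p : Fin 2 → C) (z : C) (hd : h.det = 1) (hz : den h z ≠ 0) :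
    LL (h * g) p (mob h z) = LL g p z / den h z := by
  rw [Matrix.det_fin_two] at hd
  unfold den at *
  unfold LL mob
  rw [← Matrix.mulVec_mulVec]
  simp only [Matrix.mulVec_fin_two, Matrix.cons_val_zero, Matrix.cons_val_one]
  rw [eq_div_iff hz, sub_mul, mul_right_comm, div_mul_cancel₀ _ hz]
  linear_combination (z * (g 1 0 * p 0 + g 1 1 * p 1) - (g 0 0 * p 0 + g 0 1 * p 1)) * hd

theorem LL_w (g : M2 C) (w z : C) (hw : den g w ≠ 0) :
    LL g ![w, 1] z = den g w * (z - mob g w) := by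
  unfold den at *
  unfold LL mob
  simp only [Matrix.mulVec_fin_two, Matrix.cons_val_zero, Matrix.cons_val_one]
  field_simp

theorem LL_diff (g : M2 C) (p : Fin 2 → C) (w z : C) (hd : g.det = 1) (hw : den g w ≠ 0) :
    LL g p z * den g w = g.mulVec p 1 * den g w * (z - mob g w) + (w * p 1 - p 0) := by
  rw [Matrix.det_fin_two] at hd
  unfold den at *
  unfold LL mob
  simp only [Matrix.mulVec_fin_two, Matrix.cons_val_zero, Matrix.cons_val_one]
  field_simp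
  linear_combination (w * p 1 - p 0) * hd

theorem norm_add_lt [IsUltrametricDist C] {x y : C} (h : ‖y‖ < ‖x‖) : ‖x + y‖ = ‖x‖ := by
  rw [IsUltrametricDist.norm_add_eq_max_of_norm_ne_norm h.ne', max_eq_left h.le]

theorem row : OfTHC := by
  intro C _ _ _ _ _ _ T hT L fy mo ep di tt ta Γ K p x w z1 hD γ hγK
  classical
  have hγ := hD.setup.cusp γ hγK
  have hle := hD.setup.le ⟨γ, hγK⟩
  have q0 : (0 : ℝ) < ‖T‖ := by linarith
  have gm : ∀ g : Γ, γ⁻¹ * g.1 ∈ GA T := fun g => mul_mem (inv_mem hγ) (hle g.2)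
  let M : Γ → MK T := fun g => glMK T (γ⁻¹ * g.1) (di.ga.mem _ (gm g))
  have Mdet : ∀ g, (M g).1.det = 1 := fun g => di.ga.det _ (gm g)
  have Mval : ∀ g : Γ, g.1.1 = γ.1 * (M g).1 := fun g => by
    change g.1.1 = (γ * (γ⁻¹ * g.1)).1
    rw [mul_inv_cancel_left]
  have dlow : ∀ (g : Γ) (n : ℕ), ∀ z ∈ Om T n, 1 ≤ ‖T‖ ^ (2 * n) * ‖den (M g).1 z‖ := by
    intro g n z hz
    refine le_trans ?_ (fy.lin n z hz _ ((M g).2.1 1 0) _ ((M g).2.1 1 1))
    obtain ⟨a, ha⟩ := gm g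
    have e : (M g).1 = (ev T a).1 := congrArg Units.val ha.symm
    rw [e]
    by_cases h0 : a.1 1 0 = 0
    · refine le_max_of_le_right (fy.one_le (a.1 1 1) fun h1 => ?_)
      have h2 : a.1.det ≠ 0 := (Matrix.isUnits_det_units a).ne_zero
      rw [Matrix.det_fin_two, h0, h1] at h2
      simp at h2
    · exact le_max_of_le_left (fy.one_le _ h0)
  obtain ⟨n0, hp⟩ : ∃ n0 : ℕ, ∀ g : Γ, ((M g).1.mulVec p 1 = 0 ↔ g.1 • x = γ • ∞) ∧
      ((M g).1.mulVec p 1 ≠ 0 → 1 ≤ ‖T‖ ^ (2 * n0) * ‖(M g).1.mulVec p 1‖) := by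
    rcases hD.vec with ⟨z, hz, rfl, rfl⟩ | ⟨γ0, h0, rfl, rfl⟩
    · obtain ⟨n, hn⟩ := fy.exh z hz
      refine ⟨n, fun g => ?_⟩
      have e : (M g).1.mulVec ![z, 1] 1 = den (M g).1 z := by simp [den]
      rw [e]
      refine ⟨iff_of_false (L.mb.den_ne _ z hz) fun h => ?_, fun _ => dlow g n z hn⟩
      rw [mo.smul _ (hD.setup.disc.mem _ g.2) z hz] at h
      exact di.notcusp γ hγ _ (L.mb.om (toMK hD.setup.disc g) z hz) h.symm
    · refine ⟨0, fun g => ?_⟩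
      have e : (M g).1.mulVec (fun i => γ0.1 i 0) 1 = (γ⁻¹ * g.1 * γ0).1 1 0 := by
        change _ = ((M g).1 * γ0.1) 1 0
        simp [Matrix.mul_apply, Fin.sum_univ_two]
      rw [e]
      constructor
      · rw [← smul_infty_eq_self_iff (g := γ⁻¹ * g.1 * γ0), mul_smul, mul_smul, inv_smul_eq_iff]
      · intro h
        obtain ⟨a, ha⟩ := mul_mem (gm g) (hD.setup.cusp γ0 h0)
        rw [← ha] at h ⊢
        rw [mul_zero, pow_zero, one_mul]
        exact fy.one_le (a.1 1 0) fun h1 => h (by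
          change aeval T (a.1 1 0) = 0
          rw [h1, map_zero])
  obtain ⟨n, hw⟩ := fy.exh w hD.hw
  have dne : ∀ g, den (M g).1 w ≠ 0 := fun g => L.mb.den_ne _ w hD.hw
  have hl := di.latt Γ hD.setup.disc γ hγ
  -- the size of the factors far from the boundary
  have key : ∀ r : ℝ, ‖T‖ ^ (5 * n) < r → ‖T‖ ^ (2 * n0) * ‖T‖ ^ (2 * n) * ‖w * p 1 - p 0‖ < r →
      ∀ z, Far T r z → ∀ g : Γ, r ≤ ‖z - mob (M g).1 w‖ ∧ ((M g).1.mulVec p 1 ≠ 0 →
        ‖LL (M g).1 p z‖ = ‖(M g).1.mulVec p 1‖ * ‖z - mob (M g).1 w‖) := by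
    intro r h1 h2 z hz g
    obtain ⟨y, hy, h3⟩ := mo.im (M g) n (Mdet g) w hw
    have h4 := dlow g n w hw
    have h5 : ‖mob (M g).1 w - y‖ ≤ ‖T‖ ^ (5 * n) := by
      have h6 : 1 ≤ (‖T‖ ^ (2 * n) * ‖den (M g).1 w‖) ^ 2 := one_le_pow₀ h4
      calc ‖mob (M g).1 w - y‖ ≤ ‖mob (M g).1 w - y‖ * (‖T‖ ^ (2 * n) * ‖den (M g).1 w‖) ^ 2 :=
            le_mul_of_one_le_right (norm_nonneg _) h6
        _ = ‖T‖ ^ (4 * n) * (‖mob (M g).1 w - y‖ * ‖den (M g).1 w‖ ^ 2) := by ring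
        _ ≤ ‖T‖ ^ (4 * n) * ‖T‖ ^ n := by gcongr
        _ = ‖T‖ ^ (5 * n) := by ring
    have h7 : r ≤ ‖z - mob (M g).1 w‖ := by
      have h8 := hz y hy
      rw [show z - mob (M g).1 w = z - y + -(mob (M g).1 w - y) by ring,
        norm_add_lt (by rw [norm_neg]; linarith)]
      exact h8
    refine ⟨h7, fun h0 => ?_⟩
    have h9 := (hp g).2 h0
    have hd0 := norm_pos_iff.2 (dne g)
    have h10 : ‖w * p 1 - p 0‖ < ‖(M g).1.mulVec p 1 * den (M g).1 w * (z - mob (M g).1 w)‖ := by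
      rw [norm_mul, norm_mul]
      have hq : 0 < ‖T‖ ^ (2 * n0) * ‖T‖ ^ (2 * n) := by positivity
      refine lt_of_mul_lt_mul_left (h2.trans_le (h7.trans ?_)) hq.le
      calc _ ≤ (‖T‖ ^ (2 * n0) * ‖(M g).1.mulVec p 1‖) * (‖T‖ ^ (2 * n) * ‖den (M g).1 w‖) *
            ‖z - mob (M g).1 w‖ :=
            le_mul_of_one_le_left (norm_nonneg _) (one_le_mul_of_one_le_of_one_le h9 h4)
        _ = _ := by ring
    have h11 := norm_add_lt h10
    rw [← LL_diff _ _ _ _ (Mdet g) (dne g), norm_mul, norm_mul, norm_mul] at h11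
    exact mul_right_cancel₀ hd0.ne' (by rw [h11]; ring)
  obtain ⟨g0, hg0⟩ : ∃ g0 : Γ, (∃ g : Γ, g.1 • x = γ • ∞) → g0.1 • x = γ • ∞ := by
    by_cases h : ∃ g : Γ, g.1 • x = γ • ∞
    · exact ⟨h.choose, fun _ => h.choose_spec⟩
    · exact ⟨1, fun h' => absurd h' h⟩
  obtain ⟨j, hj⟩ := pow_unbounded_of_one_lt (max (max (‖T‖ ^ (5 * n))
    (‖T‖ ^ (2 * n0) * ‖T‖ ^ (2 * n) * ‖w * p 1 - p 0‖)) ‖mob (M g0).1 w‖) hT
  simp only [max_lt_iff] at hj
  have rpos : (0 : ℝ) < ‖T‖ ^ j := pow_pos q0 j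
  have notK : ∀ z, Far T (‖T‖ ^ j) z → z ∉ Finf T := fun z hz h => by
    have := hz z h
    rw [sub_self, norm_zero] at this
    linarith
  have fac : ∀ z, Far T (‖T‖ ^ j) z → ∀ g : Γ, phi g.1.1 p w z1 (mob γ.1 z) =
      LL (M g).1 p z / (z - mob (M g).1 w) *
        (LL g.1.1 ![w, 1] z1 / (den (M g).1 w * LL g.1.1 p z1)) := by
    intro z hz g
    have h1 : den γ.1 z ≠ 0 := L.mb.den_ne (glMK T γ (di.ga.mem _ hγ)) z (notK z hz)
    have h2 := LL_mob γ.1 (M g).1 p z (di.ga.det _ hγ) h1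
    have h3 := LL_mob γ.1 (M g).1 ![w, 1] z (di.ga.det _ hγ) h1
    rw [← Mval] at h2 h3
    unfold phi
    rw [h2, h3, LL_w _ _ _ (dne g)]
    field_simp
  obtain ⟨z0, w0, z0', ho, -⟩ := L.orth.ex
  have hg := (L.gen _ _ ho).1
  have hz' : Far T (‖T‖ ^ j) (T ^ j * w0) := fun y hy => by
    rw [sub_eq_add_neg, fy.gen w0 hg _ (pow_mem fy.memT j) _ (neg_mem hy), norm_pow]
    exact le_max_left _ _
  set z' := T ^ j * w0 with hz'd
  have omγ : ∀ z, Far T (‖T‖ ^ j) z → mob γ.1 z ∉ Finf T := fun z hz =>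
    L.mb.om (glMK T γ (di.ga.mem _ hγ)) z (notK z hz)
  have sne : ∀ z, Far T (‖T‖ ^ j) z → ∀ g : Γ, 0 < ‖z - mob (M g).1 w‖ := fun z hz g =>
    rpos.trans_le (key _ hj.1.1 hj.1.2 z hz g).1
  have thne : th Γ p w z1 (mob γ.1 z') ≠ 0 := by
    refine H92.Prod.tprod_ne_zero ?_ fun g => ?_
    · obtain ⟨m, hm⟩ := fy.exh _ (omγ z' hz')
      rw [Metric.tendsto_nhds]
      intro ε hε
      filter_upwards [(tt Γ K p x w z1 hD).2 m (ε / 2) (half_pos hε)] with g hg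
      rw [dist_eq_norm]
      exact (hg.2 _ hm).trans_lt (half_lt_self hε)
    · obtain ⟨h1, h2⟩ := (tt Γ K p x w z1 hD).1 g
      rw [fac z' hz' g]
      refine mul_ne_zero (div_ne_zero ?_ (norm_pos_iff.1 (sne z' hz' g)))
        (div_ne_zero h2 (mul_ne_zero (dne g) h1))
      by_cases h0 : (M g).1.mulVec p 1 = 0
      · intro h3
        apply h1
        have h4 : (M g).1.mulVec p = 0 := by
          unfold LL at h3
          rw [h0, mul_zero, zero_sub, neg_eq_zero] at h3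
          ext i
          fin_cases i
          exacts [h3, h0]
        unfold LL
        rw [Mval, ← Matrix.mulVec_mulVec, h4]
        simp
      · rw [← norm_ne_zero_iff, (key _ hj.1.1 hj.1.2 z' hz' g).2 h0]
        exact mul_ne_zero (norm_ne_zero_iff.2 h0) (sne z' hz' g).ne'
  have ratio : ∀ z, Far T (‖T‖ ^ j) z → ∀ R : ℝ, HasProd (fun g : Γ =>
      if g.1 • x = γ • ∞ then ‖z' - mob (M g).1 w‖ / ‖z - mob (M g).1 w‖ else 1) R →
      ‖th Γ p w z1 (mob γ.1 z)‖ = R * ‖th Γ p w z1 (mob γ.1 z')‖ := by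
    intro z hz R hR
    have h1 := ((ta Γ K p x w z1 hD).1 _ (omγ z hz)).norm
    have h2 := hR.mul ((ta Γ K p x w z1 hD).1 _ (omγ z' hz')).norm
    refine h1.unique (h2.congr_fun fun g => ?_)
    have s1 := (sne z hz g).ne'
    have s2 := (sne z' hz' g).ne'
    rw [fac z hz g, fac z' hz' g, norm_mul, norm_mul, norm_div (LL _ _ z), norm_div (LL _ _ z')]
    split_ifs with h
    · have h0 := (hp g).1.2 h
      unfold LL
      rw [h0, mul_zero, mul_zero]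
      field_simp
    · have h0 := mt (hp g).1.1 h
      rw [(key _ hj.1.1 hj.1.2 z hz g).2 h0, (key _ hj.1.1 hj.1.2 z' hz' g).2 h0]
      field_simp
  have pw : pt Γ w (γ • ∞) = 0 := by
    refine Set.indicator_of_notMem ?_ _
    rintro ⟨g, h1, h2⟩
    rw [mo.smul _ (hD.setup.disc.mem _ h1) w hD.hw] at h2
    exact di.notcusp γ hγ _ (L.mb.om (toMK hD.setup.disc ⟨g, h1⟩) w hD.hw) h2.symm
  have tpos := norm_pos_iff.2 thne
  by_cases hx : ∃ g : Γ, g.1 • x = γ • ∞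
  · have px : pt Γ x (γ • ∞) = 1 :=
      Set.indicator_of_mem (s := {t | ∃ g ∈ Γ, g • x = t})
        ⟨hx.choose.1, hx.choose.2, hx.choose_spec⟩ _
    have e0 := hg0 hx
    have xpos := norm_pos_iff.2 (ep.ne _ hl z' (notK z' hz'))
    rw [Pi.sub_apply, px, pw, sub_zero]
    refine ⟨‖T‖ ^ j, ‖ex (Lam Γ γ) z'‖ * ‖th Γ p w z1 (mob γ.1 z')‖,
      ‖ex (Lam Γ γ) z'‖ * ‖th Γ p w z1 (mob γ.1 z')‖, mul_pos xpos tpos, fun z hz => ?_⟩
    let ι : Lam Γ γ → Γ := fun b => ⟨_, b.2⟩ * g0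
    have hι : ∀ b, γ⁻¹ * (ι b).1 = upperRightHom b.1 * (γ⁻¹ * g0.1) := fun b => by
      change γ⁻¹ * (γ * upperRightHom b.1 * γ⁻¹ * g0.1) = _
      group
    have hinj : Function.Injective ι := fun b b' h => by
      have h1 := hι b
      rw [h, hι] at h1
      exact Subtype.ext (injective_upperRightHom (mul_right_cancel h1)).symm
    have hin : ∀ b, (ι b).1 • x = γ • ∞ := fun b => by
      rw [← inv_smul_eq_iff, ← mul_smul, hι, mul_smul, mul_smul, e0, inv_smul_smul]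
      exact smul_infty_eq_self_iff.2 (by simp)
    have hout : ∀ g : Γ, g.1 • x = γ • ∞ → g ∈ Set.range ι := fun g h => by
      have h1 : γ⁻¹ * (g.1 * g0.1⁻¹) * γ ∈ GA T :=
        mul_mem (mul_mem (inv_mem hγ) (hle (mul_mem g.2 (inv_mem g0.2)))) hγ
      have h2 : (γ⁻¹ * (g.1 * g0.1⁻¹) * γ) • (∞ : OnePoint C) = ∞ := by
        rw [mul_smul, mul_smul, mul_smul, ← e0, inv_smul_smul, h, ← e0, inv_smul_eq_iff, e0]
      have h3 := di.tri _ h1 (smul_infty_eq_self_iff.1 h2)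
      have h4 : γ * upperRightHom ((γ⁻¹ * (g.1 * g0.1⁻¹) * γ).1 0 1) * γ⁻¹ = g.1 * g0.1⁻¹ := by
        rw [← h3]
        group
      refine ⟨⟨(γ⁻¹ * (g.1 * g0.1⁻¹) * γ).1 0 1, ?_⟩, Subtype.ext ?_⟩
      · change _ ∈ Γ
        rw [h4]
        exact mul_mem g.2 (inv_mem g0.2)
      · change γ * upperRightHom _ * γ⁻¹ * g0.1 = g.1
        rw [h4, inv_mul_cancel_right]
    have sh : ∀ y, Far T (‖T‖ ^ j) y → ∀ b, ‖y - mob (M (ι b)).1 w‖ = ‖y - b.1‖ := fun y hy b => by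
      have h1 : (M (ι b)).1 = !![1, b.1; 0, 1] * (M g0).1 := congrArg Units.val (hι b)
      have h2 : mob (M (ι b)).1 w = mob (M g0).1 w + b.1 := by
        have h3 := dne g0
        rw [h1]
        unfold den at h3
        unfold mob
        simp only [Matrix.mul_apply, Fin.sum_univ_two, Matrix.of_apply, Matrix.cons_val',
          Matrix.cons_val_zero, Matrix.cons_val_one, Matrix.cons_val_fin_one, one_mul, zero_mul,
          zero_add]
        field_simp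
        ring
      rw [h2, show y - (mob (M g0).1 w + b.1) = y - b.1 + -mob (M g0).1 w by ring]
      exact norm_add_lt (by rw [norm_neg]; exact hj.2.trans_le (hy _ (hl.mem _ b.2)))
    have h1 := ratio z hz (‖ex (Lam Γ γ) z'‖ / ‖ex (Lam Γ γ) z‖) (by
      rw [← hinj.hasProd_iff fun g hg => if_neg fun h => hg (hout g h)]
      refine (ep.prod _ hl z' (notK z' hz') z (notK z hz)).congr_fun fun b => ?_
      simp only [Function.comp_apply, if_pos (hin b), sh z hz, sh z' hz'])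
    have h2 := norm_ne_zero_iff.2 (ep.ne _ hl z (notK z hz))
    have h3 : ‖th Γ p w z1 (mob γ.1 z)‖ * ‖ex (Lam Γ γ) z‖ ^ (1 : ℤ) =
        ‖ex (Lam Γ γ) z'‖ * ‖th Γ p w z1 (mob γ.1 z')‖ := by
      rw [h1, zpow_one]
      field_simp
    exact ⟨h3.ge, h3.le⟩
  · have px : pt Γ x (γ • ∞) = 0 :=
      Set.indicator_of_notMem (s := {t | ∃ g ∈ Γ, g • x = t})
        (fun ⟨g, h1, h2⟩ => hx ⟨⟨g, h1⟩, h2⟩) _
    rw [Pi.sub_apply, px, pw, sub_zero]
    refine ⟨‖T‖ ^ j, _, ‖th Γ p w z1 (mob γ.1 z')‖, tpos, fun z hz => ?_⟩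
    have h1 := ratio z hz 1 (by
      exact hasProd_one.congr_fun fun g => if_neg fun h => hx ⟨g, h⟩)
    simp only [h1, one_mul, zpow_zero, mul_one]
    exact ⟨le_rfl, le_rfl⟩

end Pool.Agent.MP_a88b1d_nt.RTHC
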