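import Pool.Agent.MP_a88b1d_nt.H93R.THA

/-! Rows THT and TH: convergence of the theta product, and functions with given divisor. -/

open Polynomial OnePoint Filter Topology

noncomputable section

namespace Pool.Agent.MP_a88b1d_nt.RTHT

open Pool.Agent.MP_a88b1d_nt.St2
open Pool.Agent.MP_a88b1d_nt.P2
open Pool.Agent.MP_a88b1d_nt.H42 (A M2 MK nrm den QQ Gbar cls toM)

variable {C : Type} [NontriviallyNormedField C]

theorem LL_eq (g : M2 C) (w z : C) : LL g ![w, 1] z = QQ g z w := by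
  unfold LL QQ
  rw [Matrix.mulVec_fin_two]
  simp

theorem vec_ne {g : M2 C} (hd : g.det = 1) {p : Fin 2 → C} (hp : p 0 ≠ 0 ∨ p 1 ≠ 0)
    (h1 : g.mulVec p 1 = 0) : g.mulVec p 0 ≠ 0 := by
  intro h0
  rw [Matrix.det_fin_two] at hd
  rw [Matrix.mulVec_fin_two] at h0 h1
  simp only [Matrix.cons_val_zero, Matrix.cons_val_one] at h0 h1
  rcases hp with hp | hp
  · exact hp (by linear_combination g 1 1 * h0 - g 0 1 * h1 - p 0 * hd)
  · exact hp (by linear_combination g 0 0 * h1 - g 1 0 * h0 - p 1 * hd)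

theorem cross {g : M2 C} (hd : g.det = 1) (p : Fin 2 → C) (w z1 z : C) :
    LL g p z * LL g ![w, 1] z1 - LL g ![w, 1] z * LL g p z1 = (z - z1) * (p 0 - w * p 1) := by
  rw [Matrix.det_fin_two] at hd
  unfold LL
  rw [Matrix.mulVec_fin_two, Matrix.mulVec_fin_two]
  simp only [Matrix.cons_val_zero, Matrix.cons_val_one]
  linear_combination (z - z1) * (p 0 - w * p 1) * hd

theorem col_ne (γ : GL (Fin 2) C) : γ.1 0 0 ≠ 0 ∨ γ.1 1 0 ≠ 0 := by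
  by_contra h
  obtain ⟨h0, h1⟩ := not_or.1 h
  refine (Matrix.isUnits_det_units γ).ne_zero ?_
  rw [Matrix.det_fin_two, not_not.1 h0, not_not.1 h1]
  ring

variable [DecidableEq C]

theorem pt_zero {Γ : Subgroup (GL (Fin 2) C)} {x t : OnePoint C} :
    pt Γ x t = 0 ↔ ∀ g ∈ Γ, g • x ≠ t := by
  unfold pt
  rw [Set.indicator_apply_eq_zero]
  constructor
  · intro h g hg e
    exact one_ne_zero (h ⟨g, hg, e⟩)
  · rintro h ⟨g, hg, e⟩
    exact absurd e (h g hg)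

theorem LL_ne {Γ : Subgroup (GL (Fin 2) C)} (g : Γ) (hd : g.1.1.det = 1) {p : Fin 2 → C}
    (hp : p 0 ≠ 0 ∨ p 1 ≠ 0) {x : OnePoint C} {z1 : C} (hx : g.1 • x = if g.1.1.mulVec p 1 = 0
      then ∞ else ((g.1.1.mulVec p 0 / g.1.1.mulVec p 1 : C) : OnePoint C))
    (h : pt Γ x z1 = 0) : LL g.1.1 p z1 ≠ 0 := by
  intro e
  unfold LL at e
  by_cases h1 : g.1.1.mulVec p 1 = 0
  · refine vec_ne hd hp h1 ?_
    rwa [h1, mul_zero, zero_sub, neg_eq_zero] at e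
  · refine pt_zero.1 h g.1 g.2 ?_
    rw [hx, if_neg h1, OnePoint.coe_eq_coe, div_eq_iff h1]
    exact (sub_eq_zero.1 e).symm

variable [Algebra (ZMod 2) C]

omit [DecidableEq C] in
theorem col_ge {T : C} (fy : FY T) {γ : GL (Fin 2) C} (hγ : γ ∈ GA T) :
    1 ≤ max ‖γ.1 1 0‖ ‖-γ.1 0 0‖ := by
  have hne := col_ne γ
  obtain ⟨δ, rfl⟩ := hγ
  have e : ∀ i j, (ev T δ).1 i j = aeval T (δ.1 i j) := fun _ _ => rfl
  rw [norm_neg]
  simp only [e] at hne ⊢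
  rcases hne with h | h
  · exact le_max_of_le_right (fy.one_le _ fun h0 => h (by rw [h0, map_zero]))
  · exact le_max_of_le_left (fy.one_le _ fun h0 => h (by rw [h0, map_zero]))

theorem row : OfTHT := by
  intro C _ _ _ _ _ _ T hT L fy ho mo di Γ K p x w z1 hD
  have h := hD.setup.disc
  have hq : 0 < ‖T‖ := by linarith
  have hne : ∀ g : Γ, LL g.1.1 p z1 ≠ 0 ∧ LL g.1.1 ![w, 1] z1 ≠ 0 := by
    intro g
    refine ⟨?_, LL_ne g (h.det g.1 g.2) (Or.inr (by simp)) (RTHA.smul_pt _ _) hD.offw⟩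
    rcases hD.vec with ⟨z, -, rfl, rfl⟩ | ⟨γ, -, rfl, rfl⟩
    · exact LL_ne g (h.det g.1 g.2) (Or.inr (by simp)) (RTHA.smul_pt _ _) hD.offx
    · exact LL_ne g (h.det g.1 g.2) (col_ne γ) (RTHA.smul_cusp _ _) hD.offx
  refine ⟨hne, fun n ε hε => ?_⟩
  obtain ⟨n1, h1⟩ := fy.exh z1 hD.hz
  obtain ⟨n2, h2⟩ := fy.exh w hD.hw
  have low : ∃ n3, ∀ N, n1 ≤ N → n3 ≤ N → ∀ g : Γ, ‖T‖ ^ (4 * N) < nrm g.1.1 →
      1 ≤ ‖T‖ ^ (2 * N) * ‖LL g.1.1 p z1‖ := by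
    rcases hD.vec with ⟨z, hz, rfl, rfl⟩ | ⟨γ, hγ, rfl, rfl⟩
    · obtain ⟨n3, h3⟩ := fy.exh z hz
      refine ⟨n3, fun N k1 k3 g hg => ?_⟩
      have a1 := mo.ql (toMK h g) N (h.det g.1 g.2) hg z1 (fy.mono _ _ k1 h1) z
        (fy.mono _ _ k3 h3)
      rw [toMK_val, ← LL_eq] at a1
      have a2 : 1 ≤ ‖LL g.1.1 ![z, 1] z1‖ :=
        le_of_mul_le_mul_left (by linarith) (pow_pos hq (4 * N))
      exact one_le_mul_of_one_le_of_one_le (one_le_pow₀ hT.le) a2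
    · refine ⟨0, fun N k1 _ g _ => ?_⟩
      have a1 : g.1 * γ ∈ GA T :=
        mul_mem (hD.setup.le ⟨γ, hγ⟩ g.2) (hD.setup.cusp γ hγ)
      have a2 := fy.lin N z1 (fy.mono _ _ k1 h1) _ (di.ga.mem _ a1 1 0) _
        (neg_mem (di.ga.mem _ a1 0 0))
      have a3 : LL g.1.1 (fun i => γ.1 i 0) z1 = (g.1 * γ).1 1 0 * z1 + -(g.1 * γ).1 0 0 := by
        unfold LL
        rw [Matrix.mulVec_fin_two]
        simp only [Units.val_mul, Matrix.mul_apply, Fin.sum_univ_two, Matrix.cons_val_zero,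
          Matrix.cons_val_one]
        ring
      rw [a3]
      exact (col_ge fy a1).trans a2
  obtain ⟨n3, low⟩ := low
  obtain ⟨N, k0, k1, k2, k3⟩ : ∃ N, n ≤ N ∧ n1 ≤ N ∧ n2 ≤ N ∧ n3 ≤ N :=
    ⟨n + n1 + n2 + n3, by omega, by omega, by omega, by omega⟩
  set B := 2 * ‖T‖ ^ N * ‖p 0 - w * p 1‖ with hB
  have hB0 : 0 ≤ B := by positivity
  filter_upwards [(h.fin (max (‖T‖ ^ (4 * N))
    (B * ‖T‖ ^ (2 * N) * ‖T‖ ^ (4 * N) / ε))).compl_mem_cofinite] with g hg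
  have hg' : ¬ nrm g.1.1 ≤ max (‖T‖ ^ (4 * N)) (B * ‖T‖ ^ (2 * N) * ‖T‖ ^ (4 * N) / ε) := hg
  obtain ⟨g1, g2⟩ := max_lt_iff.1 (not_le.1 hg')
  have l1 := low N k1 k3 g g1
  have l2 : ∀ z ∈ Om T n, nrm g.1.1 ≤ ‖T‖ ^ (4 * N) * ‖LL g.1.1 ![w, 1] z‖ := fun z hz => by
    rw [LL_eq]
    exact mo.ql (toMK h g) N (h.det g.1 g.2) g1 z (fy.mono _ _ k0 hz) w (fy.mono _ _ k2 h2)
  have l3 : ∀ z ∈ Om T n, LL g.1.1 ![w, 1] z ≠ 0 := fun z hz e => by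
    have := l2 z hz
    rw [e, norm_zero, mul_zero] at this
    linarith [pow_pos hq (4 * N)]
  have ee : ∀ (v : Fin 2 → C) (c z : C), ((X * Polynomial.C (g.1.1.mulVec v 1) -
      Polynomial.C (g.1.1.mulVec v 0)) * Polynomial.C c).eval z = LL g.1.1 v z * c := by
    intro v c z
    simp only [LL, eval_mul, eval_sub, eval_X, eval_C]
  constructor
  · refine ho.congr _ _ _ (ho.rat (Om T n)
      ((X * Polynomial.C (g.1.1.mulVec p 1) - Polynomial.C (g.1.1.mulVec p 0)) *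
        Polynomial.C (LL g.1.1 ![w, 1] z1))
      ((X * Polynomial.C (g.1.1.mulVec ![w, 1] 1) - Polynomial.C (g.1.1.mulVec ![w, 1] 0)) *
        Polynomial.C (LL g.1.1 p z1)) fun z hz => ?_) fun z _ => ?_
    · rw [ee]
      exact mul_ne_zero (l3 z hz) (hne g).1
    · rw [ee, ee, phi]
  · intro z hz
    have d0 := mul_ne_zero (l3 z hz) (hne g).1
    rw [phi, div_sub_one d0, cross (h.det g.1 g.2), norm_div, div_le_iff₀ (norm_pos_iff.2 d0),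
      norm_mul, norm_mul]
    have b1 : ‖z - z1‖ ≤ 2 * ‖T‖ ^ N := by
      linarith [norm_sub_le z z1, (fy.mono _ _ k0 hz).1, (fy.mono _ _ k1 h1).1]
    have b2 : ‖z - z1‖ * ‖p 0 - w * p 1‖ ≤ B := mul_le_mul_of_nonneg_right b1 (norm_nonneg _)
    have b3 : B * ‖T‖ ^ (2 * N) * ‖T‖ ^ (4 * N) ≤
        ‖T‖ ^ (4 * N) * ‖LL g.1.1 ![w, 1] z‖ * ε :=
      ((div_lt_iff₀ hε).1 (g2.trans_le (l2 z hz))).le
    have b4 : B * ‖T‖ ^ (2 * N) ≤ ‖LL g.1.1 ![w, 1] z‖ * ε :=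
      le_of_mul_le_mul_left (by linarith) (pow_pos hq (4 * N))
    have b5 := mul_le_mul_of_nonneg_left l1 hB0
    have b6 := mul_le_mul_of_nonneg_right b4 (norm_nonneg (LL g.1.1 p z1))
    linarith

/-- the theta function has a multiplier and the expected divisor -/
theorem theta {T : C} (L : LIB T) (di : DISC T) (ta : THA T) (tc : THC T)
    {Γ : Subgroup (GL (Fin 2) C)} {K : Set (GL (Fin 2) C)} {p : Fin 2 → C} {x : OnePoint C}
    {w z1 : C} (hD : ThD T Γ K p x w z1) : ∃ χ : Γ →* Cˣ,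
      MF T Γ K χ (th Γ p w z1) (pt Γ x - pt Γ w) ∧
        ∀ b : Γ, (χ b : C) = th Γ p w z1 (mob b.1.1 z1) := by
  obtain ⟨-, a2, a3, a4⟩ := ta Γ K p x w z1 hD
  have h := hD.setup.disc
  have hx : x ∈ Pts T K := by
    rcases hD.vec with ⟨z, hz, -, e⟩ | ⟨γ, hγ, -, e⟩
    · exact Or.inl ⟨z, hz, e⟩
    · exact Or.inr ⟨γ, hγ, e⟩
  have off : ∀ y ∈ Pts T K, ∀ t ∉ Pts T K, pt Γ y t = 0 := fun y hy t ht =>
    pt_zero.2 fun g hg e => ht (e ▸ di.ptsinv Γ K hD.setup y hy g hg)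
  refine ⟨MonoidHom.mk' (fun b => Units.mk0 _ (a4 b)) fun a b => Units.ext ?_,
    ⟨(isDiv_iff _ _ _ _ _).2 ⟨a2, tc Γ K p x w z1 hD, fun t ht => ?_⟩, a3⟩, fun _ => rfl⟩
  · have e : mob (a * b).1.1 z1 = mob a.1.1 (mob b.1.1 z1) :=
      L.mb.mul (toMK h a) (toMK h b) z1 hD.hz
    rw [Units.val_mul, Units.val_mk0, Units.val_mk0, Units.val_mk0, e]
    exact a3 a _ (L.mb.om (toMK h b) z1 hD.hz)
  · rw [Pi.sub_apply, off x hx t ht, off w (Or.inl ⟨w, hD.hw, rfl⟩) t ht, sub_zero]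

theorem row2 : OfTH := by
  intro C _ _ _ _ _ _ T hT L mo di mf ta tc
  constructor
  · intro Γ K hs D hD
    obtain ⟨w, hw, -⟩ := di.base Γ hs.disc ∞ ∞
    have one : ∀ x ∈ Pts T K, ∃ χ f, MF T Γ K χ f (pt Γ x - pt Γ w) := by
      intro x hx
      obtain ⟨z1, hz, o1, o2⟩ := di.base Γ hs.disc x w
      rcases hx with ⟨z, h1, e⟩ | ⟨γ, h1, e⟩
      · obtain ⟨χ, h2, -⟩ := theta L di ta tc ⟨hs, Or.inl ⟨z, h1, rfl, e⟩, hw, hz, o1, o2⟩
        exact ⟨χ, _, h2⟩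
      · obtain ⟨χ, h2, -⟩ := theta L di ta tc ⟨hs, Or.inr ⟨γ, h1, rfl, e⟩, hw, hz, o1, o2⟩
        exact ⟨χ, _, h2⟩
    rw [div0_eq] at hD
    induction hD using AddSubgroup.closure_induction with
    | mem D hD =>
      obtain ⟨x, hx, y, hy, rfl⟩ := hD
      obtain ⟨χ, f, h1⟩ := one x hx
      obtain ⟨χ', f', h2⟩ := one y hy
      have h3 := mf.mul _ _ _ _ _ _ _ _ hs h1 (mf.inv _ _ _ _ _ hs h2)
      rw [← sub_eq_add_neg, sub_sub_sub_cancel_right] at h3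
      exact ⟨_, _, h3⟩
    | zero => exact ⟨_, _, mf.one Γ K hs⟩
    | add D D' _ _ h1 h2 =>
      obtain ⟨χ, f, h1⟩ := h1
      obtain ⟨χ', f', h2⟩ := h2
      exact ⟨_, _, mf.mul _ _ _ _ _ _ _ _ hs h1 h2⟩
    | neg D _ h1 =>
      obtain ⟨χ, f, h1⟩ := h1
      exact ⟨_, _, mf.inv _ _ _ _ _ hs h1⟩
  · intro Γ h a
    obtain ⟨⟨w, z, hwz⟩, H⟩ := L.per Γ (toMK h) (di.good Γ h)
    obtain ⟨χ, hper, hn⟩ := (H w z hwz).1 a
    obtain ⟨hw, hz, hadm⟩ := hwz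
    have ha : mob a.1.1 w ∉ Finf T := L.mb.om (toMK h a) w hw
    have e1 : pt Γ ((mob a.1.1 w : C) : OnePoint C) = pt Γ w := by
      rw [← mo.smul a.1 (h.mem a.1 a.2) w hw]
      exact (di.ptinv Γ w w a.1 a.2).1
    have o1 : pt Γ (w : OnePoint C) z = 0 := pt_zero.2 fun g hg e => by
      rw [mo.smul g (h.mem g hg) w hw, OnePoint.coe_eq_coe] at e
      exact hadm ⟨g, hg⟩ e
    have hD : ThD T Γ ∅ ![w, 1] w (mob a.1.1 w) z :=
      ⟨di.setD Γ h, Or.inl ⟨w, hw, rfl, rfl⟩, ha, hz, o1, by rw [e1, o1]⟩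
    obtain ⟨c, h1, h2⟩ := theta L di ta tc hD
    rw [e1, sub_self] at h1
    refine ⟨c, _, χ, h1, fun b => Units.ext ?_, hn⟩
    rw [h2]
    refine ((ta _ _ _ _ _ _ hD).1 _ (L.mb.om (toMK h b) z hz)).unique ?_
    have e2 : (fun g : Γ => phi g.1.1 ![w, 1] (mob a.1.1 w) z (mob b.1.1 z)) = fun g : Γ =>
        (mob b.1.1 z - mob g.1.1 w) * (z - mob (g * a).1.1 w) /
          ((mob b.1.1 z - mob (g * a).1.1 w) * (z - mob g.1.1 w)) := by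
      funext g
      have e3 : mob (g * a).1.1 w = mob g.1.1 (mob a.1.1 w) :=
        L.mb.mul (toMK h g) (toMK h a) w hw
      have q1 : ∀ y, QQ g.1.1 y w = den g.1.1 w * (y - mob g.1.1 w) := fun y =>
        L.mb.qq (toMK h g) y w hw
      have q2 : ∀ y, QQ g.1.1 y (mob a.1.1 w) =
          den g.1.1 (mob a.1.1 w) * (y - mob g.1.1 (mob a.1.1 w)) := fun y =>
        L.mb.qq (toMK h g) y _ ha
      have d0 : den g.1.1 w * den g.1.1 (mob a.1.1 w) ≠ 0 :=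
        mul_ne_zero (L.mb.den_ne (toMK h g) w hw) (L.mb.den_ne (toMK h g) _ ha)
      rw [phi, LL_eq, LL_eq, LL_eq, LL_eq, q1, q1, q2, q2, e3]
      refine Eq.trans ?_ (mul_div_mul_left _ _ d0)
      congr 1 <;> ring
    exact e2 ▸ hper b

end Pool.Agent.MP_a88b1d_nt.RTHT
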