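import Pool.Agent.MP_a88b1d_nt.H93.Spec3

/-! Row UN: multipliers of units. -/

open Polynomial OnePoint

namespace Pool.Agent.MP_a88b1d_nt.RUN

open Pool.Agent.MP_a88b1d_nt.St2 Pool.Agent.MP_a88b1d_nt.P2
open Pool.Agent.MP_a88b1d_nt.H42 (A M2 MK nrm dd st rG r0 Good Psi IsTree Orth)

variable {C : Type} [NontriviallyNormedField C]

theorem aff {T : C} (hT : 1 < ‖T‖) (hm : T ∈ Finf T) {y : C} (hy : y ∈ Finf T) (j : ℤ) :
    ∃ x : MK T, ∀ z, mob x.1 z = y + T ^ j * z := by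
  have h0 : T ≠ 0 := by
    rintro rfl
    simp only [norm_zero] at hT
    linarith
  refine ⟨⟨!![T ^ j, y; 0, 1], fun a b => ?_, ?_⟩, fun z => ?_⟩
  · fin_cases a <;> fin_cases b
    · exact zpow_mem hm j
    · exact hy
    · exact zero_mem _
    · exact one_mem _
  · simpa [Matrix.det_fin_two] using zpow_ne_zero j h0
  · simp [mob, add_comm]

theorem eD_zero [DecidableEq C] (Γ : Subgroup (GL (Fin 2) C)) (a : C) : eD Γ 0 a = 0 := by
  simp [eD]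

theorem row : OfUN := by
  intro C _ _ _ _ _ _ T hT L gr2 maxp fy hol uni nf mobn disc red norm pot potf
  obtain ⟨w0, z0, -, horth, -⟩ := L.orth.ex
  have hz0 : Gen z0 := (L.gen z0 w0 horth).1
  have hn0 : z0 ∉ Finf T := fy.notin 0 z0 (fy.gen_om z0 hz0)
  have hne : ∀ U : C → C, (∀ n, UnitOn (Om T n) U) → ∀ z ∉ Finf T, U z ≠ 0 := by
    intro U hU z hz
    obtain ⟨n, hn⟩ := fy.exh z hz
    exact (hU n).2.2 z hn
  refine ⟨?_, ?_, ?_⟩
  · intro Γ K η U0 hS hM0 σ hσ g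
    obtain ⟨U, hM, -, hU⟩ := norm.unit Γ K η U0 hS hM0
    obtain ⟨hσ', hF, -⟩ := hol.sigom σ hσ
    have hz1 : Gen (σ.symm z0) := ⟨by rw [hσ'.1, hz0.1], by
      rw [← map_one σ.symm, ← map_sub, hσ'.1, hz0.2]⟩
    have hn1 : σ.symm z0 ∉ Finf T := fy.notin 0 _ (fy.gen_om _ hz1)
    have hV : ∀ n, UnitOn (Om T n) fun z => σ (U (σ.symm z)) * (U z)⁻¹ := fun n =>
      uni.mul n _ _ (uni.sig σ hσ n U (hU n)) (uni.inv _ U (hU n))
    have h1 : ∀ y ∈ Finf T, ∀ j : ℤ,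
        ‖σ (U (σ.symm (y + T ^ j * z0))) * (U (y + T ^ j * z0))⁻¹‖ = 1 := by
      intro y hy j
      obtain ⟨x, hx⟩ := aff hT fy.memT hy j
      have e : σ.symm (y + T ^ j * z0) = y + T ^ j * σ.symm z0 := by
        rw [map_add, map_mul, hσ'.2 y hy, hσ'.2 _ (zpow_mem fy.memT j)]
      rw [e, norm_mul, norm_inv, hσ.1, ← hx, ← hx, pot.indep U hU _ _ hz1 hz0 x]
      exact mul_inv_cancel₀ (norm_ne_zero_iff.2 (hne U hU _ (L.mb.om x z0 hn0)))
    have h2 := nf.liou _ z0 hV hz0 (fun y hy j => by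
      have := h1 0 (zero_mem _) 0
      simp only [zpow_zero, one_mul, zero_add] at this
      rw [h1 y hy j, this]) _ (L.mb.om (toMK hS.disc g) z0 hn0) z0 hn0
    have h3 := (mobn.sig σ.symm hσ' g.1 (hS.disc.mem g.1 g.2)).1 z0
    rw [toMK_val] at h2
    simp only [h3, hM.aut g _ hn0, hM.aut g _ hn1, map_mul] at h2
    have a1 : σ (U (σ.symm z0)) ≠ 0 := by simpa using hne U hU _ hn1
    have a2 := hne U hU _ hn0
    have a3 : (η g : C) ≠ 0 := (η g).ne_zero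
    field_simp at h2
    exact h2
  · intro Γ h hc η U0 hM0 hη
    obtain ⟨U, hM, hSt, hU⟩ := norm.unit Γ ∅ η U0 (disc.setD Γ h) hM0
    obtain ⟨l, hP, -, hh, -⟩ := potf Γ ∅ η U 0 z0 w0 h (Or.inl ⟨rfl, h, hc⟩) horth hM hSt
      (fun γ hγ => absurd hγ (Set.notMem_empty _)) fun a _ ha => absurd (eD_zero Γ a) ha
    obtain ⟨N, hN⟩ := red.coc Γ h hc
    obtain ⟨M, -, hb⟩ := hol.bdd N U (hU N).1
    have hpos : 0 < ‖U z0‖ := norm_pos_iff.2 hP.ne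
    obtain ⟨B, hB⟩ := pow_unbounded_of_one_lt (M / ‖U z0‖) hT
    have hbd : ∀ x, l x ≤ B := by
      intro x
      have hx := L.mb.om x z0 hn0
      obtain ⟨g, hg, hg'⟩ := hN _ hx
      have h1 := hb _ hg'
      rw [hM.aut ⟨g, hg⟩ _ hx, norm_mul, hη, one_mul, hP.val, mul_comm,
        ← le_div_iff₀ hpos] at h1
      have h2 : ‖T‖ ^ l x < ‖T‖ ^ (B : ℤ) := by rw [zpow_natCast]; exact h1.trans_lt hB
      exact ((zpow_lt_zpow_iff_right₀ hT).1 h2).le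
    have hconst := maxp _ _ _ l L.tree.tree hP.congr hh ⟨B, hbd⟩
    have h1 : ∀ x : MK T, ‖U (mob x.1 z0)‖ = ‖U z0‖ := by
      intro x
      have e := hP.val 1
      rw [OneMemClass.coe_one, L.mb.one] at e
      rw [hP.val, hconst x 1, ← e]
    have h2 := nf.liou U z0 hU hz0 fun y hy j => by
      obtain ⟨x, hx⟩ := aff hT fy.memT hy j
      rw [← hx, h1]
    ext g
    have h3 := h2 _ (L.mb.om (toMK h g) z0 hn0) z0 hn0
    rw [toMK_val, hM.aut g _ hn0] at h3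
    simpa [hP.ne] using h3
  · intro n hn η U0 hM0
    have hS := disc.set0 n
    obtain ⟨U, hM, hSt, hU⟩ := norm.unit _ _ η U0 hS hM0
    obtain ⟨l, hP, hI, hh, -, hv⟩ := potf _ _ η U 0 z0 w0 hS.disc (Or.inr ⟨n, hn, rfl, rfl⟩) horth
      hM hSt (fun _ _ => rfl) fun a _ ha => absurd (eD_zero _ a) ha
    have tr : ∀ (μ : H42.Gam0 n) (g : G0 T n), g.1 = ev T μ.1 → toMK hS.disc g = r0 T n μ := by
      intro μ g e
      refine Subtype.ext ?_
      rw [toMK_val, e, H42.r0_eq, L.rg]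
    refine ⟨fun g => l (toMK hS.disc g), hv, fun μ g e hd => ?_⟩
    beta_reduce
    rw [tr μ g e]
    refine gr2 _ _ _ _ (r0 T n) l L.tree.tree (L.pm.good0 n).2
      (fun a ha => Subtype.ext (red.faith a.1 ha)) ⟨hI.congr, fun a x => ?_, ?_⟩ hh μ hd
    · rw [← tr a ⟨ev T a.1, a.1, a.2, rfl⟩ rfl]
      exact hI.add _ x
    · obtain ⟨R, hR⟩ := hI.fin
      refine ⟨R, fun x y h1 h2 => ?_⟩
      obtain ⟨⟨g, a, ha, e⟩, hg⟩ := hR x y h1 h2
      exact ⟨⟨a, ha⟩, by rwa [← tr ⟨a, ha⟩ ⟨g, a, ha, e⟩ e.symm]⟩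

end Pool.Agent.MP_a88b1d_nt.RUN
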