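import Pool.Agent.MP_a88b1d_nt.H93.Spec3
import Pool.Agent.MP_a88b1d_nt.H92.Prod

/-! Units of the rings of holomorphic functions on the affinoids. -/

open Polynomial Filter Topology

namespace Pool.Agent.MP_a88b1d_nt.RUNI

open Pool.Agent.MP_a88b1d_nt.St2 Pool.Agent.MP_a88b1d_nt.P2

variable {C : Type} [NontriviallyNormedField C]

theorem near {S : Set C} {f : C → C} {c : ℝ} (hc : 0 < c) (hf : HolOn S f)
    (h : ∀ z ∈ S, c ≤ ‖f z‖) {ε : ℝ} (hε : 0 < ε) : ∃ P Q : C[X], ∀ z ∈ S,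
      P.eval z ≠ 0 ∧ Q.eval z ≠ 0 ∧ ‖(f z)⁻¹ - Q.eval z / P.eval z‖ ≤ ε := by
  obtain ⟨P, Q, hPQ⟩ := hf (min (c / 2) (ε * (c * (c / 2)))) (lt_min (by positivity) (by positivity))
  refine ⟨P, Q, fun z hz => ?_⟩
  obtain ⟨hQ, h1⟩ := hPQ z hz
  have h2 := h z hz
  have h3 : c / 2 ≤ ‖P.eval z / Q.eval z‖ := by
    have := norm_sub_norm_le (f z) (P.eval z / Q.eval z)
    have := h1.trans (min_le_left _ _)
    linarith
  have h4 : P.eval z / Q.eval z ≠ 0 := norm_pos_iff.1 (lt_of_lt_of_le (by positivity) h3)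
  have h5 : f z ≠ 0 := norm_pos_iff.1 (hc.trans_le h2)
  refine ⟨fun h0 => h4 (by rw [h0, zero_div]), hQ, ?_⟩
  rw [← inv_div (P.eval z), inv_sub_inv h5 h4, norm_div, norm_mul, norm_sub_rev,
    div_le_iff₀ (mul_pos (norm_pos_iff.2 h5) (norm_pos_iff.2 h4))]
  refine (h1.trans (min_le_right _ _)).trans (mul_le_mul_of_nonneg_left ?_ hε.le)
  exact mul_le_mul h2 h3 (by positivity) (norm_nonneg _)

theorem ofle {S : Set C} {f : C → C} {c : ℝ} (hc : 0 < c) (hf : HolOn S f)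
    (h : ∀ z ∈ S, c ≤ ‖f z‖) : UnitOn S f := by
  refine ⟨hf, fun ε hε => ?_, fun z hz => norm_pos_iff.1 (hc.trans_le (h z hz))⟩
  obtain ⟨P, Q, hPQ⟩ := near hc hf h hε
  exact ⟨Q, P, fun z hz => ⟨(hPQ z hz).1, (hPQ z hz).2.2⟩⟩

theorem tail [IsUltrametricDist C] [CompleteSpace C] {ι : Type} {f : ι → C}
    (hf : Tendsto f cofinite (𝓝 1)) {s : Finset ι} {e : ℝ} (he : 0 < e) (he1 : e ≤ 1)
    (hs : ∀ i ∉ s, ‖f i - 1‖ < e) : ‖∏' i, f i - ∏ i ∈ s, f i‖ ≤ e * ‖∏ i ∈ s, f i‖ := by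
  classical
  have h : Tendsto (fun t : Finset ι => ∏ i ∈ t, f i) atTop (𝓝 (∏' i, f i)) :=
    (H92.Prod.multipliable hf).hasProd
  refine le_of_tendsto (h.sub_const (∏ i ∈ s, f i)).norm ?_
  filter_upwards [eventually_ge_atTop s] with t ht
  have e1 : ∀ a b : C, a * b - b = (a - 1) * b := fun a b => by ring
  rw [← Finset.prod_sdiff ht, e1, norm_mul]
  exact mul_le_mul_of_nonneg_right (H92.Prod.prod_sub_one f he he1 _
    fun i hi => hs i (Finset.mem_sdiff.1 hi).2).le (norm_nonneg _)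

variable {T : C}

theorem low (H : HOL T) (n : ℕ) (u : C → C) (hu : UnitOn (Om T n) u) :
    ∃ c : ℝ, 0 < c ∧ ∀ z ∈ Om T n, c ≤ ‖u z‖ := by
  obtain ⟨M, hM, h⟩ := H.bdd n _ hu.2.1
  refine ⟨M⁻¹, inv_pos.2 hM, fun z hz => ?_⟩
  have h1 := h z hz
  rw [Pi.inv_apply, norm_inv] at h1
  exact inv_le_of_inv_le₀ (norm_pos_iff.2 (hu.2.2 z hz)) h1

theorem const (H : HOL T) (S : Set C) (c : C) (hc : c ≠ 0) : UnitOn S fun _ => c :=
  ⟨H.const S c, H.const S c⁻¹, fun _ _ => hc⟩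

theorem mul (H : HOL T) (n : ℕ) (u v : C → C) (hu : UnitOn (Om T n) u) (hv : UnitOn (Om T n) v) :
    UnitOn (Om T n) fun z => u z * v z :=
  ⟨H.mul n _ _ hu.1 hv.1, H.congr _ _ _ (H.mul n _ _ hu.2.1 hv.2.1) fun z _ => by
    simp only [Pi.inv_apply, mul_inv], fun z hz => mul_ne_zero (hu.2.2 z hz) (hv.2.2 z hz)⟩

theorem inv (H : HOL T) (S : Set C) (u : C → C) (hu : UnitOn S u) : UnitOn S fun z => (u z)⁻¹ :=
  ⟨hu.2.1, H.congr _ _ _ hu.1 fun z _ => by simp only [Pi.inv_apply, inv_inv],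
    fun z hz => inv_ne_zero (hu.2.2 z hz)⟩

theorem pow (H : HOL T) (n k : ℕ) (u : C → C) (hu : UnitOn (Om T n) u) :
    UnitOn (Om T n) fun z => u z ^ k :=
  ⟨H.pow n k _ hu.1, H.congr _ _ _ (H.pow n k _ hu.2.1) fun z _ => by
    simp only [Pi.inv_apply, inv_pow], fun z hz => pow_ne_zero _ (hu.2.2 z hz)⟩

theorem prod (H : HOL T) (ι : Type) (n : ℕ) (s : Finset ι) (φ : ι → C → C)
    (h : ∀ i ∈ s, UnitOn (Om T n) (φ i)) : UnitOn (Om T n) fun z => ∏ i ∈ s, φ i z :=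
  ⟨H.prod ι n s φ fun i hi => (h i hi).1,
    H.congr _ _ _ (H.prod ι n s (fun i => (φ i)⁻¹) fun i hi => (h i hi).2.1) fun z _ => by
      simp only [Pi.inv_apply, Finset.prod_inv_distrib],
    fun z hz => Finset.prod_ne_zero_iff.2 fun i hi => (h i hi).2.2 z hz⟩

theorem tprod [IsUltrametricDist C] [CompleteSpace C] (H : HOL T) (ι : Type) (n : ℕ)
    (φ : ι → C → C) (h : ∀ i, UnitOn (Om T n) (φ i))
    (hc : ∀ ε : ℝ, 0 < ε → ∀ᶠ i in cofinite, ∀ z ∈ Om T n, ‖φ i z - 1‖ ≤ ε) :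
    UnitOn (Om T n) fun z => ∏' i, φ i z := by
  classical
  have hB : ∀ e : ℝ, 0 < e → ∃ s : Finset ι, ∀ i ∉ s, ∀ z ∈ Om T n, ‖φ i z - 1‖ < e := by
    intro e he
    have h1 := eventually_cofinite.1 (hc (e / 2) (by positivity))
    refine ⟨h1.toFinset, fun i hi z hz => ?_⟩
    rw [Set.Finite.mem_toFinset, Set.mem_ofPred_eq, not_not] at hi
    exact (hi z hz).trans_lt (by linarith)
  have ht : ∀ z ∈ Om T n, Tendsto (fun i => φ i z) cofinite (𝓝 1) := by
    intro z hz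
    refine Metric.tendsto_nhds.2 fun e he => ?_
    filter_upwards [hc (e / 2) (by positivity)] with i hi
    rw [dist_eq_norm]
    exact (hi z hz).trans_lt (by linarith)
  obtain ⟨B, hB1⟩ := hB 1 one_pos
  have hu := prod H ι n B φ fun i _ => h i
  obtain ⟨c, hc0, hc1⟩ := low H n _ hu
  obtain ⟨M, hM, hM1⟩ := H.bdd n _ hu.1
  refine ofle hc0 (H.lim _ _ fun ε hε => ?_) fun z hz => ?_
  · have hd : 0 < min 1 (ε / M) := lt_min one_pos (by positivity)
    obtain ⟨s, hs⟩ := hB _ hd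
    refine ⟨_, H.prod ι n (s ∪ B) φ fun i _ => (h i).1, fun z hz => ?_⟩
    refine (tail (ht z hz) hd (min_le_left _ _)
      fun i hi => hs i (fun h => hi (Finset.mem_union_left _ h)) z hz).trans ?_
    rw [H92.Prod.norm_prod_eq Finset.subset_union_right fun i hi => hB1 i hi z hz]
    refine (mul_le_mul (min_le_right _ _) (hM1 z hz) (norm_nonneg _) (by positivity)).trans ?_
    rw [div_mul_cancel₀ _ hM.ne']
  · rw [H92.Prod.norm_tprod (ht z hz) (s := B) fun i hi => hB1 i hi z hz, ← norm_prod]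
    exact hc1 z hz

theorem row : OfUNI := by
  intro C _ _ _ _ _ _ T hT _ F H
  have hq : 0 < ‖T‖ := one_pos.trans hT
  exact
    { ofle := fun n f c hc hf h => ofle hc hf h
      low := low H
      congr := fun S u v hu h => ⟨H.congr _ _ _ hu.1 h,
        H.congr _ _ _ hu.2.1 fun z hz => by simp only [Pi.inv_apply, h z hz],
        fun z hz => h z hz ▸ hu.2.2 z hz⟩
      mono := fun S S' u h hu =>
        ⟨H.mono _ _ _ h hu.1, H.mono _ _ _ h hu.2.1, fun z hz => hu.2.2 z (h hz)⟩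
      const := const H
      mul := mul H
      inv := inv H
      zpow := fun n k u hu => by
        rcases k with k | k
        · simpa using pow H n k u hu
        · simpa using inv H _ _ (pow H n (k + 1) u hu)
      prod := prod H
      lin := fun n a ha => by
        refine ofle (c := (‖T‖ ^ n)⁻¹) (by positivity)
          (H.congr _ _ _ (H.lin _ 1 (-a)) fun z _ => by ring) fun z hz => ?_
        have h1 : ¬ ‖T‖ ^ n * ‖a - z‖ < 1 := fun h => ha (F.stab n z hz a h)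
        rw [inv_le_iff_one_le_mul₀' (by positivity), norm_sub_rev]
        exact not_lt.1 h1
      den := fun n c hc d hd h => by
        have h0 : 0 < max ‖c‖ ‖d‖ := by
          rcases h with h | h
          · exact lt_max_of_lt_left (norm_pos_iff.2 h)
          · exact lt_max_of_lt_right (norm_pos_iff.2 h)
        refine ofle (c := max ‖c‖ ‖d‖ / ‖T‖ ^ (2 * n)) (by positivity) (H.lin _ c d)
          fun z hz => ?_
        rw [div_le_iff₀' (by positivity)]
        exact F.lin n z hz c hc d hd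
      comp := fun h n m u hm hu =>
        ⟨H.comp h n m u hm hu.1, H.comp h n m _ hm hu.2.1, fun z hz => hu.2.2 _ (hm z hz)⟩
      sig := fun σ hσ n u hu => ⟨H.sig σ hσ n u hu.1,
        H.congr _ _ _ (H.sig σ hσ n _ hu.2.1) fun z _ => by simp only [Pi.inv_apply, map_inv₀],
        fun z hz => (map_ne_zero σ).2 (hu.2.2 _
          (((H.sigom σ hσ).2.2 n (σ.symm z)).1 (by rwa [σ.apply_symm_apply])))⟩
      approx := fun n u hu ε hε => by
        obtain ⟨c, hc, h⟩ := low H n u hu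
        obtain ⟨M, hM, hM1⟩ := H.bdd n u hu.1
        obtain ⟨P, Q, hPQ⟩ := near hc hu.1 h (div_pos hε hM)
        refine ⟨P, Q, fun z hz => ⟨(hPQ z hz).1, (hPQ z hz).2.1, ?_⟩⟩
        have e : u z * Q.eval z / P.eval z - 1 = -(((u z)⁻¹ - Q.eval z / P.eval z) * u z) := by
          rw [sub_mul, inv_mul_cancel₀ (hu.2.2 z hz)]; ring
        rw [e, norm_neg, norm_mul]
        refine (mul_le_mul (hPQ z hz).2.2 (hM1 z hz) (norm_nonneg _) (by positivity)).trans ?_
        rw [div_mul_cancel₀ _ hM.ne']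
      tprod := tprod H }

end Pool.Agent.MP_a88b1d_nt.RUNI
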