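import Pool.Agent.MP_a88b1d_nt.H93.Spec3

/-! Factorisation of a holomorphic function on an affinoid. -/

open Polynomial Filter Topology

namespace Pool.Agent.MP_a88b1d_nt.RWF

open Pool.Agent.MP_a88b1d_nt.St2 Pool.Agent.MP_a88b1d_nt.P2

variable {C : Type} [NontriviallyNormedField C] [Algebra (ZMod 2) C] {T : C}

theorem pow_le_prod {d : ℝ} (hd : 0 < d) (hd1 : d ≤ 1) {Z : ℕ} (s : Multiset ℝ)
    (hs : Multiset.card s ≤ Z) (h : ∀ x ∈ s, d ≤ x) : d ^ Z ≤ s.prod := by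
  have h1 : d ^ Multiset.card s ≤ s.prod := by
    clear hs
    induction s using Multiset.induction_on with
    | empty => simp
    | cons a s ih =>
      rw [Multiset.card_cons, Multiset.prod_cons, pow_succ']
      have h2 := h a (Multiset.mem_cons_self a s)
      exact mul_le_mul h2 (ih fun x hx => h x (Multiset.mem_cons_of_mem hx)) (by positivity)
        (hd.le.trans h2)
  exact (pow_le_pow_of_le_one hd.le hd1 hs).trans h1

theorem step (hF : FY T) (hH : HOL T) (hL : LOW T) {n : ℕ} {h : C → C}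
    (hh : HolOn (Om T (n + 2)) h) {z0 : C} (hz0 : z0 ∈ Om T n) (h0 : h z0 ≠ 0) :
    ∃ (Z : ℕ) (c : ℝ), 0 < c ∧ ∀ d : ℝ, 0 < d → d ≤ 1 → ∀ z ∈ Om T n, ‖h z‖ < c * d ^ Z →
      ∀ ε : ℝ, 0 < ε → ∃ a ∈ Om T n, ‖z - a‖ < d ∧ ‖h a‖ ≤ ε := by
  classical
  obtain ⟨M, -, hM⟩ := hH.bdd (n + 2) h hh
  have hμ : 0 < ‖h z0‖ / 2 := half_pos (norm_pos_iff.2 h0)
  obtain ⟨Z, c, hc, hZ⟩ := hL n (M + 1) _ hμ
  have hsub := hF.mono n (n + 2) (by omega)
  refine ⟨Z, c, hc, fun d hd hd1 z hz hlt ε hε => ?_⟩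
  have hδ : 0 < (c * d ^ Z - ‖h z‖) / 2 := by linarith
  obtain ⟨P, Q, hPQ⟩ := hh (min (min 1 (‖h z0‖ / 2)) (min ε ((c * d ^ Z - ‖h z‖) / 2)))
    (lt_min (lt_min one_pos hμ) (lt_min hε hδ))
  simp only [le_min_iff] at hPQ
  have hup : ∀ w, ‖P.eval w / Q.eval w‖ ≤ ‖h w‖ + ‖h w - P.eval w / Q.eval w‖ := fun w => by
    have := norm_sub_le (h w) (h w - P.eval w / Q.eval w)
    rwa [sub_sub_cancel] at this
  have hlo : ‖h z0‖ / 2 ≤ ‖P.eval z0 / Q.eval z0‖ := by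
    have h1 := norm_sub_norm_le (h z0) (P.eval z0 / Q.eval z0)
    have h2 := (hPQ z0 (hsub hz0)).2.1.2
    linarith
  obtain ⟨h1, h2⟩ := hZ P Q (fun w hw => (hPQ w hw).1)
    (fun w hw => by linarith [hup w, hM w hw, (hPQ w hw).2.1.1]) ⟨z0, hz0, hlo⟩
  by_contra hn
  push Not at hn
  have h3 : d ^ Z ≤ ((rin T n P).map fun a => ‖z - a‖).prod := by
    refine pow_le_prod hd hd1 _ (by rwa [Multiset.card_map]) fun x hx => ?_
    obtain ⟨a, ha, rfl⟩ := Multiset.mem_map.1 hx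
    rw [rin, Multiset.mem_filter] at ha
    by_contra hlt'
    have h4 := hn a ha.2 (not_le.1 hlt')
    have h5 := (hPQ a (hsub ha.2)).2.2.1
    rw [(isRoot_of_mem_roots ha.1).eq_zero, zero_div, sub_zero] at h5
    linarith
  have h4 := mul_le_mul_of_nonneg_left h3 hc.le
  have h5 := h2 z hz
  have h6 := hup z
  have h7 := (hPQ z (hsub hz)).2.2.2
  linarith

theorem zero_or_low [CompleteSpace C] (hF : FY T) (hH : HOL T) (hL : LOW T) {n : ℕ} {h : C → C}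
    (hh : HolOn (Om T (n + 2)) h) {z0 : C} (hz0 : z0 ∈ Om T n) (h0 : h z0 ≠ 0) :
    (∃ c : ℝ, 0 < c ∧ ∀ z ∈ Om T n, c ≤ ‖h z‖) ∨ ∃ a ∈ Om T n, h a = 0 := by
  obtain ⟨Z, c, hc, hs⟩ := step hF hH hL hh hz0 h0
  by_cases hlow : ∀ z ∈ Om T n, c ≤ ‖h z‖
  · exact .inl ⟨c, hc, hlow⟩
  right
  push Not at hlow
  obtain ⟨w0, hw0, hw1⟩ := hlow
  have h1 : ∀ (j : ℕ) (z : C), ∃ a : C, z ∈ Om T n ∧ ‖h z‖ < c * ((1 / 2 : ℝ) ^ j) ^ Z →
      (a ∈ Om T n ∧ ‖h a‖ < c * ((1 / 2 : ℝ) ^ (j + 1)) ^ Z) ∧ ‖z - a‖ < (1 / 2 : ℝ) ^ j ∧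
        ‖h a‖ ≤ (1 / 2 : ℝ) ^ j := by
    intro j z
    by_cases hz : z ∈ Om T n ∧ ‖h z‖ < c * ((1 / 2 : ℝ) ^ j) ^ Z
    · have hp : 0 < c * ((1 / 2 : ℝ) ^ (j + 1)) ^ Z := by positivity
      obtain ⟨a, ha, h2, h3⟩ := hs _ (by positivity) (pow_le_one₀ (by norm_num) (by norm_num))
        z hz.1 hz.2 (min (c * ((1 / 2 : ℝ) ^ (j + 1)) ^ Z / 2) ((1 / 2 : ℝ) ^ j))
        (lt_min (half_pos hp) (by positivity))
      rw [le_min_iff] at h3
      exact ⟨a, fun _ => ⟨⟨ha, h3.1.trans_lt (half_lt_self hp)⟩, h2, h3.2⟩⟩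
    · exact ⟨z, fun h => absurd h hz⟩
  choose f hf using h1
  let x : ℕ → C := fun j => Nat.rec w0 f j
  have hx : ∀ j, x j ∈ Om T n ∧ ‖h (x j)‖ < c * ((1 / 2 : ℝ) ^ j) ^ Z := by
    intro j
    induction j with
    | zero => exact ⟨hw0, by rw [pow_zero, one_pow, mul_one]; exact hw1⟩
    | succ j ih => exact (hf j _ ih).1
  have hc' : CauchySeq x := cauchySeq_of_le_geometric (1 / 2) 1 (by norm_num) fun j => by
    rw [dist_eq_norm, one_mul]
    exact (hf j _ (hx j)).2.1.le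
  obtain ⟨a, ha⟩ := cauchySeq_tendsto_of_complete hc'
  have ha1 : a ∈ Om T n := (hF.omclosed n).mem_of_tendsto ha (Eventually.of_forall fun j => (hx j).1)
  have hcont : ContinuousAt h a := (hH.cont _ h hh).continuousAt
    ((hF.omopen _).mem_nhds (hF.mono n (n + 2) (by omega) ha1))
  have t1 : Tendsto (fun j => ‖h (x (j + 1))‖) atTop (𝓝 ‖h a‖) :=
    ((hcont.tendsto.comp ha).comp (tendsto_add_atTop_nat 1)).norm
  have t2 : Tendsto (fun j : ℕ => (1 / 2 : ℝ) ^ j) atTop (𝓝 0) :=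
    tendsto_pow_atTop_nhds_zero_of_lt_one (by norm_num) (by norm_num)
  exact ⟨a, ha1, norm_le_zero_iff.1 (le_of_tendsto_of_tendsto' t1 t2 fun j => (hf j _ (hx j)).2.2)⟩

theorem card_le (hF : FY T) (hH : HOL T) (hL : LOW T) {n : ℕ} {g : C → C}
    (hg : HolOn (Om T (n + 2)) g) {z0 : C} (hz0 : z0 ∈ Om T n) (h0 : g z0 ≠ 0) :
    ∃ Z : ℕ, ∀ (l : Multiset C) (h : C → C), (∀ a ∈ l, a ∈ Om T n) → HolOn (Om T (n + 2)) h →
      (∀ z ∈ Om T (n + 2), g z = h z * (l.map fun a => z - a).prod) → Multiset.card l ≤ Z := by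
  classical
  obtain ⟨M, -, hM⟩ := hH.bdd (n + 2) g hg
  have hμ : 0 < ‖g z0‖ / 2 := half_pos (norm_pos_iff.2 h0)
  obtain ⟨Z, c, -, hZ⟩ := hL n (M + 1) _ hμ
  have hsub := hF.mono n (n + 2) (by omega)
  refine ⟨Z, fun l h hl hh hgh => ?_⟩
  obtain ⟨R, hR⟩ : ∃ R : C[X], R = (l.map fun a => X - Polynomial.C a).prod := ⟨_, rfl⟩
  have hRe : ∀ z, R.eval z = (l.map fun a => z - a).prod := fun z => by
    rw [hR, eval_multiset_prod, Multiset.map_map]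
    simp
  obtain ⟨B, hB0, hB⟩ := hH.bdd (n + 2) _ (hH.poly _ R)
  have hm : 0 < min 1 (‖g z0‖ / 2) := lt_min one_pos hμ
  obtain ⟨P, Q, hPQ⟩ := hh (min 1 (‖g z0‖ / 2) / B) (div_pos hm hB0)
  have hap : ∀ w ∈ Om T (n + 2), ‖g w - (P * R).eval w / Q.eval w‖ ≤ min 1 (‖g z0‖ / 2) := by
    intro w hw
    have e : g w - (P * R).eval w / Q.eval w = (h w - P.eval w / Q.eval w) * R.eval w := by
      rw [hgh w hw, ← hRe, eval_mul]
      ring
    rw [e, norm_mul]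
    refine (mul_le_mul (hPQ w hw).2 (hB w hw) (norm_nonneg _) (div_pos hm hB0).le).trans_eq ?_
    exact div_mul_cancel₀ _ hB0.ne'
  simp only [le_min_iff] at hap
  have hlo : ‖g z0‖ / 2 ≤ ‖(P * R).eval z0 / Q.eval z0‖ := by
    have h1 := norm_sub_norm_le (g z0) ((P * R).eval z0 / Q.eval z0)
    have h2 := (hap z0 (hsub hz0)).2
    linarith
  have hne : P * R ≠ 0 := fun h => by
    rw [h, eval_zero, zero_div, norm_zero] at hlo
    linarith
  obtain ⟨h1, -⟩ := hZ (P * R) Q (fun w hw => (hPQ w hw).1) (fun w hw => by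
    have := norm_sub_le (g w) (g w - (P * R).eval w / Q.eval w)
    rw [sub_sub_cancel] at this
    linarith [hM w hw, (hap w hw).1]) ⟨z0, hz0, hlo⟩
  refine (Multiset.card_le_card ?_).trans h1
  rw [rin, Multiset.le_filter]
  refine ⟨?_, hl⟩
  rw [roots_mul hne, hR, roots_multiset_prod_X_sub_C]
  exact Multiset.le_add_left _ _

theorem row : OfWF := by
  intro C _ _ _ _ _ _ T _ _ hF hH hU hD hL n g hg ⟨z0, hz0, h0⟩
  have hsub := hF.mono n (n + 2) (by omega)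
  obtain ⟨Z, hZ⟩ := card_le hF hH hL hg hz0 h0
  by_contra hn
  have key : ∀ k : ℕ, ∃ (l : Multiset C) (h : C → C), Multiset.card l = k ∧
      (∀ a ∈ l, a ∈ Om T n) ∧ HolOn (Om T (n + 2)) h ∧
      ∀ z ∈ Om T (n + 2), g z = h z * (l.map fun a => z - a).prod := by
    intro k
    induction k with
    | zero => exact ⟨0, g, rfl, by simp, hg, by simp⟩
    | succ k ih =>
      obtain ⟨l, h, h1, h2, h3, h4⟩ := ih
      have h5 : h z0 ≠ 0 := fun h5 => h0 (by rw [h4 z0 (hsub hz0), h5, zero_mul])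
      rcases zero_or_low hF hH hL h3 hz0 h5 with ⟨c, hc, h6⟩ | ⟨a, ha, h6⟩
      · exact absurd ⟨l, h, h2, hU.ofle n h c hc (hH.mono _ _ h hsub h3) h6,
          fun z hz => h4 z (hsub hz)⟩ hn
      · obtain ⟨g1, h7, h8⟩ := hD (n + 2) h h3 a (hsub ha)
        refine ⟨a ::ₘ l, g1, by rw [Multiset.card_cons, h1], fun b hb => ?_, h7, fun z hz => ?_⟩
        · rcases Multiset.mem_cons.1 hb with rfl | hb
          · exact ha
          · exact h2 b hb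
        · have h9 := h8 z hz
          rw [h6, sub_zero] at h9
          rw [h4 z hz, h9, Multiset.map_cons, Multiset.prod_cons]
          ring
  obtain ⟨l, h, h1, h2, h3, h4⟩ := key (Z + 1)
  have := hZ l h h2 h3 h4
  omega

end Pool.Agent.MP_a88b1d_nt.RWF
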