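import Pool.Agent.MP_a88b1d_nt.H93.Spec3

/-! The field `F_∞` and the affinoids `Om T n`. -/

open Polynomial Filter Topology

namespace Pool.Agent.MP_a88b1d_nt.RFY

open Pool.Agent.MP_a88b1d_nt.St2 Pool.Agent.MP_a88b1d_nt.P2
open Pool.Agent.MP_a88b1d_nt.H42 (A)

variable {C : Type} [NontriviallyNormedField C] [IsUltrametricDist C]

theorem neq {a b : C} (h : ‖a - b‖ < ‖b‖) : ‖a‖ = ‖b‖ := by
  have := IsUltrametricDist.norm_add_eq_max_of_norm_ne_norm h.ne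
  rwa [sub_add_cancel, max_eq_right h.le] at this

theorem subm (a b : C) : ‖a - b‖ ≤ max ‖a‖ ‖b‖ := by
  simpa [sub_eq_add_neg] using IsUltrametricDist.norm_add_le_max a (-b)

omit [IsUltrametricDist C] in
theorem memT (T : C) : T ∈ Finf T :=
  Subfield.le_topologicalClosure _ (Subfield.subset_closure rfl)

theorem stab {T : C} (hT : 1 < ‖T‖) (n : ℕ) (z : C) (hz : z ∈ Om T n) (w : C)
    (h : ‖T‖ ^ n * ‖w - z‖ < 1) : w ∈ Om T n := by
  have e : ∀ x ∈ Finf T, ‖w - x‖ = ‖z - x‖ := fun x hx => neq (by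
    rw [sub_sub_sub_cancel_right]
    exact lt_of_mul_lt_mul_left (h.trans_le (hz.2 x hx)) (by positivity))
  refine ⟨?_, fun x hx => (e x hx).symm ▸ hz.2 x hx⟩
  have := e 0 (zero_mem _)
  rw [sub_zero, sub_zero] at this
  exact this ▸ hz.1

omit [IsUltrametricDist C] in
theorem ball {T : C} (hT : 1 < ‖T‖) (n : ℕ) {z w : C} (h : w ∈ Metric.ball z (‖T‖ ^ n)⁻¹) :
    ‖T‖ ^ n * ‖w - z‖ < 1 := by
  rwa [mem_ball_iff_norm, ← one_div, lt_div_iff₀' (by positivity)] at h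

theorem omopen {T : C} (hT : 1 < ‖T‖) (n : ℕ) : IsOpen (Om T n) :=
  Metric.isOpen_iff.2 fun z hz =>
    ⟨(‖T‖ ^ n)⁻¹, by positivity, fun w hw => stab hT n z hz w (ball hT n hw)⟩

theorem omclosed {T : C} (hT : 1 < ‖T‖) (n : ℕ) : IsClosed (Om T n) :=
  ⟨Metric.isOpen_iff.2 fun z hz => ⟨(‖T‖ ^ n)⁻¹, by positivity, fun w hw h =>
    hz (stab hT n w h z (ball hT n (Metric.mem_ball_comm.1 hw)))⟩⟩

theorem punct {T : C} (hT : 1 < ‖T‖) (n : ℕ) (z : C) (hz : z ∈ Om T n) (s : Finset C) :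
    ∀ᶠ w in 𝓝[≠] z, w ∈ Om T n ∧ w ∉ s := by
  have h : ∀ᶠ w in 𝓝[≠] z, ∀ a ∈ s, w ≠ a := (eventually_all_finset s).2 fun a _ => by
    rcases eq_or_ne z a with rfl | h
    · exact self_mem_nhdsWithin
    · exact (eventually_ne_nhds h).filter_mono nhdsWithin_le_nhds
  filter_upwards [h, nhdsWithin_le_nhds ((omopen hT n).mem_nhds hz)] with w h1 h2
  exact ⟨h2, fun hw => h1 w hw rfl⟩

theorem avoid [IsAlgClosed C] (s : Finset C) : ∃ z, Gen z ∧ ∀ a ∈ s, 1 ≤ ‖z - a‖ := by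
  classical
  let t := insert 0 (insert 1 (s.filter fun a => ‖a‖ ≤ 1))
  have ht : ∀ a ∈ t, ‖a‖ ≤ 1 := by simp [t]
  have h0 : (0 : C) ∈ t := by simp [t]
  obtain ⟨z, hz⟩ := IsAlgClosed.eval_surjective (p := ∏ a ∈ t, (X - Polynomial.C a))
    (by rw [natDegree_finsetProd_X_sub_C_eq_card]; exact Finset.card_ne_zero_of_mem h0) 1
  have hp : ∏ a ∈ t, ‖z - a‖ = 1 := by
    rw [← norm_prod, ← norm_one (α := C), ← hz]
    simp [eval_prod]
  have h1 : ‖z‖ ≤ 1 := by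
    by_contra h
    rw [not_le] at h
    rw [Finset.prod_congr rfl fun a ha => neq (a := z - a) (b := z) (by
      simpa using (ht a ha).trans_lt h), Finset.prod_const] at hp
    exact (one_lt_pow₀ h (Finset.card_ne_zero_of_mem h0)).ne' hp
  have h2 : ∀ a ∈ t, ‖z - a‖ ≤ 1 := fun a ha => (subm z a).trans (max_le h1 (ht a ha))
  have h3 : ∀ a ∈ t, ‖z - a‖ = 1 := fun a ha => by
    refine (h2 a ha).antisymm ?_
    rw [← hp, ← Finset.mul_prod_erase _ _ ha]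
    exact mul_le_of_le_one_right (norm_nonneg _) (Finset.prod_le_one (fun _ _ => norm_nonneg _)
      fun b hb => h2 b (Finset.mem_of_mem_erase hb))
  refine ⟨z, ⟨by simpa using h3 0 h0, h3 1 (by simp [t])⟩, fun a ha => ?_⟩
  by_cases h : ‖a‖ ≤ 1
  · exact (h3 a (by simp [t, ha, h])).ge
  · rw [norm_sub_rev, neq (a := a - z) (b := a) (by simpa using h1.trans_lt (not_le.1 h))]
    exact (not_le.1 h).le

theorem lin {T : C} (hT : 1 < ‖T‖) (n : ℕ) (z : C) (hz : z ∈ Om T n) (a : C) (ha : a ∈ Finf T)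
    (b : C) (hb : b ∈ Finf T) : max ‖a‖ ‖b‖ ≤ ‖T‖ ^ (2 * n) * ‖a * z + b‖ := by
  have h1 : 1 ≤ ‖T‖ ^ n := one_le_pow₀ hT.le
  have h2 : ‖a‖ ≤ ‖T‖ ^ n * ‖a * z + b‖ := by
    rcases eq_or_ne a 0 with rfl | h
    · rw [norm_zero]; positivity
    · rw [show a * z + b = a * (z - -b / a) by field_simp; ring, norm_mul, mul_left_comm]
      exact le_mul_of_one_le_right (norm_nonneg _) (hz.2 _ (div_mem (neg_mem hb) ha))
  have h3 := subm (a * z + b) (a * z)
  rw [add_sub_cancel_left, norm_mul] at h3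
  have h4 : 0 ≤ ‖T‖ ^ n * ‖a * z + b‖ := by positivity
  rw [two_mul, pow_add, mul_assoc]
  refine max_le (h2.trans (le_mul_of_one_le_left h4 h1)) (h3.trans (max_le ?_ ?_))
  · exact (le_mul_of_one_le_left (norm_nonneg _) h1).trans (le_mul_of_one_le_left h4 h1)
  · rw [mul_comm]
    exact mul_le_mul hz.1 h2 (norm_nonneg _) (by positivity)

theorem finite_deg (R : ℕ) : {f : A | f.natDegree ≤ R}.Finite := by
  have h1 : Finite (Polynomial.degreeLT (ZMod 2) (R + 1)) :=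
    Finite.of_equiv _ (Polynomial.degreeLTEquiv (ZMod 2) (R + 1)).toEquiv.symm
  refine (Set.toFinite ((Polynomial.degreeLT (ZMod 2) (R + 1) : Submodule (ZMod 2) A) :
    Set A)).subset fun f hf => ?_
  simp only [SetLike.mem_coe, Polynomial.mem_degreeLT]
  exact degree_le_natDegree.trans_lt (by exact_mod_cast Nat.lt_succ_of_le hf)

variable [Algebra (ZMod 2) C] {T : C} (hT : 1 < ‖T‖) (L : H42.LT T)

omit [IsUltrametricDist C] in
theorem memA (T : C) (f : A) : aeval T f ∈ Finf T := by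
  induction f using Polynomial.induction_on' with
  | add p q hp hq => rw [map_add]; exact add_mem hp hq
  | monomial n c =>
    rw [aeval_monomial]
    refine mul_mem ?_ (pow_mem (memT T) n)
    rw [← ZMod.intCast_zmod_cast c, map_intCast]
    exact intCast_mem _ _

include L

theorem lead (x : C) (hx : x ∈ Finf T) (h : x ≠ 0) :
    ∃ n : ℤ, ‖x - T ^ n‖ < ‖T‖ ^ n ∧ ‖x‖ = ‖T‖ ^ n := by
  obtain ⟨n, hn⟩ := L.lead x hx h
  exact ⟨n, hn, norm_zpow T n ▸ neq ((norm_zpow T n).symm ▸ hn)⟩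

include hT

theorem gap {x : C} (hx : x ∈ Finf T) {j : ℤ} (h : ‖x‖ < ‖T‖ ^ j) : ‖x‖ ≤ ‖T‖ ^ (j - 1) := by
  rcases eq_or_ne x 0 with rfl | h0
  · rw [norm_zero]; positivity
  obtain ⟨n, -, hn⟩ := lead L x hx h0
  rw [hn, zpow_lt_zpow_iff_right₀ hT] at h
  rw [hn]
  exact zpow_le_zpow_right₀ hT.le (by omega)

theorem sublt {x y : C} (hx : x ∈ Finf T) (hy : y ∈ Finf T) (h0 : x ≠ 0) (h : ‖x‖ = ‖y‖) :
    ‖x - y‖ < ‖x‖ := by
  obtain ⟨n, h1, hn⟩ := lead L x hx h0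
  obtain ⟨m, h2, hm⟩ := lead L y hy (norm_ne_zero_iff.1 (h ▸ norm_ne_zero_iff.2 h0))
  obtain rfl : n = m := zpow_right_injective₀ (by positivity) hT.ne' (hn.symm.trans (h.trans hm))
  rw [← sub_sub_sub_cancel_right x y (T ^ n), hn]
  exact (subm _ _).trans_lt (max_lt h1 h2)

theorem step {x : C} (hx : x ∈ Finf T) {j : ℤ} (h : ‖x‖ ≤ ‖T‖ ^ j) :
    ‖x‖ < ‖T‖ ^ j ∨ ‖x - T ^ j‖ < ‖T‖ ^ j :=
  h.lt_or_eq.imp_right fun e : ‖x‖ = ‖T‖ ^ j => e ▸ sublt hT L hx (zpow_mem (memT T) j)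
    (norm_pos_iff.1 (by rw [e]; positivity)) (e.trans (norm_zpow T j).symm)

theorem gen (z : C) (hz : Gen z) (a : C) (ha : a ∈ Finf T) (b : C) (hb : b ∈ Finf T) :
    ‖a * z + b‖ = max ‖a‖ ‖b‖ := by
  have e : ‖a * z‖ = ‖a‖ := by rw [norm_mul, hz.1, mul_one]
  rcases ne_or_eq ‖a‖ ‖b‖ with h | h
  · rw [IsUltrametricDist.norm_add_eq_max_of_norm_ne_norm (e ▸ h), e]
  rcases eq_or_ne a 0 with rfl | h0
  · simp
  have e' : ‖a * (z - 1)‖ = ‖a‖ := by rw [norm_mul, hz.2, mul_one]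
  rw [← h, max_self, ← e']
  refine neq ?_
  rw [e', show a * z + b - a * (z - 1) = a - -b by ring]
  exact sublt hT L ha (neg_mem hb) h0 (h.trans (norm_neg b).symm)

theorem near (z : C) (hz : z ∉ Finf T) : ∃ y ∈ Finf T, ∀ x ∈ Finf T, ‖z - y‖ ≤ ‖z - x‖ := by
  obtain ⟨δ, hδ, hb⟩ := Metric.isOpen_iff.1
    (Subfield.isClosed_topologicalClosure (Subfield.closure {T})).isOpen_compl z hz
  obtain ⟨k, hk, -⟩ := exists_mem_Ico_zpow hδ hT
  obtain ⟨j, ⟨x0, hx0, h0⟩, hj⟩ := Int.exists_least_of_bdd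
    (P := fun j => ∃ x ∈ Finf T, ‖z - x‖ ≤ ‖T‖ ^ j)
    ⟨k, fun j ⟨x, hx, h⟩ => (zpow_le_zpow_iff_right₀ hT).1 (hk.trans (le_trans
      (not_lt.1 fun h' => hb (mem_ball_iff_norm'.2 h') hx) h))⟩ (by
      obtain ⟨n, hn⟩ := pow_unbounded_of_one_lt ‖z - 0‖ hT
      exact ⟨n, 0, zero_mem _, (zpow_natCast ‖T‖ n).symm ▸ hn.le⟩)
  by_contra hn
  push Not at hn
  obtain ⟨x1, hx1, h1⟩ := hn x0 hx0
  obtain ⟨x2, hx2, h2⟩ := hn x1 hx1
  have e : ‖x2 - x1‖ = ‖z - x1‖ := neq (by rwa [sub_sub_sub_cancel_right, norm_sub_rev])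
  have := hj (j - 1) ⟨x1, hx1, e ▸ gap hT L (sub_mem hx2 hx1) (e ▸ h1.trans_le h0)⟩
  omega

theorem exh (z : C) (hz : z ∉ Finf T) : ∃ n, z ∈ Om T n := by
  obtain ⟨y, hy, h⟩ := near hT L z hz
  have h0 : 0 < ‖z - y‖ := norm_pos_iff.2 (sub_ne_zero.2 fun e => hz (e ▸ hy))
  obtain ⟨n, hn⟩ := pow_unbounded_of_one_lt (max ‖z‖ (1 / ‖z - y‖)) hT
  refine ⟨n, (max_lt_iff.1 hn).1.le, fun x hx => ?_⟩
  exact ((div_lt_iff₀ h0).1 (max_lt_iff.1 hn).2).le.trans (by gcongr; exact h x hx)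

theorem vert (z : C) (hz : z ∉ Finf T) :
    ∃ y ∈ Finf T, ∃ j : ℤ, ∃ z' ∈ Om T 1, z = y + T ^ j * z' := by
  obtain ⟨y, hy, h⟩ := near hT L z hz
  have h0 : 0 < ‖z - y‖ := norm_pos_iff.2 (sub_ne_zero.2 fun e => hz (e ▸ hy))
  obtain ⟨j, h1, h2⟩ := exists_mem_Ico_zpow h0 hT
  have hq : 0 < ‖T‖ := by positivity
  have hT0 : T ^ j ≠ 0 := zpow_ne_zero _ (norm_pos_iff.1 hq)
  refine ⟨y, hy, j, (z - y) / T ^ j, ⟨?_, fun x hx => ?_⟩, by field_simp; ring⟩
  · rw [norm_div, norm_zpow, div_le_iff₀ (by positivity), pow_one, mul_comm,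
      ← zpow_add_one₀ hq.ne']
    exact h2.le
  · rw [show (z - y) / T ^ j - x = (z - (y + T ^ j * x)) / T ^ j by field_simp; ring, norm_div,
      norm_zpow, pow_one]
    exact one_le_mul_of_one_le_of_one_le hT.le ((one_le_div (by positivity)).2
      (h1.trans (h _ (add_mem hy (mul_mem (zpow_mem (memT T) j) hx)))))

theorem pp1 (j : ℕ) : ∀ y ∈ Finf T, ‖y‖ < ‖T‖ ^ (j : ℤ) → ∃ b : A, ‖y - aeval T b‖ < 1 := by
  induction j with
  | zero => exact fun y _ h => ⟨0, by simpa using h⟩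
  | succ j ih =>
    intro y hy h
    have := gap hT L hy h
    rw [Nat.cast_succ, add_sub_cancel_right] at this
    rcases step hT L hy this with h | h
    · exact ih y hy h
    · obtain ⟨b, hb⟩ := ih _ (sub_mem hy (zpow_mem (memT T) j)) h
      exact ⟨X ^ j + b, by rwa [map_add, map_pow, aeval_X, ← sub_sub, ← zpow_natCast]⟩

omit [IsUltrametricDist C] in
theorem one_le (b : A) (hb : b ≠ 0) : 1 ≤ ‖aeval T b‖ := (L.ev b hb).symm ▸ one_le_pow₀ hT.le

theorem ppart (x : C) (hx : x ∈ Finf T) (m : A) (hm : m ≠ 0) :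
    ∃ b : A, ‖x - aeval T (m * b)‖ < ‖aeval T m‖ := by
  have h0 : 0 < ‖aeval T m‖ := one_pos.trans_le (one_le hT L m hm)
  have h1 := norm_pos_iff.1 h0
  obtain ⟨j, hj⟩ := pow_unbounded_of_one_lt ‖x / aeval T m‖ hT
  obtain ⟨b, hb⟩ := pp1 hT L j _ (div_mem hx (memA T m)) ((zpow_natCast ‖T‖ j).symm ▸ hj)
  refine ⟨b, ?_⟩
  rw [show x - aeval T (m * b) = aeval T m * (x / aeval T m - aeval T b) by
    rw [map_mul]; field_simp, norm_mul]
  exact mul_lt_of_lt_one_right h0 hb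

omit [IsUltrametricDist C] in
theorem fin (R : ℝ) : {b : A | ‖aeval T b‖ ≤ R}.Finite := by
  obtain ⟨N, hN⟩ := pow_unbounded_of_one_lt R hT
  refine (finite_deg N).subset fun b hb => ?_
  rcases eq_or_ne b 0 with rfl | h
  · simp
  · exact ((pow_lt_pow_iff_right₀ hT).1 (((L.ev b h).ge.trans hb).trans_lt hN)).le

omit hT L in
theorem row : OfFY := by
  intro C _ _ _ _ _ _ T hT L
  exact
  { closed := Subfield.isClosed_topologicalClosure _
    memT := memT T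
    val := fun x hx h => (lead L.lt x hx h).imp fun _ h => h.2
    split := fun x hx j h => (step hT L.lt hx h).imp (gap hT L.lt hx)
      (gap hT L.lt (sub_mem hx (zpow_mem (memT T) j)))
    gen := gen hT L.lt
    gen_om := fun z hz => ⟨by rw [pow_zero, hz.1], fun x hx => by
      have := gen hT L.lt z hz 1 (one_mem _) (-x) (neg_mem hx)
      rw [one_mul, norm_one, ← sub_eq_add_neg] at this
      rw [pow_zero, one_mul, this]
      exact le_max_left _ _⟩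
    avoid := avoid
    near := near hT L.lt
    mono := fun n m h z hz => ⟨hz.1.trans (pow_le_pow_right₀ hT.le h), fun x hx =>
      (hz.2 x hx).trans (mul_le_mul_of_nonneg_right (pow_le_pow_right₀ hT.le h) (norm_nonneg _))⟩
    notin := fun n z hz h => by simpa [not_le.2 one_pos] using hz.2 z h
    exh := exh hT L.lt
    stab := stab hT
    omclosed := omclosed hT
    omopen := omopen hT
    out := fun n a ha => (lt_or_ge (‖T‖ ^ n) ‖a‖).imp_right fun h => by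
      have h1 : 1 ≤ ‖T‖ ^ n := one_le_pow₀ hT.le
      have : ¬ ∀ x ∈ Finf T, 1 ≤ ‖T‖ ^ n * ‖a - x‖ := fun h' => ha ⟨h, h'⟩
      push Not at this
      obtain ⟨x, hx, h2⟩ := this
      refine ⟨x, hx, ?_, h2⟩
      rw [← sub_sub_cancel a x]
      exact (subm _ _).trans (max_le h
        (((le_mul_of_one_le_left (norm_nonneg _) h1).trans h2.le).trans h1))
    lin := lin hT
    ppart := ppart hT L.lt
    fin := fin hT L.lt
    one_le := one_le hT L.lt
    vert := vert hT L.lt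
    punct := punct hT
    eqoff := fun n f g s hf hg h z hz => by
      have hn := (omopen hT n).mem_nhds hz
      refine tendsto_nhds_unique_of_eventuallyEq (l := 𝓝[≠] z)
        ((hf.continuousAt hn).mono_left nhdsWithin_le_nhds)
        ((hg.continuousAt hn).mono_left nhdsWithin_le_nhds) ?_
      filter_upwards [punct hT n z hz s] with w hw using h w hw.1 hw.2 }

end Pool.Agent.MP_a88b1d_nt.RFY
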