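import Pool.Agent.MP_a88b1d_nt.H93.Spec3
import Pool.Agent.MP_a88b1d_nt.H50.Tree

/-! Row MOBN: size estimates for Moebius transformations on the affinoids. -/

open Polynomial OnePoint Filter Topology

noncomputable section

namespace Pool.Agent.MP_a88b1d_nt.RMOBN

open Pool.Agent.MP_a88b1d_nt.St2 Pool.Agent.MP_a88b1d_nt.P2
open Pool.Agent.MP_a88b1d_nt.H42 (A M2 MK nrm QQ den)
open Pool.Agent.MP_a88b1d_nt.H50 (sub_le norm_sub_left le_nrm nrm_nonneg det_le)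

variable {C : Type} [NontriviallyNormedField C] [IsUltrametricDist C]

theorem lin_le (a b z : C) {Q : ℝ} (hQ : 1 ≤ Q) (hz : ‖z‖ ≤ Q) :
    ‖a * z + b‖ ≤ max ‖a‖ ‖b‖ * Q := by
  have h0 : 0 ≤ max ‖a‖ ‖b‖ := (norm_nonneg a).trans (le_max_left _ _)
  refine (IsUltrametricDist.norm_add_le_max _ _).trans (max_le ?_ ?_)
  · rw [norm_mul]
    exact mul_le_mul (le_max_left _ _) hz (norm_nonneg _) h0
  · exact (le_max_right _ _).trans (le_mul_of_one_le_right h0 hQ)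

theorem cross_le (a b c d : C) : ‖a * d - b * c‖ ≤ max ‖a‖ ‖b‖ * max ‖c‖ ‖d‖ := by
  have h0 : 0 ≤ max ‖a‖ ‖b‖ := (norm_nonneg a).trans (le_max_left _ _)
  refine (sub_le _ _).trans (max_le ?_ ?_) <;> rw [norm_mul]
  · exact mul_le_mul (le_max_left _ _) (le_max_right _ _) (norm_nonneg _) h0
  · exact mul_le_mul (le_max_right _ _) (le_max_left _ _) (norm_nonneg _) h0

variable [Algebra (ZMod 2) C]

theorem maps {T : C} (hT : 1 < ‖T‖) (hM : MB T) (F : FY T) (h : MK T) (n R : ℕ)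
    (hR : nrm h.1 ^ 2 ≤ ‖T‖ ^ R * ‖h.1.det‖) (z : C) (hz : z ∈ Om T n) :
    mob h.1 z ∈ Om T (3 * n + R) := by
  have hq : (0 : ℝ) < ‖T‖ := by linarith
  have hQ : (1 : ℝ) ≤ ‖T‖ ^ n := one_le_pow₀ hT.le
  have hQ0 : (0 : ℝ) < ‖T‖ ^ n := by positivity
  have hP0 : (0 : ℝ) < ‖T‖ ^ R := by positivity
  have hden : h.1 1 0 * z + h.1 1 1 ≠ 0 := hM.den_ne h z (F.notin n z hz)
  have hd0 : 0 < ‖h.1 1 0 * z + h.1 1 1‖ := norm_pos_iff.2 hden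
  have hD0 : 0 < ‖h.1.det‖ := norm_pos_iff.2 h.2.2
  have e2 : ‖T‖ ^ (2 * n) = ‖T‖ ^ n * ‖T‖ ^ n := by ring
  have e3 : ‖T‖ ^ (3 * n + R) = ‖T‖ ^ n * ‖T‖ ^ n * ‖T‖ ^ n * ‖T‖ ^ R := by ring
  set Q := ‖T‖ ^ n with hQd
  set P := ‖T‖ ^ R with hPd
  set m := max ‖h.1 1 0‖ ‖h.1 1 1‖ with hm
  have hm0 : 0 ≤ m := (norm_nonneg _).trans (le_max_left _ _)
  have hmN : m ≤ nrm h.1 := le_max_right _ _
  have huN : max ‖h.1 0 0‖ ‖h.1 0 1‖ ≤ nrm h.1 := le_max_left _ _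
  have hN0 : 0 ≤ nrm h.1 := nrm_nonneg _
  have hlow : m ≤ Q * Q * ‖h.1 1 0 * z + h.1 1 1‖ := by
    rw [← e2]; exact F.lin n z hz _ (h.2.1 1 0) _ (h.2.1 1 1)
  have hup : ‖h.1 1 0 * z + h.1 1 1‖ ≤ m * Q := lin_le _ _ _ hQ hz.1
  have hDle : ‖h.1.det‖ ≤ nrm h.1 * m := by
    rw [Matrix.det_fin_two]
    exact (cross_le _ _ _ _).trans (mul_le_mul_of_nonneg_right huN hm0)
  have hNpos : 0 < nrm h.1 := by
    rcases hN0.eq_or_lt with e | e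
    · rw [← e, zero_mul] at hDle; linarith
    · exact e
  have hNm : nrm h.1 ≤ P * m := by
    have : nrm h.1 * nrm h.1 ≤ nrm h.1 * (P * m) := by
      calc nrm h.1 * nrm h.1 = nrm h.1 ^ 2 := by ring
        _ ≤ P * ‖h.1.det‖ := hR
        _ ≤ P * (nrm h.1 * m) := mul_le_mul_of_nonneg_left hDle hP0.le
        _ = nrm h.1 * (P * m) := by ring
    exact le_of_mul_le_mul_left this hNpos
  refine ⟨?_, fun x hx => ?_⟩
  · rw [mob, norm_div, div_le_iff₀ hd0, e3]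
    calc ‖h.1 0 0 * z + h.1 0 1‖ ≤ max ‖h.1 0 0‖ ‖h.1 0 1‖ * Q := lin_le _ _ _ hQ hz.1
      _ ≤ P * m * Q := mul_le_mul_of_nonneg_right (huN.trans hNm) hQ0.le
      _ ≤ P * (Q * Q * ‖h.1 1 0 * z + h.1 1 1‖) * Q := by gcongr
      _ = Q * Q * Q * P * ‖h.1 1 0 * z + h.1 1 1‖ := by ring
  · have e : mob h.1 z - x =
        ((h.1 0 0 - x * h.1 1 0) * z + (h.1 0 1 - x * h.1 1 1)) / (h.1 1 0 * z + h.1 1 1) := by
      rw [mob, eq_div_iff hden, sub_mul, div_mul_cancel₀ _ hden]; ring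
    have h1 := F.lin n z hz _ (sub_mem (h.2.1 0 0) (mul_mem hx (h.2.1 1 0))) _
      (sub_mem (h.2.1 0 1) (mul_mem hx (h.2.1 1 1)))
    rw [e2] at h1
    have h2 : ‖h.1.det‖ ≤ max ‖h.1 0 0 - x * h.1 1 0‖ ‖h.1 0 1 - x * h.1 1 1‖ * m := by
      have : h.1.det = (h.1 0 0 - x * h.1 1 0) * h.1 1 1 - (h.1 0 1 - x * h.1 1 1) * h.1 1 0 := by
        rw [Matrix.det_fin_two]; ring
      rw [this]; exact cross_le _ _ _ _
    set u := ‖(h.1 0 0 - x * h.1 1 0) * z + (h.1 0 1 - x * h.1 1 1)‖ with hu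
    have hu0 : 0 ≤ u := norm_nonneg _
    have hmpos : 0 < m := by
      rcases hm0.eq_or_lt with e | e
      · rw [← e, mul_zero] at hDle; linarith
      · exact e
    have h3 : m * m ≤ m * (P * (Q * Q * u)) := by
      calc m * m ≤ nrm h.1 * nrm h.1 := mul_le_mul hmN hmN hm0 hN0
        _ = nrm h.1 ^ 2 := by ring
        _ ≤ P * ‖h.1.det‖ := hR
        _ ≤ P * ((Q * Q * u) * m) :=
          mul_le_mul_of_nonneg_left (h2.trans (mul_le_mul_of_nonneg_right h1 hm0)) hP0.le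
        _ = m * (P * (Q * Q * u)) := by ring
    have h4 : m ≤ P * (Q * Q * u) := le_of_mul_le_mul_left h3 hmpos
    rw [e, norm_div, e3, ← mul_div_assoc, le_div_iff₀ hd0, one_mul]
    calc ‖h.1 1 0 * z + h.1 1 1‖ ≤ m * Q := hup
      _ ≤ P * (Q * Q * u) * Q := mul_le_mul_of_nonneg_right h4 hQ0.le
      _ = Q * Q * Q * P * u := by ring

theorem im {T : C} (hM : MB T) (F : FY T) (g : MK T) (n : ℕ) (hg : g.1.det = 1) (w : C)
    (hw : w ∈ Om T n) : ∃ y ∈ Finf T, ‖mob g.1 w - y‖ * ‖den g.1 w‖ ^ 2 ≤ ‖T‖ ^ n := by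
  have hwF := F.notin n w hw
  have hden : g.1 1 0 * w + g.1 1 1 ≠ 0 := hM.den_ne g w hwF
  have hd0 : 0 < ‖g.1 1 0 * w + g.1 1 1‖ := norm_pos_iff.2 hden
  have hdet : g.1 0 0 * g.1 1 1 - g.1 0 1 * g.1 1 0 = 1 := by rw [← Matrix.det_fin_two]; exact hg
  have hle := IsUltrametricDist.norm_add_le_max (g.1 1 0 * w) (g.1 1 1)
  have hdd : den g.1 w = g.1 1 0 * w + g.1 1 1 := rfl
  rcases le_total ‖g.1 1 0 * w‖ ‖g.1 1 1‖ with hc | hc
  · rw [max_eq_right hc] at hle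
    have hd : 0 < ‖g.1 1 1‖ := hd0.trans_le hle
    have hd' : g.1 1 1 ≠ 0 := norm_pos_iff.1 hd
    refine ⟨g.1 0 1 / g.1 1 1, div_mem (g.2.1 0 1) (g.2.1 1 1), ?_⟩
    have e : mob g.1 w - g.1 0 1 / g.1 1 1 = w / (g.1 1 1 * (g.1 1 0 * w + g.1 1 1)) := by
      rw [mob, div_sub_div _ _ hden hd', mul_comm (g.1 1 1)]
      congr 1
      linear_combination w * hdet
    rw [e, hdd, norm_div, norm_mul]
    have e' : ‖w‖ / (‖g.1 1 1‖ * ‖g.1 1 0 * w + g.1 1 1‖) * ‖g.1 1 0 * w + g.1 1 1‖ ^ 2 =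
        ‖w‖ * (‖g.1 1 0 * w + g.1 1 1‖ / ‖g.1 1 1‖) := by field_simp
    rw [e']
    exact (mul_le_of_le_one_right (norm_nonneg _) ((div_le_one hd).2 hle)).trans hw.1
  · rw [max_eq_left hc, norm_mul] at hle
    have hc0 : g.1 1 0 ≠ 0 := by
      intro e
      have : ‖g.1 1 0‖ * ‖w‖ = 0 := by rw [e, norm_zero, zero_mul]
      linarith
    have hc1 : 0 < ‖g.1 1 0‖ := norm_pos_iff.2 hc0
    refine ⟨g.1 0 0 / g.1 1 0, div_mem (g.2.1 0 0) (g.2.1 1 0), ?_⟩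
    have e : mob g.1 w - g.1 0 0 / g.1 1 0 = -1 / (g.1 1 0 * (g.1 1 0 * w + g.1 1 1)) := by
      rw [mob, div_sub_div _ _ hden hc0, mul_comm (g.1 1 0) (g.1 1 0 * w + g.1 1 1)]
      congr 1
      linear_combination -hdet
    rw [e, hdd, norm_div, norm_mul, norm_neg, norm_one]
    have e' : 1 / (‖g.1 1 0‖ * ‖g.1 1 0 * w + g.1 1 1‖) * ‖g.1 1 0 * w + g.1 1 1‖ ^ 2 =
        ‖g.1 1 0 * w + g.1 1 1‖ / ‖g.1 1 0‖ := by field_simp
    rw [e', div_le_iff₀ hc1]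
    calc ‖g.1 1 0 * w + g.1 1 1‖ ≤ ‖g.1 1 0‖ * ‖w‖ := hle
      _ ≤ ‖g.1 1 0‖ * ‖T‖ ^ n := mul_le_mul_of_nonneg_left hw.1 hc1.le
      _ = ‖T‖ ^ n * ‖g.1 1 0‖ := by ring

theorem ql {T : C} (hT : 1 < ‖T‖) (hM : MB T) (F : FY T) (g : MK T) (n : ℕ) (hg : g.1.det = 1)
    (hN : ‖T‖ ^ (4 * n) < nrm g.1) (z : C) (hz : z ∈ Om T n) (w : C) (hw : w ∈ Om T n) :
    nrm g.1 ≤ ‖T‖ ^ (4 * n) * ‖QQ g.1 z w‖ := by
  have hq : (0 : ℝ) < ‖T‖ := by linarith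
  have hQ : (1 : ℝ) ≤ ‖T‖ ^ n := one_le_pow₀ hT.le
  have hQ0 : (0 : ℝ) < ‖T‖ ^ n := by positivity
  have hwF := F.notin n w hw
  have e2 : ‖T‖ ^ (2 * n) = ‖T‖ ^ n * ‖T‖ ^ n := by ring
  have e4 : ‖T‖ ^ (4 * n) = ‖T‖ ^ n * ‖T‖ ^ n * ‖T‖ ^ n * ‖T‖ ^ n := by ring
  have h1 := F.lin n w hw _ (g.2.1 0 0) _ (g.2.1 0 1)
  have h2 := F.lin n w hw _ (g.2.1 1 0) _ (g.2.1 1 1)
  have hz0 : 1 ≤ ‖T‖ ^ n * ‖z‖ := by simpa using hz.2 0 (zero_mem _)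
  have hz1 := hz.1
  obtain ⟨y, hy, hy'⟩ := im hM F g n hg w hw
  have hzy := hz.2 y hy
  have hqq := hM.qq g z w hwF
  have hdd : den g.1 w = g.1 1 0 * w + g.1 1 1 := rfl
  have hQd : QQ g.1 z w = z * (g.1 1 0 * w + g.1 1 1) - (g.1 0 0 * w + g.1 0 1) := rfl
  rw [hdd] at hy' hqq
  rw [e2] at h1 h2
  rw [e4] at hN ⊢
  set Q := ‖T‖ ^ n with hQdef
  set u := g.1 0 0 * w + g.1 0 1 with hu
  set v := g.1 1 0 * w + g.1 1 1 with hv
  have hu0 := norm_nonneg u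
  have hv0 := norm_nonneg v
  rcases lt_or_ge ‖z * v‖ ‖u‖ with hc | hc
  · have e : ‖QQ g.1 z w‖ = ‖u‖ := by rw [hQd, norm_sub_rev]; exact norm_sub_left hc
    rw [e]
    rw [norm_mul] at hc
    have hvu : ‖v‖ ≤ Q * ‖u‖ := by
      calc ‖v‖ ≤ Q * ‖z‖ * ‖v‖ := le_mul_of_one_le_left hv0 hz0
        _ = Q * (‖z‖ * ‖v‖) := by ring
        _ ≤ Q * ‖u‖ := mul_le_mul_of_nonneg_left hc.le hQ0.le
    have a1 : Q * Q * ‖u‖ ≤ Q * Q * Q * ‖u‖ := by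
      have : Q * Q ≤ Q * Q * Q := le_mul_of_one_le_right (by positivity) hQ
      exact mul_le_mul_of_nonneg_right this hu0
    have a2 : Q * Q * Q * ‖u‖ ≤ Q * Q * Q * Q * ‖u‖ := by
      have : Q * Q * Q ≤ Q * Q * Q * Q := le_mul_of_one_le_right (by positivity) hQ
      exact mul_le_mul_of_nonneg_right this hu0
    refine max_le (h1.trans (a1.trans a2)) (h2.trans (le_trans ?_ a2))
    calc Q * Q * ‖v‖ ≤ Q * Q * (Q * ‖u‖) := by gcongr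
      _ = Q * Q * Q * ‖u‖ := by ring
  · rw [norm_mul] at hc
    have huv : ‖u‖ ≤ Q * ‖v‖ := hc.trans (mul_le_mul_of_nonneg_right hz1 hv0)
    have hNv : nrm g.1 ≤ Q * Q * Q * ‖v‖ := by
      refine max_le (h1.trans ?_) (h2.trans ?_)
      · calc Q * Q * ‖u‖ ≤ Q * Q * (Q * ‖v‖) := by gcongr
          _ = Q * Q * Q * ‖v‖ := by ring
      · have : Q * Q ≤ Q * Q * Q := le_mul_of_one_le_right (by positivity) hQ
        exact mul_le_mul_of_nonneg_right this hv0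
    have hQv : Q < ‖v‖ := lt_of_mul_lt_mul_left (hN.trans_le hNv) (by positivity)
    have hlt : ‖mob g.1 w - y‖ < ‖z - y‖ := by
      by_contra hn
      push Not at hn
      have b1 : Q * Q < ‖v‖ ^ 2 := by nlinarith
      have b2 : 0 < ‖z - y‖ := by
        rcases (norm_nonneg (z - y)).eq_or_lt with e | e
        · rw [← e, mul_zero] at hzy; linarith
        · exact e
      have b3 : ‖z - y‖ * (Q * Q) < ‖mob g.1 w - y‖ * ‖v‖ ^ 2 :=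
        mul_lt_mul' hn b1 (by positivity) (b2.trans_le hn)
      have b4 : Q ≤ ‖z - y‖ * (Q * Q) := by nlinarith
      linarith
    have e : ‖z - mob g.1 w‖ = ‖z - y‖ := by
      have : z - mob g.1 w = (z - y) - (mob g.1 w - y) := by ring
      rw [this]; exact norm_sub_left hlt
    rw [hqq, norm_mul, e]
    calc nrm g.1 ≤ Q * Q * Q * ‖v‖ := hNv
      _ ≤ Q * Q * Q * ‖v‖ * (Q * ‖z - y‖) := le_mul_of_one_le_right (by positivity) hzy
      _ = Q * Q * Q * Q * (‖v‖ * ‖z - y‖) := by ring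

omit [IsUltrametricDist C] in
theorem tend {T : C} (hM : MB T) (F : FY T) (g : MK T) (z : C) (hz : z ∉ Finf T) :
    Tendsto (mob g.1) (𝓝[≠] z) (𝓝[≠] (mob g.1 z)) := by
  have hden : g.1 1 0 * z + g.1 1 1 ≠ 0 := hM.den_ne g z hz
  have hc : ContinuousAt (mob g.1) z := by
    have : mob g.1 = fun w => (g.1 0 0 * w + g.1 0 1) / (g.1 1 0 * w + g.1 1 1) := rfl
    rw [this]
    exact ContinuousAt.div (by fun_prop) (by fun_prop) hden
  refine tendsto_nhdsWithin_iff.2 ⟨hc.tendsto.mono_left nhdsWithin_le_nhds, ?_⟩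
  have h1 : ∀ᶠ w in 𝓝 z, w ∉ Finf T := F.closed.isOpen_compl.mem_nhds hz
  filter_upwards [h1.filter_mono nhdsWithin_le_nhds, self_mem_nhdsWithin] with w hw hne
  exact fun e => hne (hM.inj g w hw z hz e)

omit [IsUltrametricDist C] [Algebra (ZMod 2) C] in
theorem invmem {T : C} (g : GL (Fin 2) C) (hg : ∀ i j, g.1 i j ∈ Finf T) (i j : Fin 2) :
    (g⁻¹).1 i j ∈ Finf T := by
  have hd : g.1.det ∈ Finf T := by
    rw [Matrix.det_fin_two]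
    exact sub_mem (mul_mem (hg 0 0) (hg 1 1)) (mul_mem (hg 0 1) (hg 1 0))
  have ha : g.1.adjugate i j ∈ Finf T := by
    rw [Matrix.adjugate_fin_two]
    fin_cases i <;> fin_cases j <;> simp [hg]
  rw [Matrix.coe_units_inv, Matrix.inv_def, Ring.inverse_eq_inv', Matrix.smul_apply, smul_eq_mul]
  exact mul_mem (inv_mem hd) ha

omit [IsUltrametricDist C] in
theorem smul [DecidableEq C] {T : C} (hM : MB T) (g : GL (Fin 2) C)
    (hg : ∀ i j, g.1 i j ∈ Finf T) (z : C) (hz : z ∉ Finf T) :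
    g • (z : OnePoint C) = ((mob g.1 z : C) : OnePoint C) := by
  have hden : g.1 1 0 * z + g.1 1 1 ≠ 0 := hM.den_ne (glMK T g hg) z hz
  rw [OnePoint.smul_some_eq_ite, if_neg hden]
  rfl

theorem row : OfMOBN := by
  intro C _ _ _ _ _ _ T hT L F
  refine ⟨maps hT L.mb F, fun h n => ?_, ql hT L.mb F, im L.mb F, fun g hg => ?_, tend L.mb F,
    smul L.mb, fun g hg x z hz e => ?_, invmem, fun σ hσ g hg => ⟨fun z => ?_, fun x => ?_⟩⟩
  · have hD0 : 0 < ‖h.1.det‖ := norm_pos_iff.2 h.2.2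
    obtain ⟨R, hR⟩ := pow_unbounded_of_one_lt (nrm h.1 ^ 2 / ‖h.1.det‖) hT
    exact ⟨3 * n + R, maps hT L.mb F h n R ((div_lt_iff₀ hD0).1 hR).le⟩
  · have h1 := det_le g
    rw [hg, norm_one] at h1
    have h0 := nrm_nonneg g
    nlinarith
  · refine ⟨mob (g⁻¹).1 z, L.mb.om (glMK T g⁻¹ (invmem g hg)) z hz, ?_⟩
    rw [← smul L.mb g⁻¹ (invmem g hg) z hz, ← e, inv_smul_smul]
  · simp only [mob, map_div₀, map_add, map_mul, hσ.2 _ (hg _ _)]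
  · have h1 := OnePoint.map_smul σ.toRingHom g x
    have h2 : Matrix.GeneralLinearGroup.map σ.toRingHom g = g := by
      ext i j
      exact hσ.2 _ (hg i j)
    rw [h2] at h1
    exact h1

end Pool.Agent.MP_a88b1d_nt.RMOBN
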